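import Pool.Agent.Lib.MP_cd509c_nt.DC.Defs

/-!
# The entire Dirichlet series `DD`
-/

set_option autoImplicit false

namespace Pool.Agent.Lib.MP_cd509c_nt.DC

open Complex ComplexConjugate MeasureTheory Filter Topology
open Pool.Agent.Lib.MP_cd509c_nt.DN

/-- the terms of the series -/
noncomputable def dc_DDent_F (τ : ℝ) (m : ℕ) (s : ℂ) : ℂ :=
  tau m * (m : ℂ) ^ (-s) * cexp (-(τ * Real.log m ^ 2 : ℝ))

lemma dc_DDent_norm (τ : ℝ) (m : ℕ) (s : ℂ) :
    ‖dc_DDent_F τ m s‖ = ‖tau m‖ * (m : ℝ) ^ (-s.re) * Real.exp (-(τ * Real.log m ^ 2)) := by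
  rcases Nat.eq_zero_or_pos m with rfl | hm
  · simp [dc_DDent_F, tau_zero]
  · rw [dc_DDent_F, norm_mul, norm_mul, norm_natCast_cpow_of_pos hm, Complex.norm_exp]
    rw [neg_re, neg_re, ofReal_re]

lemma dc_DDent_zero (τ : ℝ) (s : ℂ) : dc_DDent_F τ 0 s = 0 := by
  simp [dc_DDent_F, tau_zero]

lemma dc_DDent_one (τ : ℝ) (s : ℂ) : dc_DDent_F τ 1 s = 1 := by
  simp [dc_DDent_F, tau_one]

/-- the bound for the terms -/
lemma dc_DDent_bound : ∃ C : ℝ, 0 < C ∧ ∀ τ : ℝ, 0 < τ → ∀ (m : ℕ) (σ : ℝ),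
    ‖tau m‖ * (m : ℝ) ^ (-σ) * Real.exp (-(τ * Real.log m ^ 2)) ≤
      C * Real.exp ((8 + |σ|) ^ 2 / (4 * τ)) * (1 / (m : ℝ) ^ 2) := by
  obtain ⟨C, hC, hb⟩ := tau_bound
  refine ⟨C, hC, fun τ hτ m σ => ?_⟩
  rcases Nat.eq_zero_or_pos m with rfl | hm
  · simp [tau_zero]
  · have hm0 : (0 : ℝ) < m := by exact_mod_cast hm
    have hL : 0 ≤ Real.log m := Real.log_natCast_nonneg m
    set L := Real.log m with hLdef
    have hmL : (m : ℝ) = Real.exp L := (Real.exp_log hm0).symm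
    have e1 : (m : ℝ) ^ 6 = Real.exp (6 * L) := by
      rw [hmL, ← Real.exp_nat_mul]; norm_num
    have e2 : (m : ℝ) ^ (-σ) = Real.exp (-σ * L) := by
      rw [Real.rpow_def_of_pos hm0, ← hLdef]; ring_nf
    have e3 : 1 / (m : ℝ) ^ 2 = Real.exp (-(2 * L)) := by
      rw [hmL, ← Real.exp_nat_mul, Real.exp_neg, one_div]; norm_num
    rw [e2, e3]
    have h1 : ‖tau m‖ ≤ C * Real.exp (6 * L) := by rw [← e1]; exact hb m hm
    have h2 : 6 * L + -σ * L + -(τ * L ^ 2) ≤ (8 + |σ|) ^ 2 / (4 * τ) + -(2 * L) := by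
      have h3 : (8 + |σ|) * L - τ * L ^ 2 ≤ (8 + |σ|) ^ 2 / (4 * τ) := by
        rw [le_div_iff₀ (by positivity)]
        nlinarith [sq_nonneg ((8 + |σ|) - 2 * τ * L)]
      have h4 : -σ * L ≤ |σ| * L := mul_le_mul_of_nonneg_right (neg_le_abs σ) hL
      linarith
    calc ‖tau m‖ * Real.exp (-σ * L) * Real.exp (-(τ * L ^ 2))
        ≤ C * Real.exp (6 * L) * Real.exp (-σ * L) * Real.exp (-(τ * L ^ 2)) := by gcongr
      _ = C * Real.exp (6 * L + -σ * L + -(τ * L ^ 2)) := by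
          rw [Real.exp_add, Real.exp_add]; ring
      _ ≤ C * Real.exp ((8 + |σ|) ^ 2 / (4 * τ) + -(2 * L)) := by
          gcongr
      _ = _ := by rw [Real.exp_add]; ring

lemma dc_DDent_sq : Summable fun m : ℕ => 1 / (m : ℝ) ^ 2 :=
  Real.summable_one_div_nat_pow.mpr (by norm_num)

lemma dc_DDent_summable (τ : ℝ) (hτ : 0 < τ) (σ : ℝ) :
    Summable fun m : ℕ => ‖tau m‖ * (m : ℝ) ^ (-σ) * Real.exp (-(τ * Real.log m ^ 2)) := by
  obtain ⟨C, hC, hb⟩ := dc_DDent_bound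
  exact Summable.of_nonneg_of_le (fun m => by positivity) (fun m => hb τ hτ m σ)
    (dc_DDent_sq.mul_left _)

lemma dc_DDent_sumF (τ : ℝ) (hτ : 0 < τ) (s : ℂ) : Summable fun m : ℕ => dc_DDent_F τ m s := by
  apply Summable.of_norm
  simp_rw [dc_DDent_norm]
  exact dc_DDent_summable τ hτ s.re

/-- the tails -/
lemma dc_DDent_tail : ∃ K : ℝ, 0 < K ∧ ∀ τ : ℝ, 0 < τ → ∀ M : ℕ, 1 ≤ M → ∀ (s : ℂ) (n : ℕ),
    8 + (n : ℝ) ≤ s.re → ‖∑' m : ℕ, dc_DDent_F τ (m + M) s‖ ≤ K * (1 / (M : ℝ)) ^ n := by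
  obtain ⟨C, hC, hb⟩ := tau_bound
  set Z := ∑' m : ℕ, 1 / (m : ℝ) ^ 2 with hZ
  have hZ0 : 0 ≤ Z := tsum_nonneg fun n => by positivity
  refine ⟨C * Z + 1, by positivity, fun τ hτ M hM s n hs => ?_⟩
  have hM0 : (0 : ℝ) < M := by exact_mod_cast hM
  have hsM : Summable fun m : ℕ => 1 / ((m + M : ℕ) : ℝ) ^ 2 :=
    (summable_nat_add_iff (f := fun m : ℕ => 1 / (m : ℝ) ^ 2) M).mpr dc_DDent_sq
  have hZM : ∑' m : ℕ, 1 / ((m + M : ℕ) : ℝ) ^ 2 ≤ Z := by
    rw [hZ, ← dc_DDent_sq.sum_add_tsum_nat_add M]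
    have : 0 ≤ ∑ i ∈ Finset.range M, 1 / (i : ℝ) ^ 2 := Finset.sum_nonneg fun i _ => by positivity
    linarith
  have hbd : ∀ m : ℕ, ‖dc_DDent_F τ (m + M) s‖ ≤
      C * (1 / (M : ℝ)) ^ n * (1 / ((m + M : ℕ) : ℝ) ^ 2) := by
    intro m
    have hp : 0 < m + M := by omega
    have hp0 : (0 : ℝ) < ((m + M : ℕ) : ℝ) := by exact_mod_cast hp
    have hp1 : (1 : ℝ) ≤ ((m + M : ℕ) : ℝ) := by exact_mod_cast hp
    rw [dc_DDent_norm]
    have h0 : ((m + M : ℕ) : ℝ) ^ (-s.re) ≤ ((m + M : ℕ) : ℝ) ^ (-(8 + (n : ℝ))) :=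
      Real.rpow_le_rpow_of_exponent_le hp1 (by linarith)
    have h1 := hb (m + M) hp
    have h2 : Real.exp (-(τ * Real.log ((m + M : ℕ) : ℝ) ^ 2)) ≤ 1 := by
      rw [Real.exp_le_one_iff]
      have : 0 ≤ τ * Real.log ((m + M : ℕ) : ℝ) ^ 2 := by positivity
      linarith
    have h3 : ((m + M : ℕ) : ℝ) ^ (-(8 + (n : ℝ))) =
        (1 / ((m + M : ℕ) : ℝ)) ^ n * (1 / ((m + M : ℕ) : ℝ) ^ 8) := by
      rw [Real.rpow_neg hp0.le, Real.rpow_add hp0, Real.rpow_natCast]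
      rw [show (8 : ℝ) = ((8 : ℕ) : ℝ) by norm_num, Real.rpow_natCast, one_div_pow]
      field_simp
    have h4 : (1 / ((m + M : ℕ) : ℝ)) ^ n ≤ (1 / (M : ℝ)) ^ n := by
      apply pow_le_pow_left₀ (by positivity)
      apply one_div_le_one_div_of_le hM0
      push_cast
      have : (0 : ℝ) ≤ m := Nat.cast_nonneg m
      linarith
    rw [h3] at h0
    calc ‖tau (m + M)‖ * ((m + M : ℕ) : ℝ) ^ (-s.re) *
          Real.exp (-(τ * Real.log ((m + M : ℕ) : ℝ) ^ 2))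
        ≤ ‖tau (m + M)‖ * ((1 / ((m + M : ℕ) : ℝ)) ^ n * (1 / ((m + M : ℕ) : ℝ) ^ 8)) *
          Real.exp (-(τ * Real.log ((m + M : ℕ) : ℝ) ^ 2)) := by gcongr
      _ ≤ C * ((m + M : ℕ) : ℝ) ^ 6 * ((1 / (M : ℝ)) ^ n * (1 / ((m + M : ℕ) : ℝ) ^ 8)) * 1 := by
          gcongr
      _ = _ := by
          field_simp
  have h5 := tsum_of_norm_bounded (hsM.hasSum.mul_left (C * (1 / (M : ℝ)) ^ n)) hbd
  refine h5.trans ?_
  have h6 : (0 : ℝ) ≤ (1 / (M : ℝ)) ^ n := by positivity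
  have h7 : C * (1 / (M : ℝ)) ^ n * ∑' m : ℕ, 1 / ((m + M : ℕ) : ℝ) ^ 2 ≤
      C * (1 / (M : ℝ)) ^ n * Z := by gcongr
  nlinarith

/-- some coefficient beyond the first one is not zero -/
lemma dc_DDent_coeff : ∃ m : ℕ, 2 ≤ m ∧ tau m ≠ 0 := by
  by_contra hcon
  push Not at hcon
  have h0 : ∀ y : ℝ, 0 < y → Dr y = Real.exp (-2 * Real.pi * y) := by
    intro y hy
    have hw : 0 < (I * (y : ℂ)).im := I_mul_pos hy
    have h1 := Dc_hasSum hw
    have h2 : HasSum (fun m : ℕ => tau m * cexp (2 * Real.pi * Complex.I * (m * (I * (y : ℂ)))))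
        (tau 1 * cexp (2 * Real.pi * Complex.I * ((1 : ℕ) * (I * (y : ℂ))))) := by
      apply hasSum_single
      intro m hm
      rcases Nat.lt_or_ge m 2 with h | h
      · have : m = 0 := by omega
        rw [this, tau_zero, zero_mul]
      · rw [hcon m h, zero_mul]
    have h3 := h1.unique h2
    rw [tau_one, one_mul] at h3
    have h4 := Dr_eq hy
    rw [UpperHalfPlane.ofComplex_apply_of_im_pos hw, disc_eq] at h4
    have h5 : ((Dr y : ℝ) : ℂ) = ((Real.exp (-2 * Real.pi * y) : ℝ) : ℂ) := by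
      rw [h4]
      change Dc (I * (y : ℂ)) = _
      rw [h3, ofReal_exp]
      congr 1
      push_cast
      linear_combination (2 * (Real.pi : ℂ) * y) * I_sq
    exact_mod_cast h5
  have h1 := Dr_inv (y := 2) (by norm_num)
  rw [h0 _ (by norm_num), h0 _ (by norm_num)] at h1
  have h2 : Real.exp (3 * Real.pi) = 4096 := by
    have h3 : Real.exp (4 * Real.pi) * Real.exp (-2 * Real.pi * (1 / 2)) =
        Real.exp (4 * Real.pi) * (2 ^ 12 * Real.exp (-2 * Real.pi * 2)) := by rw [h1]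
    rw [← Real.exp_add] at h3
    have h4 : Real.exp (4 * Real.pi) * (2 ^ 12 * Real.exp (-2 * Real.pi * 2)) =
        2 ^ 12 * (Real.exp (4 * Real.pi) * Real.exp (-2 * Real.pi * 2)) := by ring
    rw [h4, ← Real.exp_add] at h3
    have h5 : 4 * Real.pi + -2 * Real.pi * (1 / 2) = 3 * Real.pi := by ring
    have h6 : 4 * Real.pi + -2 * Real.pi * 2 = 0 := by ring
    rw [h5, h6, Real.exp_zero] at h3
    rw [h3]; norm_num
  have h3 : Real.exp 9 ≤ Real.exp (3 * Real.pi) := by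
    apply Real.exp_le_exp.mpr
    linarith [Real.pi_gt_three]
  have h4 : (2.7 : ℝ) ^ 9 < Real.exp 9 := by
    have : Real.exp 9 = Real.exp 1 ^ 9 := by rw [← Real.exp_nat_mul]; norm_num
    rw [this]
    apply pow_lt_pow_left₀ _ (by norm_num) (by norm_num)
    have := Real.exp_one_gt_d9
    linarith
  norm_num at h4
  linarith

theorem p_DDent : S_DDent := by
  intro τ hτ
  refine ⟨fun σ => dc_DDent_summable τ hτ σ, ?_, ?_, ?_, ?_⟩
  · -- differentiable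
    intro z
    obtain ⟨C, hC, hb⟩ := dc_DDent_bound
    have hU : IsOpen (Metric.ball (0 : ℂ) (‖z‖ + 1)) := Metric.isOpen_ball
    have hz : z ∈ Metric.ball (0 : ℂ) (‖z‖ + 1) := by
      rw [mem_ball_zero_iff]; linarith
    have h := differentiableOn_tsum_of_summable_norm (F := fun (m : ℕ) (s : ℂ) => dc_DDent_F τ m s)
      (u := fun m : ℕ => C * Real.exp ((8 + (‖z‖ + 1)) ^ 2 / (4 * τ)) * (1 / (m : ℝ) ^ 2))
      (U := Metric.ball (0 : ℂ) (‖z‖ + 1)) (dc_DDent_sq.mul_left _) ?_ hU ?_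
    · exact h.differentiableAt (hU.mem_nhds hz)
    · intro m
      apply Differentiable.differentiableOn
      rcases Nat.eq_zero_or_pos m with rfl | hm
      · have : dc_DDent_F τ 0 = fun _ => 0 := funext fun s => dc_DDent_zero τ s
        rw [this]
        exact differentiable_const _
      · have hm0 : (m : ℂ) ≠ 0 := by exact_mod_cast hm.ne'
        unfold dc_DDent_F
        intro s
        apply DifferentiableAt.mul_const
        apply DifferentiableAt.const_mul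
        exact differentiableAt_id.neg.const_cpow (Or.inl hm0)
    · intro m w hw
      rw [mem_ball_zero_iff] at hw
      rw [dc_DDent_norm]
      refine (hb τ hτ m w.re).trans ?_
      have h1 : |w.re| ≤ ‖z‖ + 1 := (abs_re_le_norm w).trans hw.le
      gcongr
  · -- growth
    obtain ⟨C, hC, hb⟩ := dc_DDent_bound
    set Z := ∑' m : ℕ, 1 / (m : ℝ) ^ 2 with hZ
    have hZ0 : 0 ≤ Z := tsum_nonneg fun n => by positivity
    have hA : 0 ≤ C * Z * Real.exp (32 / τ) := by positivity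
    have hB : 0 ≤ 1 / (2 * τ) := by positivity
    refine ⟨C * Z * Real.exp (32 / τ) + 1 / (2 * τ), fun s => ?_⟩
    have h1 : ‖DD τ s‖ ≤ C * Real.exp ((8 + |s.re|) ^ 2 / (4 * τ)) * Z :=
      tsum_of_norm_bounded (dc_DDent_sq.hasSum.mul_left _) fun m => by
        have := dc_DDent_norm τ m s
        rw [dc_DDent_F] at this
        rw [this]
        exact hb τ hτ m s.re
    have h2 : (8 + |s.re|) ^ 2 / (4 * τ) ≤ 32 / τ + 1 / (2 * τ) * ‖s‖ ^ 2 := by
      have h3 : |s.re| ≤ ‖s‖ := abs_re_le_norm s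
      have h4 : (8 + |s.re|) ^ 2 ≤ 128 + 2 * ‖s‖ ^ 2 := by
        have : (8 + |s.re|) ^ 2 ≤ (8 + ‖s‖) ^ 2 := by
          apply pow_le_pow_left₀ (by positivity); linarith
        nlinarith [sq_nonneg (8 - ‖s‖)]
      have h5 : 32 / τ + 1 / (2 * τ) * ‖s‖ ^ 2 = (128 + 2 * ‖s‖ ^ 2) / (4 * τ) := by
        field_simp; ring
      rw [h5]
      gcongr
    calc ‖DD τ s‖ ≤ C * Real.exp ((8 + |s.re|) ^ 2 / (4 * τ)) * Z := h1
      _ ≤ C * Real.exp (32 / τ + 1 / (2 * τ) * ‖s‖ ^ 2) * Z := by gcongr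
      _ = (C * Z * Real.exp (32 / τ)) * Real.exp (1 / (2 * τ) * ‖s‖ ^ 2) := by
          rw [Real.exp_add]; ring
      _ ≤ (C * Z * Real.exp (32 / τ) + 1 / (2 * τ)) *
          Real.exp ((C * Z * Real.exp (32 / τ) + 1 / (2 * τ)) * ‖s‖ ^ 2) := by
          gcongr
          · linarith
          · linarith
  · -- limit
    intro ε hε
    obtain ⟨K, hK, hb⟩ := dc_DDent_tail
    obtain ⟨n, hn⟩ := exists_pow_lt_of_lt_one (show 0 < ε / K by positivity)
      (show (1 / ((2 : ℕ) : ℝ)) < 1 by norm_num)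
    refine ⟨8 + n, fun s hs => ?_⟩
    have h1 := hb τ hτ 2 (by norm_num) s n hs
    have h2 := (dc_DDent_sumF τ hτ s).sum_add_tsum_nat_add 2
    have h3 : DD τ s = ∑' m : ℕ, dc_DDent_F τ m s := rfl
    rw [h3, ← h2, Finset.sum_range_succ, Finset.sum_range_one, dc_DDent_zero, dc_DDent_one, zero_add,
      add_sub_cancel_left]
    refine h1.trans ?_
    rw [lt_div_iff₀ hK] at hn
    linarith
  · -- not constant
    by_contra hcon
    push Not at hcon
    obtain ⟨K, hK, hb⟩ := dc_DDent_tail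
    obtain ⟨m₀, ⟨hm2, hm0⟩, hmin⟩ : ∃ m₀ : ℕ, (2 ≤ m₀ ∧ tau m₀ ≠ 0) ∧
        ∀ m < m₀, ¬ (2 ≤ m ∧ tau m ≠ 0) := by
      classical
      exact ⟨Nat.find dc_DDent_coeff, Nat.find_spec dc_DDent_coeff,
        fun m hm => Nat.find_min dc_DDent_coeff hm⟩
    have hmr : (2 : ℝ) ≤ m₀ := by exact_mod_cast hm2
    have hmpos : (0 : ℝ) < m₀ := by linarith
    set q : ℝ := ‖tau m₀‖ * (1 / (m₀ : ℝ) ^ 8) * Real.exp (-(τ * Real.log m₀ ^ 2)) with hq
    have hq0 : 0 < q := by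
      have : 0 < ‖tau m₀‖ := norm_pos_iff.mpr hm0
      positivity
    have hx : (m₀ : ℝ) / (m₀ + 1 : ℕ) < 1 := by
      rw [div_lt_one (by positivity)]
      push_cast
      linarith
    obtain ⟨n, hn⟩ := exists_pow_lt_of_lt_one (show 0 < q / K by positivity) hx
    set s : ℂ := ((8 + n : ℝ) : ℂ) with hs
    have hsre : s.re = 8 + n := by rw [hs, ofReal_re]
    have h1 := hb τ hτ (m₀ + 1) (by omega) s n hsre.ge
    have h2 := (dc_DDent_sumF τ hτ s).sum_add_tsum_nat_add (m₀ + 1)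
    have h3 : DD τ s = ∑' m : ℕ, dc_DDent_F τ m s := rfl
    rw [← h3, hcon s, Finset.sum_range_succ] at h2
    have h4 : ∑ m ∈ Finset.range m₀, dc_DDent_F τ m s = 1 := by
      rw [← dc_DDent_one τ s]
      apply Finset.sum_eq_single_of_mem
      · rw [Finset.mem_range]; omega
      · intro m hm hm1
        rw [Finset.mem_range] at hm
        rcases Nat.lt_or_ge m 2 with h | h
        · have : m = 0 := by omega
          rw [this, dc_DDent_zero]
        · have h5 := hmin m hm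
          push Not at h5
          rw [dc_DDent_F, h5 h, zero_mul, zero_mul]
    rw [h4] at h2
    have h5 : dc_DDent_F τ m₀ s = -∑' m : ℕ, dc_DDent_F τ (m + (m₀ + 1)) s := by
      linear_combination h2
    have h6 : ‖dc_DDent_F τ m₀ s‖ ≤ K * (1 / ((m₀ + 1 : ℕ) : ℝ)) ^ n := by
      rw [h5, norm_neg]; exact h1
    rw [dc_DDent_norm, hsre] at h6
    have h7 : (m₀ : ℝ) ^ (-(8 + (n : ℝ))) = (1 / (m₀ : ℝ)) ^ n * (1 / (m₀ : ℝ) ^ 8) := by
      rw [Real.rpow_neg hmpos.le, Real.rpow_add hmpos, Real.rpow_natCast]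
      rw [show (8 : ℝ) = ((8 : ℕ) : ℝ) by norm_num, Real.rpow_natCast, one_div_pow]
      field_simp
    rw [h7] at h6
    have h8 : q * (1 / (m₀ : ℝ)) ^ n ≤ K * (1 / ((m₀ + 1 : ℕ) : ℝ)) ^ n := by
      rw [hq]; linarith
    have h9 : q ≤ K * ((m₀ : ℝ) / (m₀ + 1 : ℕ)) ^ n := by
      have e1 : q = q * (1 / (m₀ : ℝ)) ^ n * (m₀ : ℝ) ^ n := by
        rw [one_div_pow]; field_simp
      have e2 : K * ((m₀ : ℝ) / (m₀ + 1 : ℕ)) ^ n =
          K * (1 / ((m₀ + 1 : ℕ) : ℝ)) ^ n * (m₀ : ℝ) ^ n := by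
        rw [div_pow, one_div_pow]; ring
      rw [e1, e2]
      gcongr
    rw [lt_div_iff₀ hK] at hn
    linarith

end Pool.Agent.Lib.MP_cd509c_nt.DC
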