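import Pool.Agent.Lib.MP_cd509c_nt.DC.Defs

/-!
# MP_cd509c_nt, project P2, piece `DDzero` (helper18): the Dirichlet series `DD` has a zero
-/

set_option autoImplicit false

namespace Pool.Agent.Lib.MP_cd509c_nt.DC

open Complex ComplexConjugate MeasureTheory Filter Topology
open Pool.Agent.Lib.MP_cd509c_nt.DN

lemma dc_DDzero_bdd (A B C M : ℝ) (h : ∀ t : ℝ, 0 ≤ t → |A * t ^ 2 + B * t + C| ≤ M) :
    A = 0 ∧ B = 0 := by
  have hM : 0 ≤ M := (abs_nonneg _).trans (h 0 le_rfl)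
  have hA : A = 0 := by
    by_contra hA
    have hA' : 0 < |A| := abs_pos.mpr hA
    set t : ℝ := (|B| + |C| + M + 1) / |A| + 1 with ht
    have hs : 0 ≤ (|B| + |C| + M + 1) / |A| := by positivity
    have ht1 : 1 ≤ t := by linarith
    have h1 : |A| * t = |B| + |C| + M + 1 + |A| := by
      rw [ht]; field_simp
    have h2 : |A| * t ^ 2 = (|B| + |C| + M + 1 + |A|) * t := by
      rw [← h1]; ring
    have h3 := h t (by linarith)
    have h4 : |A * t ^ 2| ≤ |A * t ^ 2 + B * t + C| + |B * t| + |C| := by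
      have e : A * t ^ 2 = (A * t ^ 2 + B * t + C) + (-(B * t)) + (-C) := by ring
      calc |A * t ^ 2| = |(A * t ^ 2 + B * t + C) + (-(B * t)) + (-C)| := by rw [← e]
        _ ≤ |A * t ^ 2 + B * t + C| + |-(B * t)| + |-C| := abs_add_three _ _ _
        _ = _ := by rw [abs_neg, abs_neg]
    rw [abs_mul, abs_mul, abs_of_nonneg (by positivity : (0 : ℝ) ≤ t ^ 2),
      abs_of_nonneg (by linarith : (0 : ℝ) ≤ t), h2] at h4
    have h5 : 0 ≤ (|C| + M + 1 + |A|) * (t - 1) := by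
      apply mul_nonneg (by positivity) (by linarith)
    nlinarith
  refine ⟨hA, ?_⟩
  by_contra hB
  have hB' : 0 < |B| := abs_pos.mpr hB
  set t : ℝ := (|C| + M + 1) / |B| with ht
  have hs : 0 ≤ t := by positivity
  have h1 : |B| * t = |C| + M + 1 := by rw [ht]; field_simp
  have h3 := h t hs
  rw [hA, zero_mul, zero_add] at h3
  have h4 : |B * t| ≤ |B * t + C| + |C| := by
    calc |B * t| = |(B * t + C) + (-C)| := by congr 1; ring
      _ ≤ |B * t + C| + |-C| := abs_add_le _ _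
      _ = _ := by rw [abs_neg]
  rw [abs_mul, abs_of_nonneg hs, h1] at h4
  linarith

theorem p_DDzero (hE : S_DDent) (hq : S_quad) : S_DDzero := by
  intro τ hτ
  by_contra hno
  push Not at hno
  obtain ⟨-, hd, ⟨C, hC⟩, hlim, s₁, hs₁⟩ := hE τ hτ
  obtain ⟨a, b, c, hf⟩ := hq (DD τ) C hd hno hC
  obtain ⟨σ₀, hσ₀⟩ := hlim (1 / 2) (by norm_num)
  -- the real part of the exponent is bounded on the half plane
  have hbd : ∀ s : ℂ, σ₀ ≤ s.re → |(a * s ^ 2 + b * s + c).re| ≤ Real.log 2 := by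
    intro s hs
    have h1 := hσ₀ s hs
    have h2 : ‖DD τ s‖ ≤ 3 / 2 := by
      calc ‖DD τ s‖ = ‖(DD τ s - 1) + 1‖ := by congr 1; ring
        _ ≤ ‖DD τ s - 1‖ + ‖(1 : ℂ)‖ := norm_add_le _ _
        _ ≤ 1 / 2 + 1 := by rw [norm_one]; linarith
        _ = 3 / 2 := by norm_num
    have h3 : 1 / 2 ≤ ‖DD τ s‖ := by
      have : ‖(1 : ℂ)‖ ≤ ‖DD τ s - 1‖ + ‖DD τ s‖ := by
        calc ‖(1 : ℂ)‖ = ‖-(DD τ s - 1) + DD τ s‖ := by congr 1; ring
          _ ≤ ‖-(DD τ s - 1)‖ + ‖DD τ s‖ := norm_add_le _ _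
          _ = _ := by rw [norm_neg]
      rw [norm_one] at this
      linarith
    rw [hf s, Complex.norm_exp] at h2 h3
    rw [abs_le]
    constructor
    · have h4 : Real.log (1 / 2) ≤ (a * s ^ 2 + b * s + c).re := by
        rw [Real.log_le_iff_le_exp (by norm_num)]; exact h3
      rw [one_div, Real.log_inv] at h4
      exact h4
    · have h4 : (a * s ^ 2 + b * s + c).re ≤ Real.log (3 / 2) := by
        rw [Real.le_log_iff_exp_le (by norm_num)]; exact h2
      exact h4.trans (Real.log_le_log (by norm_num) (by norm_num))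
  -- along a ray
  have hray : ∀ ω : ℂ, 0 ≤ ω.re → (a * ω ^ 2).re = 0 ∧ ((2 * a * σ₀ + b) * ω).re = 0 := by
    intro ω hω
    apply dc_DDzero_bdd _ _ (a * (σ₀ : ℂ) ^ 2 + b * σ₀ + c).re (Real.log 2)
    intro t ht
    have h1 := hbd (σ₀ + t * ω) (by
      rw [add_re, ofReal_re, re_ofReal_mul]
      have := mul_nonneg ht hω
      linarith)
    have e : a * ((σ₀ : ℂ) + t * ω) ^ 2 + b * (σ₀ + t * ω) + c =
        ((t ^ 2 : ℝ) : ℂ) * (a * ω ^ 2) + ((t : ℝ) : ℂ) * ((2 * a * σ₀ + b) * ω) +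
          (a * (σ₀ : ℂ) ^ 2 + b * σ₀ + c) := by
      push_cast; ring
    rw [e, add_re, add_re, re_ofReal_mul, re_ofReal_mul] at h1
    rw [mul_comm (a * ω ^ 2).re, mul_comm ((2 * a * σ₀ + b) * ω).re]
    exact h1
  have ha : a = 0 := by
    have h1 := (hray 1 (by norm_num)).1
    have h2 := (hray (1 + I) (by simp)).1
    rw [one_pow, mul_one] at h1
    have e : a * (1 + I) ^ 2 = a * (2 * I) := by
      rw [show (1 + I) ^ 2 = 2 * I by
        rw [add_sq, I_sq]; ring]
    rw [e] at h2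
    simp at h2
    exact Complex.ext h1 (by simpa using h2)
  have hb : b = 0 := by
    have h1 := (hray 1 (by norm_num)).2
    have h2 := (hray I (by simp)).2
    rw [ha] at h1 h2
    simp at h1 h2
    exact Complex.ext h1 (by simpa using h2)
  have hconst : ∀ s, DD τ s = cexp c := by
    intro s
    rw [hf s, ha, hb]
    congr 1
    ring
  have hone : cexp c = 1 := by
    by_contra hne
    have hpos : 0 < ‖cexp c - 1‖ := norm_pos_iff.mpr (sub_ne_zero.mpr hne)
    obtain ⟨σ, hσ⟩ := hlim (‖cexp c - 1‖ / 2) (by positivity)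
    have h1 := hσ (σ : ℂ) (by simp)
    rw [hconst] at h1
    linarith
  exact hs₁ ((hconst s₁).trans hone)

end Pool.Agent.Lib.MP_cd509c_nt.DC
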