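import Mathlib
import Pool.Agent.Lib.MP_cd509c_nt.DC.Defs
import Pool.Agent.Lib.MP_cd509c_nt.GammaC
import Pool.Agent.Lib.MP_cd509c_nt.HeatMain

/-!
# The main term and the crude bound for `fx`
-/

set_option autoImplicit false

namespace Pool.Agent.Lib.MP_cd509c_nt.DC

open Complex ComplexConjugate MeasureTheory Filter Topology
open Pool.Agent.Lib.MP_cd509c_nt.DN

lemma dc_H12_eq {x : ℝ} {ζ : ℂ} (hζ : 0 ≤ ζ.re) (h4 : ‖s0 x‖ ≤ 4 * ‖s0 x + ζ‖) :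
    ∃ g : ℂ, ‖g‖ ≤ 4 * (‖ζ‖ + 30 * ‖ζ‖ ^ 2) / ‖s0 x‖ ∧
      fx x ζ = cexp (rho x * ζ) * (cexp g * Lf (s0 x + ζ)) := by
  have hre : (s0 x + ζ).re = 6 + ζ.re := by rw [add_re, s0_re]
  obtain ⟨g, hg, hG⟩ := Gamma_quot' (s := s0 x) (v := ζ) (by rw [s0_re]; norm_num)
    (by rw [hre]; linarith) h4
  refine ⟨g, hg, ?_⟩
  have h1 : Lam (s0 x + ζ) = (2 * Real.pi : ℂ) ^ (-(s0 x + ζ)) * Gamma (s0 x + ζ) *
      Lf (s0 x + ζ) := by
    apply Lam_eq_Lf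
    rw [hre]
    linarith
  have h2pi : (2 * Real.pi : ℂ) ≠ 0 := by
    have := Real.pi_ne_zero
    simp [this]
  have h2 : (2 * Real.pi : ℂ) ^ (-(s0 x + ζ)) = (2 * Real.pi : ℂ) ^ (-s0 x) *
      cexp (-(ζ * Real.log (2 * Real.pi))) := by
    rw [neg_add, cpow_add _ _ h2pi]
    congr 1
    rw [cpow_def_of_ne_zero h2pi]
    congr 1
    have : (2 * Real.pi : ℂ) = ((2 * Real.pi : ℝ) : ℂ) := by push_cast; rfl
    rw [this, ← Complex.ofReal_log (by positivity)]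
    ring
  have h3 : cexp (rho x * ζ) = cexp (ζ * log (s0 x)) * cexp (-(ζ * Real.log (2 * Real.pi))) := by
    rw [← Complex.exp_add, rho]
    congr 1
    ring
  have hm := m0_ne x
  rw [fx, div_eq_iff hm, h1, h2, hG, h3, m0]
  ring

lemma dc_H12_refl (x : ℝ) (ζ : ℂ) : ‖fx x ζ‖ = ‖fx x (-conj ζ)‖ := by
  have h : Lam (s0 x + -conj ζ) = conj (Lam (s0 x + ζ)) := by
    rw [← Lam_conj, ← Lam_symm']
    congr 1
    apply Complex.ext
    · simp [s0]; ring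
    · simp [s0]; ring
  rw [fx, fx, norm_div, norm_div, h, Complex.norm_conj]

lemma dc_H12_Lf : ∃ A : ℝ, 0 ≤ A ∧ ∀ s : ℂ, A ≤ s.re → ‖Lf s - 1‖ ≤ 1 / 256 := by
  obtain ⟨C, hC, hLf⟩ := Lf_sub_one
  refine ⟨512 * C + 8, by positivity, fun s hs => ?_⟩
  have hs0 : 0 < s.re := by linarith
  refine (hLf s (by linarith)).trans ?_
  have h1 : (2 : ℝ) ^ (-s.re) ≤ (s.re / 2)⁻¹ := by
    rw [Real.rpow_neg (by norm_num)]
    apply inv_anti₀ (by positivity)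
    rw [Real.rpow_def_of_pos (by norm_num)]
    have h3 := Real.add_one_le_exp (Real.log 2 * s.re)
    have h4 := Real.log_two_gt_d9
    nlinarith
  calc C * (2 : ℝ) ^ (-s.re) ≤ C * (s.re / 2)⁻¹ := mul_le_mul_of_nonneg_left h1 hC.le
    _ = (2 * C) / s.re := by field_simp
    _ ≤ 1 / 256 := by
      rw [div_le_iff₀ hs0]; linarith

lemma dc_H12_geom {x A : ℝ} {ζ : ℂ} (hA : 1 ≤ A) (hx : 1000 + 10 ^ 10 * A ^ 2 ≤ x)
    (him : |ζ.im| ≤ 60 * A) : x ≤ ‖s0 x‖ ∧ ‖s0 x‖ ≤ 4 * ‖s0 x + ζ‖ := by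
  have hA2 : A ≤ A ^ 2 := by nlinarith
  have hx0 : 0 ≤ x := by nlinarith
  have h1 : x ≤ ‖s0 x‖ := by
    have := abs_im_le_norm (s0 x)
    rw [s0_im, abs_of_nonneg hx0] at this
    exact this
  have h2 : ‖s0 x‖ ≤ 6 + x := by
    have := Complex.norm_le_abs_re_add_abs_im (s0 x)
    rw [s0_im, s0_re, abs_of_nonneg hx0, abs_of_nonneg (by norm_num : (0 : ℝ) ≤ 6)] at this
    exact this
  have h3 : x - 60 * A ≤ ‖s0 x + ζ‖ := by
    have h4 := abs_im_le_norm (s0 x + ζ)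
    rw [add_im, s0_im] at h4
    have h5 := le_abs_self (x + ζ.im)
    have h6 := (abs_le.1 him).1
    linarith
  refine ⟨h1, ?_⟩
  nlinarith

lemma dc_H12_crude {C₀ A x : ℝ} (hC₀ : 0 < C₀)
    (hC : ∀ s : ℂ, 4 ≤ s.re → ‖Lf s‖ ≤ C₀ * (9 + |s.im|) ^ 4)
    (hA : 1 ≤ A) (hx : 1000 + 10 ^ 10 * A ^ 2 ≤ x) (hxe : 121 * A + 16 * C₀ ≤ Real.log x)
    (hr1 : (rho x).re ≤ Real.log x) (hr2 : |(rho x).im| ≤ 2)
    {ζ : ℂ} (hζ : 0 ≤ ζ.re) (him : |ζ.im| ≤ 60 * A) :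
    ‖fx x ζ‖ ≤ Real.exp ((Real.log x + 3) * |ζ.re| + 6 * Real.log x + ζ.re ^ 2) := by
  have hA2 : A ≤ A ^ 2 := by nlinarith
  have hx0 : 0 < x := by nlinarith
  obtain ⟨hg1, hg2⟩ := dc_H12_geom hA hx him
  obtain ⟨g, hg, hE⟩ := dc_H12_eq hζ hg2
  rw [hE, norm_mul, norm_mul, Complex.norm_exp, Complex.norm_exp, abs_of_nonneg hζ]
  have h1 : (rho x * ζ).re ≤ Real.log x * ζ.re + 120 * A := by
    rw [mul_re]
    have h2 : (rho x).re * ζ.re ≤ Real.log x * ζ.re := mul_le_mul_of_nonneg_right hr1 hζ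
    have h3 : |(rho x).im * ζ.im| ≤ 2 * (60 * A) := by
      rw [abs_mul]
      exact mul_le_mul hr2 him (abs_nonneg _) (by norm_num)
    have h4 := (abs_le.1 h3).1
    linarith
  have hn2 : ‖ζ‖ ^ 2 ≤ ζ.re ^ 2 + 3600 * A ^ 2 := by
    rw [← Complex.normSq_eq_norm_sq, Complex.normSq_apply]
    have h5 : ζ.im ^ 2 ≤ (60 * A) ^ 2 := by
      rw [← sq_abs]
      exact pow_le_pow_left₀ (abs_nonneg _) him 2
    nlinarith
  have h2 : g.re ≤ 1 + ζ.re ^ 2 := by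
    refine (re_le_norm g).trans (hg.trans ?_)
    rw [div_le_iff₀ (by linarith)]
    have h6 : ‖ζ‖ ≤ 1 + ‖ζ‖ ^ 2 := by nlinarith [sq_nonneg (‖ζ‖ - 1 / 2), norm_nonneg ζ]
    have h7 : (1 + ζ.re ^ 2) * x ≤ (1 + ζ.re ^ 2) * ‖s0 x‖ :=
      mul_le_mul_of_nonneg_left hg1 (by positivity)
    have h8 : ζ.re ^ 2 * 1000 ≤ ζ.re ^ 2 * x :=
      mul_le_mul_of_nonneg_left (by nlinarith) (sq_nonneg _)
    nlinarith
  have h3 : ‖Lf (s0 x + ζ)‖ ≤ Real.exp (16 * C₀ + 4 * Real.log x) := by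
    have h9 := hC (s0 x + ζ) (by rw [add_re, s0_re]; linarith)
    have h10 : |(s0 x + ζ).im| ≤ x + 60 * A := by
      rw [add_im, s0_im]
      refine (abs_add_le _ _).trans ?_
      rw [abs_of_pos hx0]
      linarith
    have h11 : (9 + |(s0 x + ζ).im|) ^ 4 ≤ (2 * x) ^ 4 :=
      pow_le_pow_left₀ (by positivity) (by nlinarith) 4
    have h12 : 16 * C₀ ≤ Real.exp (16 * C₀) := by
      linarith [Real.add_one_le_exp (16 * C₀)]
    have h13 : Real.exp (4 * Real.log x) = x ^ 4 := by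
      have : Real.exp (4 * Real.log x) = Real.exp (Real.log x) ^ 4 := by
        rw [← Real.exp_nat_mul]
        norm_num
      rw [this, Real.exp_log hx0]
    rw [Real.exp_add, h13]
    calc ‖Lf (s0 x + ζ)‖ ≤ C₀ * (9 + |(s0 x + ζ).im|) ^ 4 := h9
      _ ≤ C₀ * (2 * x) ^ 4 := mul_le_mul_of_nonneg_left h11 hC₀.le
      _ = 16 * C₀ * x ^ 4 := by ring
      _ ≤ _ := mul_le_mul_of_nonneg_right h12 (by positivity)
  calc Real.exp (rho x * ζ).re * (Real.exp g.re * ‖Lf (s0 x + ζ)‖)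
      ≤ Real.exp (Real.log x * ζ.re + 120 * A) * (Real.exp (1 + ζ.re ^ 2) *
          Real.exp (16 * C₀ + 4 * Real.log x)) := by
        apply mul_le_mul (Real.exp_le_exp.2 h1) _ (by positivity) (Real.exp_pos _).le
        exact mul_le_mul (Real.exp_le_exp.2 h2) h3 (norm_nonneg _) (Real.exp_pos _).le
    _ = Real.exp (Real.log x * ζ.re + 120 * A + (1 + ζ.re ^ 2 + (16 * C₀ + 4 * Real.log x))) := by
        rw [Real.exp_add (Real.log x * ζ.re + 120 * A), Real.exp_add (1 + ζ.re ^ 2)]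
    _ ≤ _ := by
        apply Real.exp_le_exp.2
        nlinarith

theorem p_H12 : S_H12 := by
  obtain ⟨B, hB0, hB⟩ := dc_H12_Lf
  obtain ⟨C₀, hC₀, hC⟩ := Lf_bound
  refine ⟨6, 1 + 16 * B, by norm_num, by linarith, fun A hA => ?_⟩
  have hA1 : 1 ≤ A := by linarith
  have hA2 : A ≤ A ^ 2 := by nlinarith
  have hep := Real.exp_pos (121 * A + 16 * C₀)
  refine ⟨1000 + 10 ^ 10 * A ^ 2 + Real.exp (121 * A + 16 * C₀), by nlinarith, fun x hx => ?_⟩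
  have hxA : 1000 + 10 ^ 10 * A ^ 2 ≤ x := by linarith
  have hx0 : 0 < x := by nlinarith
  have hx6 : 6 ≤ x := by nlinarith
  have hxe : 121 * A + 16 * C₀ ≤ Real.log x := by
    rw [Real.le_log_iff_exp_le hx0]
    nlinarith
  obtain ⟨hr1, hr2⟩ := rho_re_bounds hx6
  have hr3 : |(rho x).im| ≤ 2 := by
    have h1 := rho_im_sq x
    apply abs_le_of_sq_le_sq _ (by norm_num)
    linarith
  refine ⟨?_, hr3, ?_, ?_⟩
  · rw [abs_le]
    constructor <;> linarith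
  · intro ζ h1 h2 h3
    have hζ : 0 ≤ ζ.re := by linarith
    obtain ⟨hg1, hg2⟩ := dc_H12_geom hA1 hxA h3
    obtain ⟨g, hg, hE⟩ := dc_H12_eq hζ hg2
    have hn : ‖ζ‖ ≤ 260 * A := by
      have := Complex.norm_le_abs_re_add_abs_im ζ
      rw [abs_of_nonneg hζ] at this
      linarith
    have hn2 : ‖ζ‖ ^ 2 ≤ (260 * A) ^ 2 := pow_le_pow_left₀ (norm_nonneg _) hn 2
    have hg' : ‖g‖ ≤ 1 / 1000 := by
      refine hg.trans ?_
      rw [div_le_iff₀ (by linarith)]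
      nlinarith
    have hexp : ‖cexp g - 1‖ ≤ 3 / 1000 := by
      refine (norm_exp_sub_one_le' g).trans ?_
      have h4 : Real.exp ‖g‖ ≤ 3 := by
        have h5 := Real.exp_one_lt_d9
        calc Real.exp ‖g‖ ≤ Real.exp 1 := Real.exp_le_exp.mpr (by linarith)
          _ ≤ 3 := by linarith
      calc ‖g‖ * Real.exp ‖g‖ ≤ 1 / 1000 * 3 :=
            mul_le_mul hg' h4 (Real.exp_pos _).le (by norm_num)
        _ = 3 / 1000 := by norm_num
    have hL := hB (s0 x + ζ) (by rw [add_re, s0_re]; linarith)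
    have hL2 : ‖Lf (s0 x + ζ)‖ ≤ 2 := by
      have h7 := norm_sub_norm_le (Lf (s0 x + ζ)) 1
      rw [norm_one] at h7
      linarith
    have h8 : fx x ζ - cexp (rho x * ζ) = cexp (rho x * ζ) *
        ((cexp g - 1) * Lf (s0 x + ζ) + (Lf (s0 x + ζ) - 1)) := by
      rw [hE]; ring
    rw [h8, norm_mul, mul_comm]
    apply mul_le_mul_of_nonneg_right _ (norm_nonneg _)
    refine (norm_add_le _ _).trans ?_
    rw [norm_mul]
    have h9 : ‖cexp g - 1‖ * ‖Lf (s0 x + ζ)‖ ≤ 3 / 1000 * 2 :=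
      mul_le_mul hexp hL2 (norm_nonneg _) (by norm_num)
    linarith
  · intro ζ him
    rcases le_total 0 ζ.re with h | h
    · exact dc_H12_crude hC₀ hC hA1 hxA hxe hr2 hr3 h him
    · rw [dc_H12_refl]
      have h1 : (-conj ζ).re = -ζ.re := by simp
      have h2 : (-conj ζ).im = ζ.im := by simp
      have h3 := dc_H12_crude (ζ := -conj ζ) hC₀ hC hA1 hxA hxe hr2 hr3 (by rw [h1]; linarith)
        (by rw [h2]; exact him)
      rw [h1, abs_neg, neg_sq] at h3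
      exact h3

end Pool.Agent.Lib.MP_cd509c_nt.DC
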