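import Pool.Agent.Lib.MP_cd509c_nt.DC.Defs

/-!
# Differentiation preserves real zeros
-/

set_option autoImplicit false

namespace Pool.Agent.Lib.MP_cd509c_nt.DC

open Complex ComplexConjugate MeasureTheory Filter Topology
open Pool.Agent.Lib.MP_cd509c_nt.DN

theorem p_anti (h_ne : S_ne) (h_appZ : S_appZ) (h_jens : S_jens) : S_anti := by
  intro n t hA z hz
  obtain ⟨hd, -, -, -⟩ := h_ne n t
  obtain ⟨-, ⟨v, hv⟩, -, -⟩ := h_ne (n + 1) t
  have e : iteratedDeriv 1 (HD n t) = HD (n + 1) t := by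
    rw [iteratedDeriv_one, HD, HD, iteratedDeriv_succ]
  have h := h_jens (HD n t) 1 0 hd (h_appZ n t) le_rfl (fun ζ hζ => by rw [hA ζ hζ, abs_zero])
    ⟨v, by rw [e]; exact hv⟩ z (by rw [e]; exact hz)
  have h1 := h.1
  exact abs_eq_zero.mp (le_antisymm h1 (abs_nonneg _))

end Pool.Agent.Lib.MP_cd509c_nt.DC
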