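import Pool.Agent.Lib.MP_cd509c_nt.DC.Defs

/-!
# Almost periodicity of the entire Dirichlet series
-/

set_option autoImplicit false

namespace Pool.Agent.Lib.MP_cd509c_nt.DC

open Complex MeasureTheory Filter Topology

/-- simultaneous return times -/
theorem dc_ap_pig (S : Finset ℕ) (T₁ η : ℝ) (hη : 0 < η) : ∃ k : ℕ, 1 ≤ k ∧
    ∀ m ∈ S, ‖cexp (-((k * T₁ * Real.log m : ℝ) * I)) - 1‖ ≤ η := by
  let x : ℕ → (S → ℂ) := fun k m => cexp (-((k * T₁ * Real.log (m : ℕ) : ℝ) * I))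
  have hnorm : ∀ k m, ‖x k m‖ = 1 := by
    intro k m
    show ‖cexp (-((k * T₁ * Real.log (m : ℕ) : ℝ) * I))‖ = 1
    rw [← neg_mul, ← ofReal_neg]
    exact norm_exp_ofReal_mul_I _
  have hx : ∀ k, x k ∈ Metric.closedBall (0 : S → ℂ) 1 := by
    intro k
    rw [mem_closedBall_zero_iff]
    exact (pi_norm_le_iff_of_nonneg zero_le_one).2 fun m => (hnorm k m).le
  obtain ⟨a, -, φ, hφ, hlim⟩ := (isCompact_closedBall (0 : S → ℂ) 1).tendsto_subseq hx
  rw [Metric.tendsto_atTop] at hlim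
  obtain ⟨N, hN⟩ := hlim (η / 2) (by positivity)
  have h1 := hN N le_rfl
  have h2 := hN (N + 1) (Nat.le_succ N)
  have hlt : φ N < φ (N + 1) := hφ (Nat.lt_succ_self N)
  refine ⟨φ (N + 1) - φ N, by omega, fun m hm => ?_⟩
  have h3 : dist (x (φ (N + 1))) (x (φ N)) ≤ η := by
    have := dist_triangle_right (x (φ (N + 1))) (x (φ N)) a
    have e1 : (x ∘ φ) N = x (φ N) := rfl
    have e2 : (x ∘ φ) (N + 1) = x (φ (N + 1)) := rfl
    rw [e1] at h1
    rw [e2] at h2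
    linarith
  have h4 : ‖x (φ (N + 1)) ⟨m, hm⟩ - x (φ N) ⟨m, hm⟩‖ ≤ η := by
    rw [← dist_eq_norm]
    exact (dist_le_pi_dist _ _ _).trans h3
  have h5 : x (φ (N + 1)) ⟨m, hm⟩ - x (φ N) ⟨m, hm⟩ = x (φ N) ⟨m, hm⟩ *
      (cexp (-(((φ (N + 1) - φ N : ℕ) * T₁ * Real.log m : ℝ) * I)) - 1) := by
    rw [mul_sub, mul_one]
    congr 1
    show cexp _ = cexp _ * cexp _
    rw [← Complex.exp_add]
    congr 1
    push_cast [Nat.cast_sub hlt.le]
    ring
  rw [h5, norm_mul, hnorm, one_mul] at h4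
  exact h4

/-- the terms of the series -/
theorem dc_ap_term (τ R T : ℝ) (s : ℂ) (hs : ‖s‖ ≤ R) (m : ℕ) :
    ‖tau m * (m : ℂ) ^ (-s) * cexp (-(τ * Real.log m ^ 2 : ℝ))‖ ≤
      ‖tau m‖ * (m : ℝ) ^ (-(-R)) * Real.exp (-(τ * Real.log m ^ 2)) ∧
    tau m * (m : ℂ) ^ (-(s + T * I)) * cexp (-(τ * Real.log m ^ 2 : ℝ)) =
      tau m * (m : ℂ) ^ (-s) * cexp (-(τ * Real.log m ^ 2 : ℝ)) *
        cexp (-((T * Real.log m : ℝ) * I)) := by
  rcases Nat.eq_zero_or_pos m with rfl | hm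
  · rw [tau_zero]
    simp
  · have hm' : (m : ℂ) ≠ 0 := by exact_mod_cast hm.ne'
    have hm1 : (1 : ℝ) ≤ (m : ℝ) := by exact_mod_cast hm
    constructor
    · rw [norm_mul, norm_mul, Complex.norm_natCast_cpow_of_pos hm]
      have e : ‖cexp (-((τ * Real.log m ^ 2 : ℝ) : ℂ))‖ = Real.exp (-(τ * Real.log m ^ 2)) := by
        rw [← ofReal_neg, Complex.norm_exp, ofReal_re]
      rw [e]
      refine mul_le_mul_of_nonneg_right ?_ (Real.exp_pos _).le
      refine mul_le_mul_of_nonneg_left ?_ (norm_nonneg _)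
      refine Real.rpow_le_rpow_of_exponent_le hm1 ?_
      have h1 := Complex.abs_re_le_norm s
      have h2 := neg_le_abs s.re
      rw [neg_re, neg_neg]
      linarith
    · have e : (m : ℂ) ^ (-(s + T * I)) = (m : ℂ) ^ (-s) *
          cexp (-((T * Real.log m : ℝ) * I)) := by
        rw [neg_add, Complex.cpow_add _ _ hm']
        congr 1
        rw [Complex.cpow_def_of_ne_zero hm', ← Complex.natCast_log]
        congr 1
        push_cast
        ring
      rw [e]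
      ring

theorem p_ap (hD : S_DDent) : S_ap := by
  intro τ R ε T₀ hτ hε
  obtain ⟨hsum, -⟩ := hD τ hτ
  set a : ℕ → ℝ := fun m => ‖tau m‖ * (m : ℝ) ^ (-(-R)) * Real.exp (-(τ * Real.log m ^ 2)) with ha
  have hA : Summable a := hsum (-R)
  have ha0 : ∀ m, 0 ≤ a m := fun m => by
    rw [ha]
    positivity
  set A : ℝ := ∑' m, a m with hAdef
  have hA0 : 0 ≤ A := tsum_nonneg ha0
  have hAs : HasSum a A := hA.hasSum
  obtain ⟨S, hS⟩ : ∃ S : Finset ℕ, A - ∑ m ∈ S, a m ≤ ε / 4 := by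
    have h := hAs
    rw [HasSum] at h
    have h2 := (Metric.tendsto_nhds.1 h (ε / 4) (by positivity)).exists
    obtain ⟨S, hS⟩ := h2
    refine ⟨S, ?_⟩
    rw [Real.dist_eq, abs_sub_comm] at hS
    exact (le_abs_self _).trans hS.le
  obtain ⟨k, hk, hpig⟩ := dc_ap_pig S (max 1 T₀) (ε / (2 * (A + 1))) (by positivity)
  have hk1 : (1 : ℝ) ≤ k := by exact_mod_cast hk
  refine ⟨k * max 1 T₀, ?_, fun s hs => ?_⟩
  · have h1 : T₀ ≤ max 1 T₀ := le_max_right _ _
    have h2 : (1 : ℝ) ≤ max 1 T₀ := le_max_left _ _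
    nlinarith
  set T : ℝ := k * max 1 T₀ with hT
  have hterm := dc_ap_term τ R T s hs
  have hs1 : Summable fun m : ℕ => tau m * (m : ℂ) ^ (-s) * cexp (-(τ * Real.log m ^ 2 : ℝ)) :=
    Summable.of_norm_bounded hA fun m => (hterm m).1
  have hrot : ∀ m : ℕ, ‖cexp (-((T * Real.log m : ℝ) * I))‖ = 1 := by
    intro m
    rw [← neg_mul, ← ofReal_neg]
    exact norm_exp_ofReal_mul_I _
  have hs2 : Summable fun m : ℕ =>
      tau m * (m : ℂ) ^ (-(s + T * I)) * cexp (-(τ * Real.log m ^ 2 : ℝ)) := by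
    refine Summable.of_norm_bounded hA fun m => ?_
    rw [(hterm m).2, norm_mul, hrot, mul_one]
    exact (hterm m).1
  unfold DD
  rw [← hs2.tsum_sub hs1]
  have hS1 : HasSum (fun m => if m ∈ S then a m else 0) (∑ m ∈ S, a m) := by
    have h : HasSum (fun m => if m ∈ S then a m else 0) (∑ m ∈ S, if m ∈ S then a m else 0) :=
      hasSum_sum_of_ne_finset_zero fun m hm => if_neg hm
    have e : (∑ m ∈ S, if m ∈ S then a m else 0) = ∑ m ∈ S, a m :=
      Finset.sum_congr rfl fun m hm => if_pos hm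
    rwa [e] at h
  have hg : HasSum (fun m => ε / (2 * (A + 1)) * a m + 2 * (a m - if m ∈ S then a m else 0))
      (ε / (2 * (A + 1)) * A + 2 * (A - ∑ m ∈ S, a m)) :=
    (hAs.mul_left _).add ((hAs.sub hS1).mul_left _)
  refine (tsum_of_norm_bounded hg fun m => ?_).trans ?_
  · rw [(hterm m).2]
    have e : tau m * (m : ℂ) ^ (-s) * cexp (-(τ * Real.log m ^ 2 : ℝ)) *
          cexp (-((T * Real.log m : ℝ) * I)) -
        tau m * (m : ℂ) ^ (-s) * cexp (-(τ * Real.log m ^ 2 : ℝ)) =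
        tau m * (m : ℂ) ^ (-s) * cexp (-(τ * Real.log m ^ 2 : ℝ)) *
          (cexp (-((T * Real.log m : ℝ) * I)) - 1) := by ring
    rw [e, norm_mul]
    have h1 : ‖tau m * (m : ℂ) ^ (-s) * cexp (-(τ * Real.log m ^ 2 : ℝ))‖ ≤ a m := (hterm m).1
    have hη : 0 ≤ ε / (2 * (A + 1)) := by positivity
    by_cases hm : m ∈ S
    · rw [if_pos hm, sub_self, mul_zero, add_zero]
      have h2 := hpig m hm
      calc _ ≤ a m * (ε / (2 * (A + 1))) :=
            mul_le_mul h1 h2 (norm_nonneg _) (ha0 m)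
        _ = _ := by ring
    · rw [if_neg hm, sub_zero]
      have h2 : ‖cexp (-((T * Real.log m : ℝ) * I)) - 1‖ ≤ 2 := by
        refine (norm_sub_le _ _).trans ?_
        rw [hrot, norm_one]
        norm_num
      have h3 : 0 ≤ ε / (2 * (A + 1)) * a m := mul_nonneg hη (ha0 m)
      calc _ ≤ a m * 2 := mul_le_mul h1 h2 (norm_nonneg _) (ha0 m)
        _ ≤ _ := by linarith
  · have h1 : ε / (2 * (A + 1)) * A ≤ ε / 2 := by
      rw [div_mul_eq_mul_div, div_le_iff₀ (by positivity)]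
      nlinarith
    linarith

end Pool.Agent.Lib.MP_cd509c_nt.DC
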