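import Mathlib
import Pool.Agent.Lib.MP_cd509c_nt.DC.Defs

/-!
# Piece appZ: approximation by real polynomials with zeros among the zeros
-/

set_option autoImplicit false

namespace Pool.Agent.Lib.MP_cd509c_nt.DC

open Complex ComplexConjugate MeasureTheory Filter Topology
open Pool.Agent.Lib.MP_cd509c_nt.DN

/-- growth of `Ht t` -/
theorem dc_appZ_growth0 (t : ℝ) : ∃ A : ℝ, 0 ≤ A ∧
    ∀ z : ℂ, ‖Ht t z‖ ≤ A * Real.exp (A * ‖z‖ ^ (3 / 2 : ℝ)) := by
  obtain ⟨A, hA⟩ := (Ker_PhiT t).fK_growth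
  refine ⟨|A|, abs_nonneg A, fun z => ?_⟩
  have h1 := hA (z ^ 2)
  rw [(Ker_PhiT t).fK_sq, FT_PhiT, norm_pow] at h1
  have h2 : (‖z‖ ^ 2) ^ (3 / 4 : ℝ) = ‖z‖ ^ (3 / 2 : ℝ) := by
    rw [← Real.rpow_natCast, ← Real.rpow_mul (norm_nonneg z)]
    norm_num
  rw [h2] at h1
  refine h1.trans ?_
  have hz : 0 ≤ ‖z‖ ^ (3 / 2 : ℝ) := by positivity
  apply mul_le_mul (le_abs_self A) _ (Real.exp_pos _).le (abs_nonneg A)
  apply Real.exp_le_exp.mpr
  exact mul_le_mul_of_nonneg_right (le_abs_self A) hz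

theorem dc_appZ_rpow {x y : ℝ} (hx : 0 ≤ x) (hy : 0 ≤ y) (h : y ≤ x + 1) :
    y ^ (3 / 2 : ℝ) ≤ 4 * x ^ (3 / 2 : ℝ) + 4 := by
  have h2 : (2 : ℝ) ^ (3 / 2 : ℝ) ≤ 4 := by
    have : (2 : ℝ) ^ (3 / 2 : ℝ) ≤ 2 ^ (2 : ℝ) :=
      Real.rpow_le_rpow_of_exponent_le (by norm_num) (by norm_num)
    norm_num at this ⊢
    exact this
  have hx0 : 0 ≤ x ^ (3 / 2 : ℝ) := by positivity
  rcases le_total x 1 with h1 | h1
  · have h3 : y ≤ 2 := by linarith
    have h4 := Real.rpow_le_rpow hy h3 (show (0 : ℝ) ≤ 3 / 2 by norm_num)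
    linarith
  · have h3 : y ≤ 2 * x := by linarith
    have h4 := Real.rpow_le_rpow hy h3 (show (0 : ℝ) ≤ 3 / 2 by norm_num)
    rw [Real.mul_rpow (by norm_num) hx] at h4
    nlinarith

/-- growth of the derivatives -/
theorem dc_appZ_growth (n : ℕ) (t : ℝ) : ∃ A : ℝ, 0 ≤ A ∧
    ∀ z : ℂ, ‖HD n t z‖ ≤ A * Real.exp (A * ‖z‖ ^ (3 / 2 : ℝ)) := by
  obtain ⟨A, hA0, hA⟩ := dc_appZ_growth0 t
  have hd : Differentiable ℂ (Ht t) := by
    have h1 := (Ker_PhiT t).FT_differentiable
    have h2 : FT (PhiT t) = Ht t := funext (FT_PhiT t)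
    rwa [h2] at h1
  refine ⟨n.factorial * A * Real.exp (4 * A) + 4 * A, by positivity, fun z => ?_⟩
  have h1 := Complex.norm_iteratedDeriv_le_of_forall_mem_sphere_norm_le (c := z) (R := 1)
    (C := A * Real.exp (A * (4 * ‖z‖ ^ (3 / 2 : ℝ) + 4))) (f := Ht t) n one_pos hd.diffContOnCl
    (by
      intro w hw
      refine (hA w).trans ?_
      apply mul_le_mul_of_nonneg_left _ hA0
      apply Real.exp_le_exp.mpr
      apply mul_le_mul_of_nonneg_left _ hA0
      apply dc_appZ_rpow (norm_nonneg _) (norm_nonneg _)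
      rw [mem_sphere_iff_norm] at hw
      have := norm_add_le (w - z) z
      rw [sub_add_cancel] at this
      linarith)
  rw [one_pow, div_one] at h1
  have hz : 0 ≤ ‖z‖ ^ (3 / 2 : ℝ) := by positivity
  refine h1.trans ?_
  have h3 : A * (4 * ‖z‖ ^ (3 / 2 : ℝ) + 4) = 4 * A + 4 * A * ‖z‖ ^ (3 / 2 : ℝ) := by ring
  rw [h3, Real.exp_add]
  set B := n.factorial * A * Real.exp (4 * A) with hB
  have hB0 : 0 ≤ B := by positivity
  calc (n.factorial : ℝ) * (A * (Real.exp (4 * A) * Real.exp (4 * A * ‖z‖ ^ (3 / 2 : ℝ))))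
      = B * Real.exp (4 * A * ‖z‖ ^ (3 / 2 : ℝ)) := by rw [hB]; ring
    _ ≤ (B + 4 * A) * Real.exp ((B + 4 * A) * ‖z‖ ^ (3 / 2 : ℝ)) := by
      apply mul_le_mul (by linarith) _ (Real.exp_pos _).le (by positivity)
      apply Real.exp_le_exp.mpr
      apply mul_le_mul_of_nonneg_right _ hz
      linarith

/-- an entire function with a parity is a power times an entire function of the square -/
theorem dc_appZ_factor {F : ℂ → ℂ} {n : ℕ} (hF : Differentiable ℂ F) {v : ℂ} (hv : F v ≠ 0)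
    (hpar : ∀ z, F (-z) = (-1) ^ n * F z) :
    ∃ (m : ℕ) (g : ℂ → ℂ), Differentiable ℂ g ∧ g 0 ≠ 0 ∧ ∀ z, F z = z ^ m * g (z ^ 2) := by
  classical
  set a : ℕ → ℂ := fun k => (k.factorial : ℂ)⁻¹ * iteratedDeriv k F 0 with ha
  have hsum : ∀ z, HasSum (fun k => a k * z ^ k) (F z) := by
    intro z
    have h := Complex.hasSum_taylorSeries_of_entire hF 0 z
    have h2 : (fun k : ℕ => (k.factorial : ℂ)⁻¹ • (z - 0) ^ k • iteratedDeriv k F 0) =
        fun k => a k * z ^ k := by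
      funext k
      simp only [ha, sub_zero, smul_eq_mul]
      ring
    rwa [h2] at h
  have hex : ∃ k, a k ≠ 0 := by
    by_contra hcon
    push Not at hcon
    have h1 := hsum v
    have h2 : (fun k => a k * v ^ k) = fun _ => (0 : ℂ) := by
      funext k
      rw [hcon k, zero_mul]
    rw [h2] at h1
    exact hv (h1.unique hasSum_zero)
  set m := Nat.find hex with hm
  have hm0 : a m ≠ 0 := Nat.find_spec hex
  have hmin : ∀ k, k < m → a k = 0 := fun k hk => by
    by_contra h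
    exact Nat.find_min hex hk h
  -- parity of the coefficients
  have hp : ∀ k, (-1 : ℂ) ^ k * a k = (-1) ^ n * a k := by
    intro k
    have h1 : iteratedDeriv k (fun z => F (-z)) 0 = (-1 : ℂ) ^ k • iteratedDeriv k F (-0) :=
      iteratedDeriv_comp_neg k F 0
    have h2 : (fun z => F (-z)) = fun z => (-1 : ℂ) ^ n * F z := funext hpar
    rw [h2, iteratedDeriv_const_mul_field, neg_zero, smul_eq_mul] at h1
    simp only [ha]
    linear_combination (-(k.factorial : ℂ)⁻¹) * h1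
  have hpm : ∀ k, a k ≠ 0 → (-1 : ℂ) ^ k = (-1) ^ m := by
    intro k hk
    have h1 := mul_right_cancel₀ hk (hp k)
    have h2 := mul_right_cancel₀ hm0 (hp m)
    rw [h1, h2]
  have hodd : ∀ k, (∀ j, m + 2 * j ≠ k) → a k = 0 := by
    intro k hk
    by_contra h
    have h1 : m ≤ k := by
      by_contra h2
      exact h (hmin k (by omega))
    have h3 := hpm k h
    have h4 : Even (k - m) := by
      by_contra h5
      rw [Nat.not_even_iff_odd] at h5
      have h6 : (-1 : ℂ) ^ k = (-1) ^ (k - m) * (-1) ^ m := by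
        rw [← pow_add, Nat.sub_add_cancel h1]
      rw [h5.neg_one_pow, h3] at h6
      have h7 : (-1 : ℂ) ^ m ≠ 0 := pow_ne_zero _ (by norm_num)
      have h8 : (2 : ℂ) * (-1) ^ m = 0 := by linear_combination h6
      rcases mul_eq_zero.mp h8 with h9 | h9
      · norm_num at h9
      · exact h7 h9
    obtain ⟨j, hj⟩ := h4
    exact hk j (by omega)
  set b : ℕ → ℂ := fun j => a (m + 2 * j) with hb
  have hinj : Function.Injective (fun j : ℕ => m + 2 * j) := fun i j h => by
    simp only at h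
    omega
  have hEC : EC b := by
    intro r hr
    set x : ℝ := Real.sqrt r + 1 with hx
    have hs0 := Real.sqrt_nonneg r
    have hx1 : 1 ≤ x := by linarith
    have h1 : Summable fun k => ‖a k‖ * x ^ k := by
      have h2 := (hsum (x : ℂ)).summable.norm
      refine h2.congr (fun k => ?_)
      rw [norm_mul, norm_pow, Complex.norm_real, Real.norm_of_nonneg (by linarith)]
    have h3 := h1.comp_injective hinj
    refine Summable.of_nonneg_of_le (fun j => by positivity) (fun j => ?_) h3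
    simp only [Function.comp, hb]
    apply mul_le_mul_of_nonneg_left _ (norm_nonneg _)
    have h4 : r ≤ x ^ 2 := by
      have h5 := Real.sq_sqrt hr
      nlinarith
    calc r ^ j ≤ (x ^ 2) ^ j := pow_le_pow_left₀ hr h4 j
      _ = x ^ (2 * j) := by rw [pow_mul]
      _ ≤ x ^ (m + 2 * j) := pow_le_pow_right₀ hx1 (by omega)
  refine ⟨m, PS b, hEC.differentiable, ?_, ?_⟩
  · rw [PS_zero]
    exact hm0
  · intro z
    have h1 : HasSum (fun j => a (m + 2 * j) * z ^ (m + 2 * j)) (F z) := by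
      have h2 := (hinj.hasSum_iff (f := fun k => a k * z ^ k) (a := F z) (by
        intro k hk
        have h3 : a k = 0 := hodd k (fun j hj => hk ⟨j, hj⟩)
        rw [h3, zero_mul])).mpr (hsum z)
      exact h2
    have h2 : HasSum (fun j => z ^ m * (b j * (z ^ 2) ^ j)) (z ^ m * PS b (z ^ 2)) :=
      (hEC.hasSum (z ^ 2)).mul_left (z ^ m)
    have h3 : (fun j => z ^ m * (b j * (z ^ 2) ^ j)) =
        fun j => a (m + 2 * j) * z ^ (m + 2 * j) := by
      funext j
      rw [pow_add, pow_mul]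
      simp only [hb]
      ring
    rw [h3] at h2
    exact h1.unique h2

theorem dc_appZ_main {F : ℂ → ℂ} {n : ℕ} (hF : Differentiable ℂ F) {v : ℂ} (hv : F v ≠ 0)
    (hpar : ∀ z, F (-z) = (-1) ^ n * F z) (hreal : ∀ z, F (conj z) = conj (F z)) {A : ℝ}
    (hA0 : 0 ≤ A) (hA : ∀ z : ℂ, ‖F z‖ ≤ A * Real.exp (A * ‖z‖ ^ (3 / 2 : ℝ))) : AppZ F := by
  obtain ⟨m, g, hg, hg0, hfac⟩ := dc_appZ_factor hF hv hpar
  have hsq : ∀ w : ℂ, ∃ z : ℂ, z ^ 2 = w := fun w =>
    IsAlgClosed.exists_pow_nat_eq w (by norm_num)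
  -- `g` is real away from zero
  have hgreal : ∀ w, g (conj w) = conj (g w) := by
    have h1 : ∀ w : ℂ, w ≠ 0 → g (conj w) = conj (g w) := by
      intro w hw
      obtain ⟨z, hz⟩ := hsq w
      have hz0 : z ≠ 0 := by
        rintro rfl
        apply hw
        rw [← hz]
        simp
      have h2 := hreal z
      rw [hfac z, hfac (conj z), map_mul, map_pow, ← map_pow, ← map_pow, hz] at h2
      have h3 : conj (z ^ m) ≠ 0 := by
        rw [Ne, map_eq_zero]
        exact pow_ne_zero m hz0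
      exact mul_left_cancel₀ h3 h2
    have hdense : Dense {w : ℂ | w ≠ 0} := by
      have h3 : {w : ℂ | w ≠ 0} = ({0} : Set ℂ)ᶜ := by
        ext w
        simp
      rw [h3]
      exact dense_compl_singleton 0
    have hc1 : Continuous (fun w => g (conj w)) := hg.continuous.comp Complex.continuous_conj
    have hc2 : Continuous (fun w => conj (g w)) := Complex.continuous_conj.comp hg.continuous
    have heq : Set.EqOn (fun w => g (conj w)) (fun w => conj (g w)) {w : ℂ | w ≠ 0} :=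
      fun w hw => h1 w hw
    intro w
    exact congrFun (hc1.ext_on hdense hc2 heq) w
  -- growth
  obtain ⟨M, hM⟩ := (isCompact_closedBall (0 : ℂ) 1).exists_bound_of_continuousOn
    hg.continuous.continuousOn
  have hM0 : 0 ≤ M := (norm_nonneg _).trans (hM 0 (by simp))
  have hgrow : ∀ w, ‖g w‖ ≤ (A + M) * Real.exp ((A + M) * ‖w‖ ^ (3 / 4 : ℝ)) := by
    intro w
    have hw0 : 0 ≤ ‖w‖ ^ (3 / 4 : ℝ) := by positivity
    rcases le_total ‖w‖ 1 with h1 | h1
    · have h2 := hM w (by simpa using h1)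
      have h3 : 1 ≤ Real.exp ((A + M) * ‖w‖ ^ (3 / 4 : ℝ)) := Real.one_le_exp (by positivity)
      nlinarith
    · obtain ⟨z, hz⟩ := hsq w
      have hzn : ‖z‖ ^ 2 = ‖w‖ := by rw [← norm_pow, hz]
      have hz1 : 1 ≤ ‖z‖ := by
        by_contra h
        push Not at h
        have := norm_nonneg z
        nlinarith
      have h2 := hA z
      rw [hfac z, norm_mul, norm_pow, hz] at h2
      have h3 : (1 : ℝ) ≤ ‖z‖ ^ m := one_le_pow₀ hz1
      have h4 : ‖g w‖ ≤ ‖z‖ ^ m * ‖g w‖ := by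
        have := norm_nonneg (g w)
        nlinarith
      have h5 : ‖w‖ ^ (3 / 4 : ℝ) = ‖z‖ ^ (3 / 2 : ℝ) := by
        rw [← hzn, ← Real.rpow_natCast, ← Real.rpow_mul (norm_nonneg z)]
        norm_num
      rw [← h5] at h2
      refine (h4.trans h2).trans ?_
      apply mul_le_mul (by linarith) _ (Real.exp_pos _).le (by positivity)
      apply Real.exp_le_exp.mpr
      apply mul_le_mul_of_nonneg_right _ hw0
      linarith
  intro R ε hε
  set S : ℝ := |R| + 1 with hS
  have hS1 : 1 ≤ S := by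
    have := abs_nonneg R
    linarith
  have hSm : 0 < S ^ m := by positivity
  obtain ⟨P0, hP0z, hP0b⟩ := exists_approx hg hgreal hg0 hgrow (S ^ 2) (by positivity)
    (min (ε / S ^ m) (‖g 0‖ / 2)) (lt_min (by positivity) (by
      have := norm_pos_iff.mpr hg0
      positivity))
  have hev : ∀ z : ℂ, Polynomial.aeval z ((Polynomial.X : Polynomial ℝ) ^ m *
      P0.comp ((Polynomial.X : Polynomial ℝ) ^ 2)) = z ^ m * Polynomial.aeval (z ^ 2) P0 := by
    intro z
    rw [map_mul, map_pow, Polynomial.aeval_X, Polynomial.aeval_comp, map_pow, Polynomial.aeval_X]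
  refine ⟨Polynomial.X ^ m * P0.comp (Polynomial.X ^ 2), ?_, ?_, ?_⟩
  · intro h
    have h1 : P0.comp ((Polynomial.X : Polynomial ℝ) ^ 2) = 0 := by
      rcases mul_eq_zero.mp h with h2 | h2
      · exact absurd h2 (pow_ne_zero m Polynomial.X_ne_zero)
      · exact h2
    have h3 : Polynomial.aeval (0 : ℂ) P0 = 0 := by
      have h4 : Polynomial.aeval (0 : ℂ) (P0.comp ((Polynomial.X : Polynomial ℝ) ^ 2)) =
          Polynomial.aeval ((0 : ℂ) ^ 2) P0 := by
        rw [Polynomial.aeval_comp, map_pow, Polynomial.aeval_X]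
      rw [h1, map_zero] at h4
      simpa using h4.symm
    have h5 := (hP0b 0 (by rw [norm_zero]; positivity)).trans (min_le_right _ _)
    rw [h3, sub_zero] at h5
    have := norm_pos_iff.mpr hg0
    linarith
  · intro z hz
    rw [hev] at hz
    rw [hfac z]
    rcases mul_eq_zero.mp hz with h | h
    · rw [h, zero_mul]
    · rw [hP0z _ h, mul_zero]
  · intro z hz
    rw [hev, hfac z, ← mul_sub, norm_mul, norm_pow]
    have hzS : ‖z‖ ≤ S := by
      have := le_abs_self R
      linarith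
    have h1 := (hP0b (z ^ 2) (by
      rw [norm_pow]
      exact pow_le_pow_left₀ (norm_nonneg _) hzS 2)).trans (min_le_left _ _)
    calc ‖z‖ ^ m * ‖g (z ^ 2) - Polynomial.aeval (z ^ 2) P0‖ ≤ S ^ m * (ε / S ^ m) :=
          mul_le_mul (pow_le_pow_left₀ (norm_nonneg _) hzS m) h1 (norm_nonneg _) hSm.le
      _ = ε := by field_simp

theorem p_appZ (h_ne : S_ne) : S_appZ := by
  intro n t
  obtain ⟨hd, ⟨v, hv⟩, hc, hp⟩ := h_ne n t
  obtain ⟨A, hA0, hA⟩ := dc_appZ_growth n t
  exact dc_appZ_main hd hv hp hc hA0 hA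

end Pool.Agent.Lib.MP_cd509c_nt.DC
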