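import Pool.Agent.Lib.MP_cd509c_nt.DC.Defs

/-!
# MP_cd509c_nt, project P2, piece `asy` (helper18): the asymptotic formula
-/

set_option autoImplicit false

namespace Pool.Agent.Lib.MP_cd509c_nt.DC

open Complex ComplexConjugate MeasureTheory Filter Topology
open Pool.Agent.Lib.MP_cd509c_nt.DN

lemma dc_asy_G8_cont : Continuous G8 := by
  have h1 : Continuous (fun y : ℝ => (2 * Real.pi : ℂ) ^ (-(8 + y * I : ℂ))) := by
    apply Continuous.const_cpow (by fun_prop)
    left
    have : (2 * Real.pi : ℝ) ≠ 0 := by positivity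
    exact_mod_cast this
  have h2 : Continuous (fun y : ℝ => Gamma (8 + y * I)) := by
    rw [continuous_iff_continuousAt]
    intro y
    have h3 : ContinuousAt Gamma (8 + y * I : ℂ) := by
      apply (differentiableAt_Gamma _ _).continuousAt
      intro m hm
      have := congrArg Complex.re hm
      simp at this
      have h0 : (0 : ℝ) ≤ m := Nat.cast_nonneg m
      linarith
    exact ContinuousAt.comp (f := fun y : ℝ => (8 + y * I : ℂ)) (g := Gamma) h3
      (by fun_prop)
  exact h1.mul h2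

lemma dc_asy_gg_cont (T : ℝ) : Continuous (gg T) := by
  have h1 : Continuous (fun v : ℝ => G8 (T + v)) := dc_asy_G8_cont.comp (by fun_prop)
  have h2 : Continuous (fun v : ℝ => G8 (T + v) / G8 T * cexp (-(v * r8 T * I))) :=
    (h1.div_const _).mul (by fun_prop)
  exact h2

lemma dc_asy_int (a b : ℝ) (hb : 0 < b) :
    Integrable (fun v : ℝ => Real.exp (a * |v| - b * v ^ 2)) := by
  have h1 : Integrable (fun v : ℝ => Real.exp (a ^ 2 / (2 * b)) * Real.exp (-(b / 2) * v ^ 2)) :=
    (integrable_exp_neg_mul_sq (by positivity)).const_mul _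
  apply h1.mono'
  · apply Continuous.aestronglyMeasurable
    fun_prop
  · filter_upwards with v
    rw [Real.norm_eq_abs, abs_of_pos (Real.exp_pos _), ← Real.exp_add]
    apply Real.exp_le_exp.mpr
    have h2 : 0 ≤ (b * |v| - a) ^ 2 / (2 * b) := by positivity
    have h3 : (b * |v| - a) ^ 2 / (2 * b) = b / 2 * v ^ 2 - a * |v| + a ^ 2 / (2 * b) := by
      rw [← sq_abs v]
      field_simp
      ring
    rw [h3] at h2
    linarith

theorem p_asy (hg : S_gg) (hr : S_rep) (hm : S_main) : S_asy := by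
  intro τ B ε hτ hε
  obtain ⟨hg1, hg2⟩ := hg
  obtain ⟨C, T₁, hT₁, hC⟩ := hg2 (1 / (8 * τ)) (by positivity)
  obtain ⟨L₀, hL₀, hL⟩ := Lf_sub_one
  set L : ℝ := 1 + L₀ with hLdef
  have hLpos : 0 < L := by positivity
  have hLf : ∀ y : ℝ, ‖Lf (8 + y * I)‖ ≤ L := by
    intro y
    have h1 := hL (8 + y * I) (by simp)
    have h2 : L₀ * (2 : ℝ) ^ (-(8 + y * I : ℂ).re) ≤ L₀ := by
      have : (2 : ℝ) ^ (-(8 + y * I : ℂ).re) ≤ 1 := by
        apply Real.rpow_le_one_of_one_le_of_nonpos (by norm_num)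
        simp
      calc _ ≤ L₀ * 1 := by gcongr
        _ = L₀ := mul_one _
    calc ‖Lf (8 + y * I)‖ = ‖(Lf (8 + y * I) - 1) + 1‖ := by congr 1; ring
      _ ≤ ‖Lf (8 + y * I) - 1‖ + ‖(1 : ℂ)‖ := norm_add_le _ _
      _ ≤ L := by rw [norm_one]; linarith
  set w : ℝ → ℝ := fun v => Real.exp (|B| * |v| - 1 / (4 * τ) * v ^ 2) with hw
  have hwi : Integrable w := dc_asy_int _ _ (by positivity)
  have hCpos : 0 ≤ C := by
    have h1 := hC T₁ 0 le_rfl
    have h2 : 0 ≤ C * Real.exp (C * |0| + 1 / (8 * τ) * 0 ^ 2) := (norm_nonneg _).trans h1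
    have h3 : 0 < Real.exp (C * |0| + 1 / (8 * τ) * 0 ^ 2) := Real.exp_pos _
    by_contra hc
    push Not at hc
    have := mul_neg_of_neg_of_pos hc h3
    linarith
  have hw2 : Integrable (fun v : ℝ => C * Real.exp ((C + |B|) * |v| - 1 / (8 * τ) * v ^ 2)) :=
    (dc_asy_int _ _ (by positivity)).const_mul _
  have hprod : ∀ v : ℝ, C * Real.exp (C * |v| + 1 / (8 * τ) * v ^ 2) * w v =
      C * Real.exp ((C + |B|) * |v| - 1 / (8 * τ) * v ^ 2) := by
    intro v
    rw [hw]
    simp only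
    rw [mul_assoc, ← Real.exp_add]
    congr 2
    field_simp
    ring
  -- dominated convergence
  have hlim : Tendsto (fun T : ℝ => ∫ v : ℝ, ‖gg T v - 1‖ * w v) atTop (𝓝 0) := by
    have h0 : (∫ _v : ℝ, (0 : ℝ)) = 0 := by simp
    rw [← h0]
    apply tendsto_integral_filter_of_dominated_convergence
      (fun v => C * Real.exp ((C + |B|) * |v| - 1 / (8 * τ) * v ^ 2) + w v)
    · filter_upwards with T
      apply Continuous.aestronglyMeasurable
      have := dc_asy_gg_cont T
      have h3 : Continuous w := by rw [hw]; fun_prop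
      exact (((this.sub continuous_const).norm).mul h3)
    · filter_upwards [eventually_ge_atTop T₁] with T hT
      filter_upwards with v
      have hwv : 0 < w v := Real.exp_pos _
      rw [Real.norm_eq_abs, abs_of_nonneg (by positivity), ← hprod v]
      have h1 : ‖gg T v - 1‖ ≤ C * Real.exp (C * |v| + 1 / (8 * τ) * v ^ 2) + 1 := by
        calc ‖gg T v - 1‖ ≤ ‖gg T v‖ + ‖(1 : ℂ)‖ := norm_sub_le _ _
          _ ≤ _ := by rw [norm_one]; linarith [hC T v hT]
      calc ‖gg T v - 1‖ * w v ≤ (C * Real.exp (C * |v| + 1 / (8 * τ) * v ^ 2) + 1) * w v := by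
            gcongr
        _ = _ := by ring
    · exact hw2.add hwi
    · filter_upwards with v
      have h1 : Tendsto (fun T : ℝ => ‖gg T v - 1‖) atTop (𝓝 0) := by
        have h2 := ((hg1 v).sub_const 1).norm
        rw [sub_self, norm_zero] at h2
        exact h2
      have h2 := h1.mul_const (w v)
      rw [zero_mul] at h2
      exact h2
  -- choose T₀
  have hN : 0 < Nt τ := Nt_pos hτ
  have hδ : 0 < ε / (Nt τ * L) := by positivity
  obtain ⟨T₂, hT₂⟩ := (Metric.tendsto_atTop.mp hlim) _ hδ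
  refine ⟨max T₁ T₂, fun T hT ω hω => ?_⟩
  have hTT₁ : T₁ ≤ T := (le_max_left _ _).trans hT
  have hTT₂ : T₂ ≤ T := (le_max_right _ _).trans hT
  have hωB : ‖ω‖ ≤ |B| := hω.trans (le_abs_self B)
  set E : ℝ → ℂ := fun v => cexp (-(v : ℂ) ^ 2 / (4 * τ) - v * ω * I) with hEdef
  have hEn : ∀ v : ℝ, ‖E v‖ ≤ w v := by
    intro v
    rw [hEdef, hw]
    simp only
    rw [Complex.norm_exp]
    apply Real.exp_le_exp.mpr
    have e : (-(v : ℂ) ^ 2 / (4 * τ) - v * ω * I) =
        ((-(1 / (4 * τ) * v ^ 2) : ℝ) : ℂ) - ((v : ℝ) : ℂ) * (ω * I) := by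
      push_cast
      field_simp
    rw [e, sub_re, ofReal_re, re_ofReal_mul, mul_I_re]
    have h1 : -(v * -ω.im) ≤ |B| * |v| := by
      calc -(v * -ω.im) = v * ω.im := by ring
        _ ≤ |v * ω.im| := le_abs_self _
        _ = |ω.im| * |v| := by rw [abs_mul, mul_comm]
        _ ≤ |B| * |v| := by
          apply mul_le_mul_of_nonneg_right _ (abs_nonneg _)
          exact (abs_im_le_norm ω).trans hωB
    linarith
  have hEc : Continuous E := by rw [hEdef]; fun_prop
  have hLc : Continuous (fun v : ℝ => Lf (8 + (T + v) * I)) :=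
    Lf_differentiable.continuous.comp (by fun_prop)
  have hLv : ∀ v : ℝ, ‖Lf (8 + (T + v) * I)‖ ≤ L := by
    intro v
    have := hLf (T + v)
    push_cast at this
    exact this
  have hI1 : Integrable (fun v : ℝ => Lf (8 + (T + v) * I) * E v) := by
    apply (hwi.const_mul L).mono'
    · exact (hLc.mul hEc).aestronglyMeasurable
    · filter_upwards with v
      rw [norm_mul]
      exact mul_le_mul (hLv v) (hEn v) (norm_nonneg _) hLpos.le
  have hI2 : Integrable (fun v : ℝ => gg T v * Lf (8 + (T + v) * I) * E v) := by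
    apply (hw2.const_mul L).mono'
    · exact (((dc_asy_gg_cont T).mul hLc).mul hEc).aestronglyMeasurable
    · filter_upwards with v
      rw [norm_mul, norm_mul, ← hprod v]
      calc ‖gg T v‖ * ‖Lf (8 + (T + v) * I)‖ * ‖E v‖ ≤
          (C * Real.exp (C * |v| + 1 / (8 * τ) * v ^ 2)) * L * w v := by
            apply mul_le_mul _ (hEn v) (norm_nonneg _) (by positivity)
            exact mul_le_mul (hC T v hTT₁) (hLv v) (norm_nonneg _) (by positivity)
        _ = _ := by ring
  have hrep := hr τ T ω hτ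
  have hmain := hm τ T ω hτ
  have hdiff : PP τ T ω - cexp (-(τ * ω ^ 2)) * DD τ (8 + T * I + 2 * τ * ω) =
      (Nt τ : ℂ) * ∫ v : ℝ, (gg T v - 1) * (Lf (8 + (T + v) * I) * E v) := by
    rw [hrep, ← hmain, ← mul_sub]
    congr 1
    rw [← integral_sub hI2 hI1]
    congr 1
    funext v
    ring
  rw [hdiff, norm_mul, Complex.norm_real, Real.norm_eq_abs, abs_of_pos hN]
  have hgw : Integrable (fun v : ℝ => ‖gg T v - 1‖ * w v) := by
    apply (hw2.add hwi).mono'
    · have h3 : Continuous w := by rw [hw]; fun_prop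
      exact ((((dc_asy_gg_cont T).sub continuous_const).norm).mul h3).aestronglyMeasurable
    · filter_upwards with v
      have hwv : 0 < w v := Real.exp_pos _
      rw [Real.norm_eq_abs, abs_of_nonneg (by positivity), Pi.add_apply, ← hprod v]
      have h1 : ‖gg T v - 1‖ ≤ C * Real.exp (C * |v| + 1 / (8 * τ) * v ^ 2) + 1 := by
        calc ‖gg T v - 1‖ ≤ ‖gg T v‖ + ‖(1 : ℂ)‖ := norm_sub_le _ _
          _ ≤ _ := by rw [norm_one]; linarith [hC T v hTT₁]
      calc ‖gg T v - 1‖ * w v ≤ (C * Real.exp (C * |v| + 1 / (8 * τ) * v ^ 2) + 1) * w v := by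
            gcongr
        _ = _ := by ring
  have hle : ‖∫ v : ℝ, (gg T v - 1) * (Lf (8 + (T + v) * I) * E v)‖ ≤
      L * ∫ v : ℝ, ‖gg T v - 1‖ * w v := by
    rw [← integral_const_mul]
    apply norm_integral_le_of_norm_le (hgw.const_mul L)
    filter_upwards with v
    rw [norm_mul, norm_mul]
    calc ‖gg T v - 1‖ * (‖Lf (8 + (T + v) * I)‖ * ‖E v‖) ≤ ‖gg T v - 1‖ * (L * w v) := by
          apply mul_le_mul_of_nonneg_left _ (norm_nonneg _)
          exact mul_le_mul (hLv v) (hEn v) (norm_nonneg _) hLpos.le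
      _ = _ := by ring
  have hD := hT₂ T hTT₂
  rw [Real.dist_eq, sub_zero] at hD
  have hD2 : ∫ v : ℝ, ‖gg T v - 1‖ * w v < ε / (Nt τ * L) := (le_abs_self _).trans_lt hD
  calc Nt τ * ‖∫ v : ℝ, (gg T v - 1) * (Lf (8 + (T + v) * I) * E v)‖ ≤
      Nt τ * (L * ∫ v : ℝ, ‖gg T v - 1‖ * w v) := by gcongr
    _ ≤ Nt τ * (L * (ε / (Nt τ * L))) := by gcongr
    _ = ε := by field_simp

end Pool.Agent.Lib.MP_cd509c_nt.DC
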