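import Pool.Agent.Lib.MP_cd509c_nt.DC.Defs
import Pool.Agent.Lib.MP_cd509c_nt.DN.Check

/-!
# Piece base: short times
-/

set_option autoImplicit false

namespace Pool.Agent.Lib.MP_cd509c_nt.DC

open Complex ComplexConjugate MeasureTheory Filter Topology
open Pool.Agent.Lib.MP_cd509c_nt.DN

theorem dc_base_PhiT_tendsto (u : ℝ) : Tendsto (fun t : ℝ => PhiT t u) (𝓝 0) (𝓝 (PhiT 0 u)) := by
  have h : Continuous (fun t : ℝ => PhiT t u) := by
    unfold PhiT
    fun_prop
  exact h.tendsto 0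

theorem dc_base_PhiT_le {t : ℝ} (ht : |t| ≤ 1) (u : ℝ) : PhiT t u ≤ PhiT 1 u := by
  unfold PhiT
  apply mul_le_mul_of_nonneg_left _ (Phi_pos u).le
  apply Real.exp_le_exp.2
  have h1 : t ≤ 1 := (le_abs_self t).trans ht
  have h2 : 0 ≤ u ^ 2 := sq_nonneg u
  nlinarith

/-- the distance of the kernels -/
theorem dc_base_dist (R : ℝ) :
    Tendsto (fun t : ℝ => ∫ u : ℝ, |PhiT t u - PhiT 0 u| * Real.exp (R * |u|)) (𝓝 0) (𝓝 0) := by
  have h0 : (0 : ℝ) = ∫ u : ℝ, |PhiT 0 u - PhiT 0 u| * Real.exp (R * |u|) := by simp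
  conv => rhs; rw [h0]
  apply tendsto_integral_filter_of_dominated_convergence
    (fun u : ℝ => 2 * (PhiT 1 u * Real.exp (R * |u|)))
  · refine Eventually.of_forall fun t => ?_
    exact ((((PhiT_continuous t).sub (PhiT_continuous 0)).abs).mul
      (by fun_prop)).aestronglyMeasurable
  · have h1 : ∀ᶠ t : ℝ in 𝓝 0, |t| ≤ 1 := by
      have : Metric.ball (0 : ℝ) 1 ∈ 𝓝 (0 : ℝ) := Metric.ball_mem_nhds _ one_pos
      filter_upwards [this] with t ht
      rw [Metric.mem_ball, Real.dist_eq, sub_zero] at ht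
      exact ht.le
    filter_upwards [h1] with t ht
    refine Eventually.of_forall fun u => ?_
    rw [Real.norm_of_nonneg (by positivity)]
    have h2 := dc_base_PhiT_le ht u
    have h3 := dc_base_PhiT_le (t := 0) (by simp) u
    have h4 := (PhiT_pos t u).le
    have h5 := (PhiT_pos 0 u).le
    have h6 : |PhiT t u - PhiT 0 u| ≤ 2 * PhiT 1 u := by
      rw [abs_le]
      constructor <;> linarith
    calc |PhiT t u - PhiT 0 u| * Real.exp (R * |u|) ≤ 2 * PhiT 1 u * Real.exp (R * |u|) :=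
          mul_le_mul_of_nonneg_right h6 (Real.exp_pos _).le
      _ = _ := by ring
  · exact (integrable_PhiT_exp 1 R).const_mul 2
  · refine Eventually.of_forall fun u => ?_
    have h := dc_base_PhiT_tendsto u
    exact ((h.sub_const (PhiT 0 u)).abs).mul_const _

theorem dc_base_cexp (R u : ℝ) (z : ℂ) (hz : ‖z‖ ≤ R) :
    ‖cexp (I * z * u)‖ ≤ Real.exp (R * |u|) := by
  rw [Complex.norm_exp]
  apply Real.exp_le_exp.2
  have h1 : (I * z * u).re ≤ ‖I * z * (u : ℂ)‖ := Complex.re_le_norm _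
  rw [norm_mul, norm_mul, Complex.norm_I, one_mul, Complex.norm_real, Real.norm_eq_abs] at h1
  exact h1.trans (mul_le_mul_of_nonneg_right hz (abs_nonneg u))

theorem dc_base_bound (R t : ℝ) (z : ℂ) (hz : ‖z‖ ≤ R) :
    ‖Ht t z - Ht 0 z‖ ≤ ∫ u : ℝ, |PhiT t u - PhiT 0 u| * Real.exp (R * |u|) := by
  rw [Ht_eq, Ht_eq, ← integral_sub (integrable_PhiT_cexp t (I * z))
    (integrable_PhiT_cexp 0 (I * z))]
  refine (norm_integral_le_integral_norm _).trans ?_
  apply integral_mono_of_nonneg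
  · exact Eventually.of_forall fun u => norm_nonneg _
  · have h1 : Integrable (fun u : ℝ => (PhiT t u - PhiT 0 u) * Real.exp (R * |u|)) := by
      have := (integrable_PhiT_exp t R).sub (integrable_PhiT_exp 0 R)
      refine this.congr (Eventually.of_forall fun u => ?_)
      simp only [Pi.sub_apply]
      ring
    refine h1.norm.congr (Eventually.of_forall fun u => ?_)
    simp only [norm_mul, Real.norm_eq_abs, abs_of_pos (Real.exp_pos _)]
  · refine Eventually.of_forall fun u => ?_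
    have e : (PhiT t u : ℂ) * cexp (I * z * u) - (PhiT 0 u : ℂ) * cexp (I * z * u) =
        ((PhiT t u - PhiT 0 u : ℝ) : ℂ) * cexp (I * z * u) := by
      push_cast
      ring
    simp only [e, norm_mul, Complex.norm_real, Real.norm_eq_abs]
    exact mul_le_mul_of_nonneg_left (dc_base_cexp R u z hz) (abs_nonneg _)

theorem dc_base_loc0 : TendstoLocallyUniformlyOn (fun t : ℝ => Ht t) (Ht 0) (𝓝 0) Set.univ := by
  rw [Metric.tendstoLocallyUniformlyOn_iff]
  intro ε hε z _
  refine ⟨Metric.ball z 1, mem_nhdsWithin_of_mem_nhds (Metric.ball_mem_nhds z one_pos), ?_⟩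
  have h1 := (dc_base_dist (‖z‖ + 1)).eventually (gt_mem_nhds hε)
  filter_upwards [h1] with t ht w hw
  have hw' : ‖w‖ ≤ ‖z‖ + 1 := by
    rw [mem_ball_iff_norm] at hw
    have := norm_le_norm_add_norm_sub' w z
    linarith
  rw [dist_comm, dist_eq_norm]
  exact (dc_base_bound _ t w hw').trans_lt ht

theorem dc_base_loc (hne : S_ne) (n : ℕ) :
    TendstoLocallyUniformlyOn (fun t : ℝ => HD n t) (HD n 0) (𝓝 0) Set.univ := by
  induction n with
  | zero =>
    have e : ∀ t, HD 0 t = Ht t := fun t => by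
      unfold HD
      rw [iteratedDeriv_zero]
    simp only [e]
    exact dc_base_loc0
  | succ n ih =>
    have e : ∀ t, HD (n + 1) t = deriv (HD n t) := fun t => by
      unfold HD
      rw [iteratedDeriv_succ]
    simp only [e]
    exact ih.deriv (Eventually.of_forall fun t => ((hne n t).1).differentiableOn) isOpen_univ

/-- joint continuity at time `0` -/
theorem dc_base_joint (hne : S_ne) (n : ℕ) (z : ℂ) (ε : ℝ) (hε : 0 < ε) :
    ∀ᶠ p : ℝ × ℂ in 𝓝 ((0 : ℝ), z), ‖HD n p.1 p.2 - HD n 0 z‖ < ε := by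
  have h1 := (Metric.tendstoLocallyUniformlyOn_iff.1 (dc_base_loc hne n)) (ε / 2) (by linarith) z
    (Set.mem_univ z)
  obtain ⟨S, hS, hS2⟩ := h1
  rw [nhdsWithin_univ] at hS
  have h2 : ∀ᶠ w in 𝓝 z, ‖HD n 0 w - HD n 0 z‖ < ε / 2 := by
    have := ((hne n 0).1.continuous.tendsto z).eventually
      (Metric.ball_mem_nhds (HD n 0 z) (show 0 < ε / 2 by linarith))
    filter_upwards [this] with w hw
    rwa [dist_eq_norm] at hw
  rw [nhds_prod_eq]
  filter_upwards [hS2.prod_mk (Filter.inter_mem hS h2)] with p hp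
  obtain ⟨hp1, hp2, hp3⟩ := hp
  have h3 := hp1 p.2 hp2
  rw [dist_comm, dist_eq_norm] at h3
  have hp4 : ‖HD n 0 p.2 - HD n 0 z‖ < ε / 2 := hp3
  calc ‖HD n p.1 p.2 - HD n 0 z‖ = ‖(HD n p.1 p.2 - HD n 0 p.2) + (HD n 0 p.2 - HD n 0 z)‖ := by
        congr 1
        ring
    _ ≤ ‖HD n p.1 p.2 - HD n 0 p.2‖ + ‖HD n 0 p.2 - HD n 0 z‖ := norm_add_le _ _
    _ < ε := by linarith

/-- near a real simple zero all zeros are real -/
theorem dc_base_near (hne : S_ne) (n : ℕ) (z : ℂ)
    (hz : HD n 0 z = 0 → z.im = 0 ∧ HD (n + 1) 0 z ≠ 0) :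
    ∀ᶠ p : ℝ × ℂ in 𝓝 ((0 : ℝ), z), HD n p.1 p.2 = 0 → p.2.im = 0 := by
  by_cases h0 : HD n 0 z = 0
  · obtain ⟨him, hd⟩ := hz h0
    have hc : 0 < ‖HD (n + 1) 0 z‖ := norm_pos_iff.2 hd
    have h1 := dc_base_joint hne (n + 1) z (‖HD (n + 1) 0 z‖ / 2) (by linarith)
    rw [Metric.eventually_nhds_iff_ball] at h1
    obtain ⟨r, hr, hball⟩ := h1
    rw [Metric.eventually_nhds_iff_ball]
    refine ⟨r, hr, fun p hp hp0 => ?_⟩
    rw [← ball_prod_same, Set.mem_prod] at hp
    obtain ⟨hp1, hp2⟩ := hp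
    by_contra him2
    have hcz : conj z = z := Complex.conj_eq_iff_im.2 him
    have hp3 : conj p.2 ∈ Metric.ball z r := by
      rw [mem_ball_iff_norm] at hp2 ⊢
      have : conj p.2 - z = conj (p.2 - z) := by rw [map_sub, hcz]
      rw [this, Complex.norm_conj]
      exact hp2
    have hp4 : HD n p.1 (conj p.2) = 0 := by rw [(hne n p.1).2.2.1, hp0, map_zero]
    have hder : ∀ w : ℂ, HasDerivAt (fun w => HD n p.1 w - HD (n + 1) 0 z * w)
        (HD (n + 1) p.1 w - HD (n + 1) 0 z) w := by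
      intro w
      have e1 : HasDerivAt (HD n p.1) (HD (n + 1) p.1 w) w := by
        have := ((hne n p.1).1 w).hasDerivAt
        have e : deriv (HD n p.1) = HD (n + 1) p.1 := by
          unfold HD
          rw [iteratedDeriv_succ]
        rwa [e] at this
      have e2 : HasDerivAt (fun w : ℂ => HD (n + 1) 0 z * w) (HD (n + 1) 0 z * 1) w :=
        (hasDerivAt_id w).const_mul _
      rw [mul_one] at e2
      exact e1.sub e2
    have hlip := (convex_ball z r).norm_image_sub_le_of_norm_hasDerivWithin_le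
      (f := fun w => HD n p.1 w - HD (n + 1) 0 z * w)
      (f' := fun w => HD (n + 1) p.1 w - HD (n + 1) 0 z) (C := ‖HD (n + 1) 0 z‖ / 2)
      (fun w _ => (hder w).hasDerivWithinAt)
      (fun w hw => (hball (p.1, w) (by
        rw [← ball_prod_same]
        exact ⟨hp1, hw⟩)).le) hp3 hp2
    have e : (HD n p.1 p.2 - HD (n + 1) 0 z * p.2) -
        (HD n p.1 (conj p.2) - HD (n + 1) 0 z * conj p.2) =
        -(HD (n + 1) 0 z * (p.2 - conj p.2)) := by
      rw [hp0, hp4]
      ring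
    simp only [e, norm_neg, norm_mul] at hlip
    have hne2 : 0 < ‖p.2 - conj p.2‖ := by
      rw [norm_pos_iff, sub_ne_zero]
      intro h
      exact him2 (Complex.conj_eq_iff_im.1 h.symm)
    have h5 : 0 < ‖HD (n + 1) 0 z‖ * ‖p.2 - conj p.2‖ := mul_pos hc hne2
    linarith
  · have hc : 0 < ‖HD n 0 z‖ := norm_pos_iff.2 h0
    filter_upwards [dc_base_joint hne n z ‖HD n 0 z‖ hc] with p hp hp0
    exfalso
    rw [hp0, zero_sub, norm_neg] at hp
    exact lt_irrefl _ hp

theorem dc_base_aux (hne : S_ne) (hstrip : S_strip)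
    (hX : ∃ C : ℝ, 0 < C ∧ ∀ n : ℕ, C ≤ n → ∀ z : ℂ, iteratedDeriv n Xi z = 0 →
      |z.re| ≤ Real.exp (n / C) → z.im = 0 ∧ deriv (iteratedDeriv n Xi) z ≠ 0) : S_base := by
  obtain ⟨C, hC, hX⟩ := hX
  obtain ⟨B, hB, hSB⟩ := hstrip
  refine ⟨max C 1, le_max_right _ _, fun n hn => ?_⟩
  have hnC : C ≤ n := (le_max_left _ _).trans hn
  have hX0 : Ht 0 = Xi := by
    funext z
    rw [Ht_zero]
    rfl
  have hK : IsCompact (Set.Icc (-Real.exp (n / max C 1)) (Real.exp (n / max C 1)) ×ℂ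
      Set.Icc (-B) B) := isCompact_Icc.reProdIm isCompact_Icc
  have hev := hK.eventually_forall_of_forall_eventually (x₀ := (0 : ℝ))
    (P := fun (t : ℝ) (z : ℂ) => HD n t z = 0 → z.im = 0) (by
      intro z hz
      apply dc_base_near hne n z
      intro h0
      have h1 : |z.re| ≤ Real.exp (n / C) := by
        have h2 : z.re ∈ Set.Icc (-Real.exp (n / max C 1)) (Real.exp (n / max C 1)) := hz.1
        have h3 : Real.exp (n / max C 1) ≤ Real.exp (n / C) := by
          apply Real.exp_le_exp.2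
          exact div_le_div_of_nonneg_left (Nat.cast_nonneg n) hC (le_max_left _ _)
        rw [abs_le]
        constructor
        · linarith [h2.1]
        · linarith [h2.2]
      have h2 : iteratedDeriv n Xi z = 0 := by
        rw [← hX0]
        exact h0
      have h3 := hX n hnC z h2 h1
      refine ⟨h3.1, ?_⟩
      unfold HD
      rw [hX0, iteratedDeriv_succ]
      exact h3.2)
  rw [Metric.eventually_nhds_iff] at hev
  obtain ⟨ε, hε, hev⟩ := hev
  refine ⟨ε / 2, by linarith, fun t ht0 ht1 z hz h0 => ?_⟩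
  refine hev (y := t) (by rw [Real.dist_eq, sub_zero, abs_of_nonneg ht0]; linarith) z ?_ h0
  have h1 := hSB n t ht0 z h0
  rw [Complex.mem_reProdIm]
  exact ⟨abs_le.1 hz, abs_le.1 h1⟩

theorem p_base (hne : S_ne) (hstrip : S_strip) : S_base :=
  dc_base_aux hne hstrip (check_D finalD)

end Pool.Agent.Lib.MP_cd509c_nt.DC
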