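import Pool.Agent.Lib.MP_cd509c_nt.DC.Defs

/-!
# Piece blkM: mixed flow, one block
-/

set_option autoImplicit false

namespace Pool.Agent.Lib.MP_cd509c_nt.DC

open Complex ComplexConjugate MeasureTheory Filter Topology
open Pool.Agent.Lib.MP_cd509c_nt.DN

/-- a zero may be moved to the quadrant `re > 0`, `im < 0` -/
theorem dc_blkM_move (hne : S_ne) (n : ℕ) (t x : ℝ) (z : ℂ) (hx : |z.re| = x)
    (h : HD n t z = 0) : HD n t ((x : ℂ) - I * (|z.im| : ℝ)) = 0 := by
  obtain ⟨-, -, hc, hp⟩ := hne n t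
  have hz1 : HD n t (conj z) = 0 := by rw [hc, h, map_zero]
  have hz2 : HD n t (-z) = 0 := by rw [hp, h, mul_zero]
  have hz3 : HD n t (-conj z) = 0 := by rw [hp, hz1, mul_zero]
  rcases abs_choice z.re with h1 | h1 <;> rcases abs_choice z.im with h2 | h2
  · have e : (x : ℂ) - I * (|z.im| : ℝ) = conj z := by
      rw [← hx, h1, h2]
      apply Complex.ext <;> simp
    rw [e]
    exact hz1
  · have e : (x : ℂ) - I * (|z.im| : ℝ) = z := by
      rw [← hx, h1, h2]
      apply Complex.ext <;> simp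
    rw [e]
    exact h
  · have e : (x : ℂ) - I * (|z.im| : ℝ) = -z := by
      rw [← hx, h1, h2]
      apply Complex.ext <;> simp
    rw [e]
    exact hz2
  · have e : (x : ℂ) - I * (|z.im| : ℝ) = -conj z := by
      rw [← hx, h1, h2]
      apply Complex.ext <;> simp
    rw [e]
    exact hz3

theorem p_blkM (hne : S_ne) (hstrip : S_strip) (h12 : S_H12) (hgav : S_gav) (htr : S_toReg)
    (hlink : S_link) (hPD : S_PD) : S_blkM := by
  intro K hK
  obtain ⟨C₂, A₁, hC₂, hA₁, H12⟩ := h12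
  obtain ⟨A₂, hA₂, GAV⟩ := hgav K C₂ hK hC₂
  obtain ⟨ε₀, N₀, hε₀, hN₀, PD⟩ := hPD
  obtain ⟨A₃, hA₃, TR⟩ := htr ε₀ (C₂ + 8 * K) hε₀ (by linarith)
  obtain ⟨B, hB, SB⟩ := hstrip
  refine ⟨A₁ + A₂ + A₃ + B, by linarith, fun A hA => ?_⟩
  have hA1 : A₁ ≤ A := by linarith
  have hA2 : A₂ ≤ A := by linarith
  have hA3 : A₃ ≤ A := by linarith
  have hAB : B ≤ A := by linarith
  have hA0 : 1 ≤ A := by linarith
  obtain ⟨x₁, hx₁, H12⟩ := H12 A hA1
  obtain ⟨l₀, hl₀, GAV⟩ := GAV A hA2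
  obtain ⟨l₁, hl₁, TR⟩ := TR A hA3
  refine ⟨x₁ + Real.exp (l₀ + l₁ + N₀ + K), by linarith [Real.exp_pos (l₀ + l₁ + N₀ + K)],
    fun n x t hx ht htK hn1 hn2 z hzre hz => ?_⟩
  have hx0 : 0 < x := by linarith [Real.exp_pos (l₀ + l₁ + N₀ + K)]
  obtain ⟨l, hl⟩ : ∃ l : ℝ, l = Real.log x := ⟨_, rfl⟩
  have hlb : l₀ + l₁ + N₀ + K ≤ l := by
    rw [hl, Real.le_log_iff_exp_le hx0]
    linarith
  have hl0 : 0 < l := by linarith
  rw [← hl] at htK hn1 hn2
  obtain ⟨hr1, hr2, hmain, hcr⟩ := H12 x (by linarith [Real.exp_pos (l₀ + l₁ + N₀ + K)])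
  rw [← hl] at hr1 hcr
  by_contra him
  obtain ⟨a, ha⟩ : ∃ a : ℝ, a = n / l := ⟨_, rfl⟩
  have hal : a * l = n := by
    rw [ha]
    field_simp
  have haA : A ≤ a := by
    rw [ha, le_div_iff₀ hl0]
    exact hn1
  have ha2A : a ≤ 2 * A := by
    rw [ha, div_le_iff₀ hl0]
    linarith
  have ha0 : 0 < a := by linarith
  have ht1 : t ≤ 1 := by
    by_contra hcon
    push Not at hcon
    have h1 : l < t * l := by nlinarith
    linarith
  have hHt : Differentiable ℂ (Ht t) := by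
    have := (hne 0 t).1
    unfold HD at this
    rwa [iteratedDeriv_zero] at this
  have hfd : Differentiable ℂ (fx x) := by
    have h1 : Differentiable ℂ (fun w : ℂ => Lam (s0 x + w)) :=
      Lam_differentiable.comp (by fun_prop)
    exact h1.div_const _
  obtain ⟨G1, G2⟩ := GAV l t (rho x) (fx x) (by linarith) ht htK hr1 hr2 hfd hmain hcr
  have hGv : ∀ w, Gv t (fx x) w = Ht t (x - I * w) / m0 x := fun w => hlink.1 t x w ht
  have hGd : Differentiable ℂ (Gv t (fx x)) := by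
    have e : Gv t (fx x) = fun w => Ht t (x - I * w) / m0 x := funext hGv
    rw [e]
    have h1 : Differentiable ℂ (fun w : ℂ => Ht t (x - I * w)) := hHt.comp (by fun_prop)
    exact h1.div_const _
  have hreg := TR l t a (rho x) (Gv t (fx x)) (by linarith) ht ht1 haA ha2A hr1 hr2 hGd G1 G2
  rw [hal] at hreg
  have hla : la n (fun z => Gv t (fx x) (a * z) * cexp (-((n : ℝ) * z))) =
      fun z : ℂ => Ht t (x - I * (a * z)) / m0 x := by
    funext w
    unfold la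
    beta_reduce
    rw [hGv]
    have e : cexp (((n : ℝ) : ℂ) * w) * cexp (-(((n : ℝ) : ℂ) * w)) = 1 := by
      rw [← Complex.exp_add, add_neg_cancel, Complex.exp_zero]
    calc cexp (((n : ℝ) : ℂ) * w) * (Ht t (x - I * (a * w)) / m0 x * cexp (-(((n : ℝ) : ℂ) * w)))
        = (cexp (((n : ℝ) : ℂ) * w) * cexp (-(((n : ℝ) : ℂ) * w))) *
          (Ht t (x - I * (a * w)) / m0 x) := by ring
      _ = _ := by rw [e, one_mul]
  have hsym : Sym (la n (fun z => Gv t (fx x) (a * z) * cexp (-((n : ℝ) * z)))) := by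
    rw [hla]
    exact hlink.2.2 t x a
  have hPDn := (PD n ε₀ 1 40 _ hε₀ le_rfl (by nlinarith) le_rfl (by norm_num) hreg hsym).1 rfl
  obtain ⟨y, hy⟩ : ∃ y : ℝ, y = |z.im| / a := ⟨_, rfl⟩
  have hy0 : 0 < y := by
    rw [hy]
    exact div_pos (abs_pos.2 him) ha0
  have hyB : y ≤ 1 := by
    rw [hy, div_le_one ha0]
    have := SB n t ht.le z hz
    linarith
  have h1 := hPDn y hy0 (by linarith)
  rw [hla, hlink.2.1 n t x a y] at h1
  apply h1
  have h2 := dc_blkM_move hne n t x z hzre hz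
  have h3 : (x : ℂ) - I * ((a : ℂ) * (y : ℂ)) = (x : ℂ) - I * (|z.im| : ℝ) := by
    have : a * y = |z.im| := by
      rw [hy]
      field_simp
    rw [← this]
    push_cast
    ring
  rw [h3, h2]
  simp

end Pool.Agent.Lib.MP_cd509c_nt.DC
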