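import Pool.Agent.Lib.MP_cd509c_nt.DC.Defs

/-!
# Piece closed: the set of the `t` for which all zeros of `H_t^(n)` are real is closed from the right
-/

set_option autoImplicit false

namespace Pool.Agent.Lib.MP_cd509c_nt.DC

open Complex ComplexConjugate MeasureTheory Filter Topology
open Pool.Agent.Lib.MP_cd509c_nt.DN

theorem dc_closed_mono (u : ℝ) {s t : ℝ} (h : s ≤ t) : PhiT s u ≤ PhiT t u := by
  unfold PhiT
  apply mul_le_mul_of_nonneg_left _ (Phi_pos u).le
  apply Real.exp_le_exp.mpr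
  exact mul_le_mul_of_nonneg_right h (sq_nonneg u)

/-- the difference of two kernels -/
noncomputable def dc_closed_I (t R : ℝ) (m : ℕ) : ℝ :=
  ∫ u : ℝ, (PhiT (t + 1 / ((m : ℝ) + 1)) u - PhiT t u) * Real.exp (R * |u|)

theorem dc_closed_lim (t R : ℝ) (hR : 0 ≤ R) : Tendsto (dc_closed_I t R) atTop (𝓝 0) := by
  have h0 : (∫ _ : ℝ, (0 : ℝ)) = 0 := by simp
  rw [← h0]
  unfold dc_closed_I
  refine tendsto_integral_of_dominated_convergence
    (fun u => PhiT (t + 1) u * Real.exp (R * |u|)) ?_ ((Ker_PhiT (t + 1)).integrable_exp R hR)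
    ?_ ?_
  · intro m
    exact (((PhiT_continuous _).sub (PhiT_continuous _)).mul (by fun_prop)).aestronglyMeasurable
  · intro m
    refine Eventually.of_forall fun u => ?_
    have hm : 0 < 1 / ((m : ℝ) + 1) := by positivity
    have hm1 : 1 / ((m : ℝ) + 1) ≤ 1 := by
      rw [div_le_one (by positivity)]
      have : (0 : ℝ) ≤ m := Nat.cast_nonneg m
      linarith
    have h1 : PhiT t u ≤ PhiT (t + 1 / ((m : ℝ) + 1)) u := dc_closed_mono u (by linarith)
    have h2 : PhiT (t + 1 / ((m : ℝ) + 1)) u ≤ PhiT (t + 1) u := dc_closed_mono u (by linarith)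
    have h3 := PhiT_pos t u
    have h4 : 0 ≤ PhiT (t + 1 / ((m : ℝ) + 1)) u - PhiT t u := by linarith
    rw [Real.norm_of_nonneg (mul_nonneg h4 (Real.exp_pos _).le)]
    apply mul_le_mul_of_nonneg_right _ (Real.exp_pos _).le
    linarith
  · refine Eventually.of_forall fun u => ?_
    have h1 : Tendsto (fun m : ℕ => t + 1 / ((m : ℝ) + 1)) atTop (𝓝 (t + 0)) :=
      tendsto_const_nhds.add (tendsto_one_div_add_atTop_nhds_zero_nat (𝕜 := ℝ))
    rw [add_zero] at h1
    have hc : Continuous fun s : ℝ => (PhiT s u - PhiT t u) * Real.exp (R * |u|) := by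
      unfold PhiT
      fun_prop
    have h2 := (hc.tendsto t).comp h1
    simpa [Function.comp_def] using h2

theorem dc_closed_diff (t R : ℝ) (hR : 0 ≤ R) (m : ℕ) (z : ℂ) (hz : ‖z‖ ≤ R) :
    ‖Ht t z - Ht (t + 1 / ((m : ℝ) + 1)) z‖ ≤ dc_closed_I t R m := by
  rw [norm_sub_rev, ← FT_PhiT, ← FT_PhiT]
  unfold FT dc_closed_I
  rw [← integral_sub ((Ker_PhiT _).integrable_cexp _) ((Ker_PhiT _).integrable_cexp _)]
  have hm : 0 < 1 / ((m : ℝ) + 1) := by positivity
  apply norm_integral_le_of_norm_le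
  · have h2 := ((Ker_PhiT (t + 1 / ((m : ℝ) + 1))).integrable_exp R hR).sub
      ((Ker_PhiT t).integrable_exp R hR)
    refine h2.congr (Eventually.of_forall fun u => ?_)
    simp only [Pi.sub_apply]
    ring
  · refine Eventually.of_forall fun u => ?_
    rw [← sub_mul, norm_mul, ← Complex.ofReal_sub, Complex.norm_real]
    have h3 : 0 ≤ PhiT (t + 1 / ((m : ℝ) + 1)) u - PhiT t u := by
      have := dc_closed_mono u (show t ≤ t + 1 / ((m : ℝ) + 1) by linarith)
      linarith
    rw [Real.norm_of_nonneg h3]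
    apply mul_le_mul_of_nonneg_left _ h3
    rw [Complex.norm_exp]
    apply Real.exp_le_exp.mpr
    refine (Complex.re_le_norm _).trans ?_
    rw [norm_mul, norm_mul, Complex.norm_I, one_mul, Complex.norm_real, Real.norm_eq_abs]
    exact mul_le_mul_of_nonneg_right hz (abs_nonneg _)

theorem p_closed (hne : S_ne) : S_closed := by
  intro n t h z hz
  by_contra him
  have hyp : 0 < |z.im| := abs_pos.mpr him
  set R : ℝ := ‖z‖ + 2 with hRdef
  have hR : 0 ≤ R := by positivity
  -- locally uniform convergence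
  have hconv : TendstoLocallyUniformlyOn (fun m : ℕ => Ht (t + 1 / ((m : ℝ) + 1))) (Ht t) atTop
      (Metric.ball (0 : ℂ) R) := by
    apply TendstoUniformlyOn.tendstoLocallyUniformlyOn
    rw [Metric.tendstoUniformlyOn_iff]
    intro ε hε
    filter_upwards [(dc_closed_lim t R hR).eventually_lt_const hε] with m hm w hw
    rw [dist_eq_norm]
    exact lt_of_le_of_lt (dc_closed_diff t R hR m w (mem_ball_zero_iff.mp hw).le) hm
  have hdiff : ∀ s : ℝ, Differentiable ℂ (Ht s) := by
    intro s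
    have h1 := (Ker_PhiT s).FT_differentiable
    have h2 : FT (PhiT s) = Ht s := funext fun w => FT_PhiT s w
    rwa [h2] at h1
  have hconvn := tendsto_iteratedDeriv (fun m : ℕ => Ht (t + 1 / ((m : ℝ) + 1)))
    (fun m => hdiff _) Metric.isOpen_ball hconv n
  set ε : ℝ := min 1 |z.im| with hεdef
  have hε : 0 < ε := lt_min one_pos hyp
  have hsub : Metric.closedBall z ε ⊆ Metric.ball (0 : ℂ) R := by
    intro w hw
    rw [mem_closedBall_iff_norm] at hw
    rw [mem_ball_zero_iff]
    have h1 := norm_add_le (w - z) z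
    rw [sub_add_cancel] at h1
    have h2 : ε ≤ 1 := min_le_left _ _
    linarith
  have hunif := (tendstoLocallyUniformlyOn_iff_forall_isCompact Metric.isOpen_ball).mp hconvn _
    hsub (isCompact_closedBall z ε)
  obtain ⟨hd, ⟨v0, hv0⟩, -, -⟩ := hne n t
  refine hurwitz_ne_zero hd v0 hv0 (G := fun m : ℕ => HD n (t + 1 / ((m : ℝ) + 1)))
    (fun m => (hne n _).1) z hε ?_ (hunif.mono Metric.ball_subset_closedBall) hz
  intro m v hv hv'
  have h1 := h (t + 1 / ((m : ℝ) + 1)) (by
    have : 0 < 1 / ((m : ℝ) + 1) := by positivity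
    linarith) v hv'
  rw [mem_ball_iff_norm] at hv
  have h2 : |(v - z).im| ≤ ‖v - z‖ := Complex.abs_im_le_norm _
  rw [Complex.sub_im, h1, zero_sub, abs_neg] at h2
  have h3 : ε ≤ |z.im| := min_le_right _ _
  linarith

end Pool.Agent.Lib.MP_cd509c_nt.DC
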