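import Pool.Agent.Lib.MP_cd509c_nt.DC.Defs

/-!
# The derivatives of `H_{-τ}` in terms of `Pn`
-/

set_option autoImplicit false

namespace Pool.Agent.Lib.MP_cd509c_nt.DC

open Complex ComplexConjugate MeasureTheory Filter Topology
open Pool.Agent.Lib.MP_cd509c_nt.DN

theorem dc_der_G8 (T : ℝ) : G8 T ≠ 0 := by
  unfold G8
  refine mul_ne_zero ?_ ?_
  · have h : (2 * Real.pi : ℂ) ≠ 0 := by
      have := Real.pi_ne_zero
      exact_mod_cast mul_ne_zero two_ne_zero this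
    rw [Complex.cpow_def_of_ne_zero h]
    exact Complex.exp_ne_zero _
  · apply Complex.Gamma_ne_zero_of_re_pos
    simp

theorem dc_der_r8 (T : ℝ) : r8 T ≠ 0 := by
  intro h
  have h1 : (r8 T).re = 0 := by rw [h, Complex.zero_re]
  unfold r8 at h1
  rw [Complex.sub_re, Complex.log_re, Complex.ofReal_re] at h1
  have h2 : (8 : ℝ) ≤ ‖(8 + T * I : ℂ)‖ := by
    have h3 := Complex.abs_re_le_norm (8 + T * I : ℂ)
    have h4 : (8 + T * I : ℂ).re = 8 := by simp
    rw [h4] at h3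
    exact (le_abs_self _).trans h3
  have h5 : Real.log (2 * Real.pi) < Real.log 8 := by
    apply Real.log_lt_log (by positivity)
    have := Real.pi_lt_d2
    linarith
  have h6 : Real.log 8 ≤ Real.log ‖(8 + T * I : ℂ)‖ := Real.log_le_log (by norm_num) h2
  linarith

theorem dc_der_wp (τ T : ℝ) (ω : ℂ) :
    HasDerivAt (fun ω : ℂ => -(I * wp τ T ω)) (-(2 * τ * I : ℂ)) ω := by
  have h1 : HasDerivAt (fun ω : ℂ => wp τ T ω) (2 * τ : ℂ) ω := by
    unfold wp
    have h2 : HasDerivAt (fun ω : ℂ => ω + r8 T) 1 ω := (hasDerivAt_id ω).add_const _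
    have h3 := (h2.const_mul (2 * τ : ℂ)).const_add (2 + T * I)
    rwa [mul_one] at h3
  have h4 := (h1.const_mul I).neg
  have e : -(I * (2 * τ : ℂ)) = -(2 * τ * I : ℂ) := by ring
  rwa [e] at h4

theorem dc_der_exp (τ T : ℝ) (ω : ℂ) :
    HasDerivAt (fun ω : ℂ => cexp (τ * (ω + r8 T) ^ 2))
      (cexp (τ * (ω + r8 T) ^ 2) * (2 * τ * (ω + r8 T))) ω := by
  have h2 : HasDerivAt (fun ω : ℂ => ω + r8 T) 1 ω := (hasDerivAt_id ω).add_const _
  have h3 := ((h2.pow 2).const_mul (τ : ℂ)).cexp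
  refine h3.congr_deriv ?_
  show cexp (τ * (ω + r8 T) ^ 2) * _ = _
  push_cast
  ring

/-- the derivatives of `H_{-τ}` in terms of `Pn` -/
theorem p_der (hne : S_ne) : S_der := by
  intro τ T ω n hτ
  have hτ' : (τ : ℂ) ≠ 0 := by exact_mod_cast hτ.ne'
  have hG := dc_der_G8 T
  have hr := dc_der_r8 T
  have hc : (2 * τ * r8 T : ℂ) ≠ 0 := mul_ne_zero (mul_ne_zero two_ne_zero hτ') hr
  induction n generalizing ω with
  | zero =>
    have h1 : HD 0 (-τ) = Ht (-τ) := iteratedDeriv_zero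
    rw [h1, pow_zero, pow_zero, one_mul, mul_one]
    show _ = _ * PP τ T ω
    unfold PP
    have := Complex.exp_ne_zero (τ * (ω + r8 T) ^ 2)
    field_simp
  | succ n ih =>
    have hHD : ∀ z, HasDerivAt (HD n (-τ)) (HD (n + 1) (-τ) z) z := by
      intro z
      have h1 := ((hne n (-τ)).1 z).hasDerivAt
      have h2 : HD (n + 1) (-τ) = deriv (HD n (-τ)) := iteratedDeriv_succ
      rw [h2]
      exact h1
    have hl : ∀ ω, HasDerivAt (fun ω : ℂ => (-(2 * τ * I : ℂ)) ^ n * HD n (-τ) (-(I * wp τ T ω)))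
        ((-(2 * τ * I : ℂ)) ^ (n + 1) * HD (n + 1) (-τ) (-(I * wp τ T ω))) ω := by
      intro ω
      have h1 := ((hHD (-(I * wp τ T ω))).comp ω (dc_der_wp τ T ω)).const_mul
        ((-(2 * τ * I : ℂ)) ^ n)
      refine h1.congr_deriv ?_
      ring
    have hP : Pn τ (r8 T) (PP τ T) n = fun ω => ((-(2 * τ * I : ℂ)) ^ n *
        HD n (-τ) (-(I * wp τ T ω))) / (G8 T * cexp (τ * (ω + r8 T) ^ 2) *
          (2 * τ * r8 T) ^ n) := by
      funext ω
      rw [ih ω, mul_comm (G8 T * cexp (τ * (ω + r8 T) ^ 2) * (2 * τ * r8 T) ^ n),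
        mul_div_cancel_right₀]
      exact mul_ne_zero (mul_ne_zero hG (Complex.exp_ne_zero _)) (pow_ne_zero n hc)
    have hPd : DifferentiableAt ℂ (Pn τ (r8 T) (PP τ T) n) ω := by
      rw [hP]
      refine (hl ω).differentiableAt.div ?_ ?_
      · exact ((dc_der_exp τ T ω).differentiableAt.const_mul (G8 T)).mul_const _
      · exact mul_ne_zero (mul_ne_zero hG (Complex.exp_ne_zero _)) (pow_ne_zero n hc)
    have hrr : HasDerivAt (fun ω : ℂ => G8 T * cexp (τ * (ω + r8 T) ^ 2) * (2 * τ * r8 T) ^ n *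
        Pn τ (r8 T) (PP τ T) n ω)
        (G8 T * cexp (τ * (ω + r8 T) ^ 2) * (2 * τ * r8 T) ^ n *
          ((2 * τ * (ω + r8 T)) * Pn τ (r8 T) (PP τ T) n ω +
            deriv (Pn τ (r8 T) (PP τ T) n) ω)) ω := by
      have h1 := (((dc_der_exp τ T ω).const_mul (G8 T)).mul_const
        ((2 * τ * r8 T) ^ n)).mul hPd.hasDerivAt
      refine h1.congr_deriv ?_
      ring
    have hfe : (fun ω : ℂ => (-(2 * τ * I : ℂ)) ^ n * HD n (-τ) (-(I * wp τ T ω))) =
        fun ω : ℂ => G8 T * cexp (τ * (ω + r8 T) ^ 2) * (2 * τ * r8 T) ^ n *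
          Pn τ (r8 T) (PP τ T) n ω := funext ih
    have h2 := hl ω
    rw [hfe] at h2
    have h3 := h2.unique hrr
    rw [h3]
    show _ = _ * ((1 + ω / r8 T) * Pn τ (r8 T) (PP τ T) n ω +
      deriv (Pn τ (r8 T) (PP τ T) n) ω / (2 * τ * r8 T))
    rw [pow_succ]
    field_simp
    ring

end Pool.Agent.Lib.MP_cd509c_nt.DC
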