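import Pool.Agent.Lib.MP_cd509c_nt.DC.Defs
import Pool.Agent.Lib.MP_cd509c_nt.Newman

set_option autoImplicit false

/-!
Final statement: the constants of the derivatives.
-/

namespace Pool.Agent.Lib.MP_cd509c_nt.DC

open Complex ComplexConjugate MeasureTheory Filter Topology
open Pool.Agent.Lib.MP_cd509c_nt.DN

theorem p_final (hup : S_up) (hclosed : S_closed) (hanti : S_anti) (hupper : S_upper)
    (hlower : S_lower) : S_final := by
  obtain ⟨t₀, ht₀, hnew⟩ := newman
  obtain ⟨C, hC, hupp⟩ := hupper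
  have hAR0 : ∀ t : ℝ, t₀ ≤ t → AR 0 t := by
    intro t ht z hz
    refine hnew t ht z ?_
    have : HD 0 t = Ht t := iteratedDeriv_zero
    rwa [this] at hz
  have hARn : ∀ (n : ℕ) (t : ℝ), t₀ ≤ t → AR n t := by
    intro n t ht
    induction n with
    | zero => exact hAR0 t ht
    | succ n ih => exact hanti n t ih
  have hneg : ∀ (n : ℕ) (t : ℝ), AR n t → 0 ≤ t := by
    intro n t h
    by_contra hcon
    obtain ⟨z, hz, hz2⟩ := hlower n t 1 (not_le.mp hcon)
    have := h z hz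
    linarith
  have hbdd : ∀ n : ℕ, BddBelow {t : ℝ | AR n t} := fun n => ⟨0, fun t ht => hneg n t ht⟩
  have hne : ∀ n : ℕ, {t : ℝ | AR n t}.Nonempty := fun n => ⟨t₀, hARn n t₀ le_rfl⟩
  set Λ : ℕ → ℝ := fun n => sInf {t : ℝ | AR n t} with hΛ
  have hiff : ∀ (n : ℕ) (t : ℝ), AR n t ↔ Λ n ≤ t := by
    intro n t
    constructor
    · intro h
      exact csInf_le (hbdd n) h
    · intro h
      refine hclosed n t fun s hs => ?_
      obtain ⟨u, hu, hus⟩ := exists_lt_of_csInf_lt (hne n) (lt_of_le_of_lt h hs)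
      exact hup n u s hus hu
  have hmono : Antitone Λ := by
    refine antitone_nat_of_succ_le fun n => ?_
    exact (hiff (n + 1) (Λ n)).mp (hanti n _ ((hiff n _).mpr le_rfl))
  have hpos : ∀ n, 0 ≤ Λ n := fun n => le_csInf (hne n) fun t ht => hneg n t ht
  set m : ℝ := max t₀ 0 with hm
  have hm0 : 0 ≤ m := le_max_right _ _
  have hm8 : m < 1 / 8 := max_lt ht₀ (by norm_num)
  have hΛm : ∀ n, Λ n ≤ m := fun n => (hiff n m).mp (hARn n m (le_max_left _ _))
  obtain ⟨N₁, hN₁⟩ := exists_nat_ge (16 * C)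
  have hN0 : (0 : ℝ) ≤ N₁ := Nat.cast_nonneg _
  have hC0 : 0 < C := by linarith
  have hd1 : 0 < 1 / (4 * C) := by positivity
  have hd2 : 0 < (1 - 8 * m) / (N₁ + 1) := div_pos (by linarith) (by linarith)
  refine ⟨min (1 / (4 * C)) ((1 - 8 * m) / (N₁ + 1)), Λ, lt_min hd1 hd2, hmono, hiff, ?_, ?_⟩
  · intro n
    refine ⟨hpos n, ?_⟩
    set c : ℝ := min (1 / (4 * C)) ((1 - 8 * m) / (N₁ + 1)) with hc
    have hc0 : 0 < c := lt_min hd1 hd2
    have hc1 : c * (4 * C) ≤ 1 := by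
      have h := min_le_left (1 / (4 * C)) ((1 - 8 * m) / ((N₁ : ℝ) + 1))
      rw [← hc] at h
      rwa [le_div_iff₀ (by positivity)] at h
    have hc2 : c * (N₁ + 1) ≤ 1 - 8 * m := by
      have h := min_le_right (1 / (4 * C)) ((1 - 8 * m) / ((N₁ : ℝ) + 1))
      rw [← hc] at h
      rwa [le_div_iff₀ (by linarith)] at h
    have hn0 : (0 : ℝ) ≤ n := Nat.cast_nonneg _
    rw [le_div_iff₀ (by positivity)]
    by_cases hn : n < N₁
    · have h1 : ((n : ℝ) + 1) ≤ N₁ + 1 := by
        have : ((n : ℕ) : ℝ) < N₁ := by exact_mod_cast hn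
        linarith
      have h2 : c * ((n : ℝ) + 1) ≤ 1 - 8 * m :=
        le_trans (mul_le_mul_of_nonneg_left h1 hc0.le) hc2
      have h3 := mul_le_mul_of_nonneg_right (hΛm n)
        (show (0 : ℝ) ≤ 8 + c * ((n : ℝ) + 1) by positivity)
      refine h3.trans ?_
      have h4 : m * (c * ((n : ℝ) + 1)) ≤ m * (1 - 8 * m) := mul_le_mul_of_nonneg_left h2 hm0
      nlinarith
    · push Not at hn
      have hnN : (N₁ : ℝ) ≤ n := by exact_mod_cast hn
      have hn16 : 16 * C ≤ n := hN₁.trans hnN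
      have hnpos : (0 : ℝ) < n := by linarith
      have h1 : AR n (C / n) := by
        refine hupp n (C / n) (by linarith) ?_
        rw [mul_div_cancel₀ _ hnpos.ne']
      have h2 := (hiff n (C / n)).mp h1
      have h3 := mul_le_mul_of_nonneg_right h2
        (show (0 : ℝ) ≤ 8 + c * ((n : ℝ) + 1) by positivity)
      refine h3.trans ?_
      rw [div_mul_eq_mul_div, div_le_one hnpos]
      have h4 : C * (c * ((n : ℝ) + 1)) ≤ ((n : ℝ) + 1) / 4 := by
        have h5 := mul_le_mul_of_nonneg_right hc1 (show (0 : ℝ) ≤ ((n : ℝ) + 1) / 4 by positivity)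
        nlinarith
      nlinarith
  · intro n t B ht
    exact hlower n t B ht

end Pool.Agent.Lib.MP_cd509c_nt.DC
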