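import Pool.Agent.Lib.MP_cd509c_nt.DC.Defs

/-!
# The induction over the blocks
-/

set_option autoImplicit false

namespace Pool.Agent.Lib.MP_cd509c_nt.DC

/-- a large starting point of the induction -/
private lemma dc_ind_start (a C B x₀ : ℝ) (ha : 1 ≤ a) (hC : 0 ≤ C) (hB : 0 ≤ B) (hx : 0 ≤ x₀) :
    ∃ m : ℕ, ∀ n : ℕ, m ≤ n → 1 ≤ (n : ℝ) ∧ C ≤ n ∧ 3 + 6 * a ≤ n ∧
      2 * x₀ + 2 * B + 2 ≤ Real.exp (n / (3 * a / 2)) := by
  obtain ⟨m, hm⟩ := exists_nat_ge (1 + C + (3 + 6 * a) + (2 * x₀ + 2 * B + 2) * (3 * a / 2))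
  refine ⟨m, fun n hn => ?_⟩
  have hn' : (m : ℝ) ≤ n := by exact_mod_cast hn
  have hpos : 0 ≤ (2 * x₀ + 2 * B + 2) * (3 * a / 2) := by positivity
  refine ⟨by linarith, by linarith, by linarith, ?_⟩
  have hA : 0 < 3 * a / 2 := by linarith
  have h1 : 2 * x₀ + 2 * B + 2 ≤ n / (3 * a / 2) := by
    rw [le_div_iff₀ hA]
    linarith
  have h2 := Real.add_one_le_exp ((n : ℝ) / (3 * a / 2))
  linarith

/-- the induction over the blocks -/
theorem p_ind (h1 : S_ne) (h2 : S_appZ) (h3 : S_jens) (h4 : S_strip) (h5 : S_blkM)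
    (h6 : S_base) : S_ind := by
  intro K hK
  obtain ⟨A₀, hA₀, hblk⟩ := h5 K hK
  obtain ⟨C, hC, hbase⟩ := h6
  obtain ⟨B, hB, hstrip⟩ := h4
  obtain ⟨a, haA, haC⟩ : ∃ a, A₀ ≤ a ∧ C ≤ a := ⟨max A₀ C, le_max_left _ _, le_max_right _ _⟩
  obtain ⟨x₀, hx₀, hx⟩ := hblk a haA
  have ha1 : 1 ≤ a := hC.trans haC
  obtain ⟨m, hm⟩ := dc_ind_start a C B x₀ ha1 (by linarith) (by linarith) (by linarith)
  obtain ⟨A, hA⟩ : ∃ A, A = 3 * a / 2 := ⟨_, rfl⟩
  rw [← hA] at hm
  have hA0 : 0 < A := by linarith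
  obtain ⟨hm1, hmC, -, -⟩ := hm m le_rfl
  obtain ⟨t₀, ht₀, hb⟩ := hbase m hmC
  have key : ∀ n : ℕ, m ≤ n → ∀ t : ℝ, 0 < t → t ≤ t₀ → t * n ≤ K * A →
      ∀ z : ℂ, HD n t z = 0 → z.im ≠ 0 → Real.exp (n / A) < |z.re| := by
    intro n hn
    induction n, hn using Nat.le_induction with
    | base =>
      intro t ht ht0 _ z hz him
      by_contra hcon
      push Not at hcon
      refine him (hb t ht.le ht0 z (hcon.trans (Real.exp_le_exp.2 ?_)) hz)
      exact div_le_div_of_nonneg_left (by linarith) (by linarith) (by linarith)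
    | succ n hn ih =>
      intro t ht ht0 htK z hz him
      obtain ⟨-, -, hn3, hn4⟩ := hm n hn
      have hcast : ((n + 1 : ℕ) : ℝ) = (n : ℝ) + 1 := by push_cast; ring
      rw [hcast] at htK ⊢
      have hD : HD (n + 1) t = iteratedDeriv 1 (HD n t) := by
        unfold HD
        rw [iteratedDeriv_one, iteratedDeriv_succ]
      have hz' : iteratedDeriv 1 (HD n t) z = 0 := by rw [← hD]; exact hz
      have hv : ∃ v, iteratedDeriv 1 (HD n t) v ≠ 0 := by rw [← hD]; exact (h1 (n + 1) t).2.1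
      obtain ⟨ζ, hζ0, hζim, hζ⟩ := (h3 (HD n t) 1 B (h1 n t).1 (h2 n t) (by linarith)
        (fun ζ hζ => hstrip n t ht.le ζ hζ) hv z hz').2 him
      rw [Nat.cast_one, Real.sqrt_one, one_mul] at hζ
      have hζ2 := ih t ht ht0 (by nlinarith) ζ hζ0 hζim
      have habs : |ζ.re| ≤ |z.re| + |z.re - ζ.re| := by
        have h := abs_sub_abs_le_abs_sub ζ.re z.re
        rw [abs_sub_comm] at h
        linarith
      by_contra hcon
      push Not at hcon
      have hlow : Real.exp (n / A) / 2 ≤ |z.re| := by linarith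
      have hxz : x₀ ≤ |z.re| := by linarith
      have hpos : 0 < |z.re| := by linarith
      have hlog1 : Real.log |z.re| ≤ ((n : ℝ) + 1) / A := by
        rw [← Real.log_exp (((n : ℝ) + 1) / A)]
        exact Real.log_le_log hpos hcon
      have hlog2 : (n : ℝ) / A - 1 ≤ Real.log |z.re| := by
        have h7 : Real.log (Real.exp (n / A) / 2) ≤ Real.log |z.re| :=
          Real.log_le_log (by positivity) hlow
        rw [Real.log_div (Real.exp_ne_zero _) two_ne_zero, Real.log_exp] at h7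
        have h8 : Real.log 2 < 1 := by
          have := Real.log_two_lt_d9
          linarith
        linarith
      have hn0 : (0 : ℝ) ≤ n := Nat.cast_nonneg n
      apply him
      refine hx (n + 1) |z.re| t hxz ht ?_ ?_ ?_ z rfl hz
      · calc t * Real.log |z.re| ≤ t * (((n : ℝ) + 1) / A) :=
              mul_le_mul_of_nonneg_left hlog1 ht.le
          _ = t * ((n : ℝ) + 1) / A := by ring
          _ ≤ K := by rw [div_le_iff₀ hA0]; exact htK
      · rw [hcast]
        have h9 : a * Real.log |z.re| ≤ a * (((n : ℝ) + 1) / A) :=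
          mul_le_mul_of_nonneg_left hlog1 (by linarith)
        have h10 : a * (((n : ℝ) + 1) / A) = 2 / 3 * ((n : ℝ) + 1) := by
          rw [hA]
          field_simp
        linarith
      · rw [hcast]
        have h9 : 2 * a * ((n : ℝ) / A - 1) ≤ 2 * a * Real.log |z.re| :=
          mul_le_mul_of_nonneg_left hlog2 (by linarith)
        have h10 : 2 * a * ((n : ℝ) / A - 1) = 4 / 3 * (n : ℝ) - 2 * a := by
          rw [hA]
          field_simp
          ring
        linarith
  refine ⟨A, m, t₀, by linarith, hm1, ht₀, fun n t ht ht0 hn htK z hz h0 => ?_⟩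
  by_contra him
  have hn' : m ≤ n := by exact_mod_cast hn
  have h := key n hn' t ht ht0 htK z h0 him
  linarith

end Pool.Agent.Lib.MP_cd509c_nt.DC
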