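import Mathlib
import Pool.Agent.Lib.MP_cd509c_nt.DC.Defs

/-!
# Piece jens: Jensen circles for entire functions
-/

set_option autoImplicit false

namespace Pool.Agent.Lib.MP_cd509c_nt.DC

open Complex ComplexConjugate MeasureTheory Filter Topology
open Pool.Agent.Lib.MP_cd509c_nt.DN
open Polynomial in
/-- zeros of the derivatives of the approximating polynomials near a zero of the derivative -/
theorem dc_jens_near {F : ℂ → ℂ} {N : ℕ} (hF : Differentiable ℂ F) (hA : AppZ F) {v0 : ℂ}
    (hv0 : iteratedDeriv N F v0 ≠ 0) {z : ℂ} (hz : iteratedDeriv N F z = 0) {δ : ℝ} (hδ0 : 0 < δ)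
    (hδ1 : δ ≤ 1) :
    ∃ (P : ℝ[X]) (v : ℂ), (∀ w : ℂ, aeval w P = 0 → F w = 0) ∧ derivative^[N] P ≠ 0 ∧
      ‖v - z‖ < δ ∧ aeval v (derivative^[N] P) = 0 := by
  by_contra hcon
  push Not at hcon
  have hcd : ContDiff ℂ ⊤ F := hF.contDiff
  have hgd : Differentiable ℂ (iteratedDeriv N F) :=
    hcd.differentiable_iteratedDeriv N (by exact_mod_cast WithTop.coe_lt_top _)
  set R : ℝ := ‖z‖ + ‖v0‖ + 2 with hR
  have hR0 : 0 < R := by positivity
  have hex : ∀ m : ℕ, ∃ P : ℝ[X], (∀ z : ℂ, aeval z P = 0 → F z = 0) ∧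
      ∀ w : ℂ, ‖w‖ ≤ R → ‖F w - aeval w P‖ ≤ 1 / ((m : ℝ) + 1) := fun m => by
    obtain ⟨P, _, h1, h2⟩ := hA R (1 / ((m : ℝ) + 1)) (by positivity)
    exact ⟨P, h1, h2⟩
  choose P hPz hPf using hex
  set U : Set ℂ := Metric.ball 0 R with hU
  have hUo : IsOpen U := Metric.isOpen_ball
  have hconv : TendstoLocallyUniformlyOn (fun m w => aeval w (P m)) F atTop U := by
    apply TendstoUniformlyOn.tendstoLocallyUniformlyOn
    rw [Metric.tendstoUniformlyOn_iff]
    intro ε hε
    have := tendsto_one_div_add_atTop_nhds_zero_nat (𝕜 := ℝ)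
    filter_upwards [this.eventually_lt_const hε] with m hm w hw
    rw [dist_eq_norm]
    refine lt_of_le_of_lt (hPf m w ?_) hm
    exact (mem_ball_zero_iff.mp hw).le
  have hdiffP : ∀ m, Differentiable ℂ (fun w : ℂ => aeval w (P m)) := fun m =>
    Polynomial.differentiable_aeval (P m)
  have hconvn : TendstoLocallyUniformlyOn (fun m w => aeval w (derivative^[N] (P m)))
      (iteratedDeriv N F) atTop U := by
    have := tendsto_iteratedDeriv (fun m w => aeval w (P m)) hdiffP hUo hconv N
    simpa only [iteratedDeriv_aeval] using this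
  have h0U : v0 ∈ U := by
    rw [hU, mem_ball_zero_iff]
    have := norm_nonneg z
    linarith
  have hne0 : ∀ᶠ m in atTop, aeval v0 (derivative^[N] (P m)) ≠ 0 :=
    (hconvn.tendsto_at h0U).eventually_ne hv0
  obtain ⟨M, hM⟩ := eventually_atTop.mp hne0
  have hsub : Metric.closedBall z δ ⊆ U := by
    intro v hv
    rw [mem_closedBall_iff_norm] at hv
    rw [hU, mem_ball_zero_iff]
    have := norm_add_le (v - z) z
    rw [sub_add_cancel] at this
    have := norm_nonneg v0
    linarith
  have hunif := (tendstoLocallyUniformlyOn_iff_forall_isCompact hUo).mp hconvn _ hsub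
    (isCompact_closedBall z δ)
  have hunif' : TendstoUniformlyOn (fun m w => aeval w (derivative^[N] (P (m + M))))
      (iteratedDeriv N F) atTop (Metric.ball z δ) := by
    rw [Metric.tendstoUniformlyOn_iff] at hunif ⊢
    intro ε hε
    have h1 := hunif ε hε
    have h2 : ∀ᶠ m in atTop, ∀ x ∈ Metric.closedBall z δ,
        dist (iteratedDeriv N F x) ((aeval x) (derivative^[N] (P (m + M)))) < ε :=
      (tendsto_add_atTop_nat M).eventually h1
    filter_upwards [h2] with m hm x hx
    exact hm x (Metric.ball_subset_closedBall hx)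
  refine hurwitz_ne_zero hgd v0 hv0 (G := fun m w => aeval w (derivative^[N] (P (m + M))))
    (fun m => Polynomial.differentiable_aeval _) z hδ0 ?_ hunif' hz
  intro m v hv
  have hne1 : derivative^[N] (P (m + M)) ≠ 0 := by
    intro h
    apply hM (m + M) (by omega)
    rw [h, map_zero]
  rw [mem_ball_iff_norm] at hv
  exact hcon (P (m + M)) v (hPz _) hne1 hv

theorem p_jens : S_jens := by
  intro F N B hF hA hB hstrip hne z hz
  obtain ⟨v0, hv0⟩ := hne
  constructor
  · -- Gauss-Lucas
    apply le_of_forall_pos_le_add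
    intro ε hε
    obtain ⟨P, v, hP, hP0, hv, hPv⟩ := dc_jens_near hF hA hv0 hz (δ := min ε 1)
      (lt_min hε one_pos) (min_le_right _ _)
    have hK : Convex ℝ {w : ℂ | |w.im| ≤ B} := by
      have h1 : {w : ℂ | |w.im| ≤ B} = Complex.imLm ⁻¹' (Set.Icc (-B) B) := by
        ext w
        simp [abs_le]
      rw [h1]
      exact (convex_Icc (-B) B).linear_preimage Complex.imLm
    have h1 := gauss_lucas_iter hK P (fun w hw => hstrip w (hP w hw)) N hP0 v hPv
    have h2 : |v.im| ≤ B := h1
    have h3 : |v.im - z.im| ≤ ‖v - z‖ := by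
      have := Complex.abs_im_le_norm (v - z)
      rwa [Complex.sub_im] at this
    have h4 : |z.im| ≤ |v.im| + |v.im - z.im| := by
      have h5 := abs_sub_abs_le_abs_sub z.im v.im
      rw [abs_sub_comm] at h5
      linarith
    have h6 := min_le_left ε 1
    linarith
  · intro hzim
    obtain ⟨P, v, hP, hP0, hv, hPv⟩ := dc_jens_near hF hA hv0 hz (δ := min 1 |z.im|)
      (lt_min one_pos (abs_pos.mpr hzim)) (min_le_left _ _)
    have hd1 : |v.re - z.re| ≤ ‖v - z‖ := by
      have := Complex.abs_re_le_norm (v - z)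
      rwa [Complex.sub_re] at this
    have hd2 : |v.im - z.im| ≤ ‖v - z‖ := by
      have := Complex.abs_im_le_norm (v - z)
      rwa [Complex.sub_im] at this
    have hvim : v.im ≠ 0 := by
      intro h
      rw [h, zero_sub, abs_neg] at hd2
      have := min_le_right 1 |z.im|
      linarith
    obtain ⟨ζ, h1, h2, h3, h4⟩ := jensen_iter P N hP0 v hvim hPv
    refine ⟨ζ, hP ζ h1, h2, ?_⟩
    have hζ := hstrip ζ (hP ζ h1)
    have hζ2 : ζ.im ^ 2 ≤ B ^ 2 := by
      rw [← sq_abs]
      exact pow_le_pow_left₀ (abs_nonneg _) hζ 2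
    have h6 : |v.re - ζ.re| ≤ Real.sqrt N * B := by
      apply abs_le_of_sq_le_sq _ (by positivity)
      rw [mul_pow, Real.sq_sqrt (Nat.cast_nonneg N)]
      refine h4.trans ?_
      apply mul_le_mul_of_nonneg_left _ (Nat.cast_nonneg N)
      linarith [sq_nonneg v.im]
    have h7 : |z.re - ζ.re| ≤ |v.re - z.re| + |v.re - ζ.re| := by
      have := abs_sub_le z.re v.re ζ.re
      rw [abs_sub_comm z.re v.re] at this
      exact this
    have := min_le_left 1 |z.im|
    linarith

end Pool.Agent.Lib.MP_cd509c_nt.DC
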