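import Pool.Agent.Lib.MP_cd509c_nt.DC.Defs

/-!
# The constants of the derivatives: piece lim (limits of the normalised derivatives)
-/

set_option autoImplicit false

namespace Pool.Agent.Lib.MP_cd509c_nt.DC

open Complex ComplexConjugate MeasureTheory Filter Topology
open Pool.Agent.Lib.MP_cd509c_nt.DN

theorem dc_lim_const {u : ℕ → ℂ} {a : ℂ} (h : Tendsto u atTop (𝓝 a)) :
    TendstoLocallyUniformly (fun j (_ : ℂ) => u j) (fun _ => a) atTop := by
  rw [Metric.tendstoLocallyUniformly_iff]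
  intro ε hε x
  refine ⟨Set.univ, Filter.univ_mem, ?_⟩
  filter_upwards [Metric.tendsto_nhds.1 h ε hε] with j hj
  intro y _
  rw [dist_comm]
  exact hj

theorem dc_lim_self (g : ℂ → ℂ) :
    TendstoLocallyUniformly (fun (_ : ℕ) (x : ℂ) => g x) g atTop := by
  rw [Metric.tendstoLocallyUniformly_iff]
  intro ε hε x
  refine ⟨Set.univ, Filter.univ_mem, Eventually.of_forall fun j y _ => ?_⟩
  rw [dist_self]
  exact hε

theorem p_lim : S_lim := by
  intro τ r f Q hτ hr hf hQ hfQ n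
  have hr0 : Tendsto (fun j => (r j)⁻¹) atTop (𝓝 0) := by
    rw [tendsto_zero_iff_norm_tendsto_zero]
    simp only [norm_inv]
    exact hr.inv_tendsto_atTop
  induction n with
  | zero => exact ⟨hf, hfQ⟩
  | succ n ih =>
    obtain ⟨ih1, ih2⟩ := ih
    have hd : ∀ j, Differentiable ℂ (deriv (Pn τ (r j) (f j) n)) := fun j => (ih1 j).deriv
    refine ⟨fun j => ?_, ?_⟩
    · show Differentiable ℂ fun ω => (1 + ω / r j) * Pn τ (r j) (f j) n ω +
        deriv (Pn τ (r j) (f j) n) ω / (2 * τ * r j)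
      exact (((differentiable_const _).add (differentiable_id.div_const _)).mul (ih1 j)).add
        ((hd j).div_const _)
    · have h1 : TendstoLocallyUniformly (fun j => deriv (Pn τ (r j) (f j) n)) (deriv Q) atTop := by
        rw [← tendstoLocallyUniformlyOn_univ] at ih2 ⊢
        exact ih2.deriv (Eventually.of_forall fun j => (ih1 j).differentiableOn) isOpen_univ
      have hQ' : Continuous (deriv Q) := hQ.deriv.continuous
      have h2 : TendstoLocallyUniformly (fun j (ω : ℂ) => (r j)⁻¹ * ω) (fun ω => 0 * ω) atTop :=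
        (dc_lim_const hr0).mul₀ (dc_lim_self fun ω => ω) continuous_const continuous_id
      have h3 : TendstoLocallyUniformly (fun j (ω : ℂ) => 1 + (r j)⁻¹ * ω) (fun ω => 1 + 0 * ω)
          atTop := (dc_lim_self fun _ => (1 : ℂ)).add h2
      have h4 : TendstoLocallyUniformly (fun j (ω : ℂ) => (1 + (r j)⁻¹ * ω) *
          Pn τ (r j) (f j) n ω) (fun ω => (1 + 0 * ω) * Q ω) atTop :=
        h3.mul₀ ih2 (by fun_prop) hQ.continuous
      have hr1 : Tendsto (fun j => (2 * τ : ℂ)⁻¹ * (r j)⁻¹) atTop (𝓝 ((2 * τ : ℂ)⁻¹ * 0)) :=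
        hr0.const_mul _
      have h5 : TendstoLocallyUniformly (fun j (ω : ℂ) => ((2 * τ : ℂ)⁻¹ * (r j)⁻¹) *
          deriv (Pn τ (r j) (f j) n) ω) (fun ω => ((2 * τ : ℂ)⁻¹ * 0) * deriv Q ω) atTop :=
        (dc_lim_const hr1).mul₀ h1 continuous_const hQ'
      have h6 := h4.add h5
      have e1 : ((fun ω => (1 + 0 * ω) * Q ω) + fun ω => ((2 * τ : ℂ)⁻¹ * 0) * deriv Q ω) = Q := by
        funext ω
        show (1 + 0 * ω) * Q ω + ((2 * τ : ℂ)⁻¹ * 0) * deriv Q ω = Q ω
        ring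
      have e2 : (fun j => Pn τ (r j) (f j) (n + 1)) = (fun j (ω : ℂ) => (1 + (r j)⁻¹ * ω) *
          Pn τ (r j) (f j) n ω) + fun j (ω : ℂ) => ((2 * τ : ℂ)⁻¹ * (r j)⁻¹) *
          deriv (Pn τ (r j) (f j) n) ω := by
        funext j ω
        show (1 + ω / r j) * Pn τ (r j) (f j) n ω +
          deriv (Pn τ (r j) (f j) n) ω / (2 * τ * r j) = (1 + (r j)⁻¹ * ω) *
          Pn τ (r j) (f j) n ω + ((2 * τ : ℂ)⁻¹ * (r j)⁻¹) * deriv (Pn τ (r j) (f j) n) ω
        rw [div_eq_mul_inv, div_eq_mul_inv, mul_inv]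
        ring
      rw [e2]
      rw [e1] at h6
      exact h6

end Pool.Agent.Lib.MP_cd509c_nt.DC
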