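import Mathlib
import Pool.Agent.Lib.MP_cd509c_nt.DC.Defs
import Pool.Agent.Lib.MP_cd509c_nt.Gauss

/-!
# The flow of the derivatives of `H_t` in terms of `fx`
-/

set_option autoImplicit false

namespace Pool.Agent.Lib.MP_cd509c_nt.DC

open Complex ComplexConjugate MeasureTheory Filter Topology
open Pool.Agent.Lib.MP_cd509c_nt.DN

lemma dc_link_gauss (t x : ℝ) (w : ℂ) (ht : 0 < t) :
    Gv t (fx x) w = Ht t (x - I * w) / m0 x := by
  rw [Ht_gauss ht, Gv, mul_div_assoc, ← integral_div]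
  congr 2
  funext v
  rw [fx, mul_div_assoc]
  congr 3
  rw [s0]
  linear_combination w * I_sq

lemma dc_link_deriv (n : ℕ) (t x a : ℝ) (w : ℂ) :
    iteratedDeriv n (fun z : ℂ => Ht t (x - I * (a * z)) / m0 x) w =
      (-(I * a)) ^ n * HD n t (x - I * (a * w)) / m0 x := by
  have h1 : (fun z : ℂ => Ht t (x - I * (a * z)) / m0 x) =
      fun z : ℂ => (m0 x)⁻¹ * (fun y : ℂ => Ht t (x + y)) (-(I * a) * z) := by
    funext z
    rw [div_eq_inv_mul]
    congr 2
    ring
  have hd : ContDiff ℂ n (fun y : ℂ => Ht t (x + y)) :=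
    ((Ht_differentiable t).contDiff).comp (contDiff_const.add contDiff_id)
  rw [h1, iteratedDeriv_const_mul_field, iteratedDeriv_comp_const_mul hd,
    iteratedDeriv_comp_const_add, HD]
  have h2 : (x : ℂ) - I * (a * w) = x + -(I * a) * w := by ring
  rw [h2]
  ring

lemma dc_link_sym (t x a : ℝ) : Sym (fun z : ℂ => Ht t (x - I * (a * z)) / m0 x) := by
  have hm := m0_ne x
  have hm' : ‖m0 x‖ ≠ 0 := norm_ne_zero_iff.mpr hm
  refine ⟨conj (m0 x) / m0 x, ?_, fun z => ?_⟩
  · rw [norm_div, RCLike.norm_conj, div_self hm']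
  · have h1 : (x : ℂ) - I * (a * -conj z) = conj ((x : ℂ) - I * (a * z)) := by
      simp only [map_sub, map_mul, conj_ofReal, conj_I]
      ring
    have hc : conj (m0 x) ≠ 0 := (map_ne_zero _).mpr hm
    simp only
    rw [h1, Ht_conj', map_div₀]
    field_simp

theorem p_link : S_link :=
  ⟨fun t x w ht => dc_link_gauss t x w ht, dc_link_deriv, dc_link_sym⟩

end Pool.Agent.Lib.MP_cd509c_nt.DC
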