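import Mathlib
import Pool.Agent.Lib.MP_cd509c_nt.DC.Defs

/-!
# Negative time: every derivative has zeros far from the real axis
-/

set_option autoImplicit false

namespace Pool.Agent.Lib.MP_cd509c_nt.DC

open Complex ComplexConjugate MeasureTheory Filter Topology
open Pool.Agent.Lib.MP_cd509c_nt.DN

private lemma dc_lower_r8_re (T : ℝ) (hT : 0 < T) :
    Real.log T - Real.log (2 * Real.pi) ≤ (r8 T).re := by
  have h1 : (r8 T).re = Real.log ‖(8 + T * I : ℂ)‖ - Real.log (2 * Real.pi) := by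
    rw [r8, sub_re, Complex.log_re]
    simp only [ofReal_re]
  rw [h1]
  have h2 : T ≤ ‖(8 + T * I : ℂ)‖ := by
    have h3 := Complex.abs_im_le_norm (8 + T * I : ℂ)
    have h4 : (8 + T * I : ℂ).im = T := by simp
    rw [h4, abs_of_pos hT] at h3
    exact h3
  linarith [Real.log_le_log hT h2]

private lemma dc_lower_r8_tendsto (T : ℕ → ℝ) (hT : ∀ j : ℕ, (j : ℝ) ≤ T j) :
    Tendsto (fun j => (r8 (T j)).re) atTop atTop := by
  have h1 : Tendsto (fun j : ℕ => Real.log (j : ℝ) - Real.log (2 * Real.pi)) atTop atTop :=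
    tendsto_atTop_add_const_right _ _ (Real.tendsto_log_atTop.comp tendsto_natCast_atTop_atTop)
  refine tendsto_atTop_mono' _ ?_ h1
  filter_upwards [eventually_ge_atTop 1] with j hj
  have hj' : (0 : ℝ) < j := by exact_mod_cast hj
  have h2 := dc_lower_r8_re (T j) (lt_of_lt_of_le hj' (hT j))
  have h3 := Real.log_le_log hj' (hT j)
  linarith

private lemma dc_lower_PP_diff (hne : S_ne) (τ T : ℝ) : Differentiable ℂ (PP τ T) := by
  have h1 : Differentiable ℂ (Ht (-τ)) := by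
    have := (hne 0 (-τ)).1
    rwa [HD, iteratedDeriv_zero] at this
  have h2 : PP τ T = fun ω => Ht (-τ) (-(I * wp τ T ω)) * cexp (-(τ * (ω + r8 T) ^ 2)) *
      (G8 T)⁻¹ := by
    funext ω
    rw [PP, div_eq_mul_inv, mul_inv, Complex.exp_neg, mul_assoc]
  rw [h2]
  have h3 : Differentiable ℂ fun ω => -(I * wp τ T ω) := by
    unfold wp
    fun_prop
  have h4 : Differentiable ℂ fun ω : ℂ => cexp (-(τ * (ω + r8 T) ^ 2)) := by
    fun_prop
  exact ((h1.comp h3).mul h4).mul_const _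

theorem p_lower (hne : S_ne) (hDDent : S_DDent) (hDDzero : S_DDzero) (hap : S_ap) (hasy : S_asy)
    (hlim : S_lim) (hder : S_der) : S_lower := by
  intro n t B ht
  obtain ⟨τ, hτt⟩ : ∃ τ : ℝ, τ = -t := ⟨_, rfl⟩
  have hτ : 0 < τ := by rw [hτt]; linarith
  have ht' : t = -τ := by rw [hτt]; ring
  subst ht'
  by_contra hcon
  push Not at hcon
  -- the zeros are in a strip
  have hstrip : ∀ z : ℂ, HD n (-τ) z = 0 → |z.im| < B := by
    intro z hz
    rw [abs_lt]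
    have h1 := hcon z hz
    have h2 := hcon (-z) (by rw [(hne n (-τ)).2.2.2 z, hz, mul_zero])
    rw [neg_im] at h2
    constructor <;> linarith
  -- the zero of the Dirichlet series
  obtain ⟨s₀, hs₀⟩ := hDDzero τ hτ
  obtain ⟨-, hDDd, -, hDD1, -⟩ := hDDent τ hτ
  have hτC : (2 * τ : ℂ) ≠ 0 := by
    have : (τ : ℂ) ≠ 0 := by exact_mod_cast hτ.ne'
    exact mul_ne_zero two_ne_zero this
  set ω₀ : ℂ := (s₀ - 8) / (2 * τ) with hω₀
  have hω₀' : 8 + 2 * τ * ω₀ = s₀ := by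
    rw [hω₀, mul_div_cancel₀ _ hτC]
    ring
  -- almost periods
  have hT : ∀ j : ℕ, ∃ T : ℝ, (j : ℝ) ≤ T ∧ ∀ s : ℂ, ‖s‖ ≤ (j : ℝ) →
      ‖DD τ (s + T * I) - DD τ s‖ ≤ 1 / ((j : ℝ) + 1) := fun j =>
    hap τ j (1 / ((j : ℝ) + 1)) j hτ (by positivity)
  choose T hTj hTap using hT
  set Q : ℂ → ℂ := fun ω => cexp (-(τ * ω ^ 2)) * DD τ (8 + 2 * τ * ω) with hQ
  have hQd : Differentiable ℂ Q := by
    have h1 : Differentiable ℂ fun ω : ℂ => DD τ (8 + 2 * τ * ω) :=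
      hDDd.comp (by fun_prop)
    have h2 : Differentiable ℂ fun ω : ℂ => cexp (-(τ * ω ^ 2)) := by fun_prop
    exact h2.mul h1
  have hQ0 : Q ω₀ = 0 := by
    rw [hQ]
    simp only
    rw [hω₀', hs₀, mul_zero]
  obtain ⟨v₀, hv₀⟩ : ∃ v₀ : ℂ, Q v₀ ≠ 0 := by
    obtain ⟨σ, hσ⟩ := hDD1 (1 / 2) (by norm_num)
    refine ⟨((σ - 8 : ℝ) : ℂ) / (2 * τ), ?_⟩
    rw [hQ]
    simp only
    refine mul_ne_zero (Complex.exp_ne_zero _) ?_
    rw [mul_div_cancel₀ _ hτC]
    intro h0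
    have h1 := hσ (8 + ((σ - 8 : ℝ) : ℂ)) (by
      simp)
    rw [h0] at h1
    norm_num at h1
  -- convergence
  have hTtop : Tendsto T atTop atTop := tendsto_atTop_mono hTj tendsto_natCast_atTop_atTop
  have hconv : TendstoLocallyUniformly (fun j => PP τ (T j)) Q atTop := by
    rw [tendstoLocallyUniformly_iff_forall_isCompact]
    intro K hK
    obtain ⟨R, hR⟩ := hK.isBounded.exists_norm_le
    rw [Metric.tendstoUniformlyOn_iff]
    intro ε hε
    obtain ⟨T₀, hT₀⟩ := hasy τ R (ε / 2) hτ (by positivity)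
    set M : ℝ := Real.exp (τ * R ^ 2) with hM
    have hM0 : 0 < M := Real.exp_pos _
    have h1 : Tendsto (fun j : ℕ => M * (1 / ((j : ℝ) + 1))) atTop (𝓝 (M * 0)) :=
      tendsto_one_div_add_atTop_nhds_zero_nat.const_mul M
    rw [mul_zero] at h1
    have h2 := h1.eventually (gt_mem_nhds (show (0 : ℝ) < ε / 2 by positivity))
    have h3 : ∀ᶠ j : ℕ in atTop, 8 + 2 * τ * R ≤ (j : ℝ) :=
      tendsto_natCast_atTop_atTop.eventually_ge_atTop _
    filter_upwards [h2, h3, hTtop.eventually_ge_atTop T₀] with j hj2 hj3 hj4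
    intro ω hω
    have hωR := hR ω hω
    have a1 := hT₀ (T j) hj4 ω hωR
    have a2 : ‖(8 + 2 * τ * ω : ℂ)‖ ≤ (j : ℝ) := by
      refine (norm_add_le _ _).trans (le_trans ?_ hj3)
      rw [norm_mul, norm_mul, Complex.norm_ofNat, Complex.norm_ofNat, Complex.norm_real,
        Real.norm_of_nonneg hτ.le]
      have : 2 * τ * ‖ω‖ ≤ 2 * τ * R := mul_le_mul_of_nonneg_left hωR (by positivity)
      linarith
    have a3 := hTap j _ a2
    have a4 : ‖cexp (-(τ * ω ^ 2))‖ ≤ M := by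
      rw [Complex.norm_exp, hM]
      refine Real.exp_le_exp.2 ?_
      have h5 : (-(τ * ω ^ 2 : ℂ)).re ≤ ‖(-(τ * ω ^ 2 : ℂ))‖ := Complex.re_le_norm _
      rw [norm_neg, norm_mul, norm_pow, Complex.norm_real, Real.norm_of_nonneg hτ.le] at h5
      refine h5.trans (mul_le_mul_of_nonneg_left ?_ hτ.le)
      exact pow_le_pow_left₀ (norm_nonneg _) hωR 2
    have a5 : ‖cexp (-(τ * ω ^ 2)) * DD τ (8 + T j * I + 2 * τ * ω) - Q ω‖ ≤
        M * (1 / ((j : ℝ) + 1)) := by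
      have e1 : cexp (-(τ * ω ^ 2)) * DD τ (8 + T j * I + 2 * τ * ω) - Q ω =
          cexp (-(τ * ω ^ 2)) * (DD τ ((8 + 2 * τ * ω) + T j * I) - DD τ (8 + 2 * τ * ω)) := by
        rw [hQ]
        simp only
        rw [mul_sub]
        congr 3
        ring
      rw [e1, norm_mul]
      exact mul_le_mul a4 a3 (norm_nonneg _) hM0.le
    rw [dist_comm, dist_eq_norm]
    have a6 : PP τ (T j) ω - Q ω =
        (PP τ (T j) ω - cexp (-(τ * ω ^ 2)) * DD τ (8 + T j * I + 2 * τ * ω)) +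
        (cexp (-(τ * ω ^ 2)) * DD τ (8 + T j * I + 2 * τ * ω) - Q ω) := by ring
    rw [a6]
    refine (norm_add_le _ _).trans_lt ?_
    linarith
  have hre := dc_lower_r8_tendsto T hTj
  have hnorm : Tendsto (fun j => ‖r8 (T j)‖) atTop atTop :=
    tendsto_atTop_mono (fun j => Complex.re_le_norm _) hre
  obtain ⟨hPd, hPconv⟩ := hlim τ (fun j => r8 (T j)) (fun j => PP τ (T j)) Q hτ hnorm
    (fun j => dc_lower_PP_diff hne τ (T j)) hQd hconv n
  -- no zeros near `ω₀`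
  have hev : ∀ᶠ j : ℕ in atTop, |B| + 2 * τ * (‖ω₀‖ + 1) ≤ 2 * τ * (r8 (T j)).re :=
    (hre.const_mul_atTop (show (0 : ℝ) < 2 * τ by positivity)).eventually_ge_atTop _
  obtain ⟨J, hJ⟩ := eventually_atTop.1 hev
  have hnz : ∀ m : ℕ, ∀ ω ∈ Metric.ball ω₀ 1,
      Pn τ (r8 (T (m + J))) (PP τ (T (m + J))) n ω ≠ 0 := by
    intro m ω hω h0
    have h1 := hder τ (T (m + J)) ω n hτ
    rw [h0, mul_zero] at h1
    have h2 : (-(2 * τ * I : ℂ)) ^ n ≠ 0 := pow_ne_zero _ (neg_ne_zero.2 (mul_ne_zero hτC I_ne_zero))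
    have h3 := hstrip _ ((mul_eq_zero.1 h1).resolve_left h2)
    have h4 : (-(I * wp τ (T (m + J)) ω)).im = -(2 + 2 * τ * (ω.re + (r8 (T (m + J))).re)) := by
      rw [wp]
      simp
    rw [h4, abs_neg] at h3
    have h5 := hJ (m + J) (Nat.le_add_left _ _)
    have h6 : -(‖ω₀‖ + 1) ≤ ω.re := by
      have h7 : ‖ω‖ ≤ ‖ω₀‖ + 1 := by
        have h8 : ‖ω - ω₀‖ < 1 := mem_ball_iff_norm.1 hω
        have h9 := norm_sub_norm_le ω ω₀
        linarith
      have h8 := Complex.abs_re_le_norm ω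
      have h9 := neg_abs_le ω.re
      linarith
    have h7 := le_abs_self (2 + 2 * τ * (ω.re + (r8 (T (m + J))).re))
    have h8 : 2 * τ * (-(‖ω₀‖ + 1)) ≤ 2 * τ * ω.re := mul_le_mul_of_nonneg_left h6 (by positivity)
    have h9 := le_abs_self B
    linarith
  have hPconv' : TendstoUniformlyOn
      (fun m : ℕ => Pn τ (r8 (T (m + J))) (PP τ (T (m + J))) n) Q atTop (Metric.ball ω₀ 1) := by
    have h1 : TendstoUniformlyOn (fun j : ℕ => Pn τ (r8 (T j)) (PP τ (T j)) n) Q atTop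
        (Metric.closedBall ω₀ 1) :=
      (tendstoLocallyUniformly_iff_forall_isCompact.1 hPconv) _ (isCompact_closedBall _ _)
    rw [Metric.tendstoUniformlyOn_iff] at h1 ⊢
    intro ε hε
    obtain ⟨N, hN⟩ := eventually_atTop.1 (h1 ε hε)
    refine eventually_atTop.2 ⟨N, fun m hm ω hω => ?_⟩
    exact hN (m + J) (by omega) ω (Metric.ball_subset_closedBall hω)
  exact hurwitz_ne_zero hQd v₀ hv₀ (fun m => hPd (m + J)) ω₀ one_pos hnz hPconv' hQ0

end Pool.Agent.Lib.MP_cd509c_nt.DC
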