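import Pool.Agent.Lib.MP_cd509c_nt.DC.Defs

set_option autoImplicit false

namespace Pool.Agent.Lib.MP_cd509c_nt.DC

open Complex ComplexConjugate MeasureTheory Filter Topology
open Pool.Agent.Lib.MP_cd509c_nt.DN

private lemma dc_main_split {m : ℕ} (hm : m ≠ 0) (s w : ℂ) :
    (m : ℂ) ^ (s + w) = (m : ℂ) ^ s * cexp (Real.log m * w) := by
  have hm0 : (m : ℂ) ≠ 0 := by exact_mod_cast hm
  rw [Complex.cpow_add _ _ hm0, Complex.cpow_def_of_ne_zero hm0 w, Complex.natCast_log]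

private lemma dc_main_term {τ : ℝ} (T : ℝ) (ω : ℂ) {m : ℕ} (hm : m ≠ 0) (v : ℝ) :
    tau m / (m : ℂ) ^ (8 + (T + v) * I : ℂ) * cexp (-(v : ℂ) ^ 2 / (4 * τ) - v * ω * I) =
      (tau m / (m : ℂ) ^ (8 + T * I : ℂ)) *
        cexp (-(v : ℂ) ^ 2 / (4 * τ) + (-(I * (Real.log m + ω))) * v + 0) := by
  have e1 : (8 + (T + v) * I : ℂ) = (8 + T * I) + v * I := by ring
  have e2 : (-(v : ℂ) ^ 2 / (4 * τ) + (-(I * (Real.log m + ω))) * v + 0 : ℂ) =
      (-(v : ℂ) ^ 2 / (4 * τ) - v * ω * I) + -(Real.log m * (v * I)) := by ring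
  rw [e1, dc_main_split hm, e2, Complex.exp_add, Complex.exp_neg]
  have h0 : cexp ((Real.log m : ℂ) * (v * I)) ≠ 0 := Complex.exp_ne_zero _
  have hm0 : (m : ℂ) ^ (8 + T * I : ℂ) ≠ 0 := by
    rw [Complex.cpow_def_of_ne_zero (by exact_mod_cast hm)]
    exact Complex.exp_ne_zero _
  rw [div_mul_eq_div_div, div_eq_mul_inv (tau m / (m : ℂ) ^ (8 + T * I : ℂ))
    (cexp ((Real.log m : ℂ) * (v * I)))]
  ring

/-- main term -/
theorem p_main (_h : S_DDent) : S_main := by
  intro τ T ω hτ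
  have hτc : (τ : ℂ) ≠ 0 := by exact_mod_cast hτ.ne'
  have hb : (-(1 / (4 * τ) : ℂ)).re < 0 := by
    have : (-(1 / (4 * τ) : ℂ)) = ((-(1 / (4 * τ)) : ℝ) : ℂ) := by push_cast; rfl
    rw [this, ofReal_re]
    have : 0 < 1 / (4 * τ) := by positivity
    linarith
  set F : ℕ → ℝ → ℂ := fun m v => tau m / (m : ℂ) ^ (8 + (T + v) * I : ℂ) *
    cexp (-(v : ℂ) ^ 2 / (4 * τ) - v * ω * I) with hF
  have hgauss : ∀ c : ℂ, Integrable fun v : ℝ => cexp (-(v : ℂ) ^ 2 / (4 * τ) + c * v + 0) := by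
    intro c
    refine (integrable_cexp_quadratic' hb c 0).congr (Eventually.of_forall fun v => ?_)
    beta_reduce
    congr 1
    ring
  have h1 : ∀ v : ℝ, HasSum (fun m => F m v)
      (Lf (8 + (T + v) * I) * cexp (-(v : ℂ) ^ 2 / (4 * τ) - v * ω * I)) := fun v =>
    (Lf_hasSum (by simp; norm_num)).mul_right _
  have hF0 : ∀ v, F 0 v = 0 := by
    intro v
    simp only [hF]
    rw [tau_zero, zero_div, zero_mul]
  have hFm : ∀ m : ℕ, m ≠ 0 → F m = fun v : ℝ => (tau m / (m : ℂ) ^ (8 + T * I : ℂ)) *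
      cexp (-(v : ℂ) ^ 2 / (4 * τ) + (-(I * (Real.log m + ω))) * v + 0) := by
    intro m hm
    funext v
    exact dc_main_term T ω hm v
  have hint : ∀ m, Integrable (F m) := by
    intro m
    by_cases hm : m = 0
    · subst hm
      have : F 0 = fun _ => 0 := funext hF0
      rw [this]
      exact integrable_zero _ _ _
    · rw [hFm m hm]
      exact (hgauss _).const_mul _
  set E : ℝ := ∫ v : ℝ, ‖cexp (-(v : ℂ) ^ 2 / (4 * τ) + (-(I * ω)) * v + 0)‖ with hE
  have hnorm : ∀ m, ∫ v, ‖F m v‖ = ‖tau m / (m : ℂ) ^ (8 + T * I : ℂ)‖ * E := by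
    intro m
    by_cases hm : m = 0
    · subst hm
      rw [tau_zero, zero_div, norm_zero, zero_mul]
      simp only [hF0, norm_zero, integral_zero]
    · rw [hFm m hm, hE, ← integral_const_mul]
      congr 1
      funext v
      rw [norm_mul]
      congr 1
      rw [Complex.norm_exp, Complex.norm_exp]
      congr 1
      generalize Real.log m = L
      simp
  have hsum : Summable fun m => ∫ v, ‖F m v‖ := by
    simp only [hnorm]
    exact (Lf_hasSum (s := 8 + T * I) (by simp; norm_num)).summable.norm.mul_right _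
  have h2 : ∫ v : ℝ, Lf (8 + (T + v) * I) * cexp (-(v : ℂ) ^ 2 / (4 * τ) - v * ω * I) =
      ∑' m, ∫ v, F m v := by
    rw [integral_tsum_of_summable_integral_norm hint hsum]
    congr 1
    funext v
    exact (h1 v).tsum_eq.symm
  rw [h2, ← tsum_mul_left, DD, ← tsum_mul_left]
  refine tsum_congr fun m => ?_
  by_cases hm : m = 0
  · subst hm
    simp only [hF0, integral_zero, tau_zero]
    ring
  · rw [hFm m hm, integral_const_mul]
    have h3 := gauss_integral hτ (-(I * (Real.log m + ω))) 0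
    have hm0 : (m : ℂ) ^ (8 + T * I : ℂ) ≠ 0 := by
      rw [Complex.cpow_def_of_ne_zero (by exact_mod_cast hm)]
      exact Complex.exp_ne_zero _
    have h4 : (m : ℂ) ^ (-(8 + T * I + 2 * τ * ω) : ℂ) =
        ((m : ℂ) ^ (8 + T * I : ℂ))⁻¹ * cexp (Real.log m * (-(2 * τ * ω))) := by
      rw [← Complex.cpow_neg, ← dc_main_split hm]
      congr 1
      ring
    rw [h4, mul_left_comm, h3]
    have h5 : cexp (0 + τ * (-(I * (Real.log m + ω))) ^ 2) = cexp (-(τ * ω ^ 2)) *
        (cexp (Real.log m * (-(2 * τ * ω))) * cexp (-(τ * Real.log m ^ 2 : ℝ))) := by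
      rw [← Complex.exp_add, ← Complex.exp_add]
      congr 1
      generalize Real.log m = L
      push_cast
      linear_combination (τ * (L + ω) ^ 2 : ℂ) * Complex.I_sq
    rw [h5]
    field_simp

end Pool.Agent.Lib.MP_cd509c_nt.DC
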