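import Pool.Agent.Lib.MP_cd509c_nt.DC.Defs

/-!
# The derivatives of `H_t`: entire, not identically zero, symmetries
-/

set_option autoImplicit false

namespace Pool.Agent.Lib.MP_cd509c_nt.DC

open Complex ComplexConjugate MeasureTheory Filter Topology
open scoped Nat

/-- the `n`-th derivative of `H_t` as an integral -/
noncomputable def dc_ne_F (t : ℝ) (n : ℕ) (z : ℂ) : ℂ :=
  ∫ u : ℝ, (PhiT t u : ℂ) * (I * u) ^ n * cexp (I * z * u)

lemma dc_ne_bound (t : ℝ) (n : ℕ) (z : ℂ) (r : ℝ) (hr : ‖z‖ ≤ r) (u : ℝ) :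
    ‖(PhiT t u : ℂ) * (I * u) ^ n * cexp (I * z * u)‖ ≤
      (n ! : ℝ) * (PhiT t u * Real.exp ((r + 1) * |u|)) := by
  have hP := (PhiT_pos t u).le
  have h1 : ‖cexp (I * z * u)‖ ≤ Real.exp (r * |u|) := by
    refine (norm_cexp_mul (I * z) u).trans (Real.exp_le_exp.2 ?_)
    rw [norm_mul, norm_I, one_mul]
    exact mul_le_mul_of_nonneg_right hr (abs_nonneg u)
  have h2 : |u| ^ n ≤ (n ! : ℝ) * Real.exp |u| := by
    have h3 := Real.pow_div_factorial_le_exp |u| (abs_nonneg u) n
    rw [div_le_iff₀ (by positivity)] at h3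
    linarith
  rw [norm_mul, norm_mul, norm_pow, norm_mul, norm_I, one_mul, Complex.norm_real,
    Complex.norm_real, Real.norm_of_nonneg hP, Real.norm_eq_abs]
  calc PhiT t u * |u| ^ n * ‖cexp (I * z * u)‖
      ≤ PhiT t u * ((n ! : ℝ) * Real.exp |u|) * Real.exp (r * |u|) := by
        gcongr
    _ = (n ! : ℝ) * (PhiT t u * (Real.exp (r * |u|) * Real.exp |u|)) := by ring
    _ = (n ! : ℝ) * (PhiT t u * Real.exp ((r + 1) * |u|)) := by
        rw [← Real.exp_add]
        congr 3
        ring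

lemma dc_ne_meas (t : ℝ) (n : ℕ) (z : ℂ) :
    AEStronglyMeasurable (fun u : ℝ => (PhiT t u : ℂ) * (I * u) ^ n * cexp (I * z * u)) volume := by
  have h1 : Continuous fun u : ℝ => (PhiT t u : ℂ) :=
    Complex.continuous_ofReal.comp (PhiT_continuous t)
  exact ((h1.mul (by fun_prop)).mul (by fun_prop)).aestronglyMeasurable

lemma dc_ne_integrable (t : ℝ) (n : ℕ) (z : ℂ) :
    Integrable (fun u : ℝ => (PhiT t u : ℂ) * (I * u) ^ n * cexp (I * z * u)) :=
  ((integrable_PhiT_exp t (‖z‖ + 1)).const_mul (n ! : ℝ)).mono' (dc_ne_meas t n z)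
    (Eventually.of_forall fun u => dc_ne_bound t n z ‖z‖ le_rfl u)

lemma dc_ne_hasDerivAt (t : ℝ) (n : ℕ) (z : ℂ) :
    HasDerivAt (dc_ne_F t n) (dc_ne_F t (n + 1) z) z := by
  have h := hasDerivAt_integral_of_dominated_loc_of_deriv_le (μ := volume)
    (F := fun (z : ℂ) (u : ℝ) => (PhiT t u : ℂ) * (I * u) ^ n * cexp (I * z * u))
    (F' := fun (z : ℂ) (u : ℝ) => (PhiT t u : ℂ) * (I * u) ^ (n + 1) * cexp (I * z * u))
    (x₀ := z) (s := Metric.ball z 1)
    (bound := fun u => ((n + 1)! : ℝ) * (PhiT t u * Real.exp (((‖z‖ + 1) + 1) * |u|)))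
    (Metric.ball_mem_nhds z one_pos) (Eventually.of_forall fun w => dc_ne_meas t n w)
    (dc_ne_integrable t n z) (dc_ne_meas t (n + 1) z)
    (Eventually.of_forall fun u w hw => dc_ne_bound t (n + 1) w (‖z‖ + 1) ?_ u)
    ((integrable_PhiT_exp t ((‖z‖ + 1) + 1)).const_mul _)
    (Eventually.of_forall fun u w _ => ?_)
  · exact h.2
  · have h1 : ‖w‖ ≤ ‖z‖ + ‖w - z‖ := by
      have := norm_add_le z (w - z)
      rwa [add_sub_cancel] at this
    rw [Metric.mem_ball, dist_eq_norm] at hw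
    linarith
  · have h1 : HasDerivAt (fun w : ℂ => I * w * u) (I * u) w := by
      have := ((hasDerivAt_id w).const_mul I).mul_const (u : ℂ)
      rwa [mul_one] at this
    have h2 := (h1.cexp).const_mul ((PhiT t u : ℂ) * (I * u) ^ n)
    refine h2.congr_deriv ?_
    rw [pow_succ]
    ring

lemma dc_ne_HD (n : ℕ) (t : ℝ) : HD n t = dc_ne_F t n := by
  induction n with
  | zero =>
    funext z
    unfold HD dc_ne_F
    rw [iteratedDeriv_zero, Ht_eq]
    congr 1
    funext u
    rw [pow_zero, mul_one]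
  | succ n ih =>
    have h1 : HD (n + 1) t = deriv (HD n t) := by
      unfold HD
      rw [iteratedDeriv_succ]
    rw [h1, ih]
    funext z
    exact (dc_ne_hasDerivAt t n z).deriv

lemma dc_ne_conj (t : ℝ) (n : ℕ) (z : ℂ) : dc_ne_F t n (conj z) = conj (dc_ne_F t n z) := by
  unfold dc_ne_F
  rw [← integral_conj, ← integral_neg_eq_self]
  congr 1
  funext u
  rw [PhiT_neg, map_mul, map_mul, map_pow, ← Complex.exp_conj]
  simp only [map_mul, Complex.conj_ofReal, Complex.conj_I, Complex.ofReal_neg, mul_neg, neg_mul]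

lemma dc_ne_par (t : ℝ) (n : ℕ) (z : ℂ) : dc_ne_F t n (-z) = (-1) ^ n * dc_ne_F t n z := by
  unfold dc_ne_F
  rw [← integral_const_mul, ← integral_neg_eq_self]
  congr 1
  funext u
  rw [PhiT_neg]
  have h1 : (I * ((-u : ℝ) : ℂ)) ^ n = (-1) ^ n * (I * u) ^ n := by
    rw [← mul_pow]
    congr 1
    push_cast
    ring
  have h2 : I * -z * ((-u : ℝ) : ℂ) = I * z * u := by
    push_cast
    ring
  rw [h1, h2]
  ring

lemma dc_ne_zero (t : ℝ) (k : ℕ) : dc_ne_F t (2 * k) 0 ≠ 0 := by
  have h1 : ∀ u : ℝ, (PhiT t u : ℂ) * (I * u) ^ (2 * k) * cexp (I * 0 * u) =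
      (-1) ^ k * ((PhiT t u * u ^ (2 * k) : ℝ) : ℂ) := by
    intro u
    rw [mul_zero, zero_mul, Complex.exp_zero, mul_one, mul_pow, pow_mul I, I_sq]
    push_cast
    ring
  have hint : Integrable (fun u : ℝ => PhiT t u * u ^ (2 * k)) := by
    refine ((integrable_PhiT_exp t 1).const_mul ((2 * k)! : ℝ)).mono'
      ((PhiT_continuous t).mul (by fun_prop)).aestronglyMeasurable
      (Eventually.of_forall fun u => ?_)
    have h3 := Real.pow_div_factorial_le_exp |u| (abs_nonneg u) (2 * k)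
    rw [div_le_iff₀ (by positivity)] at h3
    rw [norm_mul, norm_pow, Real.norm_of_nonneg (PhiT_pos t u).le, Real.norm_eq_abs, one_mul]
    calc PhiT t u * |u| ^ (2 * k) ≤ PhiT t u * (Real.exp |u| * ((2 * k)! : ℝ)) :=
          mul_le_mul_of_nonneg_left h3 (PhiT_pos t u).le
      _ = _ := by ring
  have hpos : 0 < ∫ u : ℝ, PhiT t u * u ^ (2 * k) := by
    refine integral_pos_of_integrable_nonneg_nonzero (x := 1)
      ((PhiT_continuous t).mul (by fun_prop)) hint (fun u => ?_) ?_
    · have := PhiT_pos t u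
      have h4 : 0 ≤ u ^ (2 * k) := by
        rw [pow_mul]
        positivity
      exact mul_nonneg this.le h4
    · rw [one_pow, mul_one]
      exact (PhiT_pos t 1).ne'
  unfold dc_ne_F
  simp_rw [h1]
  rw [integral_const_mul, integral_complex_ofReal]
  refine mul_ne_zero (pow_ne_zero _ (neg_ne_zero.2 one_ne_zero)) ?_
  exact_mod_cast hpos.ne'

/-- the derivatives of `H_t`: entire, not identically zero, symmetries -/
theorem p_ne : S_ne := by
  intro n t
  refine ⟨?_, ?_, ?_, ?_⟩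
  · rw [dc_ne_HD]
    exact fun z => (dc_ne_hasDerivAt t n z).differentiableAt
  · by_contra hcon
    push Not at hcon
    have h1 : ∀ j : ℕ, ∀ v, HD (n + j) t v = 0 := by
      intro j
      induction j with
      | zero => exact hcon
      | succ j ih =>
        intro v
        have h2 : HD (n + (j + 1)) t = deriv (HD (n + j) t) := by
          unfold HD
          rw [← add_assoc, iteratedDeriv_succ]
        have h3 : HD (n + j) t = fun _ => 0 := funext ih
        rw [h2, h3, deriv_const]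
    have h4 := h1 n 0
    rw [dc_ne_HD, ← two_mul] at h4
    exact dc_ne_zero t n h4
  · intro z
    rw [dc_ne_HD]
    exact dc_ne_conj t n z
  · intro z
    rw [dc_ne_HD]
    exact dc_ne_par t n z

end Pool.Agent.Lib.MP_cd509c_nt.DC
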