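import Pool.Agent.Lib.MP_cd509c_nt.DC.Defs

/-!
# Zero-free entire functions of order two (piece quad)
-/

set_option autoImplicit false

namespace Pool.Agent.Lib.MP_cd509c_nt.DC

open Complex ComplexConjugate MeasureTheory Filter Topology

theorem dc_quad_log (f : ℂ → ℂ) (hf : Differentiable ℂ f) (h0 : ∀ s, f s ≠ 0) :
    ∃ g : ℂ → ℂ, Differentiable ℂ g ∧ ∀ s, f s = cexp (g s) := by
  have hd : Differentiable ℂ (deriv f) := by
    have h1 : DifferentiableOn ℂ (deriv f) Set.univ :=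
      hf.differentiableOn.deriv isOpen_univ
    exact differentiableOn_univ.mp h1
  have hL : Differentiable ℂ (fun z => deriv f z / f z) := fun z => (hd z).div (hf z) (h0 z)
  obtain ⟨g, hg0, hg⟩ := (hL.isExactOn_univ).with_val_at 0 (Complex.log (f 0))
  have hg' : ∀ x, HasDerivAt g (deriv f x / f x) x := fun x => hg x (Set.mem_univ x)
  refine ⟨g, fun x => (hg' x).differentiableAt, fun s => ?_⟩
  have hq : ∀ x, HasDerivAt (fun z => f z * cexp (-g z)) 0 x := by
    intro x
    have h1 := (hf x).hasDerivAt.mul ((hg' x).neg.cexp)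
    have e : deriv f x * cexp (-g x) + f x * (cexp (-g x) * -(deriv f x / f x)) = 0 := by
      have := h0 x
      field_simp
      ring
    rw [← e]
    exact h1
  have hc : (fun z => f z * cexp (-g z)) s = (fun z => f z * cexp (-g z)) 0 :=
    is_const_of_deriv_eq_zero (fun x => (hq x).differentiableAt) (fun x => (hq x).deriv) s 0
  have h2 : f s * cexp (-g s) = 1 := by
    have h3 : f 0 * cexp (-g 0) = 1 := by
      rw [hg0, Complex.exp_neg, Complex.exp_log (h0 0)]
      exact mul_inv_cancel₀ (h0 0)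
    rw [← h3]
    exact hc
  rw [Complex.exp_neg] at h2
  have h4 := Complex.exp_ne_zero (g s)
  field_simp at h2
  exact h2

theorem dc_quad_arch (δ A B R₀ : ℝ) (hδ : 0 ≤ δ) (hA : 0 ≤ A) (hB : 0 ≤ B)
    (h : ∀ R : ℝ, R₀ ≤ R → 0 < R → δ * R ^ 3 ≤ A + B * R ^ 2) : δ = 0 := by
  by_contra hne
  have hpos : 0 < δ := lt_of_le_of_ne hδ (Ne.symm hne)
  set R := |R₀| + 1 + (A + B + 1) / δ with hR
  have h1 : 0 ≤ (A + B + 1) / δ := by positivity
  have h2 : 1 ≤ R := by
    have := abs_nonneg R₀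
    linarith
  have h3 : R₀ ≤ R := by
    have := le_abs_self R₀
    linarith
  have h4 := h R h3 (by linarith)
  have h5 : A + B * R ^ 2 ≤ (A + B) * R ^ 2 := by
    have : A * 1 ≤ A * R ^ 2 := mul_le_mul_of_nonneg_left (by nlinarith) hA
    nlinarith
  have h6 : A + B + 1 ≤ δ * R := by
    have e : δ * ((A + B + 1) / δ) = A + B + 1 := by field_simp
    have h7 : δ * ((A + B + 1) / δ) ≤ δ * R := by
      refine mul_le_mul_of_nonneg_left ?_ hδ
      have := abs_nonneg R₀
      linarith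
    linarith
  have h8 : (A + B + 1) * R ^ 2 ≤ δ * R * R ^ 2 :=
    mul_le_mul_of_nonneg_right h6 (by positivity)
  have h9 : δ * R * R ^ 2 = δ * R ^ 3 := by ring
  nlinarith [sq_nonneg R]

theorem dc_quad_third (g : ℂ → ℂ) (K C : ℝ) (hK : 0 ≤ K) (hC : 0 ≤ C) (hg : Differentiable ℂ g)
    (hb : ∀ s, (g s).re ≤ K + C * ‖s‖ ^ 2) (c : ℂ) : iteratedDeriv 3 g c = 0 := by
  have hG : 0 ≤ ‖g 0‖ := norm_nonneg _
  have key : ∀ R : ℝ, 4 * ‖c‖ + 4 ≤ R → 0 < R →
      ‖iteratedDeriv 3 g c‖ * R ^ 3 ≤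
        384 * (2 * (K + 1) + 3 * ‖g 0‖) + 384 * (2 * C) * R ^ 2 := by
    intro R hR hR0
    have hM : 0 < K + C * R ^ 2 + 1 := by positivity
    have hmaps : Set.MapsTo g (Metric.ball 0 R) {z | z.re ≤ K + C * R ^ 2 + 1} := by
      intro z hz
      have hz' : ‖z‖ < R := by simpa using hz
      have h1 : C * ‖z‖ ^ 2 ≤ C * R ^ 2 :=
        mul_le_mul_of_nonneg_left (pow_le_pow_left₀ (norm_nonneg z) hz'.le 2) hC
      have h2 := hb z
      show (g z).re ≤ K + C * R ^ 2 + 1
      linarith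
    have hbd : ∀ z : ℂ, ‖z‖ ≤ R / 2 → ‖g z‖ ≤ 2 * (K + C * R ^ 2 + 1) + 3 * ‖g 0‖ := by
      intro z hz
      have hz' : z ∈ Metric.ball (0 : ℂ) R := by
        rw [mem_ball_zero_iff]
        linarith
      have h1 := borelCaratheodory hM hg.differentiableOn hmaps hR0 hz'
      have hpos : 0 < R - ‖z‖ := by linarith
      have h2 : 2 * (K + C * R ^ 2 + 1) * ‖z‖ / (R - ‖z‖) ≤ 2 * (K + C * R ^ 2 + 1) := by
        rw [div_le_iff₀ hpos]
        exact mul_le_mul_of_nonneg_left (by linarith) (by positivity)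
      have h3 : ‖g 0‖ * (R + ‖z‖) / (R - ‖z‖) ≤ 3 * ‖g 0‖ := by
        rw [div_le_iff₀ hpos]
        have : ‖g 0‖ * (R + ‖z‖) ≤ ‖g 0‖ * (3 * (R - ‖z‖)) :=
          mul_le_mul_of_nonneg_left (by linarith) hG
        linarith
      linarith
    have hR4 : 0 < R / 4 := by positivity
    have h4 := norm_iteratedDeriv_le_of_forall_mem_sphere_norm_le (c := c) 3 hR4
      (hg.diffContOnCl) (C := 2 * (K + C * R ^ 2 + 1) + 3 * ‖g 0‖) (by
        intro z hz
        apply hbd
        have h5 : ‖z - c‖ = R / 4 := by simpa [dist_eq_norm] using hz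
        have h6 : ‖z‖ ≤ ‖z - c‖ + ‖c‖ := by
          have := norm_add_le (z - c) c
          simpa using this
        have h7 := norm_nonneg c
        linarith)
    have h8 : ((Nat.factorial 3 : ℕ) : ℝ) = 6 := by norm_num [Nat.factorial]
    rw [h8, le_div_iff₀ (by positivity)] at h4
    nlinarith [h4]
  have h := dc_quad_arch ‖iteratedDeriv 3 g c‖ (384 * (2 * (K + 1) + 3 * ‖g 0‖))
    (384 * (2 * C)) (4 * ‖c‖ + 4) (norm_nonneg _) (by positivity) (by positivity) key
  exact norm_eq_zero.mp h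

theorem dc_quad_poly (g : ℂ → ℂ) (hg : Differentiable ℂ g) (h3 : ∀ c, iteratedDeriv 3 g c = 0) :
    ∃ a b c : ℂ, ∀ s, g s = a * s ^ 2 + b * s + c := by
  have hd1 : Differentiable ℂ (deriv g) :=
    differentiableOn_univ.mp (hg.differentiableOn.deriv isOpen_univ)
  have hd2 : Differentiable ℂ (deriv (deriv g)) :=
    differentiableOn_univ.mp (hd1.differentiableOn.deriv isOpen_univ)
  have e3 : iteratedDeriv 3 g = deriv (deriv (deriv g)) := by
    rw [iteratedDeriv_succ, iteratedDeriv_succ, iteratedDeriv_one]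
  have h2 : ∀ s, deriv (deriv g) s = deriv (deriv g) 0 := fun s =>
    is_const_of_deriv_eq_zero hd2 (fun x => by rw [← e3]; exact h3 x) s 0
  set a₂ := deriv (deriv g) 0 with ha₂
  have h1 : ∀ s, deriv g s = a₂ * s + deriv g 0 := by
    intro s
    have hq : ∀ x, HasDerivAt (fun z => deriv g z - a₂ * z) 0 x := by
      intro x
      have h5 := (hd1 x).hasDerivAt.sub ((hasDerivAt_id x).const_mul a₂)
      rw [h2 x, mul_one, sub_self] at h5
      exact h5
    have h6 : (fun z => deriv g z - a₂ * z) s = (fun z => deriv g z - a₂ * z) 0 :=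
      is_const_of_deriv_eq_zero (fun x => (hq x).differentiableAt) (fun x => (hq x).deriv) s 0
    simp only [mul_zero, sub_zero] at h6
    rw [← h6]
    ring
  refine ⟨a₂ / 2, deriv g 0, g 0, fun s => ?_⟩
  have hq : ∀ x, HasDerivAt (fun z => g z - (a₂ / 2 * z ^ 2 + deriv g 0 * z)) 0 x := by
    intro x
    have h5 := (hg x).hasDerivAt.sub
      ((((hasDerivAt_id x).pow 2).const_mul (a₂ / 2)).add ((hasDerivAt_id x).const_mul (deriv g 0)))
    have e : deriv g x - (a₂ / 2 * (((2 : ℕ) : ℂ) * id x ^ (2 - 1) * 1) + deriv g 0 * 1) = 0 := by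
      rw [h1 x]
      simp only [id]
      push_cast
      ring
    rw [e] at h5
    exact h5
  have h6 : (fun z => g z - (a₂ / 2 * z ^ 2 + deriv g 0 * z)) s =
      (fun z => g z - (a₂ / 2 * z ^ 2 + deriv g 0 * z)) 0 :=
    is_const_of_deriv_eq_zero (fun x => (hq x).differentiableAt) (fun x => (hq x).deriv) s 0
  simp only at h6
  linear_combination h6

theorem p_quad : S_quad := by
  intro f C hf h0 hb
  obtain ⟨g, hg, hfg⟩ := dc_quad_log f hf h0
  have hCpos : 0 < C := by
    have h1 := hb 0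
    have h2 : 0 < ‖f 0‖ := norm_pos_iff.mpr (h0 0)
    by_contra hC
    push Not at hC
    have h3 : C * Real.exp (C * ‖(0 : ℂ)‖ ^ 2) ≤ 0 :=
      mul_nonpos_of_nonpos_of_nonneg hC (Real.exp_pos _).le
    linarith
  have hre : ∀ s, (g s).re ≤ |Real.log C| + C * ‖s‖ ^ 2 := by
    intro s
    have h1 := hb s
    rw [hfg s, Complex.norm_exp] at h1
    have h2 : C * Real.exp (C * ‖s‖ ^ 2) = Real.exp (Real.log C + C * ‖s‖ ^ 2) := by
      rw [Real.exp_add, Real.exp_log hCpos]
    rw [h2, Real.exp_le_exp] at h1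
    have h3 := le_abs_self (Real.log C)
    linarith
  have h3 : ∀ c, iteratedDeriv 3 g c = 0 :=
    dc_quad_third g |Real.log C| C (abs_nonneg _) hCpos.le hg hre
  obtain ⟨a, b, c, h⟩ := dc_quad_poly g hg h3
  exact ⟨a, b, c, fun s => by rw [hfg s, h s]⟩

end Pool.Agent.Lib.MP_cd509c_nt.DC
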