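import Pool.Agent.Lib.MP_cd509c_nt.DC.Defs

/-!
# Project P2, piece rep: integral representation (helper98)
-/

set_option autoImplicit false

namespace Pool.Agent.Lib.MP_cd509c_nt.DC

open Complex ComplexConjugate MeasureTheory Filter Topology
open Pool.Agent.Lib.MP_cd509c_nt.DN

theorem dc_rep_double {τ : ℝ} (hτ : 0 < τ) (T : ℝ) (c : ℂ) :
    Integrable (fun p : ℝ × ℝ => cexp (-(p.1 : ℂ) ^ 2 / (4 * τ) - p.1 * c * I) *
      ((Phi p.2 : ℂ) * cexp ((2 + (T + p.1) * I) * p.2))) (volume.prod volume) := by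
  have h1 : Integrable (fun v : ℝ => Real.exp (-(v - 2 * τ * c.im) ^ 2 / (4 * τ))) :=
    integrable_gauss (by positivity) _
  have h2 : Integrable (fun u : ℝ => PhiT 0 u * Real.exp (2 * |u|)) := integrable_PhiT_exp _ _
  have h3 := (h1.mul_prod h2).const_mul (Real.exp (τ * c.im ^ 2))
  refine h3.mono' ?_ (Eventually.of_forall fun p => ?_)
  · apply Continuous.aestronglyMeasurable
    apply Continuous.mul (by fun_prop)
    apply Continuous.mul
    · exact Complex.continuous_ofReal.comp (Phi_continuous.comp continuous_snd)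
    · fun_prop
  · obtain ⟨v, u⟩ := p
    simp only
    rw [norm_mul, norm_mul, Complex.norm_real, Real.norm_of_nonneg (Phi_pos u).le,
      Complex.norm_exp, Complex.norm_exp, PhiT]
    have e1 : (-(v : ℂ) ^ 2 / (4 * τ) - v * c * I).re =
        τ * c.im ^ 2 + -(v - 2 * τ * c.im) ^ 2 / (4 * τ) := by
      have h4 : (-(v : ℂ) ^ 2 / (4 * τ)) = ((-v ^ 2 / (4 * τ) : ℝ) : ℂ) := by push_cast; rfl
      rw [sub_re, h4, ofReal_re]
      have h5 : ((v : ℂ) * c * I).re = -(v * c.im) := by simp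
      rw [h5]
      field_simp
      ring
    have e2 : ((2 + ((T : ℂ) + v) * I) * (u : ℂ)).re = 2 * u := by simp
    rw [e1, e2, Real.exp_add]
    have h5 : Real.exp (2 * u) ≤ Real.exp (2 * |u|) :=
      Real.exp_le_exp.mpr (by linarith [le_abs_self u])
    have hP := Phi_pos u
    have h6 : Real.exp (0 * u ^ 2) = 1 := by simp
    rw [h6, mul_one]
    have h7 : Phi u * Real.exp (2 * u) ≤ Phi u * Real.exp (2 * |u|) :=
      mul_le_mul_of_nonneg_left h5 hP.le
    calc _ ≤ Real.exp (τ * c.im ^ 2) * Real.exp (-(v - 2 * τ * c.im) ^ 2 / (4 * τ)) *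
          (Phi u * Real.exp (2 * |u|)) := mul_le_mul_of_nonneg_left h7 (by positivity)
      _ = _ := by ring

/-- the Fourier-Gauss transform of `Λ` on the line `Re s = 8` -/
theorem dc_rep_Ht {τ : ℝ} (hτ : 0 < τ) (T : ℝ) (c : ℂ) :
    (Nt τ : ℂ) * ∫ v : ℝ, Lam (8 + (T + v) * I) * cexp (-(v : ℂ) ^ 2 / (4 * τ) - v * c * I) =
      Ht (-τ) (-(I * (2 + T * I + 2 * τ * c))) * cexp (-(τ * c ^ 2)) := by
  have hdouble := dc_rep_double hτ T c
  have h1 : ∀ v : ℝ, Lam (8 + (T + v) * I) * cexp (-(v : ℂ) ^ 2 / (4 * τ) - v * c * I) =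
      ∫ u : ℝ, cexp (-(v : ℂ) ^ 2 / (4 * τ) - v * c * I) *
        ((Phi u : ℂ) * cexp ((2 + (T + v) * I) * u)) := by
    intro v
    rw [integral_const_mul, Lam_eq, mul_comm]
    congr 2
    funext u
    congr 2
    ring
  simp_rw [h1]
  rw [integral_integral_swap hdouble, ← integral_const_mul, Ht_eq, ← integral_mul_const]
  congr 1
  funext u
  have h2 : (fun v : ℝ => cexp (-(v : ℂ) ^ 2 / (4 * τ) - v * c * I) *
        ((Phi u : ℂ) * cexp ((2 + (T + v) * I) * u))) =
      fun v : ℝ => (Phi u : ℂ) *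
        cexp (-(v : ℂ) ^ 2 / (4 * τ) + (u * I - c * I) * v + (2 + T * I) * u) := by
    funext v
    rw [mul_left_comm, ← Complex.exp_add]
    congr 2
    ring
  rw [h2, integral_const_mul, mul_left_comm, gauss_integral hτ, PhiT]
  push_cast
  rw [mul_assoc, mul_assoc, ← Complex.exp_add, ← Complex.exp_add]
  congr 2
  have hI : I ^ 2 = -1 := I_sq
  linear_combination (τ * (u - c) ^ 2 + (2 + T * I + 2 * τ * c) * u) * hI

/-- PIECE rep -/
theorem p_rep : S_rep := by
  intro τ T ω hτ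
  have h1 : ∀ v : ℝ, gg T v * Lf (8 + (T + v) * I) *
      cexp (-(v : ℂ) ^ 2 / (4 * τ) - v * ω * I) =
      (G8 T)⁻¹ * (Lam (8 + (T + v) * I) *
        cexp (-(v : ℂ) ^ 2 / (4 * τ) - v * (ω + r8 T) * I)) := by
    intro v
    have h2 : Lam (8 + (T + v) * I) = G8 (T + v) * Lf (8 + (T + v) * I) := by
      have h3 : 0 < (8 + ((T : ℂ) + v) * I).re := by simp
      rw [Lam_eq_Lf h3, G8]
      push_cast
      rfl
    have h4 : cexp (-(v : ℂ) ^ 2 / (4 * τ) - v * (ω + r8 T) * I) =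
        cexp (-(v * r8 T * I)) * cexp (-(v : ℂ) ^ 2 / (4 * τ) - v * ω * I) := by
      rw [← Complex.exp_add]
      congr 1
      ring
    rw [h2, h4, gg, div_eq_mul_inv]
    ring
  simp_rw [h1]
  rw [integral_const_mul, mul_left_comm, dc_rep_Ht hτ T (ω + r8 T), PP, wp, Complex.exp_neg,
    div_eq_mul_inv, mul_inv]
  ring

end Pool.Agent.Lib.MP_cd509c_nt.DC
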