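import Pool.Agent.Lib.MP_cd509c_nt.DC.Defs

/-!
# A common strip for the zeros of all derivatives
-/

set_option autoImplicit false

namespace Pool.Agent.Lib.MP_cd509c_nt.DC

/-- a common strip for the zeros of all derivatives -/
theorem p_strip (h1 : S_ne) (h2 : S_appZ) (h3 : S_jens) : S_strip := by
  obtain ⟨B, hB, hst⟩ := Ht_strip_all
  refine ⟨max B 1, le_max_right _ _, fun n t ht z hz => ?_⟩
  have hF0 : HD 0 t = Ht t := iteratedDeriv_zero
  have hd : Differentiable ℂ (Ht t) := hF0 ▸ (h1 0 t).1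
  have ha : AppZ (Ht t) := hF0 ▸ h2 0 t
  exact (h3 (Ht t) n (max B 1) hd ha (le_trans zero_le_one (le_max_right _ _))
    (fun ζ hζ => (hst t ht ζ hζ).trans (le_max_left _ _)) (h1 n t).2.1 z hz).1

end Pool.Agent.Lib.MP_cd509c_nt.DC
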