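import Mathlib.Analysis.Complex.Schwarz
import Pool.Agent.Lib.MP_cd509c_nt.DC.Defs

/-!
# From the two bounds to regularity
-/

set_option autoImplicit false

namespace Pool.Agent.Lib.MP_cd509c_nt.DC

open Complex ComplexConjugate MeasureTheory Filter Topology
open Pool.Agent.Lib.MP_cd509c_nt.DN

/-- the relative error -/
private noncomputable def toReg_E (t : ℝ) (ρ : ℂ) (h : ℂ → ℂ) (ζ : ℂ) : ℂ :=
  h ζ * cexp (-(ρ * ζ + t * ρ ^ 2)) - 1

private lemma toReg_E_diff (t : ℝ) (ρ : ℂ) (h : ℂ → ℂ) (hh : Differentiable ℂ h) :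
    Differentiable ℂ (toReg_E t ρ h) := by
  unfold toReg_E
  fun_prop

private lemma toReg_E_eq (t : ℝ) (ρ : ℂ) (h : ℂ → ℂ) (ζ : ℂ) :
    h ζ = cexp (ρ * ζ + t * ρ ^ 2) * (1 + toReg_E t ρ h ζ) := by
  unfold toReg_E
  rw [add_sub_cancel, mul_left_comm, ← Complex.exp_add, add_neg_cancel, Complex.exp_zero, mul_one]

private lemma toReg_E_le (t : ℝ) (ρ : ℂ) (h : ℂ → ℂ) (ζ : ℂ)
    (hb : ‖h ζ - cexp (ρ * ζ + t * ρ ^ 2)‖ ≤ 1 / 8 * ‖cexp (ρ * ζ + t * ρ ^ 2)‖) :
    ‖toReg_E t ρ h ζ‖ ≤ 1 / 8 := by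
  have h0 : 0 < ‖cexp (ρ * ζ + t * ρ ^ 2)‖ := norm_pos_iff.2 (Complex.exp_ne_zero _)
  have h1 : h ζ - cexp (ρ * ζ + t * ρ ^ 2) = cexp (ρ * ζ + t * ρ ^ 2) * toReg_E t ρ h ζ := by
    conv_lhs => rw [toReg_E_eq t ρ h ζ]
    ring
  rw [h1, norm_mul, mul_comm (1 / 8 : ℝ)] at hb
  exact le_of_mul_le_mul_left hb h0

/-- the normalised function in terms of the relative error -/
private lemma toReg_R_eq (l t a : ℝ) (ρ : ℂ) (h : ℂ → ℂ) (z : ℂ) :
    h (a * z) * cexp (-((a * l : ℝ) * z)) =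
      cexp ((ρ - l) * (a * z) + t * ρ ^ 2) * (1 + toReg_E t ρ h (a * z)) := by
  conv_lhs => rw [toReg_E_eq t ρ h (a * z)]
  rw [mul_right_comm, ← Complex.exp_add]
  congr 2
  push_cast
  ring

private lemma toReg_one_add (e : ℂ) (he : ‖e‖ ≤ 1 / 8) : 7 / 8 ≤ ‖1 + e‖ ∧ ‖1 + e‖ ≤ 9 / 8 := by
  have h1 : ‖(1 : ℂ)‖ = 1 := norm_one
  constructor
  · have := norm_sub_le (1 + e) e
    rw [add_sub_cancel_right, h1] at this
    linarith
  · have := norm_add_le (1 : ℂ) e
    rw [h1] at this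
    linarith

private lemma toReg_ratio (l t a : ℝ) (ρ : ℂ) (h : ℂ → ℂ) (w v : ℂ) (hl : |ρ.re - l| ≤ 3)
    (hi : |ρ.im| ≤ 2) (ha : 0 ≤ a) (c : ℝ)
    (hc : ‖1 + toReg_E t ρ h (a * v)‖ ≤ Real.exp c * ‖1 + toReg_E t ρ h (a * w)‖) :
    ‖h (a * v) * cexp (-((a * l : ℝ) * v))‖ ≤
      Real.exp (5 * a * ‖v - w‖ + c) * ‖h (a * w) * cexp (-((a * l : ℝ) * w))‖ := by
  rw [toReg_R_eq l t a ρ h v, toReg_R_eq l t a ρ h w, norm_mul, norm_mul, Complex.norm_exp,
    Complex.norm_exp]
  have h5 : ‖ρ - l‖ ≤ 5 := by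
    refine (Complex.norm_le_abs_re_add_abs_im _).trans ?_
    simp only [sub_re, ofReal_re, sub_im, ofReal_im, sub_zero]
    linarith
  have h6 : ((ρ - l) * (a * v) + t * ρ ^ 2).re ≤
      5 * a * ‖v - w‖ + ((ρ - l) * (a * w) + t * ρ ^ 2).re := by
    have h7 : ((ρ - l) * (a * v) + t * ρ ^ 2).re - ((ρ - l) * (a * w) + t * ρ ^ 2).re =
        ((ρ - l) * (a * (v - w))).re := by
      rw [← sub_re]
      congr 1
      ring
    have h8 : ((ρ - l) * (a * (v - w))).re ≤ 5 * (a * ‖v - w‖) := by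
      refine (Complex.re_le_norm _).trans ?_
      rw [norm_mul, norm_mul, Complex.norm_real, Real.norm_of_nonneg ha]
      exact mul_le_mul_of_nonneg_right h5 (by positivity)
    linarith
  calc _ ≤ Real.exp (5 * a * ‖v - w‖ + ((ρ - l) * (a * w) + t * ρ ^ 2).re) *
        (Real.exp c * ‖1 + toReg_E t ρ h (a * w)‖) :=
      mul_le_mul (Real.exp_le_exp.2 h6) hc (norm_nonneg _) (Real.exp_pos _).le
    _ = _ := by
      rw [Real.exp_add, Real.exp_add]
      ring

theorem p_toReg : S_toReg := by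
  intro ε C₃ hε hC
  refine ⟨1 + 16 * C₃ / ε, by have : 0 ≤ 16 * C₃ / ε := by positivity
                              linarith, ?_⟩
  intro A hA
  have hq0 : 0 ≤ 16 * C₃ / ε := by positivity
  have hA1 : 1 ≤ A := by linarith
  have hAε : 16 * C₃ ≤ ε * A := by
    have h1 : 16 * C₃ / ε ≤ A := by linarith
    rw [div_le_iff₀ hε] at h1
    linarith
  have hq1 : 0 ≤ 8 * (608 + 4 * A) / ε := by positivity
  refine ⟨1 + A ^ 2 + 601 * A + 5 + 8 * (608 + 4 * A) / ε, by nlinarith [sq_nonneg A], ?_⟩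
  intro l t a ρ h hl ht ht1 haA ha2 hre him hd hmain hcrude
  have hl1 : 1 ≤ l := by nlinarith [sq_nonneg A]
  have hl2 : A ^ 2 + 601 * A + 5 ≤ l := by linarith
  have hl3 : 8 * (608 + 4 * A) ≤ ε * l := by
    have h1 : 8 * (608 + 4 * A) / ε ≤ l := by nlinarith [sq_nonneg A]
    rw [div_le_iff₀ hε] at h1
    linarith
  have ha1 : 1 ≤ a := hA1.trans haA
  have ha0 : 0 ≤ a := by linarith
  have hEb : ∀ z : ℂ, 1 / 8 ≤ z.re → z.re ≤ 45 → |z.im| ≤ 21 →
      ‖toReg_E t ρ h (a * z)‖ ≤ 1 / 8 := by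
    intro z h1 h2 h3
    have e1 : ((a : ℂ) * z).re = a * z.re := by simp
    have e2 : ((a : ℂ) * z).im = a * z.im := by simp
    refine toReg_E_le t ρ h _ (hmain _ ?_ ?_ ?_)
    · rw [e1]
      nlinarith
    · rw [e1]
      nlinarith
    · rw [e2, abs_mul, abs_of_nonneg ha0]
      nlinarith [abs_nonneg z.im]
  -- lower bound for `R w`
  have hlow : ∀ w : ℂ, 1 / 4 ≤ w.re → w.re ≤ 40 → |w.im| ≤ 20 →
      Real.exp (-(600 * A + 5)) ≤ ‖h (a * w) * cexp (-((a * l : ℝ) * w))‖ := by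
    intro w h1 h2 h3
    rw [toReg_R_eq l t a ρ h w, norm_mul, Complex.norm_exp]
    have h4 := (toReg_one_add _ (hEb w (by linarith) (by linarith) (by linarith))).1
    have h5 : ‖ρ - l‖ ≤ 5 := by
      refine (Complex.norm_le_abs_re_add_abs_im _).trans ?_
      simp only [sub_re, ofReal_re, sub_im, ofReal_im, sub_zero]
      linarith
    have h6 : ‖w‖ ≤ 60 := by
      refine (Complex.norm_le_abs_re_add_abs_im _).trans ?_
      rw [abs_of_nonneg (by linarith : (0 : ℝ) ≤ w.re)]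
      linarith
    have h7 : -(600 * A) ≤ ((ρ - l) * (a * w)).re := by
      have h8 : ‖(ρ - l) * (a * w)‖ ≤ 600 * A := by
        rw [norm_mul, norm_mul, Complex.norm_real, Real.norm_of_nonneg ha0]
        calc _ ≤ 5 * (a * 60) := mul_le_mul h5 (mul_le_mul_of_nonneg_left h6 ha0)
                (by positivity) (by norm_num)
          _ ≤ 600 * A := by linarith
      have h9 := Complex.abs_re_le_norm ((ρ - l) * (a * w))
      have h10 := neg_abs_le ((ρ - l) * (a * w)).re
      linarith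
    have h11 : -4 ≤ ((t : ℂ) * ρ ^ 2).re := by
      have e1 : ((t : ℂ) * ρ ^ 2).re = t * (ρ.re ^ 2 - ρ.im ^ 2) := by
        rw [Complex.re_ofReal_mul, pow_two, Complex.mul_re]
        ring
      rw [e1]
      have h12 : ρ.im ^ 2 ≤ 4 := by
        have := sq_le_sq' (by linarith [abs_nonneg ρ.im] : -2 ≤ |ρ.im|) him
        rw [sq_abs] at this
        linarith
      nlinarith [sq_nonneg ρ.re]
    have h13 : Real.exp (-1) ≤ 7 / 8 := by
      have := Real.exp_neg_one_lt_d9
      norm_num at this ⊢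
      linarith
    calc Real.exp (-(600 * A + 5)) ≤
          Real.exp (((ρ - l) * (a * w) + t * ρ ^ 2).re + -1) := by
            apply Real.exp_le_exp.2
            rw [add_re]
            linarith
      _ = Real.exp (((ρ - l) * (a * w) + t * ρ ^ 2).re) * Real.exp (-1) := Real.exp_add _ _
      _ ≤ _ := mul_le_mul_of_nonneg_left (h13.trans h4) (Real.exp_pos _).le
  -- upper bound for `R v`
  have hup : ∀ v : ℂ, 0 ≤ v.re → |v.im| ≤ 20 →
      ‖h (a * v) * cexp (-((a * l : ℝ) * v))‖ ≤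
        Real.exp (3 * a * v.re + C₃ * l + 2 * (a * v.re) ^ 2) := by
    intro v h1 h2
    have e1 : ((a : ℂ) * v).re = a * v.re := by simp
    have e2 : ((a : ℂ) * v).im = a * v.im := by simp
    have h3 := hcrude (a * v) (by
      rw [e2, abs_mul, abs_of_nonneg ha0]
      nlinarith [abs_nonneg v.im])
    rw [e1, abs_of_nonneg (mul_nonneg ha0 h1)] at h3
    rw [norm_mul, Complex.norm_exp]
    have e3 : (-(((a * l : ℝ) : ℂ) * v)).re = -(a * l * v.re) := by
      rw [neg_re, Complex.re_ofReal_mul]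
    rw [e3]
    calc _ ≤ Real.exp ((l + 3) * (a * v.re) + C₃ * l + 2 * (a * v.re) ^ 2) *
          Real.exp (-(a * l * v.re)) := mul_le_mul_of_nonneg_right h3 (Real.exp_pos _).le
      _ = _ := by
        rw [← Real.exp_add]
        congr 1
        ring
  refine ⟨?_, ?_, ?_, ?_⟩
  · fun_prop
  · intro w h1 h2 h3
    have := (Real.exp_pos _).trans_le (hlow w h1 h2 (by linarith))
    exact norm_pos_iff.1 this
  · intro w v hw1 hw2 hw3 hv1 hv2 hv3
    rw [mul_one] at hw3 hv3
    have hn : 0 ≤ ‖v - w‖ := norm_nonneg _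
    rcases le_or_gt (1 / 8) v.re with hv | hv
    · -- main region
      have hEv := toReg_one_add _ (hEb v hv (by linarith) (by linarith))
      have hEw := toReg_one_add _ (hEb w (by linarith) (by linarith) (by linarith))
      have hc : ‖1 + toReg_E t ρ h (a * v)‖ ≤
          Real.exp (32 * ‖v - w‖) * ‖1 + toReg_E t ρ h (a * w)‖ := by
        rcases lt_or_ge ‖v - w‖ (1 / 32) with hs | hs
        · have hmaps : Set.MapsTo (fun z : ℂ => toReg_E t ρ h (a * z)) (Metric.ball w (1 / 16))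
              (Metric.closedBall (toReg_E t ρ h (a * w)) (1 / 4)) := by
            intro z hz
            rw [Metric.mem_ball, Complex.dist_eq] at hz
            have hz1 := (Complex.abs_re_le_norm (z - w)).trans hz.le
            have hz2 := (Complex.abs_im_le_norm (z - w)).trans hz.le
            rw [sub_re, abs_le] at hz1
            rw [sub_im, abs_le] at hz2
            rw [abs_le] at hw3
            have h1 := hEb z (by linarith [hz1.1]) (by linarith [hz1.2])
              (abs_le.2 ⟨by linarith [hz2.1, hw3.1], by linarith [hz2.2, hw3.2]⟩)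
            have h2 := hEb w (by linarith) (by linarith) (abs_le.2 ⟨by linarith, by linarith⟩)
            rw [Metric.mem_closedBall, Complex.dist_eq]
            exact (norm_sub_le _ _).trans (by linarith)
          have hdd : Differentiable ℂ (fun z : ℂ => toReg_E t ρ h (a * z)) :=
            (toReg_E_diff t ρ h hd).comp (by fun_prop)
          have hv4 : v ∈ Metric.ball w (1 / 16) := by
            rw [Metric.mem_ball, Complex.dist_eq]
            linarith
          have h3 := Complex.dist_le_div_mul_dist_of_mapsTo_ball hdd.differentiableOn hmaps hv4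
          rw [Complex.dist_eq, Complex.dist_eq] at h3
          norm_num at h3
          have h4 : ‖1 + toReg_E t ρ h (a * v)‖ ≤ ‖1 + toReg_E t ρ h (a * w)‖ +
              ‖toReg_E t ρ h (a * v) - toReg_E t ρ h (a * w)‖ := by
            refine le_trans (le_of_eq ?_) (norm_add_le _ _)
            congr 1
            ring
          have h5 : 32 * ‖v - w‖ + 1 ≤ Real.exp (32 * ‖v - w‖) := Real.add_one_le_exp _
          nlinarith [hEw.1]
        · have h5 : 32 * ‖v - w‖ + 1 ≤ Real.exp (32 * ‖v - w‖) := Real.add_one_le_exp _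
          nlinarith [hEw.1, hEv.2]
      refine (toReg_ratio l t a ρ h w v hre him ha0 _ hc).trans ?_
      refine mul_le_mul_of_nonneg_right (Real.exp_le_exp.2 ?_) (norm_nonneg _)
      have h6 : 37 ≤ ε * l := by linarith
      have h7 : 5 * a + 32 ≤ ε * (a * l) := by nlinarith
      nlinarith
    · -- near the imaginary axis
      have h1 := hup v hv1 hv3
      have h2 := hlow w hw1 hw2 hw3
      have h3 : 1 / 8 ≤ ‖v - w‖ := by
        have h4 := Complex.abs_re_le_norm (v - w)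
        rw [sub_re] at h4
        have h5 := neg_abs_le (v.re - w.re)
        linarith
      have h6 : 3 * a * v.re + C₃ * l + 2 * (a * v.re) ^ 2 ≤
          ε * (a * l) * ‖v - w‖ + -(600 * A + 5) := by
        have h7 : ε * (a * l) * (1 / 8) ≤ ε * (a * l) * ‖v - w‖ :=
          mul_le_mul_of_nonneg_left h3 (by positivity)
        have h8 : 2 * C₃ * l ≤ ε * (a * l) * (1 / 8) := by
          have : 16 * C₃ ≤ ε * a := hAε.trans (mul_le_mul_of_nonneg_left haA hε.le)
          nlinarith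
        have h9 : a * v.re ≤ A / 4 := by nlinarith
        have h10 : 0 ≤ a * v.re := mul_nonneg ha0 hv1
        have h11 : (a * v.re) ^ 2 ≤ (A / 4) ^ 2 := pow_le_pow_left₀ h10 h9 2
        have h12 : l ≤ C₃ * l := le_mul_of_one_le_left (by linarith) hC
        nlinarith
      calc _ ≤ Real.exp (3 * a * v.re + C₃ * l + 2 * (a * v.re) ^ 2) := h1
        _ ≤ Real.exp (ε * (a * l) * ‖v - w‖ + -(600 * A + 5)) := Real.exp_le_exp.2 h6
        _ = Real.exp (ε * (a * l) * ‖v - w‖) * Real.exp (-(600 * A + 5)) := Real.exp_add _ _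
        _ ≤ _ := mul_le_mul_of_nonneg_left h2 (Real.exp_pos _).le
  · intro w v hw1 hw2 hw3 hv1 hv3
    rw [mul_one] at hw3 hv3
    have h1 := hup v (by linarith) hv3
    have h2 := hlow w hw1 (by linarith) hw3
    have h3 : v.re / 2 ≤ ‖v - w‖ := by
      have h4 := Complex.abs_re_le_norm (v - w)
      rw [sub_re] at h4
      have h5 := le_abs_self (v.re - w.re)
      linarith
    have hx : 40 ≤ v.re := hv1
    have h6 : 3 * a * v.re + C₃ * l + 2 * (a * v.re) ^ 2 ≤
        ε * (a * l) * ‖v - w‖ ^ 2 + -(600 * A + 5) := by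
      have h7 : (v.re / 2) ^ 2 ≤ ‖v - w‖ ^ 2 := pow_le_pow_left₀ (by linarith) h3 2
      have h8 : ε * (a * l) * (v.re / 2) ^ 2 ≤ ε * (a * l) * ‖v - w‖ ^ 2 :=
        mul_le_mul_of_nonneg_left h7 (by positivity)
      have hx2 : 1 ≤ v.re ^ 2 := by nlinarith
      have hxx : v.re ≤ v.re ^ 2 := by nlinarith
      have h9 : C₃ * l ≤ ε * (a * l) * v.re ^ 2 / 8 := by
        have h10 : 16 * C₃ ≤ ε * a := hAε.trans (mul_le_mul_of_nonneg_left haA hε.le)
        have h11 : 16 * (C₃ * l) ≤ ε * (a * l) := by nlinarith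
        have h12 : 0 ≤ C₃ * l := by positivity
        nlinarith
      have h10 : a * (8 * (608 + 4 * A)) ≤ ε * (a * l) := by nlinarith
      have h11 : a * (608 + 4 * A) * v.re ^ 2 ≤ ε * (a * l) * v.re ^ 2 / 8 := by
        nlinarith [sq_nonneg v.re]
      have h12 : 3 * a * v.re ≤ 3 * (a * v.re ^ 2) := by nlinarith
      have h13 : 2 * (a * v.re) ^ 2 ≤ 4 * A * (a * v.re ^ 2) := by
        have : a * a ≤ 2 * A * a := mul_le_mul_of_nonneg_right ha2 ha0
        nlinarith [sq_nonneg v.re]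
      have h14 : 600 * A + 5 ≤ 605 * (a * v.re ^ 2) := by
        have : A ≤ a * v.re ^ 2 := haA.trans (le_mul_of_one_le_right ha0 hx2)
        linarith
      nlinarith
    calc _ ≤ Real.exp (3 * a * v.re + C₃ * l + 2 * (a * v.re) ^ 2) := h1
      _ ≤ Real.exp (ε * (a * l) * ‖v - w‖ ^ 2 + -(600 * A + 5)) := Real.exp_le_exp.2 h6
      _ = Real.exp (ε * (a * l) * ‖v - w‖ ^ 2) * Real.exp (-(600 * A + 5)) := Real.exp_add _ _
      _ ≤ _ := mul_le_mul_of_nonneg_left h2 (Real.exp_pos _).le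

end Pool.Agent.Lib.MP_cd509c_nt.DC
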