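import Pool.Agent.Lib.MP_cd509c_nt.DC.Defs

/-!
# The heat flow preserves real zeros of the derivatives
-/

set_option autoImplicit false

namespace Pool.Agent.Lib.MP_cd509c_nt.DC

open Complex ComplexConjugate MeasureTheory Filter Topology Polynomial
open Pool.Agent.Lib.MP_cd509c_nt.DN

/-- averaging -/
private lemma dc_up_step {n : ℕ} {K : ℝ → ℝ} (hK : Ker K) {δ : ℝ} (hδ : 0 < δ)
    (h : AppS 0 (iteratedDeriv n (FT K))) :
    AppS 0 (iteratedDeriv n (FT (fun u => K u * Real.cosh (δ * u)))) := by
  have h1 := h.shift hδ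
  have e : max (0 - δ ^ 2) 0 = 0 := max_eq_right (by nlinarith [sq_nonneg δ])
  rw [e] at h1
  have e3 : FT (fun u => K u * Real.cosh (δ * u)) =
      fun z => (FT K (z + δ * Complex.I) + FT K (z - δ * Complex.I)) / 2 := by
    funext z
    exact FT_shift hK δ z
  have hc : ContDiff ℂ n (FT K) := hK.FT_differentiable.contDiff
  have e2 : iteratedDeriv n (FT (fun u => K u * Real.cosh (δ * u))) =
      fun z => (iteratedDeriv n (FT K) (z + δ * Complex.I) +
        iteratedDeriv n (FT K) (z - δ * Complex.I)) / 2 := by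
    rw [e3]
    funext z
    rw [iteratedDeriv_div_const, iteratedDeriv_fun_add, iteratedDeriv_comp_add_const,
      iteratedDeriv_comp_sub_const]
    · exact (hc.comp (by fun_prop)).contDiffAt
    · exact (hc.comp (by fun_prop)).contDiffAt
  rw [e2]
  exact h1

private lemma dc_up_iter {n : ℕ} {K : ℝ → ℝ} (hK : Ker K) {δ : ℝ} (hδ : 0 < δ)
    (h : AppS 0 (iteratedDeriv n (FT K))) (N : ℕ) :
    AppS 0 (iteratedDeriv n (FT (fun u => K u * Real.cosh (δ * u) ^ N))) := by
  induction N with
  | zero => simpa using h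
  | succ N ih =>
    have h1 := dc_up_step (hK.mul_cosh_pow δ N) hδ ih
    have e2 : (fun u => K u * Real.cosh (δ * u) ^ (N + 1)) =
        fun u => (fun u => K u * Real.cosh (δ * u) ^ N) u * Real.cosh (δ * u) := by
      funext u
      simp only
      rw [pow_succ]
      ring
    rw [e2]
    exact h1

/-- convergence of the Fourier transforms -/
private lemma dc_up_lim {K : ℝ → ℝ} (hK : Ker K) {t : ℝ} (ht : 0 < t)
    (hKt : Ker (fun u => K u * Real.exp (t * u ^ 2))) (R ε : ℝ) (hε : 0 < ε) :
    ∀ᶠ N : ℕ in atTop, ∀ z : ℂ, ‖z‖ ≤ R → ‖FT (fun u => K u * Real.exp (t * u ^ 2)) z -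
      FT (fun u => K u * Real.cosh (Real.sqrt (2 * t / N) * u) ^ N) z‖ < ε := by
  have hR : 0 ≤ |R| := abs_nonneg R
  have hlim : Tendsto (fun N : ℕ => ∫ u : ℝ, (K u * Real.exp (t * u ^ 2) -
      K u * Real.cosh (Real.sqrt (2 * t / N) * u) ^ N) * Real.exp (|R| * |u|)) atTop (𝓝 0) := by
    have h0 : (∫ u : ℝ, (0 : ℝ)) = 0 := by simp
    rw [← h0]
    refine tendsto_integral_of_dominated_convergence
      (fun u => K u * Real.exp (t * u ^ 2) * Real.exp (|R| * |u|)) ?_ (hKt.integrable_exp |R| hR)
      ?_ ?_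
    · intro N
      exact (((hK.cont.mul (by fun_prop)).sub (hK.cont.mul (by fun_prop))).mul
        (by fun_prop)).aestronglyMeasurable
    · intro N
      refine Eventually.of_forall fun u => ?_
      rcases Nat.eq_zero_or_pos N with h | h
      · subst h
        simp only [pow_zero, mul_one]
        have h1 : 1 ≤ Real.exp (t * u ^ 2) := Real.one_le_exp (by positivity)
        have h2 := hK.pos u
        have h3 : 0 ≤ K u * Real.exp (t * u ^ 2) - K u := by nlinarith
        rw [Real.norm_of_nonneg (by positivity)]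
        apply mul_le_mul_of_nonneg_right _ (Real.exp_pos _).le
        linarith
      · have h1 := cosh_pow_le t ht.le N h u
        have h2 := hK.pos u
        have h3 : 0 ≤ K u * Real.exp (t * u ^ 2) -
            K u * Real.cosh (Real.sqrt (2 * t / N) * u) ^ N := by
          have := mul_le_mul_of_nonneg_left h1 h2.le
          linarith
        rw [Real.norm_of_nonneg (by positivity)]
        apply mul_le_mul_of_nonneg_right _ (Real.exp_pos _).le
        have h4 : 0 ≤ K u * Real.cosh (Real.sqrt (2 * t / N) * u) ^ N := by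
          have := Real.cosh_pos (Real.sqrt (2 * t / N) * u)
          positivity
        linarith
    · refine Eventually.of_forall fun u => ?_
      have h1 := cosh_pow_tendsto t ht.le u
      have h2 := ((h1.const_mul (K u)).const_sub (K u * Real.exp (t * u ^ 2))).mul_const
        (Real.exp (|R| * |u|))
      simpa using h2
  filter_upwards [hlim.eventually_lt_const hε, eventually_ge_atTop 1] with N hN hN1 z hz
  have hKN := hK.mul_cosh_pow (Real.sqrt (2 * t / N)) N
  refine lt_of_le_of_lt ?_ hN
  unfold FT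
  rw [← integral_sub (hKt.integrable_cexp _) (hKN.integrable_cexp _)]
  apply norm_integral_le_of_norm_le
  · have h2 := (hKt.integrable_exp |R| hR).sub (hKN.integrable_exp |R| hR)
    refine h2.congr (Eventually.of_forall fun u => ?_)
    simp only [Pi.sub_apply]
    ring
  · refine Eventually.of_forall fun u => ?_
    rw [← sub_mul, norm_mul, ← Complex.ofReal_sub, Complex.norm_real]
    have h1 := cosh_pow_le t ht.le N hN1 u
    have h2 := hK.pos u
    have h3 : 0 ≤ K u * Real.exp (t * u ^ 2) -
        K u * Real.cosh (Real.sqrt (2 * t / N) * u) ^ N := by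
      have := mul_le_mul_of_nonneg_left h1 h2.le
      linarith
    rw [Real.norm_of_nonneg h3]
    apply mul_le_mul_of_nonneg_left _ h3
    rw [Complex.norm_exp]
    apply Real.exp_le_exp.mpr
    refine (Complex.re_le_norm _).trans ?_
    rw [norm_mul, norm_mul, Complex.norm_I, one_mul, Complex.norm_real, Real.norm_eq_abs]
    apply mul_le_mul_of_nonneg_right _ (abs_nonneg _)
    exact hz.trans (le_abs_self R)

/-- from real to complex polynomials -/
private lemma dc_up_appS {F : ℂ → ℂ} (h : AppZ F) (hr : ∀ z, F z = 0 → z.im = 0) : AppS 0 F := by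
  intro R ε hε
  obtain ⟨P, hP0, hPz, hPb⟩ := h R ε hε
  have he : ∀ z : ℂ, (P.map (algebraMap ℝ ℂ)).eval z = aeval z P := fun z => by
    rw [eval_map_algebraMap]
  refine ⟨P.map (algebraMap ℝ ℂ), ?_, ?_, ?_, ?_⟩
  · intro z
    rw [he, he, aeval_conj']
  · rw [Ne, Polynomial.map_eq_zero]
    exact hP0
  · intro z hz
    rw [he] at hz
    rw [hr z (hPz z hz)]
    norm_num
  · intro z hz
    rw [he]
    exact hPb z hz

/-- the heat flow preserves real zeros -/
theorem p_up (hne : S_ne) (happ : S_appZ) : S_up := by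
  intro n s t hst hs z hz
  have hd : 0 < t - s := by linarith
  have hK := Ker_PhiT s
  have hF : FT (PhiT s) = Ht s := by
    funext w
    exact FT_PhiT s w
  have hKt : Ker (fun u => PhiT s u * Real.exp ((t - s) * u ^ 2)) := by
    rw [PhiT_add]
    exact Ker_PhiT _
  have hFt : FT (fun u => PhiT s u * Real.exp ((t - s) * u ^ 2)) = Ht t := by
    rw [PhiT_add, add_sub_cancel]
    funext w
    exact FT_PhiT t w
  have h0 : AppS 0 (iteratedDeriv n (FT (PhiT s))) := by
    rw [hF]
    exact dc_up_appS (happ n s) hs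
  -- locally uniform convergence
  have hloc : TendstoLocallyUniformlyOn (fun N : ℕ =>
      FT (fun u => PhiT s u * Real.cosh (Real.sqrt (2 * (t - s) / N) * u) ^ N)) (Ht t) atTop
        Set.univ := by
    rw [tendstoLocallyUniformlyOn_iff_forall_isCompact isOpen_univ]
    intro C _ hC
    obtain ⟨R, hR⟩ := hC.isBounded.subset_closedBall (0 : ℂ)
    rw [Metric.tendstoUniformlyOn_iff]
    intro ε hε
    filter_upwards [dc_up_lim hK hd hKt R ε hε] with N hN w hw
    rw [dist_eq_norm, ← hFt]
    apply hN
    have := hR hw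
    rwa [mem_closedBall_zero_iff] at this
  have hder := tendsto_iteratedDeriv _ (fun N =>
    (hK.mul_cosh_pow (Real.sqrt (2 * (t - s) / N)) N).FT_differentiable) isOpen_univ hloc n
  rw [tendstoLocallyUniformlyOn_iff_forall_isCompact isOpen_univ] at hder
  have hA : AppS 0 (HD n t) := by
    intro R ε hε
    have h1 := hder (Metric.closedBall 0 R) (Set.subset_univ _) (isCompact_closedBall _ _)
    rw [Metric.tendstoUniformlyOn_iff] at h1
    obtain ⟨N, hN, hN1⟩ := ((h1 (ε / 2) (by positivity)).and (eventually_ge_atTop 1)).exists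
    have hN0 : (0 : ℝ) < N := by exact_mod_cast hN1
    have hδ : 0 < Real.sqrt (2 * (t - s) / N) := Real.sqrt_pos.mpr (by positivity)
    obtain ⟨P, hP, hP0, hPD, hPb⟩ := dc_up_iter hK hδ h0 N R (ε / 2) (by positivity)
    refine ⟨P, hP, hP0, hPD, fun w hw => ?_⟩
    have h2 := hN w (by rw [mem_closedBall_zero_iff]; exact hw)
    rw [dist_eq_norm] at h2
    have h3 := hPb w hw
    have e : HD n t w - P.eval w = (iteratedDeriv n (Ht t) w - iteratedDeriv n
        (FT (fun u => PhiT s u * Real.cosh (Real.sqrt (2 * (t - s) / N) * u) ^ N)) w) +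
        (iteratedDeriv n
        (FT (fun u => PhiT s u * Real.cosh (Real.sqrt (2 * (t - s) / N) * u) ^ N)) w
          - P.eval w) := by
      unfold HD
      ring
    rw [e]
    refine (norm_add_le _ _).trans ?_
    linarith
  obtain ⟨hdiff, ⟨v, hv⟩, -⟩ := hne n t
  have h4 := hA.zeros hdiff v hv z hz
  have h5 : z.im ^ 2 = 0 := le_antisymm h4 (sq_nonneg _)
  exact pow_eq_zero_iff two_ne_zero |>.1 h5

end Pool.Agent.Lib.MP_cd509c_nt.DC
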