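import Mathlib
import Pool.Agent.Lib.MP_cd509c_nt.DC.Defs
import Pool.Agent.Lib.MP_cd509c_nt.HeatReal

/-!
# Upper bound for the de Bruijn-Newman constants of the derivatives

The piece `upper` of the plan: the zeros of the `N`-th derivative of `H_t` are real near the
origin by the induction over the blocks, and real far out by the Jensen circles and the reality
of the far zeros of `H_t`.
-/

set_option autoImplicit false

namespace Pool.Agent.Lib.MP_cd509c_nt.DC

open Complex ComplexConjugate MeasureTheory Filter Topology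
open Pool.Agent.Lib.MP_cd509c_nt.DN

/-- derivatives of higher order keep real zeros -/
lemma dc_upper_anti (han : S_anti) {n m : ℕ} {t : ℝ} (h : AR n t) (hnm : n ≤ m) : AR m t := by
  induction m, hnm using Nat.le_induction with
  | base => exact h
  | succ k _ ih => exact han k t ih

/-- nonreal zeros of the `N`-th derivative are close to the origin -/
lemma dc_upper_far (hne : S_ne) (happ : S_appZ) (hj : S_jens) {B C₀ t : ℝ} (hB : 1 ≤ B)
    (hst : ∀ z, HD 0 t z = 0 → |z.im| ≤ B)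
    (hreal : ∀ z : ℂ, Real.exp (C₀ / t) ≤ |z.re| → Ht t z = 0 → z.im = 0) (N : ℕ) (z : ℂ)
    (hz : HD N t z = 0) (hzi : z.im ≠ 0) :
    |z.re| ≤ Real.exp (C₀ / t) + Real.sqrt N * B + 1 := by
  have h0 : HD 0 t = Ht t := by
    unfold HD
    exact iteratedDeriv_zero
  have hd : Differentiable ℂ (Ht t) := by
    have := (hne 0 t).1
    rwa [h0] at this
  have ha : AppZ (Ht t) := by
    have := happ 0 t
    rwa [h0] at this
  have hs : ∀ ζ, Ht t ζ = 0 → |ζ.im| ≤ B := by
    intro ζ hζ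
    apply hst ζ
    rw [h0]
    exact hζ
  have hv : ∃ v, iteratedDeriv N (Ht t) v ≠ 0 := (hne N t).2.1
  obtain ⟨-, hb⟩ := hj (Ht t) N B hd ha (by linarith) hs hv z hz
  obtain ⟨ζ, hζ0, hζi, hζ⟩ := hb hzi
  have hlt : |ζ.re| < Real.exp (C₀ / t) := by
    by_contra hcon
    push Not at hcon
    exact hζi (hreal ζ hcon hζ0)
  have h1 : |z.re| ≤ |z.re - ζ.re| + |ζ.re| := by
    have h2 := abs_add_le (z.re - ζ.re) ζ.re
    rwa [sub_add_cancel] at h2
  linarith

/-- the elementary inequality behind the choice of the constants -/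
lemma dc_upper_ineq {C₀ K A B x : ℝ} {N : ℕ} (hC₀ : 1 ≤ C₀) (hK : K = C₀ + 2) (hA : 1 ≤ A)
    (hB : 1 ≤ B) (hx : K * A * B + 1 ≤ x) (hN : (N : ℝ) ≤ K * A * x)
    (hN' : K * A * x - 1 ≤ (N : ℝ)) :
    Real.exp (C₀ * x) + Real.sqrt N * B + 1 ≤ Real.exp (N / A) := by
  have hK1 : 1 ≤ K := by linarith
  have hA0 : 0 < A := by linarith
  have hB0 : 0 < B := by linarith
  have hKA : 1 ≤ K * A := by nlinarith
  have hKAB : 1 ≤ K * A * B := by nlinarith
  have hx1 : 1 ≤ x := by linarith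
  have hx0 : 0 < x := by linarith
  -- the exponent
  have h1 : (C₀ + 1) * x ≤ N / A := by
    rw [le_div_iff₀ hA0]
    have h2 : (C₀ + 1) * x * A ≤ K * A * x - 1 := by
      rw [hK]
      have : 1 ≤ A * x := by nlinarith
      nlinarith
    linarith
  have h3 : Real.exp ((C₀ + 1) * x) ≤ Real.exp (N / A) := Real.exp_le_exp.2 h1
  -- the root
  have h4 : Real.sqrt (N : ℝ) ≤ (N : ℝ) := by
    rcases Nat.eq_zero_or_pos N with h | h
    · rw [h]
      simp
    · have h5 : (1 : ℝ) ≤ (N : ℝ) := by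
        have : 1 ≤ N := h
        exact_mod_cast this
      rw [Real.sqrt_le_left (by linarith)]
      nlinarith
  have h6 : Real.sqrt (N : ℝ) * B ≤ K * A * B * x := by
    have h7 : Real.sqrt (N : ℝ) * B ≤ (K * A * x) * B :=
      mul_le_mul_of_nonneg_right (h4.trans hN) hB0.le
    calc Real.sqrt (N : ℝ) * B ≤ (K * A * x) * B := h7
      _ = K * A * B * x := by ring
  -- exponentials
  have h8 : x + 1 ≤ Real.exp x := Real.add_one_le_exp x
  have h9 : x ≤ Real.exp (C₀ * x) := by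
    have h10 : C₀ * x + 1 ≤ Real.exp (C₀ * x) := Real.add_one_le_exp _
    have h11 : x ≤ C₀ * x := by nlinarith
    linarith
  have h12 : Real.exp ((C₀ + 1) * x) = Real.exp (C₀ * x) * Real.exp x := by
    rw [← Real.exp_add]
    congr 1
    ring
  have hE : 0 < Real.exp (C₀ * x) := Real.exp_pos _
  have h13 : Real.exp (C₀ * x) * (x + 1) ≤ Real.exp (C₀ * x) * Real.exp x :=
    mul_le_mul_of_nonneg_left h8 hE.le
  have h14 : x * x ≤ Real.exp (C₀ * x) * x := mul_le_mul_of_nonneg_right h9 hx0.le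
  have h15 : (K * A * B + 1) * x ≤ x * x := mul_le_mul_of_nonneg_right hx hx0.le
  have h16 : Real.exp (C₀ * x) * (x + 1) = Real.exp (C₀ * x) * x + Real.exp (C₀ * x) := by ring
  have h17 : (K * A * B + 1) * x = K * A * B * x + x := by ring
  calc Real.exp (C₀ * x) + Real.sqrt N * B + 1
      ≤ Real.exp (C₀ * x) + K * A * B * x + x := by linarith
    _ = (K * A * B + 1) * x + Real.exp (C₀ * x) := by ring
    _ ≤ x * x + Real.exp (C₀ * x) := by linarith
    _ ≤ Real.exp (C₀ * x) * x + Real.exp (C₀ * x) := by linarith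
    _ = Real.exp (C₀ * x) * (x + 1) := by ring
    _ ≤ Real.exp (C₀ * x) * Real.exp x := h13
    _ = Real.exp ((C₀ + 1) * x) := h12.symm
    _ ≤ Real.exp (N / A) := h3

theorem p_upper (hne : S_ne) (happ : S_appZ) (hj : S_jens) (hst : S_strip) (han : S_anti)
    (hup : S_up) (hin : S_ind) : S_upper := by
  obtain ⟨C₀, hC₀, hreal⟩ := Ht_real
  obtain ⟨B, hB, hstrip⟩ := hst
  obtain ⟨A, n₀, t₀, hA, hn₀, ht₀, hind⟩ := hin (C₀ + 2) (by linarith)
  obtain ⟨K, hK⟩ : ∃ K : ℝ, K = C₀ + 2 := ⟨_, rfl⟩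
  rw [← hK] at hind
  have hK1 : 1 ≤ K := by linarith
  have hKA : 1 ≤ K * A := by nlinarith
  have hKAB : 1 ≤ K * A * B := by nlinarith
  have hD : 0 < n₀ + K * A * B + 1 := by linarith
  obtain ⟨t₁, ht₁⟩ : ∃ t₁ : ℝ, t₁ = min t₀ (1 / (n₀ + K * A * B + 1)) := ⟨_, rfl⟩
  have ht₁0 : 0 < t₁ := by
    rw [ht₁]
    exact lt_min ht₀ (by positivity)
  have ht₁t₀ : t₁ ≤ t₀ := by
    rw [ht₁]
    exact min_le_left _ _
  have ht₁D : t₁ ≤ 1 / (n₀ + K * A * B + 1) := by
    rw [ht₁]
    exact min_le_right _ _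
  -- short times
  have key : ∀ t : ℝ, 0 < t → t ≤ t₁ → ∀ n : ℕ, K * A / t ≤ n → AR n t := by
    intro t ht htt₁ n hn
    have htD : t ≤ 1 / (n₀ + K * A * B + 1) := htt₁.trans ht₁D
    have hx : n₀ + K * A * B + 1 ≤ 1 / t := by
      rw [le_div_iff₀ ht]
      rw [le_div_iff₀ hD] at htD
      linarith
    have hx1 : 1 ≤ 1 / t := by linarith
    have ht1 : t ≤ 1 := by
      rw [le_div_iff₀ ht] at hx1
      linarith
    have hKAt : 0 ≤ K * A / t := by positivity
    have e1 : K * A / t = K * A * (1 / t) := by ring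
    have hNle : ((⌊K * A / t⌋₊ : ℕ) : ℝ) ≤ K * A / t := Nat.floor_le hKAt
    have hNge : K * A / t - 1 ≤ ((⌊K * A / t⌋₊ : ℕ) : ℝ) := by
      have := Nat.lt_floor_add_one (K * A / t)
      linarith
    have hNn : ⌊K * A / t⌋₊ ≤ n := by
      have h1 : ((⌊K * A / t⌋₊ : ℕ) : ℝ) ≤ (n : ℝ) := hNle.trans hn
      exact_mod_cast h1
    generalize ⌊K * A / t⌋₊ = N at hNle hNge hNn
    apply dc_upper_anti han _ hNn
    intro z hz
    by_contra hzi
    have hNn₀ : n₀ ≤ (N : ℝ) := by
      have h2 : 1 * (1 / t) ≤ K * A * (1 / t) := mul_le_mul_of_nonneg_right hKA (by linarith)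
      rw [← e1] at h2
      linarith
    have htN : t * N ≤ K * A := by
      have h3 := (le_div_iff₀ ht).1 hNle
      linarith
    have h4 := hind N t ht (htt₁.trans ht₁t₀) hNn₀ htN z
    have h5 : Real.exp (N / A) < |z.re| := by
      by_contra hcon
      push Not at hcon
      exact hzi (h4 hcon hz)
    have h6 := dc_upper_far hne happ hj hB (hstrip 0 t ht.le) (hreal t ht ht1) N z hz hzi
    have h7 : Real.exp (C₀ * (1 / t)) + Real.sqrt N * B + 1 ≤ Real.exp (N / A) :=
      dc_upper_ineq hC₀ hK hA hB (by linarith) (by rw [← e1]; exact hNle)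
        (by rw [← e1]; exact hNge)
    have e2 : C₀ * (1 / t) = C₀ / t := by ring
    rw [e2] at h7
    linarith
  -- conclusion
  have hq : 0 < K * A / t₁ := by positivity
  refine ⟨K * A / t₁ + K * A, by linarith, fun n t hn hnt => ?_⟩
  have hn0 : (0 : ℝ) < n := by linarith
  have ht : 0 < t := by
    have h1 : 0 < (n : ℝ) * t := by linarith
    exact (pos_iff_pos_of_mul_pos h1).1 hn0
  rcases le_or_gt t t₁ with h | h
  · apply key t ht h n
    rw [div_le_iff₀ ht]
    linarith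
  · exact hup n t₁ t h (key t₁ ht₁0 le_rfl n (by linarith))

end Pool.Agent.Lib.MP_cd509c_nt.DC
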