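import Pool.Agent.Lib.MP_cd509c_nt.DC.Defs2

set_option autoImplicit false

namespace Pool.Agent.Lib.MP_cd509c_nt.DC

open Complex ComplexConjugate MeasureTheory Filter Topology Metric
open Pool.Agent.Lib.MP_cd509c_nt.DN
open scoped Nat

private lemma dc_Kn_norm (n : ℕ) (ζ : ℂ) :
    ‖Kn n ζ‖ = ‖iteratedDeriv n (fun z : ℂ => cexp (z ^ 2) / z) ζ‖ := by
  unfold Kn
  rw [norm_mul, norm_pow, norm_neg, norm_one, one_pow, one_mul]

private lemma dc_Kn_exp (z : ℂ) : ‖cexp (z ^ 2)‖ = Real.exp (z.re ^ 2 - z.im ^ 2) := by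
  rw [Complex.norm_exp]
  congr 1
  rw [pow_two, Complex.mul_re]
  ring

/-- Cauchy's estimate on a circle on which the function is bounded -/
private lemma dc_Kn_cauchy (n : ℕ) (ζ : ℂ) (R B : ℝ) (hR : 0 < R)
    (h0 : ∀ z : ℂ, ‖z - ζ‖ ≤ R → z ≠ 0)
    (hB : ∀ z : ℂ, ‖z - ζ‖ = R → ‖cexp (z ^ 2) / z‖ ≤ B) :
    ‖Kn n ζ‖ ≤ n ! * B / R ^ n := by
  rw [dc_Kn_norm]
  refine Complex.norm_iteratedDeriv_le_of_forall_mem_sphere_norm_le n hR ?_ ?_
  · refine DifferentiableOn.diffContOnCl ?_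
    rw [closure_ball ζ hR.ne']
    intro z hz
    have hz0 : z ≠ 0 := h0 z (by rwa [mem_closedBall, dist_eq_norm] at hz)
    refine DifferentiableAt.differentiableWithinAt ?_
    exact DifferentiableAt.div (by fun_prop) differentiableAt_id hz0
  · intro z hz
    exact hB z (by rwa [mem_sphere, dist_eq_norm] at hz)

private lemma dc_Kn_part1 (n : ℕ) (c η : ℝ) (hc : 0 < c) : ‖Kn n (c + η * I)‖ ≤
    n ! * (2 / c) ^ (n + 1) * Real.exp (4 * c ^ 2 - η ^ 2 / 4) := by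
  have hre : ∀ z : ℂ, ‖z - (c + η * I)‖ ≤ c / 2 → (z.re - c) ^ 2 + (z.im - η) ^ 2 ≤ (c / 2) ^ 2 := by
    intro z hz
    have h1 : ‖z - (c + η * I)‖ ^ 2 ≤ (c / 2) ^ 2 := pow_le_pow_left₀ (norm_nonneg _) hz 2
    rw [← Complex.normSq_eq_norm_sq, Complex.normSq_apply] at h1
    simp at h1
    nlinarith
  have hpos : ∀ z : ℂ, ‖z - (c + η * I)‖ ≤ c / 2 → c / 2 ≤ z.re := by
    intro z hz
    have h1 := hre z hz
    have h2 : |z.re - c| ≤ c / 2 := abs_le_of_sq_le_sq (by nlinarith [sq_nonneg (z.im - η)]) (by linarith)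
    have h3 := (abs_le.1 h2).1
    linarith
  have h := dc_Kn_cauchy n (c + η * I) (c / 2) (2 / c * Real.exp (4 * c ^ 2 - η ^ 2 / 4))
    (by linarith) (fun z hz h0 => by
      have := hpos z hz
      rw [h0, Complex.zero_re] at this
      linarith) (fun z hz => by
      have h1 := hre z hz.le
      have h2 := hpos z hz.le
      have h3 : c / 2 ≤ ‖z‖ := h2.trans (Complex.re_le_norm z)
      rw [norm_div, dc_Kn_exp, div_eq_mul_inv, mul_comm]
      refine mul_le_mul ?_ (Real.exp_le_exp.2 ?_) (Real.exp_nonneg _) (by positivity)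
      · rw [show (2 / c : ℝ) = (c / 2)⁻¹ by rw [inv_div]]
        exact inv_anti₀ (by linarith) h3
      · nlinarith [sq_nonneg (z.im - η), sq_nonneg (z.re - c), sq_nonneg (2 * (z.im - η) + η),
          sq_nonneg (z.re - 2 * c)])
  refine h.trans (le_of_eq ?_)
  rw [pow_succ, div_pow c 2, div_pow 2 c]
  field_simp
  ring

/-- the entire part of `exp (z²) / z` -/
private noncomputable def dc_Kn_h : ℂ → ℂ := dslope (fun z : ℂ => cexp (z ^ 2) - 1) 0

private lemma dc_Kn_h_diff : Differentiable ℂ dc_Kn_h := by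
  rw [← differentiableOn_univ]
  unfold dc_Kn_h
  rw [Complex.differentiableOn_dslope Filter.univ_mem, differentiableOn_univ]
  fun_prop

private lemma dc_Kn_h_of_ne {z : ℂ} (hz : z ≠ 0) : cexp (z ^ 2) / z = z⁻¹ + dc_Kn_h z := by
  unfold dc_Kn_h
  rw [dslope_of_ne _ hz, slope_def_field]
  simp only [sub_zero, ne_eq, OfNat.ofNat_ne_zero, not_false_eq_true, zero_pow, Complex.exp_zero,
    sub_self]
  field_simp
  ring

private lemma dc_Kn_split (n : ℕ) {ζ : ℂ} (hζ : ζ ≠ 0) :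
    iteratedDeriv n (fun z : ℂ => cexp (z ^ 2) / z) ζ =
      (-1) ^ n * n ! * ζ ^ (-1 - n : ℤ) + iteratedDeriv n dc_Kn_h ζ := by
  have h1 : (fun z : ℂ => cexp (z ^ 2) / z) =ᶠ[𝓝 ζ] (fun z => z⁻¹) + dc_Kn_h := by
    filter_upwards [isOpen_ne.mem_nhds hζ] with z hz
    exact dc_Kn_h_of_ne hz
  rw [h1.iteratedDeriv_eq, iteratedDeriv_add (contDiffAt_inv ℂ hζ)
    dc_Kn_h_diff.contDiff.contDiffAt]
  congr 1
  rw [iteratedDeriv_eq_iterate]
  exact iter_deriv_inv n ζ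

/-- the bound near the real axis -/
private lemma dc_Kn_near (A : ℝ) (hA : 1 ≤ A) : ∃ C : ℝ, 1 ≤ C ∧ ∀ (n : ℕ) (c η : ℝ),
    0 < c → c ≤ A → |η| ≤ 20 * A →
    ‖Kn n (c + η * I)‖ ≤ n ! * ((‖(c + η * I : ℂ)‖ ^ (n + 1))⁻¹ + C / (10 * A) ^ n) := by
  obtain ⟨C, hC⟩ := (isCompact_closedBall (0 : ℂ) (31 * A)).exists_bound_of_continuousOn
    dc_Kn_h_diff.continuous.continuousOn
  refine ⟨max C 1, le_max_right _ _, fun n c η hc hcA hη => ?_⟩
  have hζ : (c + η * I : ℂ) ≠ 0 := by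
    intro h
    have := congrArg Complex.re h
    simp at this
    linarith
  have hn : ‖(c + η * I : ℂ)‖ ≤ 21 * A := by
    refine (norm_add_le _ _).trans ?_
    rw [norm_mul, Complex.norm_I, mul_one, Complex.norm_real, Complex.norm_real, Real.norm_eq_abs,
      Real.norm_eq_abs, abs_of_pos hc]
    linarith
  have hh : ‖iteratedDeriv n dc_Kn_h (c + η * I)‖ ≤ n ! * (max C 1) / (10 * A) ^ n := by
    refine Complex.norm_iteratedDeriv_le_of_forall_mem_sphere_norm_le n (by linarith)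
      dc_Kn_h_diff.diffContOnCl ?_
    intro z hz
    rw [mem_sphere, dist_eq_norm] at hz
    refine (hC z ?_).trans (le_max_left _ _)
    rw [mem_closedBall, dist_zero_right]
    calc ‖z‖ = ‖(z - (c + η * I)) + (c + η * I)‖ := by rw [sub_add_cancel]
      _ ≤ 10 * A + 21 * A := (norm_add_le _ _).trans (by rw [hz]; linarith)
      _ = 31 * A := by ring
  rw [dc_Kn_norm, dc_Kn_split n hζ]
  refine (norm_add_le _ _).trans ?_
  rw [mul_add]
  refine add_le_add (le_of_eq ?_) (hh.trans (le_of_eq (by ring)))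
  rw [norm_mul, norm_mul, norm_pow, norm_neg, norm_one, one_pow, one_mul, norm_zpow,
    Complex.norm_natCast]
  congr 1
  rw [show (-1 - n : ℤ) = -((n + 1 : ℕ) : ℤ) by push_cast; ring, zpow_neg, zpow_natCast]

/-- the bound far from the real axis -/
private lemma dc_Kn_far (A : ℝ) (hA : 1 ≤ A) (n : ℕ) (c η : ℝ) (hc : 0 < c) (hcA : c ≤ A)
    (hη : 20 * A < |η|) :
    ‖Kn n (c + η * I)‖ ≤ n ! * Real.exp (121 * A ^ 2 - η ^ 2 / 4) / (10 * A) ^ n := by
  have hre : ∀ z : ℂ, ‖z - (c + η * I)‖ ≤ 10 * A → |z.re| ≤ 11 * A ∧ |η| / 2 ≤ |z.im| := by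
    intro z hz
    have h1 : |(z - (c + η * I)).re| ≤ 10 * A := (Complex.abs_re_le_norm _).trans hz
    have h2 : |(z - (c + η * I)).im| ≤ 10 * A := (Complex.abs_im_le_norm _).trans hz
    simp at h1 h2
    constructor
    · have := abs_le.1 h1
      rw [abs_le]
      constructor <;> linarith [this.1, this.2]
    · have h3 : |η| - |z.im| ≤ |z.im - η| := by
        rw [abs_sub_comm]
        exact abs_sub_abs_le_abs_sub _ _
      linarith
  refine dc_Kn_cauchy n (c + η * I) (10 * A) _ (by linarith) (fun z hz h0 => ?_) (fun z hz => ?_)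
  · have := (hre z hz).2
    rw [h0, Complex.zero_im, abs_zero] at this
    linarith
  · obtain ⟨h1, h2⟩ := hre z hz.le
    have h3 : 1 ≤ ‖z‖ := le_trans (by linarith) (h2.trans (Complex.abs_im_le_norm z))
    rw [norm_div, dc_Kn_exp]
    refine (div_le_self (Real.exp_nonneg _) h3).trans (Real.exp_le_exp.2 ?_)
    have h4 : z.re ^ 2 ≤ (11 * A) ^ 2 := by
      rw [← sq_abs]
      exact pow_le_pow_left₀ (abs_nonneg _) h1 2
    have h5 : (|η| / 2) ^ 2 ≤ z.im ^ 2 := by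
      rw [← sq_abs z.im]
      exact pow_le_pow_left₀ (by positivity) h2 2
    rw [div_pow, sq_abs] at h5
    nlinarith

private lemma dc_Kn_zeta (c η : ℝ) (hc : 0 < c) :
    c ≤ ‖(c + η * I : ℂ)‖ ∧ ‖(c + η * I : ℂ)‖ ^ 2 = c ^ 2 + η ^ 2 := by
  have h2 : ‖(c + η * I : ℂ)‖ ^ 2 = c ^ 2 + η ^ 2 := by
    rw [← Complex.normSq_eq_norm_sq, Complex.normSq_apply]
    simp
    ring
  refine ⟨?_, h2⟩
  exact abs_le_of_sq_le_sq' (by rw [h2]; nlinarith [sq_nonneg η]) (norm_nonneg _) |>.2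

private lemma dc_Kn_pow10 {A c : ℝ} (hc : 0 < c) (hcA : c ≤ A) (n : ℕ) :
    1 / (10 * A) ^ n ≤ (1 / c) ^ n * (1 / 10) ^ n := by
  have hA0 : 0 < A := lt_of_lt_of_le hc hcA
  rw [← mul_pow, one_div, ← inv_pow]
  refine pow_le_pow_left₀ (by positivity) ?_ n
  rw [show (1 / c * (1 / 10) : ℝ) = (10 * c)⁻¹ by field_simp]
  exact inv_anti₀ (by positivity) (by linarith)

/-- the bound near the real axis, second form -/
private lemma dc_Kn_near' (A : ℝ) (hA : 1 ≤ A) : ∃ C : ℝ, 1 ≤ C ∧ ∀ (n : ℕ) (c η : ℝ),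
    1 / A ≤ c → c ≤ A → |η| ≤ 20 * A →
    ‖Kn n (c + η * I)‖ ≤ n ! * (1 / c) ^ n *
      (A * (c / ‖(c + η * I : ℂ)‖) ^ n + C * (1 / 10) ^ n) := by
  obtain ⟨C, hC1, hC⟩ := dc_Kn_near A hA
  refine ⟨C, hC1, fun n c η hcA hcA' hη => ?_⟩
  have hc : 0 < c := lt_of_lt_of_le (by positivity) hcA
  obtain ⟨h1, -⟩ := dc_Kn_zeta c η hc
  refine (hC n c η hc hcA' hη).trans ?_
  rw [mul_assoc]
  refine mul_le_mul_of_nonneg_left ?_ (Nat.cast_nonneg _)
  set Z := ‖(c + η * I : ℂ)‖ with hZ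
  have hZ0 : 0 < Z := lt_of_lt_of_le hc h1
  have hZ1 : Z⁻¹ ≤ A := by
    rw [inv_le_comm₀ hZ0 (by linarith), ← one_div]
    exact hcA.trans h1
  rw [mul_add]
  refine add_le_add ?_ ?_
  · calc (Z ^ (n + 1))⁻¹ = (1 / c) ^ n * ((c / Z) ^ n * Z⁻¹) := by
          rw [pow_succ, div_pow, div_pow, one_pow]
          field_simp
      _ ≤ (1 / c) ^ n * (A * (c / Z) ^ n) := by
          refine mul_le_mul_of_nonneg_left ?_ (by positivity)
          rw [mul_comm A]
          exact mul_le_mul_of_nonneg_left hZ1 (by positivity)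
  · have h2 := dc_Kn_pow10 hc hcA' n
    calc C / (10 * A) ^ n = C * (1 / (10 * A) ^ n) := by ring
      _ ≤ C * ((1 / c) ^ n * (1 / 10) ^ n) := mul_le_mul_of_nonneg_left h2 (by linarith)
      _ = (1 / c) ^ n * (C * (1 / 10) ^ n) := by ring

/-- the bound far from the real axis, second form -/
private lemma dc_Kn_far' (A : ℝ) (hA : 1 ≤ A) (n : ℕ) (c η : ℝ) (hc : 0 < c) (hcA : c ≤ A)
    (hη : 20 * A < |η|) :
    ‖Kn n (c + η * I)‖ ≤ Real.exp (121 * A ^ 2) * n ! * (1 / c) ^ n * (1 / 10) ^ n *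
      Real.exp (-(η ^ 2 / 4)) := by
  refine (dc_Kn_far A hA n c η hc hcA hη).trans ?_
  have h2 := dc_Kn_pow10 hc hcA n
  calc n ! * Real.exp (121 * A ^ 2 - η ^ 2 / 4) / (10 * A) ^ n
      = n ! * (Real.exp (121 * A ^ 2) * Real.exp (-(η ^ 2 / 4))) * (1 / (10 * A) ^ n) := by
        rw [← Real.exp_add, ← sub_eq_add_neg]
        ring
    _ ≤ n ! * (Real.exp (121 * A ^ 2) * Real.exp (-(η ^ 2 / 4))) * ((1 / c) ^ n * (1 / 10) ^ n) :=
        mul_le_mul_of_nonneg_left h2 (by positivity)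
    _ = _ := by ring

private lemma dc_Kn_gauss {A η : ℝ} (hA : 1 ≤ A) (hη : |η| ≤ 20 * A) :
    1 ≤ Real.exp (121 * A ^ 2) * Real.exp (-(η ^ 2 / 4)) := by
  rw [← Real.exp_add]
  refine Real.one_le_exp ?_
  have h1 : η ^ 2 ≤ (20 * A) ^ 2 := by
    rw [← sq_abs]
    exact pow_le_pow_left₀ (abs_nonneg _) hη 2
  nlinarith

/-- bounds for the kernel -/
theorem p_Kn : S_Kn := by
  refine ⟨dc_Kn_part1, fun A δ hA hδ => ?_⟩
  obtain ⟨C₀, hC0, hnear⟩ := dc_Kn_near' A hA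
  set E := Real.exp (121 * A ^ 2) with hE
  have hE1 : 1 ≤ E := Real.one_le_exp (by positivity)
  set C := (A + C₀) * E + 4 * A ^ 2 with hC
  have hAC : A + C₀ ≤ (A + C₀) * E := le_mul_of_one_le_right (by linarith) hE1
  have hEC : E ≤ (A + C₀) * E := le_mul_of_one_le_left (by linarith) (by linarith)
  set q := Real.sqrt (1 + δ ^ 2 / A ^ 2) with hq
  have hq1 : 1 < q := by
    rw [hq, Real.lt_sqrt (by norm_num)]
    have : 0 < δ ^ 2 / A ^ 2 := by positivity
    linarith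
  have hq2 : q ^ 2 = 1 + δ ^ 2 / A ^ 2 := Real.sq_sqrt (by positivity)
  have hθ1 : q⁻¹ < 1 := inv_lt_one_of_one_lt₀ hq1
  refine ⟨C, max (1 / 10) q⁻¹, 0, by nlinarith, lt_of_lt_of_le (by norm_num) (le_max_left _ _),
    max_lt (by norm_num) hθ1, fun n c η _ hcA hcA' => ?_⟩
  have hc : 0 < c := lt_of_lt_of_le (by positivity) hcA
  obtain ⟨hz1, hz2⟩ := dc_Kn_zeta c η hc
  have hn := hnear n c η hcA hcA'
  set Z := ‖(c + η * I : ℂ)‖ with hZ
  have hZ0 : 0 < Z := lt_of_lt_of_le hc hz1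
  set X := c / Z with hX
  have hX0 : 0 ≤ X := by positivity
  have hX1 : X ≤ 1 := (div_le_one hZ0).2 hz1
  have hF : (0 : ℝ) ≤ n ! * (1 / c) ^ n := by positivity
  -- for small `|η|` it is enough to bound the bracket
  have hmain : ∀ Y : ℝ, 0 ≤ Y → |η| ≤ 20 * A → X ^ n ≤ Y → (1 / 10) ^ n ≤ Y →
      ‖Kn n (c + η * I)‖ ≤ (A + C₀) * n ! * (1 / c) ^ n * Y := by
    intro Y hY hη h1 h2
    refine (hn hη).trans ?_
    calc n ! * (1 / c) ^ n * (A * X ^ n + C₀ * (1 / 10) ^ n)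
        ≤ n ! * (1 / c) ^ n * (A * Y + C₀ * Y) := by
          refine mul_le_mul_of_nonneg_left (add_le_add ?_ ?_) hF
          · exact mul_le_mul_of_nonneg_left h1 (by linarith)
          · exact mul_le_mul_of_nonneg_left h2 (by linarith)
      _ = _ := by ring
  -- with the Gaussian
  have hmain2 : ∀ Y : ℝ, 0 ≤ Y → |η| ≤ 20 * A → X ^ n ≤ Y → (1 / 10) ^ n ≤ Y →
      ‖Kn n (c + η * I)‖ ≤ C * n ! * (1 / c) ^ n * Y * Real.exp (-(η ^ 2 / 4)) := by
    intro Y hY hη h1 h2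
    refine (hmain Y hY hη h1 h2).trans ?_
    have h3 := dc_Kn_gauss hA hη
    calc (A + C₀) * n ! * (1 / c) ^ n * Y = ((A + C₀) * n ! * (1 / c) ^ n * Y) * 1 := by ring
      _ ≤ ((A + C₀) * n ! * (1 / c) ^ n * Y) * (E * Real.exp (-(η ^ 2 / 4))) :=
          mul_le_mul_of_nonneg_left h3 (by positivity)
      _ = ((A + C₀) * E) * (n ! * (1 / c) ^ n * Y * Real.exp (-(η ^ 2 / 4))) := by ring
      _ ≤ C * (n ! * (1 / c) ^ n * Y * Real.exp (-(η ^ 2 / 4))) := by
          refine mul_le_mul_of_nonneg_right ?_ (by positivity)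
          rw [hC]
          nlinarith
      _ = _ := by ring
  have hfar : ∀ Y : ℝ, (1 / 10) ^ n ≤ Y → 20 * A < |η| →
      ‖Kn n (c + η * I)‖ ≤ C * n ! * (1 / c) ^ n * Y * Real.exp (-(η ^ 2 / 4)) := by
    intro Y hY hη
    refine (dc_Kn_far' A hA n c η hc hcA' hη).trans ?_
    refine mul_le_mul_of_nonneg_right ?_ (Real.exp_nonneg _)
    refine mul_le_mul ?_ hY (by positivity) (by positivity)
    rw [mul_assoc, mul_assoc]
    refine mul_le_mul_of_nonneg_right ?_ hF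
    rw [hC]
    nlinarith
  refine ⟨?_, ?_, ?_⟩
  · rcases le_or_gt |η| (20 * A) with hη | hη
    · have := hmain2 1 zero_le_one hη (pow_le_one₀ hX0 hX1)
        (pow_le_one₀ (by norm_num) (by norm_num))
      rwa [mul_one] at this
    · have := hfar 1 (pow_le_one₀ (by norm_num) (by norm_num)) hη
      rwa [mul_one] at this
  · intro hη
    have hη2 : η ^ 2 ≤ A ^ 2 := by
      rw [← sq_abs]
      exact pow_le_pow_left₀ (abs_nonneg _) hη 2
    have hX2 : X ≤ Real.exp (-(η ^ 2 / (4 * A ^ 2))) := by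
      have h1 : X ^ 2 ≤ (Real.exp (-(η ^ 2 / (4 * A ^ 2)))) ^ 2 := by
        rw [hX, div_pow, hz2, ← Real.exp_nat_mul]
        have h2 : c ^ 2 / (c ^ 2 + η ^ 2) = 1 - η ^ 2 / (c ^ 2 + η ^ 2) := by
          field_simp
          ring
        have h3 : η ^ 2 / (2 * A ^ 2) ≤ η ^ 2 / (c ^ 2 + η ^ 2) := by
          refine div_le_div_of_nonneg_left (sq_nonneg _) (by positivity) ?_
          nlinarith
        have h4 := Real.add_one_le_exp (-(η ^ 2 / (2 * A ^ 2)))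
        have h5 : ((2 : ℕ) : ℝ) * -(η ^ 2 / (4 * A ^ 2)) = -(η ^ 2 / (2 * A ^ 2)) := by
          push_cast
          field_simp
          ring
        rw [h2, h5]
        linarith
      exact abs_le_of_sq_le_sq' h1 (Real.exp_nonneg _) |>.2
    have h10 : (1 / 10 : ℝ) ≤ Real.exp (-(η ^ 2 / (4 * A ^ 2))) := by
      have h1 : η ^ 2 / (4 * A ^ 2) ≤ 1 := by
        rw [div_le_one (by positivity)]
        nlinarith
      have h2 := Real.exp_le_exp.2 (neg_le_neg h1)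
      have h3 : (1 / 10 : ℝ) ≤ Real.exp (-1) := by
        rw [Real.exp_neg, one_div]
        refine inv_anti₀ (Real.exp_pos _) ?_
        have := Real.exp_one_lt_d9
        linarith
      exact h3.trans h2
    refine (hmain ((Real.exp (-(η ^ 2 / (4 * A ^ 2)))) ^ n) (by positivity) (by linarith)
      (pow_le_pow_left₀ hX0 hX2 n) (pow_le_pow_left₀ (by norm_num) h10 n)).trans ?_
    rw [← Real.exp_nat_mul]
    have h4 : (n : ℝ) * -(η ^ 2 / (4 * A ^ 2)) ≤ -(n * η ^ 2 / C) := by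
      have h5 : n * η ^ 2 / C ≤ n * η ^ 2 / (4 * A ^ 2) := by
        refine div_le_div_of_nonneg_left (by positivity) (by positivity) ?_
        rw [hC]
        nlinarith
      have h6 : (n : ℝ) * -(η ^ 2 / (4 * A ^ 2)) = -(n * η ^ 2 / (4 * A ^ 2)) := by ring
      rw [h6]
      linarith
    refine mul_le_mul ?_ (Real.exp_le_exp.2 h4) (Real.exp_nonneg _) (by positivity)
    rw [mul_assoc, mul_assoc]
    refine mul_le_mul_of_nonneg_right ?_ hF
    rw [hC]
    nlinarith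
  · intro hη
    rcases le_or_gt |η| (20 * A) with hη' | hη'
    · refine hmain2 _ (by positivity) hη' (pow_le_pow_left₀ hX0 ?_ n)
        (pow_le_pow_left₀ (by norm_num) (le_max_left _ _) n)
      refine le_trans ?_ (le_max_right _ _)
      have h1 : (c * q) ^ 2 ≤ Z ^ 2 := by
        rw [hz2, mul_pow, hq2, mul_add, mul_one]
        have h2 : c ^ 2 * (δ ^ 2 / A ^ 2) ≤ δ ^ 2 := by
          have h3 : c ^ 2 / A ^ 2 ≤ 1 := by
            rw [div_le_one (by positivity)]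
            exact pow_le_pow_left₀ hc.le hcA' 2
          calc c ^ 2 * (δ ^ 2 / A ^ 2) = (c ^ 2 / A ^ 2) * δ ^ 2 := by ring
            _ ≤ 1 * δ ^ 2 := mul_le_mul_of_nonneg_right h3 (sq_nonneg _)
            _ = δ ^ 2 := one_mul _
        have h4 : δ ^ 2 ≤ η ^ 2 := by
          rw [← sq_abs η]
          exact pow_le_pow_left₀ hδ.le hη 2
        linarith
      have h2 : c * q ≤ Z := abs_le_of_sq_le_sq' h1 hZ0.le |>.2
      rw [hX, div_le_iff₀ hZ0, inv_mul_eq_div, le_div_iff₀ (by linarith)]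
      exact h2
    · exact hfar _ (pow_le_pow_left₀ (by norm_num) (le_max_left _ _) n) hη'

end Pool.Agent.Lib.MP_cd509c_nt.DC
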