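import Pool.Agent.Lib.MP_cd509c_nt.DC.P.P1b

/-! Piece `P1` of project DC, stage 2 (helper89): asymptotics of the right half for `Re w ≥ -δ`. -/

set_option autoImplicit false

namespace Pool.Agent.Lib.MP_cd509c_nt.DC

open Complex ComplexConjugate MeasureTheory Filter Topology
open Pool.Agent.Lib.MP_cd509c_nt.DN
open scoped Nat

theorem p_P1 (hKn : S_Kn) (hchi : S_chi) (hdec : S_dec) (hleft : S_left) : S_P1 := by
  intro A B C₂ p β ε hA hB hC₂ hp hβ hε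
  have hC₂0 : 0 < C₂ := by linarith
  obtain ⟨C₀, θ₀, N₀, hC₀, hθ₀, hθ₀1, hK₀⟩ := hKn.2 A 1 hA one_pos
  have hC₀0 : 0 < C₀ := by linarith
  set η₁ : ℝ := ε / (40 * Real.exp 10 * C₀ ^ 2) with hη₁
  have hη₁0 : 0 < η₁ := by positivity
  set ε' : ℝ := min 1 η₁ with hε'
  have hε'0 : 0 < ε' := lt_min one_pos hη₁0
  set δ₄ : ℝ := min (min 1 (3 / 4 * (β - p))) (η₁ / (2 * C₂)) with hδ₄
  have hδ₄0 : 0 < δ₄ := by
    refine lt_min (lt_min one_pos ?_) (by positivity)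
    linarith
  have hδ₄1 : δ₄ ≤ 1 := (min_le_left _ _).trans (min_le_left _ _)
  have hδ₄β : δ₄ ≤ 3 / 4 * (β - p) := (min_le_left _ _).trans (min_le_right _ _)
  have hδ₄C : 2 * C₂ * δ₄ ≤ η₁ := by
    have h1 : δ₄ ≤ η₁ / (2 * C₂) := min_le_right _ _
    rw [le_div_iff₀ (by positivity)] at h1
    linarith
  set e₁ : ℝ := ε' + 2 * C₂ * δ₄ with he₁
  have he₁0 : 0 ≤ e₁ := by positivity
  have he₁1 : 4 * Real.exp 10 * C₀ ^ 2 * e₁ ≤ ε / 5 := by
    have h1 : e₁ ≤ 2 * η₁ := by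
      have : ε' ≤ η₁ := min_le_right _ _
      linarith
    have h2 : 4 * Real.exp 10 * C₀ ^ 2 * (2 * η₁) = ε / 5 := by
      rw [hη₁]
      field_simp
      norm_num
    rw [← h2]
    exact mul_le_mul_of_nonneg_left h1 (by positivity)
  obtain ⟨C₁, θ, N₁, hC₁, hθ, hθ1, hK₁⟩ := hKn.2 A δ₄ hA hδ₄0
  have hC₁0 : 0 < C₁ := by linarith
  set εχ : ℝ := min 1 (ε / (5 * C₂)) with hεχ
  have hεχ0 : 0 < εχ := lt_min one_pos (by positivity)
  obtain ⟨l₁, hl₁, hχ⟩ := hchi εχ hεχ0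
  obtain ⟨l₂, hl₂, hL⟩ := hleft A B C₂ p β 1 (ε / (5 * Real.exp 6)) hA hB hC₂ hp hβ one_pos
    (by positivity)
  set M : ℝ := B + β + A + 2 * A ^ 2 with hM
  set θ₂ : ℝ := Real.exp (-(δ₄ ^ 2 / (16 * A))) with hθ₂
  have hθ₂0 : 0 < θ₂ := Real.exp_pos _
  have hθ₂1 : θ₂ < 1 := by
    rw [hθ₂, Real.exp_lt_one_iff]
    have : 0 < δ₄ ^ 2 / (16 * A) := by positivity
    linarith
  set K₁ : ℝ := 2 * Real.exp 6 * (12 * C₁ * C₂ * Real.exp (69 + M ^ 2 / 8)) with hK1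
  set K₂ : ℝ := 4 * C₂ * Real.exp 4 with hK2
  have hlim : Tendsto (fun n : ℕ => K₁ * ((n : ℝ) * θ ^ n + n * θ₂ ^ n) + K₂ * (n * θ₂ ^ n))
      atTop (𝓝 (K₁ * (0 + 0) + K₂ * 0)) :=
    (((tendsto_self_mul_const_pow_of_lt_one hθ.le hθ1).add
      (tendsto_self_mul_const_pow_of_lt_one hθ₂0.le hθ₂1)).const_mul K₁).add
      ((tendsto_self_mul_const_pow_of_lt_one hθ₂0.le hθ₂1).const_mul K₂)
  rw [add_zero, mul_zero, mul_zero, add_zero] at hlim
  obtain ⟨N₂, hN₂⟩ := eventually_atTop.mp (hlim.eventually (gt_mem_nhds (show 0 < ε / 5 by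
    positivity)))
  refine ⟨ε', M + 3, l₁ + l₂ + A ^ 2 + A * (N₀ + N₁ + N₂ + 1), hε'0, ?_, ?_, ?_⟩
  · rw [hM]
    nlinarith
  · have : 0 ≤ A * (N₀ + N₁ + N₂ + 1 : ℝ) := by positivity
    nlinarith
  intro n t ρ f Q hH w hw1 hw2 hw3
  have hAp : 0 < A := by linarith
  have hq0 : 0 ≤ A * (N₀ + N₁ + N₂ + 1 : ℝ) := by positivity
  have hlarge := hH.large
  have hA2 : 0 ≤ A ^ 2 := sq_nonneg A
  have ht := hH.t0
  obtain ⟨hl0, hn0, hc1, hc2, ht1, hbβ, hMb, hθn⟩ := dc_P1_par (δ₄ := δ₄) hA hB hp hβ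
    (show A ^ 2 ≤ ρ.re by linarith) hH.n1 hH.n2 ht hH.t1 hH.t2 hw1 hw2
  rw [← hθ₂] at hθn
  have hnN : (N₀ + N₁ + N₂ + 1 : ℝ) ≤ n := by
    have h1 : A * (N₀ + N₁ + N₂ + 1 : ℝ) ≤ A * n := by linarith [hH.n1]
    exact le_of_mul_le_mul_left h1 hAp
  have hnN' : N₀ + N₁ + N₂ + 1 ≤ n := by exact_mod_cast hnN
  have hH1 : Hyp A C₂ p β l₂ 1 1 n t ρ f Q := by
    refine ⟨by linarith, hH.im, hH.n1, hH.n2, hH.t0, hH.t1, hH.t2, hH.diff, hH.growth, hH.crude,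
      ?_, hH.bdd, hH.lip⟩
    intro z hz1 hz2
    have hR1 : (1 : ℝ) ≤ M + 3 := by
      rw [hM]
      nlinarith
    refine (hH.fine z hz1 (hz2.trans hR1)).trans ?_
    exact mul_le_mul_of_nonneg_right (min_le_left _ _) (norm_nonneg _)
  have hleft1 := (hL n t ρ f Q hH1 w hw3).1 hw1 hw2
  obtain ⟨G, hG⟩ := hH.growth
  obtain ⟨-, hcind, hgint, -⟩ := hdec f G n t hH.diff hG ht
  set l : ℝ := ρ.re with hl
  set c : ℝ := n / l with hc
  have hc0 : 0 < c := by positivity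
  set v₁ : ℝ := p - w.re - n / l with hv₁
  have hb : bb n t ρ = n / l + 2 * t * l := rfl
  have hbr : p ≤ w.re + bb n t ρ := by
    rw [hb]
    linarith
  set q : ℂ := Q (w + bb n t ρ) with hq
  have hqn : ‖q‖ ≤ C₂ := hH.bdd _ (by simpa using hbr)
  obtain ⟨hJi, hJn⟩ := hχ n c ρ hc0 (by linarith) hH.im
  set J : ℂ := 1 / (2 * Real.pi) * ∫ η : ℝ, cexp (ρ * (c + η * I)) * Kn n (c + η * I) with hJ
  set P : ℝ := ‖ρ ^ n * cexp (t * ρ ^ 2 + ρ * w)‖ with hP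
  have hP0 : 0 ≤ P := norm_nonneg _
  set T : ℝ := l ^ n * Real.exp (t * l ^ 2 + l * w.re) with hT
  have hT0 : 0 < T := by positivity
  have hexn : ‖cexp (t * ρ ^ 2 + ρ * w)‖ =
      Real.exp (t * l ^ 2 + l * w.re - t * ρ.im ^ 2 - ρ.im * w.im) := by
    rw [Complex.norm_exp]
    congr 1
    rw [add_re, re_ofReal_mul, mul_re, sq, mul_re]
    ring
  have him4 : ρ.im ^ 2 ≤ 4 := by
    have := pow_le_pow_left₀ (abs_nonneg _) hH.im 2
    rw [sq_abs] at this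
    linarith
  have him2 : |ρ.im * w.im| ≤ 2 := by
    rw [abs_mul]
    have := mul_le_mul hH.im hw3 (abs_nonneg _) (by norm_num : (0 : ℝ) ≤ 2)
    linarith
  have htim : t * ρ.im ^ 2 ≤ 4 := by
    have := mul_le_mul ht1 him4 (sq_nonneg _) zero_le_one
    linarith
  have hTP : T ≤ Real.exp 6 * P := by
    have h1 : l ^ n ≤ ‖ρ ^ n‖ := by
      rw [norm_pow]
      exact pow_le_pow_left₀ hl0.le ((le_abs_self _).trans (Complex.abs_re_le_norm ρ)) n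
    have h2 : Real.exp (t * l ^ 2 + l * w.re) ≤ Real.exp 6 * ‖cexp (t * ρ ^ 2 + ρ * w)‖ := by
      rw [hexn, ← Real.exp_add]
      apply Real.exp_le_exp.mpr
      linarith [(abs_le.1 him2).2]
    calc T ≤ ‖ρ ^ n‖ * (Real.exp 6 * ‖cexp (t * ρ ^ 2 + ρ * w)‖) :=
          mul_le_mul h1 h2 (Real.exp_pos _).le (norm_nonneg _)
      _ = Real.exp 6 * P := by rw [hP, norm_mul]; ring
  set g : ℝ → ℂ := fun v => cexp (-(v : ℂ) ^ 2 / (4 * t)) * LI n f 1 (w + v) with hg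
  set h : ℝ → ℂ := fun v => cexp (-(v : ℂ) ^ 2 / (4 * t)) * (q * J * cexp (ρ * (w + v))) with hh
  obtain ⟨hhi, hhe⟩ := dc_P1_h ht ρ w (q * J)
  have hgi : Integrable g := hgint w
  have hhi' : Integrable h := hhi
  have hgn : ∀ v, ‖g v‖ = Real.exp (-v ^ 2 / (4 * t)) * ‖LI n f 1 (w + v)‖ := fun v => by
    rw [hg]
    simp only
    rw [norm_mul, dc_P1_norm]
  set κ : ℝ := 2 * Real.exp 4 * C₀ ^ 2 * (ε' + 2 * C₂ * δ₄) + 12 * C₁ * C₂ *
    Real.exp (69 + M ^ 2 / 8) * (Real.sqrt n * (θ ^ n + Real.exp (-(δ₄ ^ 2 / (16 * t))))) with hκ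
  have hκ0 : 0 ≤ κ := by positivity
  have hI : ∀ v : ℝ, v₁ ≤ v → ‖g v - h v‖ ≤
      κ * T * Real.exp (-(v - 2 * t * l) ^ 2 / (16 * t)) := by
    intro v hv
    have h1 := dc_P1_right (A := A) (C₀ := C₀) (C₁ := C₁) (θ := θ) (δ₄ := δ₄) (M := M) (c := c) hH
      (w := w) (v := v) (by omega) hl0 hA hC₀ hC₁0.le hC₂0.le hθ.le hε'0.le hδ₄0 hδ₄1 ht1 hc hw3
      (by rw [hv₁] at hv; linarith) hbr hMb le_rfl
      (fun η hη => (hK₀ n c η (by omega) hc1 hc2).2.1 hη)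
      (fun η => (hK₁ n c η (by omega) hc1 hc2).1)
      (fun η hη => (hK₁ n c η (by omega) hc1 hc2).2.2 hη) hJi
    have h2 : g v - h v = cexp (-(v : ℂ) ^ 2 / (4 * t)) *
        (LI n f c (w + v) - q * cexp (ρ * (w + v)) * J) := by
      rw [hg, hh]
      simp only
      rw [hcind c (w + v) hc0]
      ring
    rw [h2, norm_mul, dc_P1_norm]
    exact h1
  set κ₅ : ℝ := 2 * C₂ * Real.exp 4 * θ₂ ^ n * P with hκ₅
  have hκ₅0 : 0 ≤ κ₅ := by positivity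
  have hJn2 : ‖J‖ ≤ 2 * ‖ρ ^ n‖ := by
    have h1 : ‖J‖ ≤ ‖J - ρ ^ n‖ + ‖ρ ^ n‖ := by
      have := norm_add_le (J - ρ ^ n) (ρ ^ n)
      rwa [sub_add_cancel] at this
    have h2 : εχ * ‖ρ ^ n‖ ≤ 1 * ‖ρ ^ n‖ :=
      mul_le_mul_of_nonneg_right (min_le_left _ _) (norm_nonneg _)
    linarith
  have hII : ∀ v : ℝ, v < v₁ → ‖h v‖ ≤ κ₅ * Real.exp (-(v - 2 * t * l) ^ 2 / (16 * t)) := by
    intro v hv
    have hsδ : δ₄ ≤ 2 * t * l - v := by
      rw [hv₁] at hv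
      linarith
    have hs2 : δ₄ ^ 2 ≤ (v - 2 * t * l) ^ 2 := by
      rw [← neg_sq (v - 2 * t * l), neg_sub]
      exact pow_le_pow_left₀ hδ₄0.le hsδ 2
    have h1 : ‖cexp (ρ * (w + v))‖ = Real.exp (l * (w.re + v) - ρ.im * w.im) := by
      rw [Complex.norm_exp]
      congr 1
      rw [mul_re, ← hl]
      simp
    have h2 : Real.exp (-v ^ 2 / (4 * t)) * Real.exp (l * (w.re + v) - ρ.im * w.im) ≤
        ‖cexp (t * ρ ^ 2 + ρ * w)‖ * Real.exp 4 * (Real.exp (-(δ₄ ^ 2 / (16 * t))) *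
          Real.exp (-(v - 2 * t * l) ^ 2 / (16 * t))) := by
      rw [hexn, ← Real.exp_add, ← Real.exp_add, ← Real.exp_add, ← Real.exp_add]
      apply Real.exp_le_exp.mpr
      have e1 : -v ^ 2 / (4 * t) + l * v = t * l ^ 2 - 4 * ((v - 2 * t * l) ^ 2 / (16 * t)) := by
        field_simp
        ring
      have e2 : δ₄ ^ 2 / (16 * t) ≤ (v - 2 * t * l) ^ 2 / (16 * t) :=
        div_le_div_of_nonneg_right hs2 (by positivity)
      have e3 : -(v - 2 * t * l) ^ 2 / (16 * t) = -((v - 2 * t * l) ^ 2 / (16 * t)) := by ring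
      have e4 : 0 ≤ (v - 2 * t * l) ^ 2 / (16 * t) := by positivity
      rw [e3]
      linarith
    have h3 : ‖h v‖ = (‖q‖ * ‖J‖) * (Real.exp (-v ^ 2 / (4 * t)) *
        Real.exp (l * (w.re + v) - ρ.im * w.im)) := by
      rw [hh]
      simp only
      rw [norm_mul, norm_mul, norm_mul, dc_P1_norm, h1]
      ring
    rw [h3]
    calc _ ≤ (C₂ * (2 * ‖ρ ^ n‖)) * (‖cexp (t * ρ ^ 2 + ρ * w)‖ * Real.exp 4 *
          (θ₂ ^ n * Real.exp (-(v - 2 * t * l) ^ 2 / (16 * t)))) := by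
          refine mul_le_mul (mul_le_mul hqn hJn2 (norm_nonneg _) hC₂0.le) (h2.trans ?_)
            (by positivity) (by positivity)
          refine mul_le_mul_of_nonneg_left ?_ (by positivity)
          exact mul_le_mul_of_nonneg_right hθn (Real.exp_pos _).le
      _ = _ := by
        rw [hκ₅, hP, norm_mul]
        ring
  have hN0 := (Nt_pos ht).le
  have hmain : ‖(Nt t : ℂ) * ∫ v : ℝ, (g v - h v)‖ ≤
      ε / (5 * Real.exp 6) * T + 2 * (κ * T + κ₅) := by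
    have hgI : Integrable (fun v => (κ * T + κ₅) * Real.exp (-(v - 2 * t * l) ^ 2 / (16 * t))) :=
      (dc_P1_I ht _).const_mul _
    have hind : Integrable ((Set.Iio v₁).indicator fun v => ‖g v‖) :=
      hgi.norm.indicator measurableSet_Iio
    have h1 : ‖∫ v : ℝ, (g v - h v)‖ ≤ ∫ v : ℝ, ((Set.Iio v₁).indicator (fun v => ‖g v‖) v +
        (κ * T + κ₅) * Real.exp (-(v - 2 * t * l) ^ 2 / (16 * t))) := by
      refine norm_integral_le_of_norm_le (hind.add hgI) (Eventually.of_forall fun v => ?_)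
      have e0 : 0 ≤ Real.exp (-(v - 2 * t * l) ^ 2 / (16 * t)) := (Real.exp_pos _).le
      have e1 : 0 ≤ κ₅ * Real.exp (-(v - 2 * t * l) ^ 2 / (16 * t)) := mul_nonneg hκ₅0 e0
      have e2 : 0 ≤ κ * T * Real.exp (-(v - 2 * t * l) ^ 2 / (16 * t)) := by positivity
      by_cases hv : v < v₁
      · rw [Set.indicator_of_mem (show v ∈ Set.Iio v₁ from hv)]
        have := hII v hv
        have := norm_sub_le (g v) (h v)
        linarith
      · rw [Set.indicator_of_notMem (show v ∉ Set.Iio v₁ from hv)]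
        have := hI v (not_lt.mp hv)
        linarith
    rw [integral_add hind hgI, integral_indicator measurableSet_Iio, integral_const_mul] at h1
    have h2 : ∫ v in Set.Iio v₁, ‖g v‖ = ∫ v in Set.Iio v₁,
        Real.exp (-v ^ 2 / (4 * t)) * ‖LI n f 1 (w + v)‖ := by
      congr 1
      funext v
      exact hgn v
    rw [norm_mul, Complex.norm_real, Real.norm_eq_abs, abs_of_nonneg hN0]
    have h3 := mul_le_mul_of_nonneg_left h1 hN0
    rw [mul_add, h2, mul_left_comm, dc_P1_N ht] at h3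
    linarith
  have hEE : EE n t f w - q * (ρ ^ n * cexp (t * ρ ^ 2 + ρ * w)) =
      (Nt t : ℂ) * (∫ v : ℝ, (g v - h v)) + q * (J - ρ ^ n) * cexp (t * ρ ^ 2 + ρ * w) := by
    rw [integral_sub hgi hhi', mul_sub]
    have h1 : (Nt t : ℂ) * ∫ v : ℝ, h v = q * J * cexp (t * ρ ^ 2 + ρ * w) := hhe
    rw [h1, EE]
    ring
  rw [hEE]
  refine (norm_add_le _ _).trans ?_
  have hlast : ‖q * (J - ρ ^ n) * cexp (t * ρ ^ 2 + ρ * w)‖ ≤ ε / 5 * P := by
    rw [norm_mul, norm_mul]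
    have h1 : εχ ≤ ε / (5 * C₂) := min_le_right _ _
    calc ‖q‖ * ‖J - ρ ^ n‖ * ‖cexp (t * ρ ^ 2 + ρ * w)‖ ≤
        C₂ * (ε / (5 * C₂) * ‖ρ ^ n‖) * ‖cexp (t * ρ ^ 2 + ρ * w)‖ := by
          refine mul_le_mul_of_nonneg_right (mul_le_mul hqn (hJn.trans ?_) (norm_nonneg _)
            hC₂0.le) (norm_nonneg _)
          exact mul_le_mul_of_nonneg_right h1 (norm_nonneg _)
      _ = ε / 5 * P := by
        rw [hP, norm_mul]
        field_simp
  have hN2' := hN₂ n (by omega)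
  have hn1 : (1 : ℝ) ≤ n := by exact_mod_cast (show 1 ≤ n by omega)
  have hsq : Real.sqrt n ≤ n := by
    rw [Real.sqrt_le_left (by positivity)]
    nlinarith
  have hθn0 : 0 ≤ θ ^ n := pow_nonneg hθ.le n
  have hθ₂n0 : 0 ≤ θ₂ ^ n := pow_nonneg hθ₂0.le n
  have hκb : κ ≤ 2 * Real.exp 4 * C₀ ^ 2 * e₁ + 12 * C₁ * C₂ * Real.exp (69 + M ^ 2 / 8) *
      (n * θ ^ n + n * θ₂ ^ n) := by
    rw [hκ]
    have h1 : Real.sqrt n * (θ ^ n + Real.exp (-(δ₄ ^ 2 / (16 * t)))) ≤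
        n * θ ^ n + n * θ₂ ^ n := by
      calc _ ≤ (n : ℝ) * (θ ^ n + θ₂ ^ n) := by
            refine mul_le_mul hsq (by linarith) (by positivity) (by positivity)
        _ = _ := by ring
    have h2 := mul_le_mul_of_nonneg_left h1
      (show 0 ≤ 12 * C₁ * C₂ * Real.exp (69 + M ^ 2 / 8) by positivity)
    linarith
  have hfin : 2 * (κ * T + κ₅) ≤ (ε / 5 + ε / 5) * P := by
    have e10 : Real.exp 10 = Real.exp 6 * Real.exp 4 := by
      rw [← Real.exp_add]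
      norm_num
    have h1 : 2 * (κ * T) ≤ 2 * (κ * (Real.exp 6 * P)) := by
      have := mul_le_mul_of_nonneg_left hTP hκ0
      linarith
    have h2 : 2 * (κ * Real.exp 6) ≤ ε / 5 + K₁ * (n * θ ^ n + n * θ₂ ^ n) := by
      have h3 := mul_le_mul_of_nonneg_left hκb (show 0 ≤ 2 * Real.exp 6 by positivity)
      have h4 : 2 * Real.exp 6 * (2 * Real.exp 4 * C₀ ^ 2 * e₁ + 12 * C₁ * C₂ *
          Real.exp (69 + M ^ 2 / 8) * (n * θ ^ n + n * θ₂ ^ n)) =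
          4 * Real.exp 10 * C₀ ^ 2 * e₁ + K₁ * (n * θ ^ n + n * θ₂ ^ n) := by
        rw [hK1, e10]
        ring
      linarith
    have h5 : 2 * κ₅ ≤ K₂ * (n * θ₂ ^ n) * P := by
      have h6 : θ₂ ^ n ≤ n * θ₂ ^ n := by nlinarith
      have h7 := mul_le_mul_of_nonneg_left h6 (show 0 ≤ K₂ by positivity)
      have h8 := mul_le_mul_of_nonneg_right h7 hP0
      have h9 : 2 * κ₅ = K₂ * θ₂ ^ n * P := by
        rw [hκ₅, hK2]
        ring
      linarith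
    have h10 := mul_le_mul_of_nonneg_right h2 hP0
    have h11 : (K₁ * (n * θ ^ n + n * θ₂ ^ n) + K₂ * (n * θ₂ ^ n)) * P ≤ ε / 5 * P :=
      mul_le_mul_of_nonneg_right hN2'.le hP0
    linarith
  have hl6 : ε / (5 * Real.exp 6) * T ≤ ε / 5 * P := by
    have h1 := mul_le_mul_of_nonneg_left hTP (show 0 ≤ ε / (5 * Real.exp 6) by positivity)
    have h2 : ε / (5 * Real.exp 6) * (Real.exp 6 * P) = ε / 5 * P := by field_simp
    linarith
  have hεP : 0 ≤ ε * P := by positivity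
  linarith

end Pool.Agent.Lib.MP_cd509c_nt.DC
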