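import Pool.Agent.Lib.MP_cd509c_nt.DC.Defs2

/-!
# Piece P2: the right half is small to the left
-/

set_option autoImplicit false

namespace Pool.Agent.Lib.MP_cd509c_nt.DC

open Complex ComplexConjugate MeasureTheory Filter Topology
open Pool.Agent.Lib.MP_cd509c_nt.DN
open scoped Nat

/-- `n! e^n ≤ e n n^n` -/
lemma dc_P2_fac (n : ℕ) (hn : 1 ≤ n) :
    (n ! : ℝ) * Real.exp n ≤ Real.exp 1 * n * (n : ℝ) ^ n := by
  induction n, hn using Nat.le_induction with
  | base => simp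
  | succ n hn ih =>
    have hn0 : (0 : ℝ) < n := by exact_mod_cast hn
    have h1 : Real.exp 1 * (n : ℝ) ^ (n + 1) ≤ ((n : ℝ) + 1) ^ (n + 1) := by
      have h2 : (n : ℝ) / (n + 1) ≤ Real.exp (-(1 / ((n : ℝ) + 1))) := by
        have := Real.add_one_le_exp (-(1 / ((n : ℝ) + 1)))
        have e : (n : ℝ) / (n + 1) = -(1 / ((n : ℝ) + 1)) + 1 := by
          field_simp
          ring
        rw [e]
        exact this
      have h3 : ((n : ℝ) / (n + 1)) ^ (n + 1) ≤ Real.exp (-1) := by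
        calc ((n : ℝ) / (n + 1)) ^ (n + 1) ≤ (Real.exp (-(1 / ((n : ℝ) + 1)))) ^ (n + 1) :=
              pow_le_pow_left₀ (by positivity) h2 _
          _ = Real.exp (-1) := by
              rw [← Real.exp_nat_mul]
              congr 1
              push_cast
              field_simp
      rw [div_pow, div_le_iff₀ (by positivity)] at h3
      have h4 : Real.exp 1 * (Real.exp (-1) * ((n : ℝ) + 1) ^ (n + 1)) = ((n : ℝ) + 1) ^ (n + 1) := by
        rw [← mul_assoc, ← Real.exp_add]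
        simp
      calc Real.exp 1 * (n : ℝ) ^ (n + 1) ≤ Real.exp 1 * (Real.exp (-1) * ((n : ℝ) + 1) ^ (n + 1)) :=
            mul_le_mul_of_nonneg_left h3 (Real.exp_pos _).le
        _ = _ := h4
    rw [Nat.factorial_succ]
    push_cast
    rw [Real.exp_add]
    calc ((n : ℝ) + 1) * (n ! : ℝ) * (Real.exp n * Real.exp 1)
        = ((n : ℝ) + 1) * Real.exp 1 * ((n ! : ℝ) * Real.exp n) := by ring
      _ ≤ ((n : ℝ) + 1) * Real.exp 1 * (Real.exp 1 * n * (n : ℝ) ^ n) :=
          mul_le_mul_of_nonneg_left ih (by positivity)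
      _ = Real.exp 1 * ((n : ℝ) + 1) * (Real.exp 1 * (n : ℝ) ^ (n + 1)) := by ring
      _ ≤ Real.exp 1 * ((n : ℝ) + 1) * ((n : ℝ) + 1) ^ (n + 1) :=
          mul_le_mul_of_nonneg_left h1 (by positivity)

lemma dc_P2_gauss_int (b : ℝ) (hb : 0 < b) (a : ℝ) :
    Integrable (fun v : ℝ => Real.exp (-b * (v - a) ^ 2)) :=
  (integrable_exp_neg_mul_sq hb).comp_sub_right a

lemma dc_P2_gauss (b : ℝ) (a : ℝ) :
    ∫ v : ℝ, Real.exp (-b * (v - a) ^ 2) = Real.sqrt (Real.pi / b) := by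
  rw [integral_sub_right_eq_self (fun v : ℝ => Real.exp (-b * v ^ 2)) a]
  exact integral_gaussian b

/-- the bound of the line integral -/
lemma dc_P2_LI (C₂ K p l c : ℝ) (hC₂ : 1 ≤ C₂) (hK : 0 ≤ K) (n : ℕ) (f : ℂ → ℂ)
    (hf : ∀ w : ℂ, p ≤ w.re → ‖f w‖ ≤ C₂ * Real.exp (l * w.re + 4 * |w.im| + ‖w‖ ^ 2 / 16))
    (hKn : ∀ η : ℝ, ‖Kn n (c + η * I)‖ ≤ K * Real.exp (-(η ^ 2 / 4)))
    (x : ℝ) (hx : p ≤ x + c) :
    ‖LI n f c (x : ℂ)‖ ≤ C₂ * K * (Real.exp 64 * Real.sqrt (Real.pi / (1 / 8))) *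
      Real.exp (l * (x + c) + (x + c) ^ 2 / 16) := by
  have hb : ∀ η : ℝ, ‖f ((x : ℂ) + (c + η * I)) * Kn n (c + η * I)‖ ≤
      C₂ * K * Real.exp (l * (x + c) + (x + c) ^ 2 / 16) * Real.exp 64 *
        Real.exp (-(1 / 8) * (η - 0) ^ 2) := by
    intro η
    rw [norm_mul]
    have h1 : ((x : ℂ) + (c + η * I)).re = x + c := by simp
    have h2 : ((x : ℂ) + (c + η * I)).im = η := by simp
    have h3 : ‖(x : ℂ) + (c + η * I)‖ ^ 2 = (x + c) ^ 2 + η ^ 2 := by
      rw [← Complex.normSq_eq_norm_sq, Complex.normSq_apply, h1, h2]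
      ring
    have h4 := hf ((x : ℂ) + (c + η * I)) (by rw [h1]; exact hx)
    rw [h1, h2, h3] at h4
    have h5 : 4 * |η| ≤ 64 + η ^ 2 / 16 := by
      nlinarith [sq_nonneg (|η| / 4 - 8), sq_abs η]
    calc ‖f ((x : ℂ) + (c + η * I))‖ * ‖Kn n (c + η * I)‖
        ≤ (C₂ * Real.exp (l * (x + c) + 4 * |η| + ((x + c) ^ 2 + η ^ 2) / 16)) *
          (K * Real.exp (-(η ^ 2 / 4))) :=
          mul_le_mul h4 (hKn η) (norm_nonneg _) (by positivity)
      _ = C₂ * K * Real.exp (l * (x + c) + 4 * |η| + ((x + c) ^ 2 + η ^ 2) / 16 + -(η ^ 2 / 4)) := by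
          rw [Real.exp_add _ (-(η ^ 2 / 4))]
          ring
      _ ≤ C₂ * K * Real.exp (l * (x + c) + (x + c) ^ 2 / 16 + 64 + -(1 / 8) * (η - 0) ^ 2) := by
          apply mul_le_mul_of_nonneg_left _ (by positivity)
          apply Real.exp_le_exp.2
          nlinarith
      _ = _ := by
          rw [Real.exp_add, Real.exp_add]
          ring
  have hint : Integrable (fun η : ℝ => C₂ * K * Real.exp (l * (x + c) + (x + c) ^ 2 / 16) *
      Real.exp 64 * Real.exp (-(1 / 8) * (η - 0) ^ 2)) :=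
    (dc_P2_gauss_int (1 / 8) (by norm_num) 0).const_mul _
  have h6 := norm_integral_le_of_norm_le hint (Eventually.of_forall hb)
  rw [integral_const_mul, dc_P2_gauss] at h6
  unfold LI
  rw [norm_mul]
  have h7 : ‖(1 / (2 * Real.pi) : ℂ)‖ ≤ 1 := by
    have : (1 / (2 * Real.pi) : ℂ) = ((1 / (2 * Real.pi) : ℝ) : ℂ) := by push_cast; ring
    rw [this, Complex.norm_real, Real.norm_eq_abs, abs_of_pos (by positivity),
      div_le_iff₀ (by positivity)]
    linarith [Real.pi_gt_three]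
  calc ‖(1 / (2 * Real.pi) : ℂ)‖ * ‖∫ η : ℝ, f ((x : ℂ) + (c + η * I)) * Kn n (c + η * I)‖
      ≤ 1 * (C₂ * K * Real.exp (l * (x + c) + (x + c) ^ 2 / 16) * Real.exp 64 *
        Real.sqrt (Real.pi / (1 / 8))) :=
        mul_le_mul h7 h6 (norm_nonneg _) zero_le_one
    _ = _ := by ring

/-- the Gaussian integral with the correction `v ^ 2 / 8` -/
lemma dc_P2_int (t l : ℝ) (ht : 0 < t) (ht1 : t ≤ 1) :
    Integrable (fun v : ℝ => Real.exp (-v ^ 2 / (4 * t) + v ^ 2 / 8 + l * v)) ∧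
    Nt t * ∫ v : ℝ, Real.exp (-v ^ 2 / (4 * t) + v ^ 2 / 8 + l * v) ≤
      2 * Real.exp (t * l ^ 2 + t ^ 2 * l ^ 2) := by
  set a : ℝ := 1 / (4 * t) - 1 / 8 with ha
  have ha0 : 0 < a := by
    rw [ha, sub_pos]
    apply one_div_lt_one_div_of_lt (by positivity)
    linarith
  have e : (fun v : ℝ => Real.exp (-v ^ 2 / (4 * t) + v ^ 2 / 8 + l * v)) =
      fun v : ℝ => Real.exp (l ^ 2 / (4 * a)) * Real.exp (-a * (v - l / (2 * a)) ^ 2) := by
    funext v
    rw [← Real.exp_add]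
    congr 1
    have h1 : -v ^ 2 / (4 * t) + v ^ 2 / 8 = -a * v ^ 2 := by rw [ha]; ring
    rw [h1]
    field_simp
    ring
  rw [e]
  refine ⟨(dc_P2_gauss_int a ha0 _).const_mul _, ?_⟩
  rw [integral_const_mul, dc_P2_gauss]
  have h4a : 4 * a * t = 1 - t / 2 := by
    rw [ha]
    field_simp
    ring
  have h2 : l ^ 2 / (4 * a) ≤ t * l ^ 2 + t ^ 2 * l ^ 2 := by
    rw [div_le_iff₀ (by positivity)]
    have : (t * l ^ 2 + t ^ 2 * l ^ 2) * (4 * a) = l ^ 2 * ((1 + t) * (4 * a * t)) := by ring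
    rw [this, h4a]
    have h3 : (1 : ℝ) ≤ (1 + t) * (1 - t / 2) := by nlinarith
    nlinarith [sq_nonneg l, mul_le_mul_of_nonneg_left h3 (sq_nonneg l)]
  have h5 : Nt t * Real.sqrt (Real.pi / a) ≤ 2 := by
    unfold Nt
    rw [← Real.sqrt_inv, ← Real.sqrt_mul (by positivity)]
    have h6 : (4 * Real.pi * t)⁻¹ * (Real.pi / a) = 1 / (4 * a * t) := by
      field_simp
    rw [h6, h4a]
    apply Real.sqrt_le_iff.2
    refine ⟨by norm_num, ?_⟩
    rw [div_le_iff₀ (by linarith)]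
    linarith
  calc Nt t * (Real.exp (l ^ 2 / (4 * a)) * Real.sqrt (Real.pi / a))
      = (Nt t * Real.sqrt (Real.pi / a)) * Real.exp (l ^ 2 / (4 * a)) := by ring
    _ ≤ 2 * Real.exp (t * l ^ 2 + t ^ 2 * l ^ 2) := by
        apply mul_le_mul h5 (Real.exp_le_exp.2 h2) (Real.exp_pos _).le (by norm_num)

theorem p_P2 (hKn : S_Kn) (hdec : S_dec) (hleft : S_left) : S_P2 := by
  intro A B C₂ p β δ ε hA hB hC₂ hp hpβ hδ hε
  obtain ⟨l₁, hl₁, hL⟩ := hleft A B C₂ p β δ (ε * Real.exp (-4) / 2) hA hB hC₂ hp hpβ hδ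
    (by positivity)
  obtain ⟨C, θ, n₀, hC, -, -, hK⟩ := hKn.2 A 1 hA one_pos
  set G : ℝ := Real.exp 64 * Real.sqrt (Real.pi / (1 / 8)) with hG
  have hG0 : 0 < G := by positivity
  set K₂ : ℝ := 2 * (C₂ * C * G * Real.exp 1 * A) * Real.exp ((A + B) ^ 2 / 8 + A ^ 4) with hK₂
  have hK₂0 : 0 < K₂ := by positivity
  refine ⟨max l₁ (max (A ^ 2) (max (A * (n₀ + 1)) (K₂ / (δ ^ 2 * (ε * Real.exp (-4)))))),
    le_max_of_le_left hl₁, ?_⟩
  intro n t ρ f Q H y hy1 hy2
  have hlarge := H.large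
  obtain ⟨hb1, hb2⟩ := max_le_iff.1 hlarge
  obtain ⟨hb3, hb4⟩ := max_le_iff.1 hb2
  obtain ⟨hb5, hb6⟩ := max_le_iff.1 hb4
  have H1 : Hyp A C₂ p β l₁ 1 1 n t ρ f Q := { H with large := hb1 }
  set l : ℝ := ρ.re with hl
  have hl0 : 1 ≤ l := le_trans hl₁ hb1
  have hlp : 0 < l := by linarith
  have hn1 := H.n1
  have hn2 := H.n2
  have ht0 := H.t0
  have ht2 := H.t2
  have hA0 : 0 < A := by linarith
  have hnn : (n₀ : ℝ) + 1 ≤ n := by
    have : A * ((n₀ : ℝ) + 1) ≤ A * n := le_trans hb5 hn1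
    exact le_of_mul_le_mul_left this hA0
  have hn₀ : n₀ ≤ n := by
    have : (n₀ : ℝ) ≤ n := by linarith
    exact_mod_cast this
  have hnp : 1 ≤ n := by
    have h0 : (0 : ℝ) ≤ n₀ := Nat.cast_nonneg _
    have : (1 : ℝ) ≤ n := by linarith
    exact_mod_cast this
  have hnr : (1 : ℝ) ≤ n := by exact_mod_cast hnp
  have htl : t * l ≤ A ^ 2 := by
    have h1 : t * l ≤ t * (A * n) := mul_le_mul_of_nonneg_left hn1 ht0.le
    have h2 : A * (n * t) ≤ A * A := mul_le_mul_of_nonneg_left ht2 hA0.le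
    have h3 : t * (A * n) = A * (n * t) := by ring
    rw [h3] at h1
    calc t * l ≤ A * (n * t) := h1
      _ ≤ A * A := h2
      _ = A ^ 2 := by ring
  have ht1 : t ≤ 1 := by
    have h1 : t * A ^ 2 ≤ t * l := mul_le_mul_of_nonneg_left hb3 ht0.le
    have h2 : t * A ^ 2 ≤ 1 * A ^ 2 := by linarith
    exact le_of_mul_le_mul_right h2 (by positivity)
  set c : ℝ := n / l with hc
  have hc0 : 0 < c := by positivity
  have hlc : l * c = n := by rw [hc]; field_simp
  have hcA : c ≤ A := by rw [hc, div_le_iff₀ hlp]; exact hn2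
  have hcA' : 1 / A ≤ c := by
    rw [hc, div_le_div_iff₀ hA0 hlp]
    linarith
  -- growth
  obtain ⟨M, hM⟩ := H.growth
  obtain ⟨-, hdec2, hdec3, -⟩ := hdec f M n t H.diff hM ht0
  set w : ℂ := -(y : ℂ) with hw
  have hwre : w.re = -y := by simp [hw]
  have hwim : w.im = 0 := by simp [hw]
  -- norm of EE
  set Φ : ℝ → ℝ := fun v => Real.exp (-v ^ 2 / (4 * t)) * ‖LI n f 1 (w + v)‖ with hΦ
  have hnorm : ∀ v : ℝ, ‖cexp (-(v : ℂ) ^ 2 / (4 * t)) * LI n f 1 (w + v)‖ = Φ v := by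
    intro v
    rw [norm_mul, Complex.norm_exp]
    congr 2
    have : (-(v : ℂ) ^ 2 / (4 * t)) = ((-v ^ 2 / (4 * t) : ℝ) : ℂ) := by push_cast; ring
    rw [this, Complex.ofReal_re]
  have hΦi : Integrable Φ := by
    have := (hdec3 w).norm
    exact this.congr (Eventually.of_forall hnorm)
  have hNt0 : 0 ≤ Nt t := by unfold Nt; positivity
  have hEE : ‖EE n t f w‖ ≤ Nt t * ∫ v : ℝ, Φ v := by
    unfold EE
    rw [norm_mul, Complex.norm_real, Real.norm_eq_abs, abs_of_nonneg hNt0]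
    apply mul_le_mul_of_nonneg_left _ hNt0
    refine (norm_integral_le_integral_norm _).trans (le_of_eq ?_)
    exact integral_congr_ae (Eventually.of_forall hnorm)
  set v₁ : ℝ := p - w.re - n / l with hv₁
  have hsplit : ∫ v : ℝ, Φ v = (∫ v in Set.Iio v₁, Φ v) + ∫ v in Set.Ici v₁, Φ v := by
    have h1 := integral_add_compl (measurableSet_Iio (a := v₁)) hΦi
    rw [Set.compl_Iio] at h1
    exact h1.symm
  have hleft' := (hL n t ρ f Q H1 w (by rw [hwim]; simp)).2 (by rw [hwre]; linarith)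
    (by rw [hwre]; linarith)
  -- the right part
  have hright : Nt t * ∫ v in Set.Ici v₁, Φ v ≤
      K₂ * l * (l ^ n * Real.exp (t * l ^ 2 - l * y)) := by
    set D : ℝ := C₂ * (C * n ! * (1 / c) ^ n) * G * Real.exp (l * c - l * y + (A + B) ^ 2 / 8)
      with hD
    have hD0 : 0 ≤ D := by positivity
    have hpt : ∀ v ∈ Set.Ici v₁, Φ v ≤
        D * Real.exp (-v ^ 2 / (4 * t) + v ^ 2 / 8 + l * v) := by
      intro v hv
      have hv' : p + y - c ≤ v := by
        have : v₁ ≤ v := hv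
        rw [hv₁, hwre] at this
        linarith
      have h1 : LI n f 1 (w + v) = LI n f c ((v - y : ℝ) : ℂ) := by
        rw [← hdec2 c (w + v) hc0]
        congr 1
        rw [hw]
        push_cast
        ring
      have h2 := dc_P2_LI C₂ (C * n ! * (1 / c) ^ n) p l c hC₂ (by positivity) n f H.crude
        (fun η => (hK n c η hn₀ hcA' hcA).1) (v - y) (by linarith)
      rw [← h1] at h2
      have h3 : (v - y + c) ^ 2 / 16 ≤ v ^ 2 / 8 + (A + B) ^ 2 / 8 := by
        have h4 : (c - y) ^ 2 ≤ (A + B) ^ 2 := by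
          apply sq_le_sq'
          · linarith
          · linarith
        have h5 : (v - y + c) ^ 2 = 2 * v ^ 2 + 2 * (c - y) ^ 2 - (v - (c - y)) ^ 2 := by ring
        have h6 := sq_nonneg (v - (c - y))
        linarith
      calc Φ v ≤ Real.exp (-v ^ 2 / (4 * t)) * (C₂ * (C * n ! * (1 / c) ^ n) * G *
            Real.exp (l * (v - y + c) + (v - y + c) ^ 2 / 16)) :=
            mul_le_mul_of_nonneg_left h2 (Real.exp_pos _).le
        _ ≤ Real.exp (-v ^ 2 / (4 * t)) * (C₂ * (C * n ! * (1 / c) ^ n) * G *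
            Real.exp (l * (v - y + c) + (v ^ 2 / 8 + (A + B) ^ 2 / 8))) := by
            apply mul_le_mul_of_nonneg_left _ (Real.exp_pos _).le
            apply mul_le_mul_of_nonneg_left _ (by positivity)
            apply Real.exp_le_exp.2
            linarith
        _ = C₂ * (C * n ! * (1 / c) ^ n) * G * (Real.exp (-v ^ 2 / (4 * t)) *
            Real.exp (l * (v - y + c) + (v ^ 2 / 8 + (A + B) ^ 2 / 8))) := by ring
        _ = C₂ * (C * n ! * (1 / c) ^ n) * G * (Real.exp (l * c - l * y + (A + B) ^ 2 / 8) *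
            Real.exp (-v ^ 2 / (4 * t) + v ^ 2 / 8 + l * v)) := by
            rw [← Real.exp_add, ← Real.exp_add]
            congr 2
            ring
        _ = _ := by rw [hD]; ring
    obtain ⟨hI, hJ⟩ := dc_P2_int t l ht0 ht1
    have h5 : ∫ v in Set.Ici v₁, Φ v ≤
        D * ∫ v : ℝ, Real.exp (-v ^ 2 / (4 * t) + v ^ 2 / 8 + l * v) := by
      calc ∫ v in Set.Ici v₁, Φ v
          ≤ ∫ v in Set.Ici v₁, D * Real.exp (-v ^ 2 / (4 * t) + v ^ 2 / 8 + l * v) :=
            setIntegral_mono_on hΦi.integrableOn (hI.const_mul D).integrableOn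
              measurableSet_Ici hpt
        _ ≤ ∫ v : ℝ, D * Real.exp (-v ^ 2 / (4 * t) + v ^ 2 / 8 + l * v) :=
            setIntegral_le_integral (hI.const_mul D)
              (Eventually.of_forall fun v => mul_nonneg hD0 (Real.exp_pos _).le)
        _ = _ := integral_const_mul _ _
    have h6 : (n ! : ℝ) * (1 / c) ^ n * Real.exp (l * c) ≤ Real.exp 1 * n * l ^ n := by
      have h7 := dc_P2_fac n hnp
      rw [hlc]
      have h8 : (1 / c) ^ n = l ^ n / (n : ℝ) ^ n := by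
        rw [hc, one_div_div, div_pow]
      rw [h8]
      have h9 : (0 : ℝ) < (n : ℝ) ^ n := by positivity
      calc (n ! : ℝ) * (l ^ n / (n : ℝ) ^ n) * Real.exp n
          = ((n ! : ℝ) * Real.exp n) * (l ^ n / (n : ℝ) ^ n) := by ring
        _ ≤ (Real.exp 1 * n * (n : ℝ) ^ n) * (l ^ n / (n : ℝ) ^ n) :=
            mul_le_mul_of_nonneg_right h7 (by positivity)
        _ = _ := by field_simp
    have hDle : D ≤ (C₂ * C * G * Real.exp 1 * A) * Real.exp ((A + B) ^ 2 / 8) *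
        (l * l ^ n * Real.exp (-(l * y))) := by
      have e1 : D = (C₂ * C * G) * ((n ! : ℝ) * (1 / c) ^ n * Real.exp (l * c)) *
          (Real.exp (-(l * y)) * Real.exp ((A + B) ^ 2 / 8)) := by
        rw [hD, ← Real.exp_add]
        have : Real.exp (l * c - l * y + (A + B) ^ 2 / 8) =
            Real.exp (l * c) * Real.exp (-(l * y) + (A + B) ^ 2 / 8) := by
          rw [← Real.exp_add]
          congr 1
          ring
        rw [this]
        ring
      rw [e1]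
      calc (C₂ * C * G) * ((n ! : ℝ) * (1 / c) ^ n * Real.exp (l * c)) *
            (Real.exp (-(l * y)) * Real.exp ((A + B) ^ 2 / 8))
          ≤ (C₂ * C * G) * (Real.exp 1 * (A * l) * l ^ n) *
            (Real.exp (-(l * y)) * Real.exp ((A + B) ^ 2 / 8)) := by
            apply mul_le_mul_of_nonneg_right _ (by positivity)
            apply mul_le_mul_of_nonneg_left _ (by positivity)
            refine h6.trans ?_
            apply mul_le_mul_of_nonneg_right _ (by positivity)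
            exact mul_le_mul_of_nonneg_left hn2 (Real.exp_pos _).le
        _ = _ := by ring
    have htl2 : t ^ 2 * l ^ 2 ≤ A ^ 4 := by
      have h1 : (t * l) ^ 2 ≤ (A ^ 2) ^ 2 := pow_le_pow_left₀ (by positivity) htl 2
      calc t ^ 2 * l ^ 2 = (t * l) ^ 2 := by ring
        _ ≤ (A ^ 2) ^ 2 := h1
        _ = A ^ 4 := by ring
    calc Nt t * ∫ v in Set.Ici v₁, Φ v
        ≤ Nt t * (D * ∫ v : ℝ, Real.exp (-v ^ 2 / (4 * t) + v ^ 2 / 8 + l * v)) :=
          mul_le_mul_of_nonneg_left h5 hNt0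
      _ = D * (Nt t * ∫ v : ℝ, Real.exp (-v ^ 2 / (4 * t) + v ^ 2 / 8 + l * v)) := by ring
      _ ≤ D * (2 * Real.exp (t * l ^ 2 + t ^ 2 * l ^ 2)) := mul_le_mul_of_nonneg_left hJ hD0
      _ ≤ D * (2 * Real.exp (t * l ^ 2 + A ^ 4)) := by
          apply mul_le_mul_of_nonneg_left _ hD0
          apply mul_le_mul_of_nonneg_left _ (by norm_num)
          exact Real.exp_le_exp.2 (by linarith)
      _ ≤ ((C₂ * C * G * Real.exp 1 * A) * Real.exp ((A + B) ^ 2 / 8) *
          (l * l ^ n * Real.exp (-(l * y)))) * (2 * Real.exp (t * l ^ 2 + A ^ 4)) :=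
          mul_le_mul_of_nonneg_right hDle (by positivity)
      _ = K₂ * l * (l ^ n * Real.exp (t * l ^ 2 - l * y)) := by
          have e2 : Real.exp (t * l ^ 2 + A ^ 4) = Real.exp (t * l ^ 2) * Real.exp (A ^ 4) :=
            Real.exp_add _ _
          have e3 : Real.exp ((A + B) ^ 2 / 8 + A ^ 4) =
            Real.exp ((A + B) ^ 2 / 8) * Real.exp (A ^ 4) := Real.exp_add _ _
          have e4 : Real.exp (t * l ^ 2 - l * y) = Real.exp (t * l ^ 2) * Real.exp (-(l * y)) := by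
            rw [← Real.exp_add]
            congr 1
          rw [hK₂, e2, e3, e4]
          ring
  -- the right side
  have hrhs : Real.exp (-4) * (l ^ n * Real.exp (t * l ^ 2 + l * y)) ≤
      ‖ρ ^ n * cexp (t * ρ ^ 2 + ρ * y)‖ := by
    rw [norm_mul, norm_pow, Complex.norm_exp]
    have h1 : l ≤ ‖ρ‖ := (le_abs_self _).trans (Complex.abs_re_le_norm ρ)
    have h2 : ((t : ℂ) * ρ ^ 2 + ρ * y).re = t * (l ^ 2 - ρ.im ^ 2) + l * y := by
      simp [pow_two, hl]
    rw [h2]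
    have h3 : ρ.im ^ 2 ≤ 4 := by
      have := H.im
      have h4 := abs_le.1 this
      nlinarith
    have h5 : t * l ^ 2 + l * y - 4 ≤ t * (l ^ 2 - ρ.im ^ 2) + l * y := by
      have h6 : t * ρ.im ^ 2 ≤ 1 * 4 := mul_le_mul ht1 h3 (sq_nonneg _) zero_le_one
      have h7 : t * (l ^ 2 - ρ.im ^ 2) = t * l ^ 2 - t * ρ.im ^ 2 := by ring
      rw [h7]
      linarith
    calc Real.exp (-4) * (l ^ n * Real.exp (t * l ^ 2 + l * y))
        = l ^ n * Real.exp (t * l ^ 2 + l * y - 4) := by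
          have : Real.exp (t * l ^ 2 + l * y - 4) =
              Real.exp (t * l ^ 2 + l * y) * Real.exp (-4) := by
            rw [← Real.exp_add]
            congr 1
          rw [this]
          ring
      _ ≤ ‖ρ‖ ^ n * Real.exp (t * (l ^ 2 - ρ.im ^ 2) + l * y) := by
          apply mul_le_mul (pow_le_pow_left₀ hlp.le h1 n) (Real.exp_le_exp.2 h5)
            (Real.exp_pos _).le (by positivity)
  have hfin : K₂ * l * Real.exp (t * l ^ 2 - l * y) ≤
      ε * Real.exp (-4) / 2 * Real.exp (t * l ^ 2 + l * y) := by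
    have h1 : (δ * l) ^ 2 * 2 ≤ Real.exp (2 * (δ * l)) := by
      have h2 := Real.pow_div_factorial_le_exp (2 * (δ * l)) (by positivity) 2
      simp only [Nat.factorial] at h2
      push_cast at h2
      have h3 : (2 * (δ * l)) ^ 2 / 2 = (δ * l) ^ 2 * 2 := by ring
      rw [h3] at h2
      exact h2
    have h3 : K₂ ≤ l * (δ ^ 2 * (ε * Real.exp (-4))) := by
      rwa [div_le_iff₀ (by positivity)] at hb6
    have h4 : K₂ * l ≤ ε * Real.exp (-4) / 2 * Real.exp (2 * (δ * l)) := by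
      calc K₂ * l ≤ (l * (δ ^ 2 * (ε * Real.exp (-4)))) * l :=
            mul_le_mul_of_nonneg_right h3 hlp.le
        _ = ε * Real.exp (-4) / 2 * ((δ * l) ^ 2 * 2) := by ring
        _ ≤ _ := mul_le_mul_of_nonneg_left h1 (by positivity)
    have h5 : Real.exp (2 * (δ * l)) * Real.exp (t * l ^ 2 - l * y) ≤
        Real.exp (t * l ^ 2 + l * y) := by
      rw [← Real.exp_add]
      apply Real.exp_le_exp.2
      have h6 : δ * l ≤ y * l := mul_le_mul_of_nonneg_right hy1 hlp.le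
      linarith
    calc K₂ * l * Real.exp (t * l ^ 2 - l * y)
        ≤ (ε * Real.exp (-4) / 2 * Real.exp (2 * (δ * l))) * Real.exp (t * l ^ 2 - l * y) :=
          mul_le_mul_of_nonneg_right h4 (Real.exp_pos _).le
      _ = ε * Real.exp (-4) / 2 * (Real.exp (2 * (δ * l)) * Real.exp (t * l ^ 2 - l * y)) := by ring
      _ ≤ _ := mul_le_mul_of_nonneg_left h5 (by positivity)
  have hleft'' : Nt t * ∫ v in Set.Iio v₁, Φ v ≤
      ε * Real.exp (-4) / 2 * (l ^ n * Real.exp (t * l ^ 2 + l * y)) := by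
    have e5 : t * l ^ 2 - l * w.re = t * l ^ 2 + l * y := by rw [hwre]; ring
    rw [e5] at hleft'
    exact hleft'
  calc ‖EE n t f w‖ ≤ Nt t * ∫ v : ℝ, Φ v := hEE
    _ = Nt t * (∫ v in Set.Iio v₁, Φ v) + Nt t * ∫ v in Set.Ici v₁, Φ v := by rw [hsplit]; ring
    _ ≤ ε * Real.exp (-4) / 2 * (l ^ n * Real.exp (t * l ^ 2 + l * y)) +
        K₂ * l * (l ^ n * Real.exp (t * l ^ 2 - l * y)) := add_le_add hleft'' hright
    _ ≤ ε * Real.exp (-4) / 2 * (l ^ n * Real.exp (t * l ^ 2 + l * y)) +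
        ε * Real.exp (-4) / 2 * (l ^ n * Real.exp (t * l ^ 2 + l * y)) := by
        have h1 := mul_le_mul_of_nonneg_left hfin (by positivity : (0 : ℝ) ≤ l ^ n)
        have h2 : K₂ * l * (l ^ n * Real.exp (t * l ^ 2 - l * y)) =
          l ^ n * (K₂ * l * Real.exp (t * l ^ 2 - l * y)) := by ring
        have h3 : ε * Real.exp (-4) / 2 * (l ^ n * Real.exp (t * l ^ 2 + l * y)) =
          l ^ n * (ε * Real.exp (-4) / 2 * Real.exp (t * l ^ 2 + l * y)) := by ring
        rw [h2, h3]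
        linarith
    _ = ε * (Real.exp (-4) * (l ^ n * Real.exp (t * l ^ 2 + l * y))) := by ring
    _ ≤ _ := mul_le_mul_of_nonneg_left hrhs hε.le

end Pool.Agent.Lib.MP_cd509c_nt.DC
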