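import Pool.Agent.Lib.MP_cd509c_nt.DC.Defs2

/-!
# Action of the kernel on exponentials (helper25)
-/

set_option autoImplicit false

namespace Pool.Agent.Lib.MP_cd509c_nt.DC

open Complex ComplexConjugate MeasureTheory Filter Topology
open scoped Nat

theorem dc_chi_an {z : ℂ} (hz : z ≠ 0) (n : ℕ) :
    AnalyticAt ℂ (iteratedDeriv n (fun z : ℂ => cexp (z ^ 2) / z)) z := by
  have h1 : AnalyticAt ℂ (fun z : ℂ => cexp (z ^ 2) / z) z := by
    have h2 : AnalyticAt ℂ (fun z : ℂ => cexp (z ^ 2)) z := by fun_prop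
    exact h2.div analyticAt_id hz
  rw [iteratedDeriv_eq_iterate]
  exact h1.iterated_deriv n

theorem dc_chi_deriv (n : ℕ) {z : ℂ} (hz : z ≠ 0) : HasDerivAt (Kn n) (-Kn (n + 1) z) z := by
  have h1 := (dc_chi_an hz n).differentiableAt.hasDerivAt
  rw [← iteratedDeriv_succ] at h1
  have h2 := h1.const_mul ((-1 : ℂ) ^ n)
  have h3 : -Kn (n + 1) z =
      (-1) ^ n * iteratedDeriv (n + 1) (fun z : ℂ => cexp (z ^ 2) / z) z := by
    unfold Kn
    ring
  rw [h3]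
  exact h2

theorem dc_chi_ne {c : ℝ} (hc : 0 < c) (η : ℝ) : ((c : ℂ) + η * I) ≠ 0 := by
  intro h
  have h1 := congrArg Complex.re h
  simp at h1
  exact hc.ne' h1

theorem dc_chi_line (c : ℝ) (η : ℝ) :
    HasDerivAt (fun η : ℝ => ((c : ℂ) + η * I)) I η := by
  have h1 : HasDerivAt (fun η : ℝ => (η : ℂ)) 1 η := Complex.ofRealCLM.hasDerivAt
  have h2 := (h1.mul_const I).const_add (c : ℂ)
  simpa using h2

theorem dc_chi_der (n : ℕ) {c : ℝ} (hc : 0 < c) (ρ : ℂ) (η : ℝ) :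
    HasDerivAt (fun η : ℝ => cexp (ρ * (c + η * I)) * Kn n (c + η * I))
      (I * (ρ * (cexp (ρ * (c + η * I)) * Kn n (c + η * I)) -
        cexp (ρ * (c + η * I)) * Kn (n + 1) (c + η * I))) η := by
  have h1 := dc_chi_line c η
  have h2 := (h1.const_mul ρ).cexp
  have h3 := (dc_chi_deriv n (dc_chi_ne hc η)).comp η h1
  have h4 := h2.mul h3
  refine h4.congr_deriv ?_
  have h5 : (Kn n ∘ fun η : ℝ => (c : ℂ) + η * I) η = Kn n (c + η * I) := rfl
  rw [h5]
  ring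

theorem dc_chi_int (h : S_Kn) (n : ℕ) {c : ℝ} (hc : 0 < c) (ρ : ℂ) :
    Integrable (fun η : ℝ => cexp (ρ * (c + η * I)) * Kn n (c + η * I)) := by
  have hcont : Continuous (fun η : ℝ => cexp (ρ * (c + η * I)) * Kn n (c + η * I)) :=
    continuous_iff_continuousAt.2 fun η => (dc_chi_der n hc ρ η).continuousAt
  have h1 : Integrable (fun η : ℝ => Real.exp (-(1 / 4) * η ^ 2 + -ρ.im * η + 0)) := by
    have h2 := (integrable_cexp_quadratic' (b := -(1 / 4)) (by norm_num)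
      (-(ρ.im : ℂ)) 0).norm
    refine h2.congr (Eventually.of_forall fun η => ?_)
    simp only [Complex.norm_exp]
    congr 1
    have h3 : (-(1 / 4) * (η : ℂ) ^ 2 + -(ρ.im : ℂ) * η + 0) =
        ((-(1 / 4) * η ^ 2 + -ρ.im * η + 0 : ℝ) : ℂ) := by push_cast; ring
    rw [h3, Complex.ofReal_re]
  refine (h1.const_mul (Real.exp (ρ.re * c) * (n ! * (2 / c) ^ (n + 1) *
    Real.exp (4 * c ^ 2)))).mono' hcont.aestronglyMeasurable (Eventually.of_forall fun η => ?_)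
  rw [norm_mul, Complex.norm_exp]
  have h3 : (ρ * ((c : ℂ) + η * I)).re = ρ.re * c - ρ.im * η := by
    simp [Complex.mul_re]
  rw [h3]
  have h4 := h.1 n c η hc
  refine (mul_le_mul_of_nonneg_left h4 (Real.exp_pos _).le).trans (le_of_eq ?_)
  have h5 : ρ.re * c - ρ.im * η = ρ.re * c + -ρ.im * η := by ring
  have h6 : 4 * c ^ 2 - η ^ 2 / 4 = 4 * c ^ 2 + -(1 / 4) * η ^ 2 := by ring
  rw [h5, h6, Real.exp_add, Real.exp_add, Real.exp_add, Real.exp_add, Real.exp_zero]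
  ring

theorem dc_chi_rec (h : S_Kn) (n : ℕ) {c : ℝ} (hc : 0 < c) (ρ : ℂ) :
    ∫ η : ℝ, cexp (ρ * (c + η * I)) * Kn n (c + η * I) =
      ρ ^ n * ∫ η : ℝ, cexp (ρ * (c + η * I)) * Kn 0 (c + η * I) := by
  induction n with
  | zero => simp
  | succ n ih =>
    have hi := dc_chi_int h n hc ρ
    have hi' := dc_chi_int h (n + 1) hc ρ
    have h1 := integral_eq_zero_of_hasDerivAt_of_integrable (dc_chi_der n hc ρ)
      (((hi.const_mul ρ).sub hi').const_mul I) hi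
    have h2 : ∫ η : ℝ, I * (ρ * (cexp (ρ * (c + η * I)) * Kn n (c + η * I)) -
        cexp (ρ * (c + η * I)) * Kn (n + 1) (c + η * I)) =
        I * (ρ * (∫ η : ℝ, cexp (ρ * (c + η * I)) * Kn n (c + η * I)) -
          ∫ η : ℝ, cexp (ρ * (c + η * I)) * Kn (n + 1) (c + η * I)) := by
      rw [integral_const_mul, integral_sub (hi.const_mul ρ) hi', integral_const_mul]
    rw [h2] at h1
    have h3 := (mul_eq_zero.1 h1).resolve_left I_ne_zero
    rw [sub_eq_zero] at h3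
    rw [← h3, ih]
    ring

/-- the constant `√π` -/
theorem dc_chi_gauss {c : ℝ} (ρ : ℂ) (s : ℝ) :
    ∫ η : ℝ, cexp ((ρ - s) * (c + η * I) + (c + η * I) ^ 2) =
      (Real.sqrt Real.pi : ℂ) * cexp (-(ρ - s) ^ 2 / 4) := by
  have h1 := integral_cexp_quadratic (b := -1) (by norm_num) ((ρ - s) * I + 2 * c * I)
    ((ρ - s) * c + c ^ 2)
  have h2 : (fun η : ℝ => cexp ((ρ - s) * (c + η * I) + (c + η * I) ^ 2)) =
      fun η : ℝ => cexp (-1 * (η : ℂ) ^ 2 + ((ρ - s) * I + 2 * c * I) * η +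
        ((ρ - s) * c + c ^ 2)) := by
    funext η
    congr 1
    linear_combination (η : ℂ) ^ 2 * I_sq
  rw [h2, h1]
  have h3 : ((Real.pi : ℂ) / - -1) ^ (1 / 2 : ℂ) = (Real.sqrt Real.pi : ℂ) := by
    rw [Real.sqrt_eq_rpow, Complex.ofReal_cpow Real.pi_pos.le]
    norm_num
  rw [h3]
  congr 2
  linear_combination (-(ρ - s + 2 * c) ^ 2 * (-1 / 4)) * I_sq

theorem dc_chi_zero {c : ℝ} (hc : 0 < c) (ρ : ℂ) :
    ∫ η : ℝ, cexp (ρ * (c + η * I)) * Kn 0 (c + η * I) =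
      (Real.sqrt Real.pi : ℂ) * ∫ s in Set.Ioi (0 : ℝ), cexp (-(ρ - s) ^ 2 / 4) := by
  have hK : ∀ z : ℂ, Kn 0 z = cexp (z ^ 2) / z := by
    intro z
    unfold Kn
    simp
  have h1 : ∀ η : ℝ, cexp (ρ * (c + η * I)) * Kn 0 (c + η * I) =
      ∫ s in Set.Ioi (0 : ℝ), cexp ((ρ - s) * (c + η * I) + (c + η * I) ^ 2) := by
    intro η
    have h2 : (-((c : ℂ) + η * I)).re < 0 := by simp [hc]
    have h3 := integral_exp_mul_complex_Ioi h2 0
    have h4 : (fun s : ℝ => cexp ((ρ - s) * (c + η * I) + (c + η * I) ^ 2)) =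
        fun s : ℝ => cexp (ρ * (c + η * I)) * cexp ((c + η * I) ^ 2) *
          cexp (-((c : ℂ) + η * I) * s) := by
      funext s
      rw [← Complex.exp_add, ← Complex.exp_add]
      congr 1
      ring
    rw [h4, integral_const_mul, h3, hK]
    have h5 := dc_chi_ne hc η
    simp only [Complex.ofReal_zero, mul_zero, Complex.exp_zero]
    field_simp
  simp_rw [h1]
  rw [integral_integral_swap]
  · rw [← integral_const_mul]
    refine integral_congr_ae (Eventually.of_forall fun s => ?_)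
    exact dc_chi_gauss ρ s
  · have hcont : Continuous (fun p : ℝ × ℝ =>
        cexp ((ρ - p.2) * (c + p.1 * I) + (c + p.1 * I) ^ 2)) := by fun_prop
    have h2 : Integrable (fun η : ℝ => Real.exp (-1 * η ^ 2 + -ρ.im * η + 0)) := by
      have h2 := (integrable_cexp_quadratic' (b := -1) (by norm_num) (-(ρ.im : ℂ)) 0).norm
      refine h2.congr (Eventually.of_forall fun η => ?_)
      simp only [Complex.norm_exp]
      congr 1
      have h3 : (-1 * (η : ℂ) ^ 2 + -(ρ.im : ℂ) * η + 0) =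
          ((-1 * η ^ 2 + -ρ.im * η + 0 : ℝ) : ℂ) := by push_cast; ring
      rw [h3, Complex.ofReal_re]
    have h3 : IntegrableOn (fun s : ℝ => Real.exp (-c * s)) (Set.Ioi 0) :=
      integrableOn_exp_mul_Ioi (by linarith) 0
    have h4 := (h2.mul_prod h3).const_mul (Real.exp (ρ.re * c + c ^ 2))
    refine h4.mono' hcont.aestronglyMeasurable (Eventually.of_forall fun p => ?_)
    rw [Function.uncurry, Complex.norm_exp]
    have h5 : ((ρ - (p.2 : ℂ)) * ((c : ℂ) + p.1 * I) + ((c : ℂ) + p.1 * I) ^ 2).re =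
        (ρ.re * c + c ^ 2) + ((-1 * p.1 ^ 2 + -ρ.im * p.1 + 0) + -c * p.2) := by
      simp [Complex.mul_re, Complex.add_re, pow_two]
      ring
    rw [h5, Real.exp_add (ρ.re * c + c ^ 2), Real.exp_add (-1 * p.1 ^ 2 + -ρ.im * p.1 + 0)]

theorem dc_chi_all (ρ : ℂ) : Integrable (fun s : ℝ => cexp (-(ρ - s) ^ 2 / 4)) ∧
    ∫ s : ℝ, cexp (-(ρ - s) ^ 2 / 4) = 2 * (Real.sqrt Real.pi : ℂ) := by
  have h0 : (fun s : ℝ => cexp (-(ρ - s) ^ 2 / 4)) =
      fun s : ℝ => cexp (-(1 / 4) * (s : ℂ) ^ 2 + (ρ / 2) * s + (-ρ ^ 2 / 4)) := by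
    funext s
    congr 1
    ring
  rw [h0]
  refine ⟨integrable_cexp_quadratic' (by norm_num) _ _, ?_⟩
  rw [integral_cexp_quadratic (by norm_num)]
  have h3 : ((Real.pi : ℂ) / - -(1 / 4)) ^ (1 / 2 : ℂ) = 2 * (Real.sqrt Real.pi : ℂ) := by
    have h4 : ((Real.pi : ℂ) / - -(1 / 4)) = ((4 * Real.pi : ℝ) : ℂ) := by
      push_cast
      ring
    have h5 : (4 * Real.pi : ℝ) ^ (1 / 2 : ℝ) = 2 * Real.sqrt Real.pi := by
      rw [← Real.sqrt_eq_rpow, Real.sqrt_mul (by norm_num)]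
      congr 1
      rw [show (4 : ℝ) = 2 ^ 2 by norm_num, Real.sqrt_sq (by norm_num)]
    have h6 : (1 / 2 : ℂ) = ((1 / 2 : ℝ) : ℂ) := by push_cast; ring
    rw [h4, h6, ← Complex.ofReal_cpow (by positivity), h5]
    push_cast
    ring
  rw [h3]
  have h7 : -ρ ^ 2 / 4 - (ρ / 2) ^ 2 / (4 * -(1 / 4)) = 0 := by ring
  rw [h7, Complex.exp_zero, mul_one]

theorem p_chi (h : S_Kn) : S_chi := by
  intro ε hε
  refine ⟨max 1 (2 * Real.sqrt (max 0 (1 - Real.log ε))), le_max_left _ _, ?_⟩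
  intro n c ρ hc hl hρ
  refine ⟨dc_chi_int h n hc ρ, ?_⟩
  rw [dc_chi_rec h n hc ρ, dc_chi_zero hc ρ]
  obtain ⟨hi, hv⟩ := dc_chi_all ρ
  have hsplit := intervalIntegral.integral_Iic_add_Ioi (b := (0 : ℝ)) hi.integrableOn hi.integrableOn
  have hpi : (Real.sqrt Real.pi : ℂ) * (Real.sqrt Real.pi : ℂ) = Real.pi := by
    rw [← Complex.ofReal_mul, Real.mul_self_sqrt Real.pi_pos.le]
  have hpi0 : (Real.pi : ℂ) ≠ 0 := Complex.ofReal_ne_zero.2 Real.pi_ne_zero
  rw [hv] at hsplit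
  set J := ∫ s in Set.Iic (0 : ℝ), cexp (-(ρ - s) ^ 2 / 4) with hJ
  have h1 : ∫ s in Set.Ioi (0 : ℝ), cexp (-(ρ - s) ^ 2 / 4) =
      2 * (Real.sqrt Real.pi : ℂ) - J := by
    rw [← hsplit]
    ring
  rw [h1]
  have h2 : 1 / (2 * (Real.pi : ℂ)) * (ρ ^ n * ((Real.sqrt Real.pi : ℂ) *
      (2 * (Real.sqrt Real.pi : ℂ) - J))) - ρ ^ n =
      -(1 / (2 * (Real.pi : ℂ)) * ((Real.sqrt Real.pi : ℂ) * J)) * ρ ^ n := by
    have h3 : (Real.sqrt Real.pi : ℂ) * (2 * (Real.sqrt Real.pi : ℂ) - J) =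
        2 * Real.pi - (Real.sqrt Real.pi : ℂ) * J := by
      rw [mul_sub]
      linear_combination 2 * hpi
    rw [h3]
    field_simp
    ring
  rw [h2, norm_mul]
  refine mul_le_mul_of_nonneg_right ?_ (norm_nonneg _)
  -- the bound for `J`
  have hl0 : 0 ≤ ρ.re := le_trans (le_trans zero_le_one (le_max_left _ _)) hl
  have hJb : ‖J‖ ≤ Real.exp (1 - ρ.re ^ 2 / 4) * (2 * Real.sqrt Real.pi) := by
    have h4 : Integrable (fun s : ℝ => Real.exp (-(1 / 4) * s ^ 2)) :=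
      integrable_exp_neg_mul_sq (by norm_num)
    have h5 : ∫ s : ℝ, Real.exp (-(1 / 4) * s ^ 2) = 2 * Real.sqrt Real.pi := by
      rw [integral_gaussian]
      rw [show Real.pi / (1 / 4) = 2 ^ 2 * Real.pi by ring, Real.sqrt_mul (by norm_num),
        Real.sqrt_sq (by norm_num)]
    have h6 : ‖J‖ ≤ ∫ s in Set.Iic (0 : ℝ), Real.exp (1 - ρ.re ^ 2 / 4) *
        Real.exp (-(1 / 4) * s ^ 2) := by
      refine norm_integral_le_of_norm_le ((h4.const_mul _).integrableOn) ?_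
      refine (ae_restrict_iff' measurableSet_Iic).2 (Eventually.of_forall fun s hs => ?_)
      rw [Complex.norm_exp, ← Real.exp_add]
      refine Real.exp_le_exp.2 ?_
      have h7 : (-(ρ - (s : ℂ)) ^ 2 / 4).re = (ρ.im ^ 2 - (ρ.re - s) ^ 2) / 4 := by
        have h8 : (-(ρ - (s : ℂ)) ^ 2 / 4) = ((4⁻¹ : ℝ) : ℂ) * (-((ρ - (s : ℂ)) ^ 2)) := by
          push_cast
          ring
        rw [h8, Complex.re_ofReal_mul]
        simp [pow_two, Complex.mul_re]
        ring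
      rw [h7]
      have hs' : s ≤ 0 := hs
      have h9 : ρ.im ^ 2 ≤ 4 := by
        have h10 := sq_abs ρ.im
        have h11 : |ρ.im| ^ 2 ≤ 2 ^ 2 := pow_le_pow_left₀ (abs_nonneg _) hρ 2
        nlinarith
      nlinarith [mul_nonneg hl0 (neg_nonneg.2 hs')]
    refine h6.trans ?_
    rw [integral_const_mul]
    refine mul_le_mul_of_nonneg_left ?_ (Real.exp_pos _).le
    rw [← h5]
    exact setIntegral_le_integral h4 (Eventually.of_forall fun s => (Real.exp_pos _).le)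
  have hsp : (0 : ℝ) < Real.sqrt Real.pi := Real.sqrt_pos.2 Real.pi_pos
  have hspp : Real.sqrt Real.pi * Real.sqrt Real.pi = Real.pi := Real.mul_self_sqrt Real.pi_pos.le
  rw [norm_neg, norm_mul, norm_mul]
  have h12 : ‖(1 / (2 * (Real.pi : ℂ)))‖ = 1 / (2 * Real.pi) := by
    have h13 : (1 / (2 * (Real.pi : ℂ))) = ((1 / (2 * Real.pi) : ℝ) : ℂ) := by push_cast; ring
    rw [h13, Complex.norm_real, Real.norm_of_nonneg (by positivity)]
  have h14 : ‖(Real.sqrt Real.pi : ℂ)‖ = Real.sqrt Real.pi := by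
    rw [Complex.norm_real, Real.norm_of_nonneg hsp.le]
  rw [h12, h14]
  have h15 : 1 / (2 * Real.pi) * (Real.sqrt Real.pi * ‖J‖) ≤ Real.exp (1 - ρ.re ^ 2 / 4) := by
    calc 1 / (2 * Real.pi) * (Real.sqrt Real.pi * ‖J‖)
        ≤ 1 / (2 * Real.pi) * (Real.sqrt Real.pi *
          (Real.exp (1 - ρ.re ^ 2 / 4) * (2 * Real.sqrt Real.pi))) := by gcongr
      _ = Real.exp (1 - ρ.re ^ 2 / 4) * ((Real.sqrt Real.pi * Real.sqrt Real.pi) / Real.pi) := by
          field_simp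
      _ = Real.exp (1 - ρ.re ^ 2 / 4) := by
          rw [hspp, div_self Real.pi_ne_zero, mul_one]
  refine h15.trans ?_
  have h16 : 1 - ρ.re ^ 2 / 4 ≤ Real.log ε := by
    have h17 : 2 * Real.sqrt (max 0 (1 - Real.log ε)) ≤ ρ.re := (le_max_right _ _).trans hl
    have h18 : Real.sqrt (max 0 (1 - Real.log ε)) ≤ ρ.re / 2 := by linarith
    have h19 := (Real.sqrt_le_left (by linarith)).1 h18
    have h20 := (le_max_right 0 (1 - Real.log ε)).trans h19
    nlinarith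
  calc Real.exp (1 - ρ.re ^ 2 / 4) ≤ Real.exp (Real.log ε) := Real.exp_le_exp.2 h16
    _ = ε := Real.exp_log hε

end Pool.Agent.Lib.MP_cd509c_nt.DC
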