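import Pool.Agent.Lib.MP_cd509c_nt.DC.Defs2

/-!
# Decomposition into a right half and a mirrored half
-/

set_option autoImplicit false

namespace Pool.Agent.Lib.MP_cd509c_nt.DC

open Complex ComplexConjugate MeasureTheory Filter Topology
open Pool.Agent.Lib.MP_cd509c_nt.DN
open scoped Nat

/-- growth less than every Gaussian -/
def dc_dec_Gr (f : ℂ → ℂ) : Prop := ∀ ε : ℝ, 0 < ε → ∃ C : ℝ, 0 ≤ C ∧
  ∀ w, ‖f w‖ ≤ C * Real.exp (ε * ‖w‖ ^ 2)

lemma dc_dec_gr_of {f : ℂ → ℂ} {A : ℝ}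
    (h : ∀ w, ‖f w‖ ≤ A * Real.exp (A * ‖w‖ ^ (3 / 2 : ℝ))) : dc_dec_Gr f := by
  have hA : 0 ≤ A := by
    by_contra hA
    have h1 := (norm_nonneg _).trans (h 0)
    have h2 : A * Real.exp (A * ‖(0 : ℂ)‖ ^ (3 / 2 : ℝ)) < 0 :=
      mul_neg_of_neg_of_pos (not_le.1 hA) (Real.exp_pos _)
    linarith
  intro ε hε
  refine ⟨A * Real.exp (A * (A / ε) ^ 3), by positivity, fun w => (h w).trans ?_⟩
  rw [mul_assoc, ← Real.exp_add]
  apply mul_le_mul_of_nonneg_left _ hA
  rw [Real.exp_le_exp]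
  set s := Real.sqrt ‖w‖ with hs
  have hs0 : 0 ≤ s := Real.sqrt_nonneg _
  have e1 : ‖w‖ = s ^ 2 := (Real.sq_sqrt (norm_nonneg w)).symm
  have e2 : ‖w‖ ^ (3 / 2 : ℝ) = s ^ 3 := by
    rw [hs, Real.sqrt_eq_rpow, ← Real.rpow_natCast, ← Real.rpow_mul (norm_nonneg w)]
    norm_num
  rw [e2, e1]
  rcases le_total (A / ε) s with h1 | h1
  · have h2 : A ≤ ε * s := by rw [div_le_iff₀ hε] at h1; linarith
    have h3 : A * s ^ 3 ≤ ε * s * s ^ 3 := mul_le_mul_of_nonneg_right h2 (by positivity)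
    have h4 : 0 ≤ A * (A / ε) ^ 3 := by positivity
    nlinarith
  · have h3 : A * s ^ 3 ≤ A * (A / ε) ^ 3 :=
      mul_le_mul_of_nonneg_left (pow_le_pow_left₀ hs0 h1 3) hA
    have h4 : 0 ≤ ε * (s ^ 2) ^ 2 := by positivity
    linarith

lemma dc_dec_gr_deriv {f : ℂ → ℂ} (hd : Differentiable ℂ f) (h : dc_dec_Gr f) :
    dc_dec_Gr (deriv f) := by
  intro ε hε
  obtain ⟨C, hC, hf⟩ := h (ε / 2) (by positivity)
  refine ⟨C * Real.exp ε, by positivity, fun w => ?_⟩
  have h1 := norm_deriv_le_of_forall_mem_sphere_norm_le (c := w) (R := 1)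
    (C := C * Real.exp ε * Real.exp (ε * ‖w‖ ^ 2)) one_pos hd.diffContOnCl ?_
  · simpa using h1
  · intro z hz
    refine (hf z).trans ?_
    rw [mul_assoc, ← Real.exp_add]
    apply mul_le_mul_of_nonneg_left _ hC
    rw [Real.exp_le_exp]
    have h2 : ‖z‖ ≤ ‖w‖ + 1 := by
      have h3 : ‖z - w‖ = 1 := by simpa [dist_eq_norm] using hz
      calc ‖z‖ = ‖w + (z - w)‖ := by congr 1; ring
        _ ≤ ‖w‖ + ‖z - w‖ := norm_add_le _ _
        _ = _ := by rw [h3]
    have h3 : ‖z‖ ^ 2 ≤ (‖w‖ + 1) ^ 2 := pow_le_pow_left₀ (norm_nonneg _) h2 2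
    nlinarith [sq_nonneg (‖w‖ - 1), norm_nonneg w]

lemma dc_dec_gr_iter {f : ℂ → ℂ} (hd : Differentiable ℂ f) (h : dc_dec_Gr f) (n : ℕ) :
    Differentiable ℂ (iteratedDeriv n f) ∧ dc_dec_Gr (iteratedDeriv n f) := by
  induction n with
  | zero => rw [iteratedDeriv_zero]; exact ⟨hd, h⟩
  | succ n ih =>
    rw [iteratedDeriv_succ]
    exact ⟨ih.1.deriv, dc_dec_gr_deriv ih.1 ih.2⟩

/-- the data of an integral `∫ k(s) f(w + p(s)) ds` -/
structure dc_dec_Ker (k p : ℝ → ℂ) : Prop where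
  ck : Continuous k
  cp : Continuous p
  bp : ∃ a : ℝ, 0 ≤ a ∧ ∀ s, ‖p s‖ ≤ a + |s|
  bk : ∃ M κ : ℝ, 0 ≤ M ∧ 0 < κ ∧ ∀ s, ‖k s‖ ≤ M * Real.exp (-κ * s ^ 2)

/-- the basic estimate -/
lemma dc_dec_bound {k p : ℝ → ℂ} (hK : dc_dec_Ker k p) {f : ℂ → ℂ} (h : dc_dec_Gr f) {ε : ℝ}
    (hε : 0 < ε) : ∃ M κ : ℝ, 0 ≤ M ∧ 0 < κ ∧ ∀ (w : ℂ) (s : ℝ),
      ‖k s * f (w + p s)‖ ≤ M * Real.exp (ε * ‖w‖ ^ 2) * Real.exp (-κ * s ^ 2) := by
  obtain ⟨a, ha, hp⟩ := hK.bp
  obtain ⟨M, κ, hM, hκ, hk⟩ := hK.bk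
  obtain ⟨C, hC, hf⟩ := h (min (ε / 4) (κ / 4)) (by positivity)
  set e := min (ε / 4) (κ / 4) with he
  have he1 : e ≤ ε / 4 := min_le_left _ _
  have he2 : e ≤ κ / 4 := min_le_right _ _
  have he0 : 0 < e := by positivity
  refine ⟨M * (C * Real.exp (4 * e * a ^ 2)), κ / 2, by positivity, by positivity, fun w s => ?_⟩
  rw [norm_mul]
  have h1 : ‖w + p s‖ ^ 2 ≤ 4 * ‖w‖ ^ 2 + 4 * a ^ 2 + 2 * s ^ 2 := by
    have h2 : ‖w + p s‖ ≤ ‖w‖ + (a + |s|) := (norm_add_le _ _).trans (by linarith [hp s])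
    have h3 : ‖w + p s‖ ^ 2 ≤ (‖w‖ + (a + |s|)) ^ 2 := pow_le_pow_left₀ (norm_nonneg _) h2 2
    have h4 : |s| ^ 2 = s ^ 2 := sq_abs s
    nlinarith [sq_nonneg (‖w‖ + a - |s|), sq_nonneg (‖w‖ - a)]
  calc ‖k s‖ * ‖f (w + p s)‖
      ≤ (M * Real.exp (-κ * s ^ 2)) * (C * Real.exp (e * ‖w + p s‖ ^ 2)) :=
        mul_le_mul (hk s) (hf _) (norm_nonneg _) (by positivity)
    _ ≤ (M * Real.exp (-κ * s ^ 2)) *
          (C * Real.exp (4 * e * a ^ 2 + ε * ‖w‖ ^ 2 + κ / 2 * s ^ 2)) := by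
        apply mul_le_mul_of_nonneg_left _ (by positivity)
        apply mul_le_mul_of_nonneg_left _ hC
        rw [Real.exp_le_exp]
        have h5 : e * ‖w + p s‖ ^ 2 ≤ e * (4 * ‖w‖ ^ 2 + 4 * a ^ 2 + 2 * s ^ 2) :=
          mul_le_mul_of_nonneg_left h1 he0.le
        nlinarith [sq_nonneg ‖w‖, sq_nonneg s, mul_le_mul_of_nonneg_right he1 (sq_nonneg ‖w‖),
          mul_le_mul_of_nonneg_right he2 (sq_nonneg s)]
    _ = _ := by
        rw [Real.exp_add, Real.exp_add]
        have h6 : Real.exp (-(κ / 2) * s ^ 2) = Real.exp (-κ * s ^ 2) * Real.exp (κ / 2 * s ^ 2) := by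
          rw [← Real.exp_add]
          congr 1
          ring
        rw [h6]
        ring

lemma dc_dec_cont {k p : ℝ → ℂ} (hK : dc_dec_Ker k p) {f : ℂ → ℂ} (hf : Continuous f) (w : ℂ) :
    Continuous fun s => k s * f (w + p s) :=
  hK.ck.mul (hf.comp (continuous_const.add hK.cp))

lemma dc_dec_int {k p : ℝ → ℂ} (hK : dc_dec_Ker k p) {f : ℂ → ℂ} (hf : Continuous f)
    (h : dc_dec_Gr f) (w : ℂ) : Integrable fun s => k s * f (w + p s) := by
  obtain ⟨M, κ, hM, hκ, hb⟩ := dc_dec_bound hK h one_pos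
  refine Integrable.mono' (((integrable_exp_neg_mul_sq hκ).const_mul
    (M * Real.exp (1 * ‖w‖ ^ 2)))) (dc_dec_cont hK hf w).aestronglyMeasurable ?_
  exact Eventually.of_forall fun s => hb w s

lemma dc_dec_gr_int {k p : ℝ → ℂ} (hK : dc_dec_Ker k p) {f : ℂ → ℂ}
    (h : dc_dec_Gr f) : dc_dec_Gr fun w => ∫ s, k s * f (w + p s) := by
  intro ε hε
  obtain ⟨M, κ, hM, hκ, hb⟩ := dc_dec_bound hK h hε
  refine ⟨M * ∫ s : ℝ, Real.exp (-κ * s ^ 2), mul_nonneg hM
    (integral_nonneg fun s => (Real.exp_pos _).le), fun w => ?_⟩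
  refine (norm_integral_le_of_norm_le (((integrable_exp_neg_mul_sq hκ).const_mul
    (M * Real.exp (ε * ‖w‖ ^ 2)))) (Eventually.of_forall fun s => hb w s)).trans (le_of_eq ?_)
  rw [integral_const_mul]
  ring

lemma dc_dec_hasDeriv {k p : ℝ → ℂ} (hK : dc_dec_Ker k p) {f : ℂ → ℂ}
    (hf : Differentiable ℂ f) (h : dc_dec_Gr f) (w : ℂ) :
    HasDerivAt (fun w => ∫ s, k s * f (w + p s)) (∫ s, k s * deriv f (w + p s)) w := by
  obtain ⟨M, κ, hM, hκ, hb⟩ := dc_dec_bound hK (dc_dec_gr_deriv hf h) one_pos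
  refine (hasDerivAt_integral_of_dominated_loc_of_deriv_le (Metric.ball_mem_nhds w one_pos)
    (Eventually.of_forall fun u => (dc_dec_cont hK hf.continuous u).aestronglyMeasurable)
    (dc_dec_int hK hf.continuous h w)
    (F' := fun u s => k s * deriv f (u + p s))
    (dc_dec_cont hK hf.deriv.continuous w).aestronglyMeasurable
    (bound := fun s => M * Real.exp (1 * (‖w‖ + 1) ^ 2) * Real.exp (-κ * s ^ 2)) ?_
    ((integrable_exp_neg_mul_sq hκ).const_mul _) ?_).2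
  · refine Eventually.of_forall fun s u hu => (hb u s).trans ?_
    apply mul_le_mul_of_nonneg_right _ (Real.exp_pos _).le
    apply mul_le_mul_of_nonneg_left _ hM
    rw [Real.exp_le_exp]
    have h1 : ‖u‖ ≤ ‖w‖ + 1 := by
      have h2 : ‖u - w‖ < 1 := by simpa [dist_eq_norm] using hu
      calc ‖u‖ = ‖w + (u - w)‖ := by congr 1; ring
        _ ≤ ‖w‖ + ‖u - w‖ := norm_add_le _ _
        _ ≤ _ := by linarith
    have := pow_le_pow_left₀ (norm_nonneg u) h1 2
    linarith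
  · refine Eventually.of_forall fun s u _ => ?_
    have h1 : HasDerivAt (fun u => f (u + p s)) (deriv f (u + p s)) u :=
      HasDerivAt.comp_add_const u (p s) (hf (u + p s)).hasDerivAt
    exact h1.const_mul (k s)

lemma dc_dec_diff {k p : ℝ → ℂ} (hK : dc_dec_Ker k p) {f : ℂ → ℂ}
    (hf : Differentiable ℂ f) (h : dc_dec_Gr f) :
    Differentiable ℂ (fun w => ∫ s, k s * f (w + p s)) :=
  fun w => (dc_dec_hasDeriv hK hf h w).differentiableAt

lemma dc_dec_iter {k p : ℝ → ℂ} (hK : dc_dec_Ker k p) {f : ℂ → ℂ}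
    (hf : Differentiable ℂ f) (h : dc_dec_Gr f) (n : ℕ) :
    iteratedDeriv n (fun w => ∫ s, k s * f (w + p s)) =
      fun w => ∫ s, k s * iteratedDeriv n f (w + p s) := by
  induction n with
  | zero => simp only [iteratedDeriv_zero]
  | succ n ih =>
    rw [iteratedDeriv_succ, ih]
    funext w
    obtain ⟨h1, h2⟩ := dc_dec_gr_iter hf h n
    rw [(dc_dec_hasDeriv hK h1 h2 w).deriv]
    simp only [iteratedDeriv_succ]

/-- the Gaussian kernel -/
lemma dc_dec_kerG {t : ℝ} (ht : 0 < t) :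
    dc_dec_Ker (fun v : ℝ => cexp (-(v : ℂ) ^ 2 / (4 * t))) (fun v : ℝ => (v : ℂ)) := by
  refine ⟨by fun_prop, by fun_prop, ⟨0, le_rfl, fun s => by simp⟩, 1, 1 / (4 * t), by norm_num,
    by positivity, fun s => ?_⟩
  rw [norm_exp]
  have : (-(s : ℂ) ^ 2 / (4 * t)).re = -(1 / (4 * t)) * s ^ 2 := by
    have h1 : (-(s : ℂ) ^ 2 / (4 * t)) = ((-(1 / (4 * t)) * s ^ 2 : ℝ) : ℂ) := by
      push_cast
      ring
    rw [h1, ofReal_re]
  rw [this, one_mul]

/-! ## Shift of vertical lines -/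

lemma dc_dec_line {h : ℂ → ℂ} {c M κ : ℝ} (hκ : 0 < κ)
    (hc : Continuous fun η : ℝ => h (c + η * I))
    (hb : ∀ η : ℝ, ‖h (c + η * I)‖ ≤ M * Real.exp (-κ * η ^ 2)) :
    Integrable fun η : ℝ => h (c + η * I) :=
  Integrable.mono' ((integrable_exp_neg_mul_sq hκ).const_mul M) hc.aestronglyMeasurable
    (Eventually.of_forall hb)

lemma dc_dec_shift {h : ℂ → ℂ} {c₁ c₂ M κ : ℝ} (hc : c₁ ≤ c₂) (hκ : 0 < κ)
    (hd : ∀ z : ℂ, c₁ ≤ z.re → z.re ≤ c₂ → DifferentiableAt ℂ h z)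
    (hb : ∀ z : ℂ, c₁ ≤ z.re → z.re ≤ c₂ → ‖h z‖ ≤ M * Real.exp (-κ * z.im ^ 2)) :
    ∫ η : ℝ, h (c₁ + η * I) = ∫ η : ℝ, h (c₂ + η * I) := by
  have hre : ∀ (c η : ℝ), ((c : ℂ) + η * I).re = c := fun c η => by simp
  have him : ∀ (c η : ℝ), ((c : ℂ) + η * I).im = η := fun c η => by simp
  have hcont : ∀ c : ℝ, c₁ ≤ c → c ≤ c₂ → Continuous fun η : ℝ => h (c + η * I) := by
    intro c h1 h2
    rw [continuous_iff_continuousAt]
    intro η
    have h3 := (hd (c + η * I) (by rw [hre]; exact h1) (by rw [hre]; exact h2)).continuousAt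
    exact ContinuousAt.comp (f := fun η : ℝ => ((c : ℂ) + η * I)) h3 (by fun_prop)
  have hint : ∀ c : ℝ, c₁ ≤ c → c ≤ c₂ → Integrable fun η : ℝ => h (c + η * I) := by
    intro c h1 h2
    refine dc_dec_line hκ (hcont c h1 h2) (M := M) fun η => ?_
    have := hb (c + η * I) (by rw [hre]; exact h1) (by rw [hre]; exact h2)
    rwa [him] at this
  have hrect : ∀ R : ℝ, 0 < R →
      (∫ x : ℝ in c₁..c₂, h (x + (-R : ℝ) * I)) - (∫ x : ℝ in c₁..c₂, h (x + R * I)) +
      I • (∫ y : ℝ in (-R)..R, h (c₂ + y * I)) - I • (∫ y : ℝ in (-R)..R, h (c₁ + y * I)) = 0 := by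
    intro R hR
    have := integral_boundary_rect_eq_zero_of_differentiableOn h ((c₁ : ℂ) + (-R : ℝ) * I)
      ((c₂ : ℂ) + R * I) ?_
    · simp only [hre, him] at this
      exact this
    · intro z hz
      rw [mem_reProdIm] at hz
      simp only [hre, him] at hz
      rw [Set.uIcc_of_le hc] at hz
      exact (hd z hz.1.1 hz.1.2).differentiableWithinAt
  have hhor : ∀ R : ℝ, ‖∫ x : ℝ in c₁..c₂, h (x + R * I)‖ ≤
      M * Real.exp (-κ * R ^ 2) * |c₂ - c₁| := by
    intro R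
    refine intervalIntegral.norm_integral_le_of_norm_le_const fun x hx => ?_
    rw [Set.uIoc_of_le hc] at hx
    have := hb (x + R * I) (by rw [hre]; exact hx.1.le) (by rw [hre]; exact hx.2)
    rwa [him] at this
  have hlim0 : Tendsto (fun R : ℝ => M * Real.exp (-κ * R ^ 2) * |c₂ - c₁|) atTop (𝓝 0) := by
    have h1 : Tendsto (fun R : ℝ => κ * R ^ 2) atTop atTop :=
      (tendsto_pow_atTop (by norm_num)).const_mul_atTop hκ
    have h2 : Tendsto (fun R : ℝ => Real.exp (-(κ * R ^ 2))) atTop (𝓝 0) :=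
      Real.tendsto_exp_neg_atTop_nhds_zero.comp h1
    have h3 := (h2.const_mul M).mul_const |c₂ - c₁|
    simp only [mul_zero, zero_mul] at h3
    refine h3.congr fun R => ?_
    rw [neg_mul]
  have hA : Tendsto (fun R : ℝ => ∫ x : ℝ in c₁..c₂, h (x + R * I)) atTop (𝓝 0) :=
    squeeze_zero_norm hhor hlim0
  have hB : Tendsto (fun R : ℝ => ∫ x : ℝ in c₁..c₂, h (x + (-R : ℝ) * I)) atTop (𝓝 0) := by
    refine squeeze_zero_norm (fun R => hhor (-R)) ?_
    simpa using hlim0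
  have hV : ∀ c : ℝ, c₁ ≤ c → c ≤ c₂ →
      Tendsto (fun R : ℝ => ∫ y : ℝ in (-R)..R, h (c + y * I)) atTop
        (𝓝 (∫ η : ℝ, h (c + η * I))) := fun c h1 h2 =>
    intervalIntegral_tendsto_integral (hint c h1 h2) tendsto_neg_atTop_atBot tendsto_id
  have hlim := ((hB.sub hA).add ((hV c₂ hc le_rfl).const_smul I)).sub
    ((hV c₁ le_rfl hc).const_smul I)
  have h0 : Tendsto (fun R : ℝ => (∫ x : ℝ in c₁..c₂, h (x + (-R : ℝ) * I)) -
      (∫ x : ℝ in c₁..c₂, h (x + R * I)) +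
      I • (∫ y : ℝ in (-R)..R, h (c₂ + y * I)) - I • (∫ y : ℝ in (-R)..R, h (c₁ + y * I)))
      atTop (𝓝 0) := by
    refine tendsto_const_nhds.congr' ?_
    filter_upwards [eventually_gt_atTop 0] with R hR
    exact (hrect R hR).symm
  have h1 := tendsto_nhds_unique hlim h0
  rw [sub_zero, zero_add, sub_eq_zero] at h1
  exact (smul_right_injective ℂ I_ne_zero h1).symm

/-! ## The kernel -/

/-- `exp (ζ²) / ζ` -/
noncomputable def dc_dec_K (ζ : ℂ) : ℂ := cexp (ζ ^ 2) / ζ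

lemma dc_dec_K_norm (ζ : ℂ) : ‖dc_dec_K ζ‖ = Real.exp (ζ.re ^ 2 - ζ.im ^ 2) / ‖ζ‖ := by
  rw [dc_dec_K, norm_div, norm_exp]
  congr 2
  rw [sq, mul_re]
  ring

lemma dc_dec_Kn0 : Kn 0 = dc_dec_K := by
  funext ζ
  simp [Kn, dc_dec_K]

lemma dc_dec_Kan : AnalyticOnNhd ℂ dc_dec_K {z | z ≠ 0} := by
  intro z hz
  exact (by fun_prop : AnalyticAt ℂ (fun z : ℂ => cexp (z ^ 2)) z).div analyticAt_id hz

lemma dc_dec_Kn_deriv (n : ℕ) {z : ℂ} (hz : z ≠ 0) :
    HasDerivAt (Kn n) (-Kn (n + 1) z) z := by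
  have h1 : AnalyticAt ℂ (iteratedDeriv n (fun z : ℂ => cexp (z ^ 2) / z)) z := by
    rw [iteratedDeriv_eq_iterate]
    exact (dc_dec_Kan.iterated_deriv n) z hz
  have h2 := h1.differentiableAt.hasDerivAt.const_mul ((-1 : ℂ) ^ n)
  have h3 : (-1 : ℂ) ^ n * deriv (iteratedDeriv n (fun z : ℂ => cexp (z ^ 2) / z)) z =
      -Kn (n + 1) z := by
    rw [Kn, iteratedDeriv_succ]
    ring
  rw [h3] at h2
  exact h2

lemma dc_dec_ne {c : ℝ} (hc : c ≠ 0) (η : ℝ) : (c : ℂ) + η * I ≠ 0 := by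
  intro h
  have := congrArg Complex.re h
  simp at this
  exact hc this

lemma dc_dec_kerK (hK : S_Kn) (n : ℕ) {c : ℝ} (hc : 0 < c) :
    dc_dec_Ker (fun η : ℝ => Kn n (c + η * I)) (fun η : ℝ => (c : ℂ) + η * I) := by
  refine ⟨?_, by fun_prop, ⟨c, hc.le, fun s => ?_⟩, n ! * (2 / c) ^ (n + 1) * Real.exp (4 * c ^ 2),
    1 / 4, by positivity, by norm_num, fun s => ?_⟩
  · rw [continuous_iff_continuousAt]
    intro η
    have h3 := (dc_dec_Kn_deriv n (dc_dec_ne hc.ne' η)).continuousAt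
    exact ContinuousAt.comp (f := fun η : ℝ => ((c : ℂ) + η * I)) h3 (by fun_prop)
  · refine (norm_add_le _ _).trans (le_of_eq ?_)
    rw [norm_real, norm_mul, norm_I, mul_one, norm_real, Real.norm_eq_abs, Real.norm_eq_abs,
      abs_of_pos hc]
  · refine (hK.1 n c s hc).trans (le_of_eq ?_)
    rw [mul_assoc (_ * _) (Real.exp _), ← Real.exp_add]
    congr 2
    ring

/-- integration by parts -/
lemma dc_dec_parts (hK : S_Kn) (n : ℕ) {c : ℝ} (hc : 0 < c) {f : ℂ → ℂ}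
    (hf : Differentiable ℂ f) (h : dc_dec_Gr f) (w : ℂ) :
    LI (n + 1) f c w = LI n (deriv f) c w := by
  have i1 := dc_dec_int (dc_dec_kerK hK (n + 1) hc) hf.continuous h w
  have i2 := dc_dec_int (dc_dec_kerK hK n hc) hf.deriv.continuous (dc_dec_gr_deriv hf h) w
  have i3 := dc_dec_int (dc_dec_kerK hK n hc) hf.continuous h w
  have hder : ∀ η : ℝ, HasDerivAt (fun η : ℝ => Kn n (c + η * I) * f (w + (c + η * I)))
      (I * (Kn n (c + η * I) * deriv f (w + (c + η * I)) -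
        Kn (n + 1) (c + η * I) * f (w + (c + η * I)))) η := by
    intro η
    have e1 : HasDerivAt (fun η : ℝ => (c : ℂ) + η * I) I η := by
      simpa using ((hasDerivAt_id η).ofReal_comp.mul_const I).const_add (c : ℂ)
    have e2 := (dc_dec_Kn_deriv n (dc_dec_ne hc.ne' η)).comp η e1
    have e3 := (hf (w + (c + η * I))).hasDerivAt.comp η (e1.const_add w)
    have e4 := e2.mul e3
    refine HasDerivAt.congr_deriv e4 ?_
    simp only [Function.comp_apply]
    ring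
  have h0 := integral_eq_zero_of_hasDerivAt_of_integrable hder ((i2.sub i1).const_mul I) i3
  rw [integral_const_mul] at h0
  have h1 := (mul_eq_zero.1 h0).resolve_left I_ne_zero
  have h2 : ∫ η : ℝ, Kn n (c + η * I) * deriv f (w + (c + η * I)) =
      ∫ η : ℝ, Kn (n + 1) (c + η * I) * f (w + (c + η * I)) := by
    rw [← sub_eq_zero, ← integral_sub i2 i1]
    exact h1
  rw [LI, LI]
  congr 1
  simp only [mul_comm (f _), mul_comm (deriv f _)]
  exact h2.symm

lemma dc_dec_LI (hK : S_Kn) (n : ℕ) {c : ℝ} (hc : 0 < c) (f : ℂ → ℂ)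
    (hf : Differentiable ℂ f) (h : dc_dec_Gr f) (w : ℂ) :
    LI n f c w = LI 0 (iteratedDeriv n f) c w := by
  induction n generalizing f with
  | zero => rw [iteratedDeriv_zero]
  | succ n ih =>
    rw [dc_dec_parts hK n hc hf h w, ih _ hf.deriv (dc_dec_gr_deriv hf h), iteratedDeriv_succ']

/-! ## The total mass of the kernel -/

lemma dc_dec_inv (ζ : ℂ) (hζ : 0 < ζ.re) :
    ∫ u : ℝ in Set.Ioi 0, cexp (-(u * ζ)) = 1 / ζ := by
  have h := integral_exp_mul_complex_Ioi (a := -ζ) (by simpa using hζ) 0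
  have e : (fun u : ℝ => cexp (-(u * ζ))) = fun u : ℝ => cexp (-ζ * u) := by
    funext u
    congr 1
    ring
  rw [e, h]
  simp

lemma dc_dec_inner (u : ℝ) :
    ∫ η : ℝ, cexp (((1 : ℝ) + η * I) ^ 2 - u * ((1 : ℝ) + η * I)) =
      ((Real.sqrt Real.pi * Real.exp (-(1 / 4) * u ^ 2) : ℝ) : ℂ) := by
  have h := integral_cexp_quadratic (b := -1) (by norm_num) (I * (2 - u)) (1 - u)
  have e : (fun η : ℝ => cexp (((1 : ℝ) + η * I) ^ 2 - u * ((1 : ℝ) + η * I))) =
      fun x : ℝ => cexp (-1 * (x : ℂ) ^ 2 + I * (2 - u) * x + (1 - u)) := by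
    funext η
    congr 1
    push_cast
    linear_combination (η : ℂ) ^ 2 * I_sq
  rw [e, h]
  have e1 : (1 - u : ℂ) - (I * (2 - u)) ^ 2 / (4 * -1) = ((-(1 / 4) * u ^ 2 : ℝ) : ℂ) := by
    push_cast
    linear_combination (2 - (u : ℂ)) ^ 2 / 4 * I_sq
  rw [e1, ← ofReal_exp]
  have e2 : ((Real.pi : ℂ) / - -1) ^ (1 / 2 : ℂ) = ((Real.sqrt Real.pi : ℝ) : ℂ) := by
    rw [neg_neg, div_one, Real.sqrt_eq_rpow, ofReal_cpow Real.pi_pos.le]
    norm_num
  rw [e2, ofReal_mul]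

lemma dc_dec_mass : ∫ η : ℝ, dc_dec_K ((1 : ℝ) + η * I) = Real.pi := by
  have h1 : ∀ η : ℝ, dc_dec_K ((1 : ℝ) + η * I) =
      ∫ u : ℝ in Set.Ioi 0, cexp (((1 : ℝ) + η * I) ^ 2 - u * ((1 : ℝ) + η * I)) := by
    intro η
    have h2 := dc_dec_inv ((1 : ℝ) + η * I) (by simp)
    have e : (fun u : ℝ => cexp (((1 : ℝ) + η * I) ^ 2 - u * ((1 : ℝ) + η * I))) =
        fun u : ℝ => cexp (((1 : ℝ) + η * I) ^ 2) * cexp (-(u * ((1 : ℝ) + η * I))) := by
      funext u
      rw [← Complex.exp_add, sub_eq_add_neg]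
    rw [e, integral_const_mul, h2, dc_dec_K]
    ring
  simp_rw [h1]
  rw [integral_integral_swap]
  · simp_rw [dc_dec_inner]
    rw [integral_complex_ofReal, integral_const_mul, integral_gaussian_Ioi]
    congr 1
    have e1 : Real.pi / (1 / 4) = 2 ^ 2 * Real.pi := by ring
    rw [e1, Real.sqrt_mul (by positivity), Real.sqrt_sq (by norm_num)]
    have e2 := Real.mul_self_sqrt Real.pi_pos.le
    linear_combination e2
  · have i1 : Integrable (fun η : ℝ => Real.exp 1 * Real.exp (-1 * η ^ 2)) :=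
      (integrable_exp_neg_mul_sq one_pos).const_mul _
    have i2 : Integrable (fun u : ℝ => Real.exp (-u)) (volume.restrict (Set.Ioi 0)) := by
      have := integrableOn_exp_neg_Ioi 0
      exact this
    refine Integrable.mono' (i1.mul_prod i2) ?_ ?_
    · apply Continuous.aestronglyMeasurable
      unfold Function.uncurry
      fun_prop
    · refine Eventually.of_forall fun x => ?_
      rw [Function.uncurry, norm_exp]
      have : (((1 : ℝ) + (x.1 : ℂ) * I) ^ 2 - x.2 * ((1 : ℝ) + x.1 * I)).re =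
          1 + -1 * x.1 ^ 2 + -x.2 := by
        simp [sq]
        ring
      rw [this, Real.exp_add, Real.exp_add]

/-- the contour may be moved -/
lemma dc_dec_move {g : ℂ → ℂ} (hg : Differentiable ℂ g) (h : dc_dec_Gr g) (w : ℂ) {c₁ c₂ : ℝ}
    (h1 : 0 < c₁) (h2 : c₁ ≤ c₂) : LI 0 g c₁ w = LI 0 g c₂ w := by
  obtain ⟨C, hC, hb⟩ := h (1 / 4) (by norm_num)
  rw [LI, LI]
  congr 1
  refine dc_dec_shift (h := fun ζ => g (w + ζ) * Kn 0 ζ)
    (M := C * Real.exp (1 / 2 * ‖w‖ ^ 2 + 3 / 2 * c₂ ^ 2) / c₁) (κ := 1 / 2) h2 (by norm_num)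
    ?_ ?_
  · intro z hz _
    have hz0 : z ≠ 0 := by
      rintro rfl
      rw [zero_re] at hz
      linarith
    have e1 : DifferentiableAt ℂ (fun ζ => g (w + ζ)) z :=
      (hg (w + z)).comp z (differentiableAt_id.const_add w)
    exact e1.mul (dc_dec_Kn_deriv 0 hz0).differentiableAt
  · intro z hz hz'
    rw [dc_dec_Kn0, norm_mul, dc_dec_K_norm]
    have hzn : c₁ ≤ ‖z‖ := hz.trans ((le_abs_self _).trans (abs_re_le_norm z))
    have hw : ‖w + z‖ ^ 2 ≤ 2 * ‖w‖ ^ 2 + 2 * (z.re ^ 2 + z.im ^ 2) := by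
      have e1 := pow_le_pow_left₀ (norm_nonneg _) (norm_add_le w z) 2
      have e2 : ‖z‖ ^ 2 = z.re ^ 2 + z.im ^ 2 := by
        rw [← normSq_eq_norm_sq, normSq_apply]
        ring
      rw [← e2]
      nlinarith [sq_nonneg (‖w‖ - ‖z‖)]
    have hre : z.re ^ 2 ≤ c₂ ^ 2 := pow_le_pow_left₀ (by linarith) hz' 2
    calc ‖g (w + z)‖ * (Real.exp (z.re ^ 2 - z.im ^ 2) / ‖z‖)
        ≤ (C * Real.exp (1 / 4 * ‖w + z‖ ^ 2)) * (Real.exp (z.re ^ 2 - z.im ^ 2) / c₁) := by
          apply mul_le_mul (hb _) _ (by positivity) (by positivity)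
          exact div_le_div_of_nonneg_left (Real.exp_pos _).le h1 hzn
      _ = C * Real.exp (1 / 4 * ‖w + z‖ ^ 2 + (z.re ^ 2 - z.im ^ 2)) / c₁ := by
          rw [Real.exp_add]
          ring
      _ ≤ C * Real.exp (1 / 2 * ‖w‖ ^ 2 + 3 / 2 * c₂ ^ 2 + -(1 / 2) * z.im ^ 2) / c₁ := by
          apply div_le_div_of_nonneg_right _ h1.le
          apply mul_le_mul_of_nonneg_left _ hC
          rw [Real.exp_le_exp]
          linarith
      _ = _ := by
          rw [Real.exp_add]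
          ring

/-- the two halves -/
lemma dc_dec_halves {g : ℂ → ℂ} (hg : Differentiable ℂ g) (h : dc_dec_Gr g) (w : ℂ) :
    g w = 1 / (2 * Real.pi) * (∫ η : ℝ, g (w + ((1 : ℝ) + η * I)) * dc_dec_K ((1 : ℝ) + η * I)) -
      1 / (2 * Real.pi) *
        (∫ η : ℝ, g (w + ((-1 : ℝ) + η * I)) * dc_dec_K ((-1 : ℝ) + η * I)) := by
  set G : ℂ → ℂ := fun ζ => g (w + ζ) with hG
  have hGd : Differentiable ℂ G := hg.comp (differentiable_id.const_add w)
  have hD : Differentiable ℂ (dslope G 0) := by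
    have := (differentiableOn_dslope (f := G) (s := Set.univ) (c := 0) univ_mem).2
      hGd.differentiableOn
    exact differentiableOn_univ.1 this
  obtain ⟨C, hC, hb⟩ := h (1 / 4) (by norm_num)
  obtain ⟨C₀, hC₀⟩ := (isCompact_closedBall (0 : ℂ) 1).exists_bound_of_continuousOn
    hD.continuous.continuousOn
  have hC₀' : 0 ≤ C₀ := (norm_nonneg _).trans (hC₀ 0 (by simp))
  -- bound of the entire function
  set M : ℝ := C₀ * Real.exp 2 + 2 * C * Real.exp (1 / 2 * ‖w‖ ^ 2 + 3 / 2) with hM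
  have hbound : ∀ z : ℂ, -1 ≤ z.re → z.re ≤ 1 →
      ‖dslope G 0 z * cexp (z ^ 2)‖ ≤ M * Real.exp (-(1 / 2) * z.im ^ 2) := by
    intro z h1 h2
    have hre : z.re ^ 2 ≤ 1 := by nlinarith
    have e2 : ‖z‖ ^ 2 = z.re ^ 2 + z.im ^ 2 := by
      rw [← normSq_eq_norm_sq, normSq_apply]
      ring
    have e3 : (z ^ 2).re = z.re ^ 2 - z.im ^ 2 := by
      rw [sq, mul_re]
      ring
    rw [norm_mul, norm_exp, e3]
    rcases le_total ‖z‖ 1 with hz | hz
    · have e4 := hC₀ z (by simpa using hz)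
      calc ‖dslope G 0 z‖ * Real.exp (z.re ^ 2 - z.im ^ 2)
          ≤ C₀ * Real.exp (2 + -(1 / 2) * z.im ^ 2) := by
            apply mul_le_mul e4 _ (Real.exp_pos _).le hC₀'
            rw [Real.exp_le_exp]
            nlinarith [sq_nonneg z.im]
        _ = C₀ * Real.exp 2 * Real.exp (-(1 / 2) * z.im ^ 2) := by
            rw [Real.exp_add]
            ring
        _ ≤ _ := by
            apply mul_le_mul_of_nonneg_right _ (Real.exp_pos _).le
            rw [hM]
            have : 0 ≤ 2 * C * Real.exp (1 / 2 * ‖w‖ ^ 2 + 3 / 2) := by positivity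
            linarith
    · have hz0 : z ≠ 0 := by
        rintro rfl
        rw [norm_zero] at hz
        linarith
      have e5 : ‖dslope G 0 z‖ ≤ ‖g (w + z)‖ + ‖g w‖ := by
        rw [dslope_of_ne _ hz0, slope_def_field, norm_div, sub_zero]
        refine (div_le_self (norm_nonneg _) hz).trans ((norm_sub_le _ _).trans (le_of_eq ?_))
        simp [hG]
      have e6 : ‖w + z‖ ^ 2 ≤ 2 * ‖w‖ ^ 2 + 2 * (z.re ^ 2 + z.im ^ 2) := by
        have e1 := pow_le_pow_left₀ (norm_nonneg _) (norm_add_le w z) 2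
        rw [← e2]
        nlinarith [sq_nonneg (‖w‖ - ‖z‖)]
      have e7 : ‖g (w + z)‖ * Real.exp (z.re ^ 2 - z.im ^ 2) ≤
          C * Real.exp (1 / 2 * ‖w‖ ^ 2 + 3 / 2) * Real.exp (-(1 / 2) * z.im ^ 2) := by
        calc _ ≤ C * Real.exp (1 / 4 * ‖w + z‖ ^ 2) * Real.exp (z.re ^ 2 - z.im ^ 2) :=
              mul_le_mul_of_nonneg_right (hb _) (Real.exp_pos _).le
          _ = C * Real.exp (1 / 4 * ‖w + z‖ ^ 2 + (z.re ^ 2 - z.im ^ 2)) := by
              rw [Real.exp_add]; ring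
          _ ≤ C * Real.exp (1 / 2 * ‖w‖ ^ 2 + 3 / 2 + -(1 / 2) * z.im ^ 2) := by
              apply mul_le_mul_of_nonneg_left _ hC
              rw [Real.exp_le_exp]
              linarith
          _ = _ := by rw [Real.exp_add]; ring
      have e8 : ‖g w‖ * Real.exp (z.re ^ 2 - z.im ^ 2) ≤
          C * Real.exp (1 / 2 * ‖w‖ ^ 2 + 3 / 2) * Real.exp (-(1 / 2) * z.im ^ 2) := by
        calc _ ≤ C * Real.exp (1 / 4 * ‖w‖ ^ 2) * Real.exp (z.re ^ 2 - z.im ^ 2) :=
              mul_le_mul_of_nonneg_right (hb _) (Real.exp_pos _).le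
          _ = C * Real.exp (1 / 4 * ‖w‖ ^ 2 + (z.re ^ 2 - z.im ^ 2)) := by
              rw [Real.exp_add]; ring
          _ ≤ C * Real.exp (1 / 2 * ‖w‖ ^ 2 + 3 / 2 + -(1 / 2) * z.im ^ 2) := by
              apply mul_le_mul_of_nonneg_left _ hC
              rw [Real.exp_le_exp]
              nlinarith [sq_nonneg ‖w‖, sq_nonneg z.im]
          _ = _ := by rw [Real.exp_add]; ring
      calc ‖dslope G 0 z‖ * Real.exp (z.re ^ 2 - z.im ^ 2)
          ≤ (‖g (w + z)‖ + ‖g w‖) * Real.exp (z.re ^ 2 - z.im ^ 2) :=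
            mul_le_mul_of_nonneg_right e5 (Real.exp_pos _).le
        _ ≤ 2 * C * Real.exp (1 / 2 * ‖w‖ ^ 2 + 3 / 2) * Real.exp (-(1 / 2) * z.im ^ 2) := by
            rw [add_mul]
            linarith
        _ ≤ _ := by
            apply mul_le_mul_of_nonneg_right _ (Real.exp_pos _).le
            rw [hM]
            have : 0 ≤ C₀ * Real.exp 2 := by positivity
            linarith
  have hshift := dc_dec_shift (h := fun z => dslope G 0 z * cexp (z ^ 2)) (c₁ := -1) (c₂ := 1)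
    (by norm_num) (by norm_num : (0 : ℝ) < 1 / 2)
    (fun z _ _ => (hD z).mul (by fun_prop)) hbound
  -- the integrals in terms of `G` and the kernel
  have hsplit : ∀ c : ℝ, c ≠ 0 → ∀ η : ℝ, dslope G 0 (c + η * I) * cexp ((c + η * I) ^ 2) =
      g (w + (c + η * I)) * dc_dec_K (c + η * I) - g w * dc_dec_K (c + η * I) := by
    intro c hc η
    have hz0 := dc_dec_ne hc η
    rw [dslope_of_ne _ hz0, slope_def_field, dc_dec_K, sub_zero]
    simp only [hG, add_zero]
    field_simp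
  have hKint : ∀ c : ℝ, c ≠ 0 → c ^ 2 = 1 → Integrable fun η : ℝ => dc_dec_K (c + η * I) := by
    intro c hc hc2
    refine dc_dec_line (c := c) (M := Real.exp 1) (κ := 1) one_pos ?_ fun η => ?_
    · rw [continuous_iff_continuousAt]
      intro η
      have h3 := (dc_dec_Kan _ (dc_dec_ne hc η)).continuousAt
      exact ContinuousAt.comp (f := fun η : ℝ => ((c : ℂ) + η * I)) h3 (by fun_prop)
    · rw [dc_dec_K_norm, ← Real.exp_add]
      have e1 : ((c : ℂ) + η * I).re = c := by simp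
      have e2 : ((c : ℂ) + η * I).im = η := by simp
      have e3 : 1 ≤ ‖(c : ℂ) + η * I‖ := by
        have := abs_re_le_norm ((c : ℂ) + η * I)
        rw [e1] at this
        have h4 : |c| = 1 := by
          have := sq_abs c
          rw [hc2] at this
          nlinarith [abs_nonneg c]
        linarith
      rw [e1, e2, hc2]
      refine (div_le_self (Real.exp_pos _).le e3).trans (le_of_eq ?_)
      congr 1
      ring
  have hgK : ∀ c : ℝ, c ≠ 0 → c ^ 2 = 1 →
      Integrable fun η : ℝ => g (w + (c + η * I)) * dc_dec_K (c + η * I) := by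
    intro c hc hc2
    have i1 : Integrable fun η : ℝ => dslope G 0 (c + η * I) * cexp ((c + η * I) ^ 2) := by
      refine dc_dec_line (h := fun z => dslope G 0 z * cexp (z ^ 2)) (c := c) (M := M)
        (κ := 1 / 2) (by norm_num) ?_ fun η => ?_
      · have k1 : Continuous fun z : ℂ => dslope G 0 z * cexp (z ^ 2) :=
          hD.continuous.mul (by fun_prop)
        have k2 : Continuous fun η : ℝ => (c : ℂ) + η * I := by fun_prop
        exact k1.comp k2
      · have e1 : ((c : ℂ) + η * I).re = c := by simp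
        have e2 : ((c : ℂ) + η * I).im = η := by simp
        have h4 : |c| = 1 := by
          have := sq_abs c
          rw [hc2] at this
          nlinarith [abs_nonneg c]
        have h5 := abs_le.1 h4.le
        have := hbound (c + η * I) (by rw [e1]; exact h5.1) (by rw [e1]; exact h5.2)
        rwa [e2] at this
    refine (i1.add ((hKint c hc hc2).const_mul (g w))).congr (Eventually.of_forall fun η => ?_)
    simp only [Pi.add_apply]
    rw [hsplit c hc η]
    ring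
  have hodd : ∫ η : ℝ, dc_dec_K ((-1 : ℝ) + η * I) = -Real.pi := by
    rw [← dc_dec_mass, ← integral_neg, ← integral_neg_eq_self]
    congr 1
    funext η
    rw [dc_dec_K, dc_dec_K]
    have e1 : ((-1 : ℝ) : ℂ) + (-η : ℝ) * I = -(((1 : ℝ) : ℂ) + η * I) := by
      push_cast
      ring
    rw [e1, neg_sq, div_neg]
  have hA : ∀ c : ℝ, c ≠ 0 → c ^ 2 = 1 →
      ∫ η : ℝ, dslope G 0 (c + η * I) * cexp ((c + η * I) ^ 2) =
      (∫ η : ℝ, g (w + (c + η * I)) * dc_dec_K (c + η * I)) -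
        g w * ∫ η : ℝ, dc_dec_K (c + η * I) := by
    intro c hc hc2
    rw [← integral_const_mul, ← integral_sub (hgK c hc hc2) ((hKint c hc hc2).const_mul _)]
    congr 1
    funext η
    exact hsplit c hc η
  rw [hA (-1) (by norm_num) (by norm_num), hA 1 (by norm_num) (by norm_num), hodd,
    dc_dec_mass] at hshift
  have hpi : (Real.pi : ℂ) ≠ 0 := ofReal_ne_zero.2 Real.pi_ne_zero
  generalize (∫ η : ℝ, g (w + ((1 : ℝ) + η * I)) * dc_dec_K ((1 : ℝ) + η * I)) = P at hshift ⊢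
  generalize (∫ η : ℝ, g (w + ((-1 : ℝ) + η * I)) * dc_dec_K ((-1 : ℝ) + η * I)) = Q at hshift ⊢
  have e : P - Q = 2 * Real.pi * g w := by linear_combination -hshift
  rw [← mul_sub, e]
  field_simp

lemma dc_dec_iter_conj (f : ℂ → ℂ) (hf : Differentiable ℂ f) (n : ℕ) :
    iteratedDeriv n (fun z => conj (f (conj z))) = fun z => conj (iteratedDeriv n f (conj z)) := by
  induction n with
  | zero => simp only [iteratedDeriv_zero]
  | succ n ih =>
    rw [iteratedDeriv_succ, ih, iteratedDeriv_succ]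
    funext z
    have h1 : DifferentiableAt ℂ (iteratedDeriv n f) (conj z) :=
      (hf.contDiff.differentiable_iteratedDeriv n (by exact_mod_cast (WithTop.coe_lt_top _))) _
    have h2 := h1.hasDerivAt.conj_conj
    rw [Complex.conj_conj] at h2
    exact h2.deriv

lemma dc_dec_sym {f : ℂ → ℂ} (hf : Differentiable ℂ f) {c₀ : ℂ}
    (hs : ∀ z, f (-conj z) = c₀ * conj (f z)) (n : ℕ) (z : ℂ) :
    iteratedDeriv n f (-conj z) = (c₀ * (-1) ^ n) * conj (iteratedDeriv n f z) := by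
  have e1 : (fun z => f (-z)) = fun z => c₀ * conj (f (conj z)) := by
    funext u
    have := hs (conj u)
    rw [Complex.conj_conj] at this
    exact this
  have e2 : iteratedDeriv n (fun z => f (-z)) (conj z) =
      iteratedDeriv n (fun z => c₀ * conj (f (conj z))) (conj z) := by rw [e1]
  rw [iteratedDeriv_comp_neg, iteratedDeriv_const_mul_field, dc_dec_iter_conj f hf] at e2
  beta_reduce at e2
  rw [Complex.conj_conj, smul_eq_mul] at e2
  have e3 : ((-1 : ℂ) ^ n) * (-1) ^ n = 1 := by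
    rw [← mul_pow]
    norm_num
  calc iteratedDeriv n f (-conj z) = ((-1 : ℂ) ^ n * (-1) ^ n) * iteratedDeriv n f (-conj z) := by
        rw [e3, one_mul]
    _ = (-1) ^ n * ((-1) ^ n * iteratedDeriv n f (-conj z)) := by ring
    _ = _ := by
        rw [e2]
        ring

/-- the mirror image of the right half -/
lemma dc_dec_mirror {g : ℂ → ℂ} {c₁ : ℂ} (hs : ∀ z, g (-conj z) = c₁ * conj (g z)) (w : ℂ) :
    -(1 / (2 * Real.pi) *
        (∫ η : ℝ, g (w + ((-1 : ℝ) + η * I)) * dc_dec_K ((-1 : ℝ) + η * I))) =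
      c₁ * conj (LI 0 g 1 (-conj w)) := by
  rw [LI, dc_dec_Kn0, map_mul, ← integral_conj]
  have e1 : ∀ η : ℝ, g (w + ((-1 : ℝ) + η * I)) * dc_dec_K ((-1 : ℝ) + η * I) =
      -(c₁ * conj (g (-conj w + ((1 : ℝ) + η * I)) * dc_dec_K ((1 : ℝ) + η * I))) := by
    intro η
    have h1 : w + ((-1 : ℝ) + η * I) = -conj (-conj w + ((1 : ℝ) + η * I)) := by
      simp only [map_add, map_neg, map_mul, Complex.conj_conj, conj_ofReal, conj_I]
      push_cast
      ring
    have h2 : dc_dec_K ((-1 : ℝ) + η * I) = -conj (dc_dec_K ((1 : ℝ) + η * I)) := by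
      rw [dc_dec_K, dc_dec_K, map_div₀, ← Complex.exp_conj, map_pow]
      have h3 : ((-1 : ℝ) : ℂ) + η * I = -conj (((1 : ℝ) : ℂ) + η * I) := by
        simp only [map_add, map_mul, conj_ofReal, conj_I]
        push_cast
        ring
      rw [h3, neg_sq, div_neg]
    rw [h1, hs, h2, map_mul]
    ring
  simp_rw [e1]
  rw [integral_neg, integral_const_mul]
  have e2 : conj (1 / (2 * (Real.pi : ℂ))) = 1 / (2 * Real.pi) := by
    rw [map_div₀, map_mul, conj_ofReal, map_one, map_ofNat]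
  rw [e2]
  ring

theorem p_dec (hK : S_Kn) : S_dec := by
  intro f A n t hf hA ht
  have hgr := dc_dec_gr_of hA
  have hk0 := dc_dec_kerK hK 0 one_pos
  have hkG := dc_dec_kerG ht
  obtain ⟨hg, hgg⟩ := dc_dec_gr_iter hf hgr n
  set g := iteratedDeriv n f with hgdef
  -- the right half
  set F : ℂ → ℂ := fun w => LI n f 1 w with hF
  have hFe : F = fun w => 1 / (2 * Real.pi) *
      ∫ η : ℝ, Kn 0 ((1 : ℝ) + η * I) * g (w + ((1 : ℝ) + η * I)) := by
    funext w
    rw [hF]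
    simp only
    rw [dc_dec_LI hK n one_pos f hf hgr w, LI]
    simp only [mul_comm (iteratedDeriv n f _)]
    rfl
  have hFd : Differentiable ℂ F := by
    rw [hFe]
    exact (dc_dec_diff hk0 hg hgg).const_mul _
  have hFg : dc_dec_Gr F := by
    intro ε hε
    obtain ⟨C, hC, hb⟩ := dc_dec_gr_int hk0 hgg ε hε
    refine ⟨‖(1 / (2 * Real.pi) : ℂ)‖ * C, by positivity, fun w => ?_⟩
    rw [hFe]
    simp only
    rw [norm_mul, mul_assoc]
    exact mul_le_mul_of_nonneg_left (hb w) (norm_nonneg _)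
  refine ⟨?_, ?_, ?_, ?_⟩
  · exact (dc_dec_diff hkG hFd hFg).const_mul _
  · intro c w hc
    rw [dc_dec_LI hK n hc f hf hgr w, dc_dec_LI hK n one_pos f hf hgr w]
    rcases le_total c 1 with h | h
    · exact dc_dec_move hg hgg w hc h
    · exact (dc_dec_move hg hgg w one_pos h).symm
  · intro w
    exact dc_dec_int hkG hFd.continuous hFg w
  · rintro ⟨c₀, hc₀, hs⟩
    refine ⟨c₀ * (-1) ^ n, ?_, fun w => ?_⟩
    · rw [norm_mul, norm_pow, norm_neg, norm_one, one_pow, mul_one, hc₀]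
    · have hs' := dc_dec_sym hf hs n
      set c₁ := c₀ * (-1) ^ n with hc₁
      have hdec : ∀ w, g w = F w + c₁ * conj (F (-conj w)) := by
        intro w
        have h1 := dc_dec_halves hg hgg w
        have h2 := dc_dec_mirror hs' w
        have h3 : F w = 1 / (2 * Real.pi) *
            (∫ η : ℝ, g (w + ((1 : ℝ) + η * I)) * dc_dec_K ((1 : ℝ) + η * I)) := by
          rw [hFe, dc_dec_Kn0]
          simp only [mul_comm (dc_dec_K _)]
        have h4 : F (-conj w) = LI 0 g 1 (-conj w) := dc_dec_LI hK n one_pos f hf hgr _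
        rw [h3, h4, ← h2]
        rw [sub_eq_add_neg] at h1
        exact h1
      have hGn : iteratedDeriv n (Gv t f) w =
          (Nt t : ℂ) * ∫ v : ℝ, cexp (-(v : ℂ) ^ 2 / (4 * t)) * g (w + v) := by
        have e1 : Gv t f = fun w => (Nt t : ℂ) *
            (fun w => ∫ v : ℝ, cexp (-(v : ℂ) ^ 2 / (4 * t)) * f (w + v)) w := rfl
        rw [e1, iteratedDeriv_const_mul_field, dc_dec_iter hkG hf hgr n]
      have i1 := dc_dec_int hkG hFd.continuous hFg w
      have i2 := dc_dec_int hkG hFd.continuous hFg (-conj w)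
      have hcj : ∀ v : ℝ, conj (cexp (-(v : ℂ) ^ 2 / (4 * t))) = cexp (-(v : ℂ) ^ 2 / (4 * t)) := by
        intro v
        rw [← Complex.exp_conj]
        congr 1
        simp only [map_div₀, map_neg, map_pow, map_mul, conj_ofReal, map_ofNat]
      have i3 : Integrable fun v : ℝ => conj (cexp (-(v : ℂ) ^ 2 / (4 * t)) * F (-conj w + v)) :=
        conjCLE.toContinuousLinearMap.integrable_comp i2
      have i4 := i3.comp_neg
      have e2 : ∀ v : ℝ, cexp (-(v : ℂ) ^ 2 / (4 * t)) * g (w + v) =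
          cexp (-(v : ℂ) ^ 2 / (4 * t)) * F (w + v) +
            c₁ * conj (cexp (-((-v : ℝ) : ℂ) ^ 2 / (4 * t)) * F (-conj w + (-v : ℝ))) := by
        intro v
        rw [hdec (w + v), map_mul, hcj]
        have e3 : -conj (w + v) = -conj w + (-v : ℝ) := by
          rw [map_add, conj_ofReal]
          push_cast
          ring
        rw [e3]
        have e4 : (((-v : ℝ) : ℂ)) ^ 2 = (v : ℂ) ^ 2 := by
          push_cast
          ring
        rw [e4]
        ring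
      rw [hGn, EE, EE]
      simp_rw [e2]
      rw [integral_add i1 (i4.const_mul c₁), integral_const_mul,
        integral_neg_eq_self (fun v : ℝ =>
          conj (cexp (-(v : ℂ) ^ 2 / (4 * t)) * F (-conj w + v))), integral_conj, map_mul,
        conj_ofReal]
      ring

end Pool.Agent.Lib.MP_cd509c_nt.DC
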