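import Pool.Agent.Lib.MP_cd509c_nt.DC.Defs2
import Pool.Agent.Lib.MP_cd509c_nt.GammaC
import Pool.Agent.Lib.MP_cd509c_nt.HeatMain
import Pool.Agent.Lib.MP_cd509c_nt.ZeroFree
import Pool.Agent.Lib.MP_cd509c_nt.DN.P.gamLo
import Pool.Agent.Lib.MP_cd509c_nt.DN.P.mufSum
import Pool.Agent.Lib.MP_cd509c_nt.DN.P.mufInv

/-!
# `L(s)` and `Lam` to the right of the line `Re s = 13/2`
-/

set_option autoImplicit false

namespace Pool.Agent.Lib.MP_cd509c_nt.DC

open Complex ComplexConjugate MeasureTheory Filter Topology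
open Pool.Agent.Lib.MP_cd509c_nt.DN

lemma dc_f12_diff (x : ℝ) : Differentiable ℂ (fx x) := by
  have h : Differentiable ℂ fun w : ℂ => Lam (s0 x + w) :=
    Lam_differentiable.comp ((differentiable_const _).add differentiable_id)
  exact h.div_const _

lemma dc_f12_sym (x : ℝ) : Sym (fx x) := by
  refine ⟨conj (m0 x) / m0 x, ?_, fun z => ?_⟩
  · rw [norm_div, Complex.norm_conj, div_self (norm_ne_zero_iff.2 (m0_ne x))]
  · have h : Lam (s0 x + -conj z) = conj (Lam (s0 x + z)) := by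
      rw [← Lam_conj, ← Lam_symm']
      congr 1
      apply Complex.ext
      · simp [s0]; ring
      · simp [s0]; ring
    have hm := m0_ne x
    have hm' : conj (m0 x) ≠ 0 := by
      intro h0
      exact hm ((map_eq_zero _).1 h0)
    rw [fx, fx, h, map_div₀]
    field_simp

lemma dc_f12_growth (x : ℝ) : ∃ A : ℝ, ∀ w, ‖fx x w‖ ≤ A * Real.exp (A * ‖w‖ ^ (3 / 2 : ℝ)) := by
  obtain ⟨A, hA⟩ := ff_growth
  set B := |A| with hB
  have hm : 0 < ‖m0 x‖ := norm_pos_iff.2 (m0_ne x)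
  refine ⟨B / ‖m0 x‖ * Real.exp (4 * B * |x| ^ (3 / 2 : ℝ)) + 4 * B, fun w => ?_⟩
  have e1 : Lam (s0 x + w) = ff ((-(I * (I * x + w))) ^ 2) := by
    rw [ff_sq]
    congr 1
    rw [s0]
    linear_combination (I * x + w) * I_sq
  have hB0 : 0 ≤ B := abs_nonneg _
  have h1 : ‖Lam (s0 x + w)‖ ≤ B * Real.exp (B * ‖I * x + w‖ ^ (3 / 2 : ℝ)) := by
    rw [e1]
    refine (hA _).trans ?_
    have e2 : ‖(-(I * (I * x + w))) ^ 2‖ ^ (3 / 4 : ℝ) = ‖I * x + w‖ ^ (3 / 2 : ℝ) := by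
      rw [norm_pow, norm_neg, norm_mul, norm_I, one_mul, ← Real.rpow_natCast,
        ← Real.rpow_mul (norm_nonneg _)]
      norm_num
    rw [e2]
    have h2 : A ≤ B := le_abs_self A
    have h3 : 0 ≤ ‖I * x + w‖ ^ (3 / 2 : ℝ) := by positivity
    calc A * Real.exp (A * ‖I * x + w‖ ^ (3 / 2 : ℝ))
        ≤ B * Real.exp (A * ‖I * x + w‖ ^ (3 / 2 : ℝ)) :=
          mul_le_mul_of_nonneg_right h2 (Real.exp_pos _).le
      _ ≤ _ := mul_le_mul_of_nonneg_left (Real.exp_le_exp.2 (mul_le_mul_of_nonneg_right h2 h3))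
          (abs_nonneg _)
  have h2 : ‖I * x + w‖ ^ (3 / 2 : ℝ) ≤ 4 * |x| ^ (3 / 2 : ℝ) + 4 * ‖w‖ ^ (3 / 2 : ℝ) := by
    have h3 : ‖I * x + w‖ ≤ 2 * max |x| ‖w‖ := by
      refine (norm_add_le _ _).trans ?_
      rw [norm_mul, norm_I, one_mul, norm_real, Real.norm_eq_abs]
      linarith [le_max_left |x| ‖w‖, le_max_right |x| ‖w‖]
    have hmax : 0 ≤ max |x| ‖w‖ := (abs_nonneg x).trans (le_max_left _ _)
    have h4 : ‖I * x + w‖ ^ (3 / 2 : ℝ) ≤ (2 * max |x| ‖w‖) ^ (3 / 2 : ℝ) :=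
      Real.rpow_le_rpow (norm_nonneg _) h3 (by norm_num)
    rw [Real.mul_rpow (by norm_num) hmax] at h4
    have h5 : (2 : ℝ) ^ (3 / 2 : ℝ) ≤ 4 := by
      calc (2 : ℝ) ^ (3 / 2 : ℝ) ≤ (2 : ℝ) ^ (2 : ℝ) :=
            Real.rpow_le_rpow_of_exponent_le (by norm_num) (by norm_num)
        _ = 4 := by norm_num
    have h6 : (max |x| ‖w‖) ^ (3 / 2 : ℝ) ≤ |x| ^ (3 / 2 : ℝ) + ‖w‖ ^ (3 / 2 : ℝ) := by
      have h7 : 0 ≤ |x| ^ (3 / 2 : ℝ) := by positivity
      have h8 : 0 ≤ ‖w‖ ^ (3 / 2 : ℝ) := by positivity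
      rcases max_cases |x| ‖w‖ with h | h
      · rw [h.1]; linarith
      · rw [h.1]; linarith
    have h9 : 0 ≤ (max |x| ‖w‖) ^ (3 / 2 : ℝ) := by positivity
    calc _ ≤ (2 : ℝ) ^ (3 / 2 : ℝ) * (max |x| ‖w‖) ^ (3 / 2 : ℝ) := h4
      _ ≤ 4 * (max |x| ‖w‖) ^ (3 / 2 : ℝ) := mul_le_mul_of_nonneg_right h5 h9
      _ ≤ _ := by linarith
  set E := Real.exp (4 * B * |x| ^ (3 / 2 : ℝ)) with hE
  set W := ‖w‖ ^ (3 / 2 : ℝ) with hW
  have hW0 : 0 ≤ W := by positivity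
  have h3 : ‖fx x w‖ ≤ B / ‖m0 x‖ * E * Real.exp (4 * B * W) := by
    rw [fx, norm_div, div_le_iff₀ hm]
    refine h1.trans ?_
    have h4 : Real.exp (B * ‖I * x + w‖ ^ (3 / 2 : ℝ)) ≤ E * Real.exp (4 * B * W) := by
      rw [hE, ← Real.exp_add]
      apply Real.exp_le_exp.2
      nlinarith [mul_le_mul_of_nonneg_left h2 hB0]
    calc B * Real.exp (B * ‖I * x + w‖ ^ (3 / 2 : ℝ)) ≤ B * (E * Real.exp (4 * B * W)) :=
          mul_le_mul_of_nonneg_left h4 hB0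
      _ = _ := by field_simp
  have hE0 : 0 < E := Real.exp_pos _
  have hK : 0 ≤ B / ‖m0 x‖ * E := by positivity
  refine h3.trans ?_
  have h5 : Real.exp (4 * B * W) ≤ Real.exp ((B / ‖m0 x‖ * E + 4 * B) * W) := by
    apply Real.exp_le_exp.2
    nlinarith
  calc B / ‖m0 x‖ * E * Real.exp (4 * B * W) ≤ (B / ‖m0 x‖ * E + 4 * B) * Real.exp (4 * B * W) :=
        mul_le_mul_of_nonneg_right (by linarith) (Real.exp_pos _).le
    _ ≤ _ := mul_le_mul_of_nonneg_left h5 (by linarith)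

/-! ### the Dirichlet series -/

lemma dc_f12_hasSum {s : ℂ} (hs : 13 / 2 < s.re) :
    HasSum (fun n : ℕ => tau n / (n : ℂ) ^ s) (Lf s) := by
  have h := (Lam_hasSum' hs).mul_left ((2 * Real.pi : ℂ) ^ s * (Gamma s)⁻¹)
  have h1 := Gamma_ne_zero_of_re_pos (s := s) (by linarith)
  have h2 := two_pi_cpow_ne s
  have e : (fun n : ℕ => tau n / (n : ℂ) ^ s) = fun n : ℕ => (2 * Real.pi : ℂ) ^ s * (Gamma s)⁻¹ *
      (Gamma s * tau n / ((2 * Real.pi * n : ℝ) : ℂ) ^ s) := by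
    funext n
    have e : ((2 * Real.pi * n : ℝ) : ℂ) ^ s = (2 * Real.pi : ℂ) ^ s * (n : ℂ) ^ s := by
      have := mul_cpow_ofReal_nonneg (a := 2 * Real.pi) (b := (n : ℝ)) (by positivity)
        (Nat.cast_nonneg n) s
      push_cast at this ⊢
      exact this
    rw [e]
    rcases eq_or_ne ((n : ℂ) ^ s) 0 with hn | hn
    · rw [hn]; simp
    · field_simp
  rw [e]
  exact h

lemma dc_f12_tau {p : ℝ} (hp : 1 / 2 < p) : ∃ C : ℝ, 1 ≤ C ∧ ∀ s : ℂ, 6 + p ≤ s.re → ‖Lf s‖ ≤ C := by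
  have hsum := tau_summable (σ := 6 + p) (by linarith)
  have h0 : 0 ≤ ∑' n : ℕ, ‖tau n‖ / (n : ℝ) ^ (6 + p) :=
    tsum_nonneg fun n => by positivity
  refine ⟨1 + ∑' n : ℕ, ‖tau n‖ / (n : ℝ) ^ (6 + p), by linarith, fun s hs => ?_⟩
  have h := dc_f12_hasSum (s := s) (by linarith)
  rw [← h.tsum_eq]
  have h1 : ‖∑' n : ℕ, tau n / (n : ℂ) ^ s‖ ≤ ∑' n : ℕ, ‖tau n‖ / (n : ℝ) ^ (6 + p) := by
    apply tsum_of_norm_bounded hsum.hasSum
    intro n
    rcases Nat.eq_zero_or_pos n with hn | hn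
    · rw [hn, tau_zero]; simp
    rw [norm_div, norm_natCast_cpow_of_pos hn]
    have hn1 : (1 : ℝ) ≤ n := by exact_mod_cast hn
    apply div_le_div_of_nonneg_left (norm_nonneg _) (by positivity)
    exact Real.rpow_le_rpow_of_exponent_le hn1 hs
  linarith

lemma dc_f12_muf {p : ℝ} (hp : 1 / 2 < p) : ∃ c : ℝ, 0 < c ∧ ∀ s : ℂ, 6 + p ≤ s.re → c ≤ ‖Lf s‖ := by
  have hsum := p_mufSum (6 + p) (by linarith)
  set Z := ∑' n : ℕ, ‖muf n‖ / (n : ℝ) ^ (6 + p) with hZ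
  have h0 : 0 ≤ Z := tsum_nonneg fun n => by positivity
  refine ⟨1 / (1 + Z), by positivity, fun s hs => ?_⟩
  have hm0 : muf 0 = 0 := by simp [muf]
  have hb : ∀ n : ℕ, ‖muf n / (n : ℂ) ^ s‖ ≤ ‖muf n‖ / (n : ℝ) ^ (6 + p) := by
    intro n
    rcases Nat.eq_zero_or_pos n with hn | hn
    · rw [hn, hm0]; simp
    rw [norm_div, norm_natCast_cpow_of_pos hn]
    have hn1 : (1 : ℝ) ≤ n := by exact_mod_cast hn
    apply div_le_div_of_nonneg_left (norm_nonneg _) (by positivity)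
    exact Real.rpow_le_rpow_of_exponent_le hn1 hs
  have hS : Summable fun n : ℕ => muf n / (n : ℂ) ^ s := Summable.of_norm_bounded hsum hb
  have hM : ‖∑' n : ℕ, muf n / (n : ℂ) ^ s‖ ≤ Z := tsum_of_norm_bounded hsum.hasSum hb
  have hterm : ∀ f : ℕ → ℂ, f 0 = 0 → (fun n : ℕ => f n / (n : ℂ) ^ s) = LSeries.term f s := by
    intro f hf
    funext n
    rcases eq_or_ne n 0 with hn | hn
    · rw [hn, LSeries.term_zero, hf, zero_div]
    · rw [LSeries.term_of_ne_zero hn]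
  have hL1 : LSeriesHasSum muf s (∑' n : ℕ, muf n / (n : ℂ) ^ s) := by
    rw [LSeriesHasSum, ← hterm muf hm0]
    exact hS.hasSum
  have hL2 : LSeriesHasSum tau s (Lf s) := by
    rw [LSeriesHasSum, ← hterm tau tau_zero]
    exact dc_f12_hasSum (by linarith)
  have hL := hL1.convolution hL2
  have hone : LSeriesHasSum (LSeries.convolution muf tau) s 1 := by
    have h1 : LSeriesHasSum (fun n : ℕ => if n = 1 then (1 : ℂ) else 0) s 1 := by
      rw [LSeriesHasSum]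
      convert hasSum_ite_eq (1 : ℕ) (1 : ℂ) using 1
      funext n
      rcases eq_or_ne n 0 with hn | hn
      · rw [hn]; simp
      · rw [LSeries.term_of_ne_zero hn]
        split_ifs with h
        · rw [h]; simp
        · simp
    refine (LSeriesHasSum_congr s 1 ?_).2 h1
    intro n hn
    rw [LSeries.convolution_def, ← p_mufInv n (Nat.pos_of_ne_zero hn)]
    exact Nat.sum_divisorsAntidiagonal (f := fun x y => muf x * tau y)
  have hprod := hL.unique hone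
  have h1 : ‖∑' n : ℕ, muf n / (n : ℂ) ^ s‖ * ‖Lf s‖ = 1 := by
    rw [← norm_mul, hprod, norm_one]
  rw [div_le_iff₀ (by positivity)]
  have h2 := norm_nonneg (Lf s)
  nlinarith [mul_le_mul_of_nonneg_right hM h2]

lemma dc_f12_lip {p : ℝ} (hp : 1 / 2 < p) : ∃ C : ℝ, 1 ≤ C ∧ ∀ s s' : ℂ, 6 + p ≤ s.re →
    6 + p ≤ s'.re → ‖Lf s - Lf s'‖ ≤ C * ‖s - s'‖ := by
  obtain ⟨C, hC1, hC⟩ := dc_f12_tau (p := (p + 1 / 2) / 2) (by linarith)
  set r := (p - 1 / 2) / 2 with hr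
  have hr0 : 0 < r := by rw [hr]; linarith
  refine ⟨C / r + 1, by have : 0 ≤ C / r := by positivity
                        linarith, fun s s' hs hs' => ?_⟩
  have hconv : Convex ℝ {z : ℂ | 6 + p ≤ z.re} := convex_halfSpace_re_ge (6 + p)
  have hd : ∀ z ∈ {z : ℂ | 6 + p ≤ z.re}, ‖deriv Lf z‖ ≤ C / r := by
    intro z hz
    have hz' : 6 + p ≤ z.re := hz
    refine norm_deriv_le_of_forall_mem_sphere_norm_le hr0
      (Lf_differentiable.diffContOnCl) fun y hy => ?_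
    apply hC
    have h1 : ‖y - z‖ = r := by
      have := Metric.mem_sphere.1 hy
      rwa [dist_eq_norm] at this
    have h2 := abs_re_le_norm (y - z)
    rw [h1, sub_re] at h2
    have h3 := (abs_le.1 h2).1
    rw [hr] at h3
    linarith
  have h := hconv.norm_image_sub_le_of_norm_deriv_le (f := Lf)
    (fun z _ => Lf_differentiable.differentiableAt) hd hs' hs
  refine h.trans ?_
  exact mul_le_mul_of_nonneg_right (by linarith) (norm_nonneg _)

/-! ### the Gamma function -/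

lemma dc_f12_Gamma {y : ℝ} (hy : 1 ≤ y) : Real.Gamma (y + 1) ≤ 2 * (2 * y) ^ y := by
  have hy0 : 0 < y := by linarith
  rw [Real.Gamma_eq_integral (by linarith)]
  have h1 : ∀ t ∈ Set.Ioi (0 : ℝ), Real.exp (-t) * t ^ (y + 1 - 1) ≤
      (2 * y) ^ y * Real.exp (-(1 / 2) * t) := by
    intro t ht
    have ht0 : 0 < t := ht
    rw [add_sub_cancel_right]
    have h2 : t / (2 * y) ≤ Real.exp (t / (2 * y)) := by
      linarith [Real.add_one_le_exp (t / (2 * y))]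
    have h3 : t ^ y ≤ (2 * y) ^ y * Real.exp (t / 2) := by
      have h4 : t = (2 * y) * (t / (2 * y)) := by field_simp
      have h5 : (t / (2 * y)) ^ y ≤ Real.exp (t / (2 * y)) ^ y :=
        Real.rpow_le_rpow (by positivity) h2 hy0.le
      rw [← Real.exp_mul] at h5
      have h6 : t / (2 * y) * y = t / 2 := by field_simp
      rw [h6] at h5
      calc t ^ y = ((2 * y) * (t / (2 * y))) ^ y := by rw [← h4]
        _ = (2 * y) ^ y * (t / (2 * y)) ^ y := Real.mul_rpow (by positivity) (by positivity)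
        _ ≤ _ := mul_le_mul_of_nonneg_left h5 (by positivity)
    calc Real.exp (-t) * t ^ y ≤ Real.exp (-t) * ((2 * y) ^ y * Real.exp (t / 2)) :=
          mul_le_mul_of_nonneg_left h3 (Real.exp_pos _).le
      _ = (2 * y) ^ y * (Real.exp (-t) * Real.exp (t / 2)) := by ring
      _ = _ := by
        rw [← Real.exp_add]
        congr 2
        ring
  have hint : IntegrableOn (fun t : ℝ => (2 * y) ^ y * Real.exp (-(1 / 2) * t)) (Set.Ioi 0) :=
    (exp_neg_integrableOn_Ioi 0 (by norm_num)).const_mul _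
  have h2 := setIntegral_mono_on (Real.GammaIntegral_convergent (s := y + 1) (by linarith)) hint
    measurableSet_Ioi h1
  refine h2.trans (le_of_eq ?_)
  rw [integral_const_mul, integral_exp_mul_Ioi (by norm_num)]
  norm_num
  ring

lemma dc_f12_eq {x : ℝ} {ζ : ℂ} (hζ : 0 ≤ ζ.re) (h4 : ‖s0 x‖ ≤ 4 * ‖s0 x + ζ‖) :
    ∃ g : ℂ, ‖g‖ ≤ 4 * (‖ζ‖ + 30 * ‖ζ‖ ^ 2) / ‖s0 x‖ ∧
      fx x ζ = cexp (rho x * ζ) * (cexp g * Lf (s0 x + ζ)) := by
  have hre : (s0 x + ζ).re = 6 + ζ.re := by rw [add_re, s0_re]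
  obtain ⟨g, hg, hG⟩ := Gamma_quot' (s := s0 x) (v := ζ) (by rw [s0_re]; norm_num)
    (by rw [hre]; linarith) h4
  refine ⟨g, hg, ?_⟩
  have h1 : Lam (s0 x + ζ) = (2 * Real.pi : ℂ) ^ (-(s0 x + ζ)) * Gamma (s0 x + ζ) *
      Lf (s0 x + ζ) := by
    apply Lam_eq_Lf
    rw [hre]
    linarith
  have h2pi : (2 * Real.pi : ℂ) ≠ 0 := by
    have := Real.pi_ne_zero
    simp [this]
  have h2 : (2 * Real.pi : ℂ) ^ (-(s0 x + ζ)) = (2 * Real.pi : ℂ) ^ (-s0 x) *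
      cexp (-(ζ * Real.log (2 * Real.pi))) := by
    rw [neg_add, cpow_add _ _ h2pi]
    congr 1
    rw [cpow_def_of_ne_zero h2pi]
    congr 1
    have : (2 * Real.pi : ℂ) = ((2 * Real.pi : ℝ) : ℂ) := by push_cast; rfl
    rw [this, ← Complex.ofReal_log (by positivity)]
    ring
  have h3 : cexp (rho x * ζ) = cexp (ζ * log (s0 x)) * cexp (-(ζ * Real.log (2 * Real.pi))) := by
    rw [← Complex.exp_add, rho]
    congr 1
    ring
  have hm := m0_ne x
  rw [fx, div_eq_iff hm, h1, h2, hG, h3, m0]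
  ring

lemma dc_f12_s0 {x : ℝ} (hx : 0 ≤ x) : x ≤ ‖s0 x‖ ∧ ‖s0 x‖ ≤ 6 + x := by
  constructor
  · have := abs_im_le_norm (s0 x)
    rw [s0_im, abs_of_nonneg hx] at this
    exact this
  · have := Complex.norm_le_abs_re_add_abs_im (s0 x)
    rw [s0_im, s0_re, abs_of_nonneg hx, abs_of_nonneg (by norm_num : (0 : ℝ) ≤ 6)] at this
    exact this

lemma dc_f12_A {C x : ℝ} (hx : 2000 ≤ x) {w : ℂ} (hw : 0 < w.re) (him : |(rho x).im| ≤ 2)
    (h4 : ‖s0 x‖ ≤ 4 * ‖s0 x + w‖) (hC0 : 0 ≤ C) (hC : ‖Lf (s0 x + w)‖ ≤ C) :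
    ‖fx x w‖ ≤ 3 * C * Real.exp ((rho x).re * w.re + 4 * |w.im| + ‖w‖ ^ 2 / 16) := by
  obtain ⟨g, hg, hE⟩ := dc_f12_eq hw.le h4
  obtain ⟨hs1, hs2⟩ := dc_f12_s0 (x := x) (by linarith)
  have h1 : (rho x * w).re ≤ (rho x).re * w.re + 2 * |w.im| := by
    rw [mul_re]
    have h3 : |(rho x).im * w.im| ≤ 2 * |w.im| := by
      rw [abs_mul]
      exact mul_le_mul_of_nonneg_right him (abs_nonneg _)
    have h5 := (abs_le.1 h3).1
    linarith
  have h2 : g.re ≤ 1 + ‖w‖ ^ 2 / 16 := by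
    refine (re_le_norm g).trans (hg.trans ?_)
    rw [div_le_iff₀ (by linarith)]
    have h6 : ‖w‖ ≤ 1 + ‖w‖ ^ 2 := by nlinarith [sq_nonneg (‖w‖ - 1 / 2), norm_nonneg w]
    have h7 : (1 + ‖w‖ ^ 2 / 16) * 2000 ≤ (1 + ‖w‖ ^ 2 / 16) * ‖s0 x‖ :=
      mul_le_mul_of_nonneg_left (by linarith) (by positivity)
    nlinarith [sq_nonneg ‖w‖]
  have he : Real.exp 1 ≤ 3 := by linarith [Real.exp_one_lt_d9]
  rw [hE, norm_mul, norm_mul, Complex.norm_exp, Complex.norm_exp]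
  have h5 : Real.exp (rho x * w).re * Real.exp g.re ≤
      3 * Real.exp ((rho x).re * w.re + 4 * |w.im| + ‖w‖ ^ 2 / 16) := by
    rw [← Real.exp_add]
    calc Real.exp ((rho x * w).re + g.re)
        ≤ Real.exp (1 + ((rho x).re * w.re + 4 * |w.im| + ‖w‖ ^ 2 / 16)) := by
          apply Real.exp_le_exp.2
          linarith [abs_nonneg w.im]
      _ = Real.exp 1 * Real.exp ((rho x).re * w.re + 4 * |w.im| + ‖w‖ ^ 2 / 16) :=
          Real.exp_add _ _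
      _ ≤ _ := mul_le_mul_of_nonneg_right he (Real.exp_pos _).le
  calc Real.exp (rho x * w).re * (Real.exp g.re * ‖Lf (s0 x + w)‖)
      = (Real.exp (rho x * w).re * Real.exp g.re) * ‖Lf (s0 x + w)‖ := by ring
    _ ≤ (3 * Real.exp ((rho x).re * w.re + 4 * |w.im| + ‖w‖ ^ 2 / 16)) * C :=
        mul_le_mul h5 hC (norm_nonneg _) (by positivity)
    _ = _ := by ring

lemma dc_f12_B {C x : ℝ} (hx : 2000 ≤ x) {w : ℂ} (hw : 0 < w.re)
    (h4 : 4 * ‖s0 x + w‖ < ‖s0 x‖) (hC0 : 0 ≤ C) (hC : ‖Lf (s0 x + w)‖ ≤ C) :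
    ‖fx x w‖ ≤ 3 * C * Real.exp ((rho x).re * w.re + 4 * |w.im| + ‖w‖ ^ 2 / 16) := by
  obtain ⟨hs1, hs2⟩ := dc_f12_s0 (x := x) (by linarith)
  set S := ‖s0 x‖ with hS
  set r := w.re with hr
  have hS0 : 0 < S := by linarith
  have hre : (s0 x + w).re = 6 + r := by rw [add_re, s0_re]
  have hrS : 2 * (5 + r) ≤ S := by
    have := abs_re_le_norm (s0 x + w)
    rw [hre, abs_of_pos (by linarith)] at this
    linarith
  -- the numerator
  have hG : ‖Gamma (s0 x + w)‖ ≤ 2 * S ^ (5 + r) := by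
    refine (norm_Gamma_le (by rw [hre]; linarith)).trans ?_
    rw [hre]
    have h1 := dc_f12_Gamma (y := 5 + r) (by linarith)
    have h2 : (5 + r) + 1 = 6 + r := by ring
    rw [h2] at h1
    refine h1.trans ?_
    apply mul_le_mul_of_nonneg_left _ (by norm_num)
    exact Real.rpow_le_rpow (by linarith) hrS (by linarith)
  have hG0 : Real.exp (-(Real.pi * x / 2)) ≤ ‖Gamma (s0 x)‖ := by
    have hx1 : (1 : ℝ) ≤ |x| := by rw [abs_of_nonneg (by linarith)]; linarith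
    have h1 := dn_gamLo_six x hx1
    rw [abs_of_nonneg (by linarith : (0 : ℝ) ≤ x)] at h1
    have h2 : (1 : ℝ) ≤ x ^ (11 / 2 : ℝ) := Real.one_le_rpow (by linarith) (by norm_num)
    have h3 := (Real.exp_pos (-(Real.pi * x / 2))).le
    rw [s0]
    refine le_trans ?_ h1
    nlinarith
  have hpi : 0 < 2 * Real.pi := by positivity
  have hcp : ∀ s : ℂ, ‖(2 * Real.pi : ℂ) ^ (-s)‖ = (2 * Real.pi) ^ (-s.re) := by
    intro s
    have h1 : (2 * Real.pi : ℂ) = ((2 * Real.pi : ℝ) : ℂ) := by push_cast; rfl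
    rw [h1, Complex.norm_cpow_eq_rpow_re_of_pos hpi, neg_re]
  have hm : 0 < ‖m0 x‖ := norm_pos_iff.2 (m0_ne x)
  have hm1 : (2 * Real.pi) ^ (-(6 : ℝ)) * Real.exp (-(Real.pi * x / 2)) ≤ ‖m0 x‖ := by
    rw [m0, norm_mul, hcp, s0_re]
    exact mul_le_mul_of_nonneg_left hG0 (by positivity)
  have hexp : Real.exp ((rho x).re * r) = S ^ r * (2 * Real.pi) ^ (-r) := by
    have h1 : (rho x).re = Real.log S - Real.log (2 * Real.pi) := by
      rw [rho, sub_re, ofReal_re, log_re]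
    rw [h1, Real.rpow_def_of_pos hS0, Real.rpow_def_of_pos hpi, ← Real.exp_add]
    congr 1
    ring
  have hw2 : 3 / 4 * S ≤ ‖w‖ := by
    have h1 : S ≤ ‖s0 x + w‖ + ‖w‖ := by
      have h2 : s0 x = (s0 x + w) - w := by ring
      calc S = ‖(s0 x + w) - w‖ := by rw [← h2]
        _ ≤ _ := norm_sub_le _ _
    linarith
  have hw3 : 9 / 256 * S ^ 2 ≤ ‖w‖ ^ 2 / 16 := by
    have h1 : (3 / 4 * S) ^ 2 ≤ ‖w‖ ^ 2 := pow_le_pow_left₀ (by positivity) hw2 2
    nlinarith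
  have hbig : 2 * S ^ (5 : ℝ) * Real.exp (Real.pi * x / 2) ≤ Real.exp (‖w‖ ^ 2 / 16) := by
    have h1 : S ≤ Real.exp S := by linarith [Real.add_one_le_exp S]
    have h2 : S ^ (5 : ℝ) ≤ Real.exp (5 * S) := by
      have h3 := Real.rpow_le_rpow hS0.le h1 (by norm_num : (0 : ℝ) ≤ 5)
      rwa [← Real.exp_mul, mul_comm S 5] at h3
    have h3 : (2 : ℝ) ≤ Real.exp 1 := by linarith [Real.add_one_le_exp (1 : ℝ)]
    calc 2 * S ^ (5 : ℝ) * Real.exp (Real.pi * x / 2)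
        ≤ Real.exp 1 * Real.exp (5 * S) * Real.exp (2 * S) := by
          apply mul_le_mul _ _ (Real.exp_pos _).le (by positivity)
          · exact mul_le_mul h3 h2 (by positivity) (by positivity)
          · apply Real.exp_le_exp.2
            nlinarith [Real.pi_le_four]
      _ = Real.exp (1 + 5 * S + 2 * S) := by rw [← Real.exp_add, ← Real.exp_add]
      _ ≤ _ := by
        apply Real.exp_le_exp.2
        nlinarith
  have h1 : Lam (s0 x + w) = (2 * Real.pi : ℂ) ^ (-(s0 x + w)) * Gamma (s0 x + w) *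
      Lf (s0 x + w) := by
    apply Lam_eq_Lf
    rw [hre]
    linarith
  have h2 : ‖Lam (s0 x + w)‖ ≤ (2 * Real.pi) ^ (-(6 + r)) * (2 * S ^ (5 + r)) * C := by
    rw [h1, norm_mul, norm_mul, hcp, hre]
    apply mul_le_mul _ hC (norm_nonneg _) (by positivity)
    exact mul_le_mul_of_nonneg_left hG (by positivity)
  have h3 : (2 * Real.pi) ^ (-(6 + r)) = (2 * Real.pi) ^ (-(6 : ℝ)) * (2 * Real.pi) ^ (-r) := by
    rw [← Real.rpow_add hpi]
    congr 1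
    ring
  have h5 : S ^ (5 + r) = S ^ (5 : ℝ) * S ^ r := Real.rpow_add hS0 _ _
  have hone : Real.exp (Real.pi * x / 2) * Real.exp (-(Real.pi * x / 2)) = 1 := by
    rw [← Real.exp_add, add_neg_cancel, Real.exp_zero]
  rw [fx, norm_div, div_le_iff₀ hm]
  have h6 : Real.exp ((rho x).re * r + ‖w‖ ^ 2 / 16) ≤
      Real.exp ((rho x).re * r + 4 * |w.im| + ‖w‖ ^ 2 / 16) :=
    Real.exp_le_exp.2 (by linarith [abs_nonneg w.im])
  calc ‖Lam (s0 x + w)‖ ≤ (2 * Real.pi) ^ (-(6 + r)) * (2 * S ^ (5 + r)) * C := h2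
    _ = C * (S ^ r * (2 * Real.pi) ^ (-r)) * (2 * S ^ (5 : ℝ) * Real.exp (Real.pi * x / 2)) *
          ((2 * Real.pi) ^ (-(6 : ℝ)) * Real.exp (-(Real.pi * x / 2))) := by
        rw [h3, h5]
        linear_combination (-(C * (S ^ r * (2 * Real.pi) ^ (-r)) * (2 * S ^ (5 : ℝ)) *
          (2 * Real.pi) ^ (-(6 : ℝ)))) * hone
    _ ≤ C * (S ^ r * (2 * Real.pi) ^ (-r)) * Real.exp (‖w‖ ^ 2 / 16) * ‖m0 x‖ := by
        apply mul_le_mul _ hm1 (by positivity) (by positivity)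
        exact mul_le_mul_of_nonneg_left hbig (by positivity)
    _ = C * Real.exp ((rho x).re * r + ‖w‖ ^ 2 / 16) * ‖m0 x‖ := by
        rw [← hexp, Real.exp_add]
        ring
    _ ≤ 3 * C * Real.exp ((rho x).re * r + 4 * |w.im| + ‖w‖ ^ 2 / 16) * ‖m0 x‖ := by
        apply mul_le_mul_of_nonneg_right _ hm.le
        apply mul_le_mul (by linarith) h6 (Real.exp_pos _).le (by positivity)

lemma dc_f12_fine {p C : ℝ} (hp : 1 / 2 < p) (hC1 : 1 ≤ C)
    (hC : ∀ s : ℂ, 6 + p ≤ s.re → ‖Lf s‖ ≤ C) (R ε : ℝ) (hε : 0 < ε) :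
    ∃ x₁ : ℝ, ∀ x : ℝ, x₁ ≤ x → ∀ w : ℂ, p ≤ w.re → ‖w‖ ≤ R →
      ‖fx x w - cexp (rho x * w) * Lf (s0 x + w)‖ ≤ ε * ‖cexp (rho x * w)‖ := by
  set D := 4 * (|R| + 30 * |R| ^ 2) with hD
  have hR0 : 0 ≤ |R| := abs_nonneg R
  have hD0 : 0 ≤ D := by positivity
  refine ⟨1 + 2 * |R| + D + 3 * D * C / ε, fun x hx w hw hR => ?_⟩
  have hq : 0 ≤ 3 * D * C / ε := by positivity
  have hx1 : 1 ≤ x := by linarith
  obtain ⟨hs1, hs2⟩ := dc_f12_s0 (x := x) (by linarith)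
  have hwR : ‖w‖ ≤ |R| := hR.trans (le_abs_self R)
  have h4 : ‖s0 x‖ ≤ 4 * ‖s0 x + w‖ := by
    have h1 : ‖s0 x‖ ≤ ‖s0 x + w‖ + ‖w‖ := by
      have h2 : s0 x = (s0 x + w) - w := by ring
      calc ‖s0 x‖ = ‖(s0 x + w) - w‖ := by rw [← h2]
        _ ≤ _ := norm_sub_le _ _
    linarith
  obtain ⟨g, hg, hE⟩ := dc_f12_eq (by linarith : 0 ≤ w.re) h4
  have hg1 : ‖g‖ ≤ D / x := by
    refine hg.trans ?_
    apply div_le_div₀ hD0 _ (by linarith) hs1
    rw [hD]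
    have := pow_le_pow_left₀ (norm_nonneg w) hwR 2
    linarith
  have hg2 : ‖g‖ ≤ 1 := by
    refine hg1.trans ?_
    rw [div_le_one (by linarith)]
    linarith
  have hg3 : ‖cexp g - 1‖ ≤ 3 * (D / x) := by
    refine (norm_exp_sub_one_le' g).trans ?_
    have h5 : Real.exp ‖g‖ ≤ 3 := by
      have h6 := Real.exp_one_lt_d9
      calc Real.exp ‖g‖ ≤ Real.exp 1 := Real.exp_le_exp.mpr hg2
        _ ≤ 3 := by linarith
    calc ‖g‖ * Real.exp ‖g‖ ≤ (D / x) * 3 :=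
          mul_le_mul hg1 h5 (Real.exp_pos _).le (by positivity)
      _ = 3 * (D / x) := by ring
  have hLf := hC (s0 x + w) (by rw [add_re, s0_re]; linarith)
  have h5 : fx x w - cexp (rho x * w) * Lf (s0 x + w) =
      cexp (rho x * w) * ((cexp g - 1) * Lf (s0 x + w)) := by
    rw [hE]; ring
  rw [h5, norm_mul, mul_comm]
  apply mul_le_mul_of_nonneg_right _ (norm_nonneg _)
  rw [norm_mul]
  calc ‖cexp g - 1‖ * ‖Lf (s0 x + w)‖ ≤ 3 * (D / x) * C :=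
        mul_le_mul hg3 hLf (norm_nonneg _) (by positivity)
    _ = 3 * D * C / x := by ring
    _ ≤ ε := by
      rw [div_le_iff₀ (by linarith)]
      have h6 : 3 * D * C / ε ≤ x := by linarith
      rw [div_le_iff₀ hε] at h6
      linarith

theorem p_f12 : S_f12 := by
  refine ⟨fun x => ⟨dc_f12_diff x, dc_f12_sym x, dc_f12_growth x⟩, fun p hp => ?_⟩
  obtain ⟨C, hC1, hC⟩ := dc_f12_tau hp
  obtain ⟨c, hc, hc2⟩ := dc_f12_muf hp
  obtain ⟨K, hK1, hK⟩ := dc_f12_lip hp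
  refine ⟨c, 3 * C + K, 2000, hc, by linarith, by norm_num, fun s hs => ⟨hc2 s hs, ?_⟩, ?_, ?_, ?_⟩
  · linarith [hC s hs]
  · intro s s' hs hs'
    refine (hK s s' hs hs').trans ?_
    exact mul_le_mul_of_nonneg_right (by linarith) (norm_nonneg _)
  · intro x hx
    obtain ⟨hr1, hr2⟩ := rho_re_bounds (x := x) (by linarith)
    have hr3 : |(rho x).im| ≤ 2 := by
      have h1 := rho_im_sq x
      apply abs_le_of_sq_le_sq _ (by norm_num)
      linarith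
    refine ⟨?_, hr3, fun w hw => ?_⟩
    · rw [abs_le]
      constructor <;> linarith
    · have hw0 : 0 < w.re := by linarith
      have hLf := hC (s0 x + w) (by rw [add_re, s0_re]; linarith)
      have hE := (Real.exp_pos ((rho x).re * w.re + 4 * |w.im| + ‖w‖ ^ 2 / 16)).le
      have h3 : 3 * C * Real.exp ((rho x).re * w.re + 4 * |w.im| + ‖w‖ ^ 2 / 16) ≤
          (3 * C + K) * Real.exp ((rho x).re * w.re + 4 * |w.im| + ‖w‖ ^ 2 / 16) :=
        mul_le_mul_of_nonneg_right (by linarith) hE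
      rcases le_or_gt ‖s0 x‖ (4 * ‖s0 x + w‖) with h | h
      · exact (dc_f12_A hx hw0 hr3 h (by linarith) hLf).trans h3
      · exact (dc_f12_B hx hw0 h (by linarith) hLf).trans h3
  · exact dc_f12_fine hp hC1 hC

end Pool.Agent.Lib.MP_cd509c_nt.DC
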