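import Pool.Agent.Lib.MP_cd509c_nt.DC.Defs2

set_option autoImplicit false

/-!
# [P2 stage 2, left] the part of the integral where the contour is moved (helper94)
-/

namespace Pool.Agent.Lib.MP_cd509c_nt.DC

open Complex ComplexConjugate MeasureTheory Filter Topology
open Pool.Agent.Lib.MP_cd509c_nt.DN
open scoped Nat

/-- upper bound for the factorial -/
theorem dc_left_fact (n : ℕ) (hn : 1 ≤ n) :
    (n ! : ℝ) ≤ Real.exp 1 * n * Real.exp (n * Real.log n - n) := by
  induction n, hn using Nat.le_induction with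
  | base => simp [← Real.exp_add]
  | succ n hn ih =>
    have hn0 : (0 : ℝ) < n := by exact_mod_cast hn
    have h1 : ((n + 1)! : ℝ) = (n + 1) * n ! := by
      rw [Nat.factorial_succ]; push_cast; ring
    rw [h1]
    have h2 : (n : ℝ) * Real.exp (n * Real.log n - n) ≤
        Real.exp (((n + 1 : ℕ) : ℝ) * Real.log ((n + 1 : ℕ) : ℝ) - ((n + 1 : ℕ) : ℝ)) := by
      have h3 : (n : ℝ) * Real.exp (n * Real.log n - n) =
          Real.exp ((n + 1) * Real.log n - n) := by
        rw [show ((n : ℝ) + 1) * Real.log n - n = Real.log n + (n * Real.log n - n) by ring,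
          Real.exp_add, Real.exp_log hn0]
      rw [h3]
      apply Real.exp_le_exp.2
      have h4 := Real.one_sub_inv_le_log_of_pos (x := ((n : ℝ) + 1) / n) (by positivity)
      rw [Real.log_div (by positivity) hn0.ne'] at h4
      have h5 : (1 : ℝ) - (((n : ℝ) + 1) / n)⁻¹ = 1 / (n + 1) := by
        field_simp
        ring
      rw [h5] at h4
      have h6 : 1 ≤ ((n : ℝ) + 1) * (Real.log (n + 1) - Real.log n) := by
        have := mul_le_mul_of_nonneg_left h4 (by positivity : (0 : ℝ) ≤ (n : ℝ) + 1)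
        rw [mul_one_div_cancel (by positivity)] at this
        exact this
      push_cast
      nlinarith
    calc ((n : ℝ) + 1) * n ! ≤ (n + 1) * (Real.exp 1 * n * Real.exp (n * Real.log n - n)) :=
          mul_le_mul_of_nonneg_left ih (by positivity)
      _ = Real.exp 1 * ((n + 1 : ℕ) : ℝ) * (n * Real.exp (n * Real.log n - n)) := by
          push_cast; ring
      _ ≤ Real.exp 1 * ((n + 1 : ℕ) : ℝ) *
          Real.exp (((n + 1 : ℕ) : ℝ) * Real.log ((n + 1 : ℕ) : ℝ) - ((n + 1 : ℕ) : ℝ)) :=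
          mul_le_mul_of_nonneg_left h2 (by positivity)

/-- monotonicity -/
theorem dc_left_mono (n t c c₁ p' β : ℝ) (hc₁ : 0 < c₁) (hc : c₁ ≤ c) (ht : 0 < t) (hn : 0 ≤ n)
    (hp' : p' ≤ β) (hβ : β ^ 2 ≤ 8 * n * t) :
    (c - c₁) * (2 * p' - c - c₁) / (4 * t) ≤ n * Real.log (c / c₁) := by
  have hlog : 0 ≤ Real.log (c / c₁) := Real.log_nonneg ((one_le_div hc₁).2 hc)
  rcases le_or_gt (2 * p') (c + c₁) with h | h
  · have h1 : (c - c₁) * (2 * p' - c - c₁) / (4 * t) ≤ 0 := by
      apply div_nonpos_of_nonpos_of_nonneg _ (by positivity)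
      exact mul_nonpos_of_nonneg_of_nonpos (by linarith) (by linarith)
    exact h1.trans (mul_nonneg hn hlog)
  · have hp0 : 0 < p' := by linarith
    have hp2 : p' ^ 2 ≤ 8 * n * t := (pow_le_pow_left₀ hp0.le hp' 2).trans hβ
    have hs : 0 < c + c₁ := by linarith
    have h1 := Real.le_log_one_add_of_nonneg (x := (c - c₁) / c₁) (by
      apply div_nonneg (by linarith) hc₁.le)
    have h2 : 1 + (c - c₁) / c₁ = c / c₁ := by
      field_simp
      ring
    have h3 : 2 * ((c - c₁) / c₁) / ((c - c₁) / c₁ + 2) = 2 * (c - c₁) / (c + c₁) := by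
      have h4 : (c - c₁) / c₁ + 2 = (c + c₁) / c₁ := by
        field_simp
        ring
      rw [h4]
      field_simp
    rw [h2, h3] at h1
    have h4 : (c - c₁) * (2 * p' - c - c₁) / (4 * t) ≤ n * (2 * (c - c₁) / (c + c₁)) := by
      rw [mul_div_assoc', div_le_div_iff₀ (by positivity) hs]
      have h5 : (2 * p' - c - c₁) * (c + c₁) ≤ 8 * n * t := by
        nlinarith [sq_nonneg (p' - (c + c₁))]
      have h6 : 0 ≤ c - c₁ := by linarith
      nlinarith [mul_le_mul_of_nonneg_left h5 h6]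
    exact h4.trans (mul_le_mul_of_nonneg_left h1 hn)

/-- the exponent -/
theorem dc_left_exp (n t l c c₁ p' β : ℝ) (hc₁ : 0 < c₁) (hc : c₁ ≤ c) (ht : 0 < t) (hn : 0 ≤ n)
    (hp' : p' ≤ β) (hβ : β ^ 2 ≤ 8 * n * t) (hnl : n = l * c₁) :
    -(n * Real.log (c / c₁)) - n + l * p' - (p' - c) ^ 2 / (4 * t) ≤
      t * l ^ 2 - (c₁ + 2 * t * l - p') ^ 2 / (4 * t) := by
  have h1 := dc_left_mono n t c c₁ p' β hc₁ hc ht hn hp' hβ
  have h2 : t * l ^ 2 - (c₁ + 2 * t * l - p') ^ 2 / (4 * t) =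
      -((c - c₁) * (2 * p' - c - c₁) / (4 * t)) - n + l * p' - (p' - c) ^ 2 / (4 * t) := by
    rw [hnl]
    field_simp
    ring
  rw [h2]
  linarith

/-- the displacement is at least `β` -/
theorem dc_left_bb (n t l c₁ β : ℝ) (hc₁ : 0 < c₁) (ht : 0 < t) (hl : 0 < l)
    (hβ0 : 0 < β) (hβ : β ^ 2 ≤ 8 * n * t) (hnl : n = l * c₁) : β ≤ c₁ + 2 * t * l := by
  have h1 : β ^ 2 ≤ (c₁ + 2 * t * l) ^ 2 := by
    have : 8 * n * t ≤ (c₁ + 2 * t * l) ^ 2 := by
      rw [hnl]
      nlinarith [sq_nonneg (c₁ - 2 * t * l)]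
    linarith
  exact (pow_le_pow_iff_left₀ hβ0.le (by positivity) (by norm_num)).1 h1

/-- the integrand on the moved contour -/
theorem dc_left_gauss : Integrable (fun η : ℝ => Real.exp (-(1 / 16) * η ^ 2)) :=
  integrable_exp_neg_mul_sq (by norm_num)

theorem dc_left_gauss8 : ∫ η : ℝ, Real.exp (-(1 / 16) * η ^ 2) ≤ 8 := by
  rw [integral_gaussian]
  apply Real.sqrt_le_iff.2
  constructor
  · norm_num
  · have := Real.pi_lt_four
    rw [div_le_iff₀ (by norm_num)]
    linarith

/-- bound for the line integral -/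
theorem dc_left_LI (n : ℕ) (f : ℂ → ℂ) (w : ℂ) (v c l p C₂ K : ℝ) (hw : |w.im| ≤ 1)
    (hc : c = p - w.re - v) (hC₂ : 0 ≤ C₂) (hK : 0 ≤ K)
    (hf : ∀ w : ℂ, p ≤ w.re → ‖f w‖ ≤ C₂ * Real.exp (l * w.re + 4 * |w.im| + ‖w‖ ^ 2 / 16))
    (hKn : ∀ η : ℝ, ‖Kn n (c + η * I)‖ ≤ K * Real.exp (-(η ^ 2 / 4))) :
    ‖LI n f c (w + v)‖ ≤ 2 * C₂ * Real.exp (p ^ 2 / 16 + 70) * K * Real.exp (l * p) := by
  have hbound : ∀ η : ℝ, ‖f (w + v + (c + η * I)) * Kn n (c + η * I)‖ ≤
      (C₂ * Real.exp (p ^ 2 / 16 + 70) * K * Real.exp (l * p)) * Real.exp (-(1 / 16) * η ^ 2) := by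
    intro η
    have hre : (w + v + (c + η * I)).re = p := by
      simp [hc]
    have him : (w + v + (c + η * I)).im = w.im + η := by
      simp
    have h1 := hf (w + v + (c + η * I)) (by rw [hre])
    have hsq : ‖w + v + (c + η * I)‖ ^ 2 = p ^ 2 + (w.im + η) ^ 2 := by
      rw [Complex.sq_norm, Complex.normSq_apply, hre, him]
      ring
    rw [hre, him, hsq] at h1
    rw [norm_mul]
    have h2 : ‖f (w + v + (c + η * I))‖ * ‖Kn n (c + η * I)‖ ≤
        (C₂ * Real.exp (l * p + 4 * |w.im + η| + (p ^ 2 + (w.im + η) ^ 2) / 16)) *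
          (K * Real.exp (-(η ^ 2 / 4))) :=
      mul_le_mul h1 (hKn η) (norm_nonneg _) (by positivity)
    refine h2.trans ?_
    have h3 : Real.exp (l * p + 4 * |w.im + η| + (p ^ 2 + (w.im + η) ^ 2) / 16) *
        Real.exp (-(η ^ 2 / 4)) ≤
        Real.exp (p ^ 2 / 16 + 70) * Real.exp (l * p) * Real.exp (-(1 / 16) * η ^ 2) := by
      rw [← Real.exp_add, ← Real.exp_add, ← Real.exp_add]
      apply Real.exp_le_exp.2
      have h4 : |w.im + η| ≤ 1 + |η| := (abs_add_le _ _).trans (by linarith)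
      have h5 : (w.im + η) ^ 2 ≤ 2 + 2 * η ^ 2 := by
        have h6 : w.im ^ 2 ≤ 1 := by
          have := sq_abs w.im
          nlinarith [abs_nonneg w.im]
        nlinarith [sq_nonneg (w.im - η)]
      have h7 : 4 * |η| ≤ η ^ 2 / 16 + 64 := by
        have := sq_abs η
        nlinarith [sq_nonneg (|η| / 4 - 8)]
      linarith
    calc (C₂ * Real.exp (l * p + 4 * |w.im + η| + (p ^ 2 + (w.im + η) ^ 2) / 16)) *
          (K * Real.exp (-(η ^ 2 / 4)))
        = C₂ * K * (Real.exp (l * p + 4 * |w.im + η| + (p ^ 2 + (w.im + η) ^ 2) / 16) *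
          Real.exp (-(η ^ 2 / 4))) := by ring
      _ ≤ C₂ * K * (Real.exp (p ^ 2 / 16 + 70) * Real.exp (l * p) *
          Real.exp (-(1 / 16) * η ^ 2)) := mul_le_mul_of_nonneg_left h3 (by positivity)
      _ = _ := by ring
  have h1 := norm_integral_le_of_norm_le (dc_left_gauss.const_mul _)
    (Filter.Eventually.of_forall hbound)
  rw [integral_const_mul] at h1
  unfold LI
  rw [norm_mul]
  have h2 : ‖(1 / (2 * Real.pi) : ℂ)‖ ≤ 1 / 4 := by
    have h3 : (1 / (2 * Real.pi) : ℂ) = ((1 / (2 * Real.pi) : ℝ) : ℂ) := by push_cast; rfl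
    rw [h3, Complex.norm_real, Real.norm_of_nonneg (by positivity)]
    apply one_div_le_one_div_of_le (by norm_num)
    have := Real.pi_gt_three
    linarith
  have h4 : (C₂ * Real.exp (p ^ 2 / 16 + 70) * K * Real.exp (l * p)) *
      ∫ η : ℝ, Real.exp (-(1 / 16) * η ^ 2) ≤
      (C₂ * Real.exp (p ^ 2 / 16 + 70) * K * Real.exp (l * p)) * 8 :=
    mul_le_mul_of_nonneg_left dc_left_gauss8 (by positivity)
  calc ‖(1 / (2 * Real.pi) : ℂ)‖ * ‖∫ η : ℝ, f (w + v + (c + η * I)) * Kn n (c + η * I)‖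
      ≤ 1 / 4 * ((C₂ * Real.exp (p ^ 2 / 16 + 70) * K * Real.exp (l * p)) * 8) :=
        mul_le_mul h2 (h1.trans h4) (norm_nonneg _) (by norm_num)
    _ = _ := by ring

/-- the case of bounded `c` -/
theorem dc_left_caseA (n : ℕ) (hn : 1 ≤ n) (l c C : ℝ) (hl : 0 < l) (hc : 0 < c) (hC : 0 ≤ C) :
    C * n ! * (1 / c) ^ n ≤
      Real.exp 1 * C * n * (l ^ n * Real.exp (-(n * Real.log (c / (n / l))) - n)) := by
  have hn0 : (0 : ℝ) < n := by exact_mod_cast hn
  have h1 := dc_left_fact n hn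
  have h2 : (1 / c) ^ n = Real.exp (-(n * Real.log c)) := by
    rw [one_div, inv_pow, Real.exp_neg, Real.exp_nat_mul, Real.exp_log hc]
  have h3 : l ^ n = Real.exp (n * Real.log l) := by
    rw [Real.exp_nat_mul, Real.exp_log hl]
  rw [h2, h3]
  have h4 : Real.log (c / (n / l)) = Real.log c - Real.log n + Real.log l := by
    rw [Real.log_div hc.ne' (by positivity), Real.log_div hn0.ne' hl.ne']
    ring
  rw [h4]
  calc C * n ! * Real.exp (-(n * Real.log c))
      ≤ C * (Real.exp 1 * n * Real.exp (n * Real.log n - n)) * Real.exp (-(n * Real.log c)) :=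
        mul_le_mul_of_nonneg_right (mul_le_mul_of_nonneg_left h1 hC) (Real.exp_nonneg _)
    _ = Real.exp 1 * C * n * (Real.exp (n * Real.log n - n) * Real.exp (-(n * Real.log c))) := by
        ring
    _ = _ := by
        rw [← Real.exp_add, ← Real.exp_add]
        congr 2
        ring

/-- the case of large `c` -/
theorem dc_left_caseB (n : ℕ) (A l c t v Y p : ℝ) (hA : 1 ≤ A) (hl : 256 * A ^ 2 ≤ l)
    (hc1 : 1 ≤ c) (hnl : n ≤ A * l) (ht : 0 < t) (htl : l * t ≤ A ^ 2)
    (hv : c / 2 ≤ |v|) (hc : 64 * A ^ 2 * (A * Real.log (2 * A) + p + Y + 2) ≤ c ^ 2) :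
    (n ! : ℝ) * (2 / c) ^ (n + 1) * Real.exp (4 * c ^ 2) * Real.exp (l * p) *
      Real.exp (-v ^ 2 / (4 * t)) ≤
      2 * (l ^ n * Real.exp (-(l * Y) - l) * Real.exp (-(1 / (64 * A ^ 2)) * c ^ 2)) := by
  have hA0 : 0 < A := by linarith
  have hl0 : 0 < l := by nlinarith
  have hl1 : 1 ≤ l := by nlinarith
  have h1 : (n ! : ℝ) ≤ (n : ℝ) ^ n := by exact_mod_cast Nat.factorial_le_pow n
  have h2 : (n : ℝ) ^ n ≤ (A * l) ^ n := pow_le_pow_left₀ (Nat.cast_nonneg n) hnl n
  have h3 : (2 / c) ^ (n + 1) ≤ 2 ^ (n + 1) := by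
    apply pow_le_pow_left₀ (by positivity)
    rw [div_le_iff₀ (by linarith)]
    linarith
  have h4 : (2 * A) ^ n ≤ Real.exp (l * (A * Real.log (2 * A))) := by
    have h5 : 0 ≤ Real.log (2 * A) := Real.log_nonneg (by linarith)
    have h6 : (2 * A) ^ n = Real.exp (n * Real.log (2 * A)) := by
      rw [Real.exp_nat_mul, Real.exp_log (by linarith)]
    rw [h6]
    apply Real.exp_le_exp.2
    calc (n : ℝ) * Real.log (2 * A) ≤ (A * l) * Real.log (2 * A) :=
          mul_le_mul_of_nonneg_right hnl h5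
      _ = _ := by ring
  have h5 : (n ! : ℝ) * (2 / c) ^ (n + 1) ≤ 2 * (l ^ n * Real.exp (l * (A * Real.log (2 * A)))) := by
    calc (n ! : ℝ) * (2 / c) ^ (n + 1) ≤ (A * l) ^ n * 2 ^ (n + 1) :=
          mul_le_mul (h1.trans h2) h3 (by positivity) (by positivity)
      _ = 2 * (l ^ n * (2 * A) ^ n) := by
          rw [pow_succ, mul_pow, mul_pow]
          ring
      _ ≤ _ := by
          apply mul_le_mul_of_nonneg_left _ (by norm_num)
          exact mul_le_mul_of_nonneg_left h4 (by positivity)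
  have h6 : l * (A * Real.log (2 * A)) + 4 * c ^ 2 + l * p + -v ^ 2 / (4 * t) ≤
      (-(l * Y) - l) + -(1 / (64 * A ^ 2)) * c ^ 2 := by
    -- v ^ 2 / (4 t) ≥ l c ^ 2 / (16 A ^ 2)
    have h7 : c ^ 2 / 4 ≤ v ^ 2 := by
      rw [← sq_abs v]
      nlinarith [abs_nonneg v]
    have h8 : l * c ^ 2 / (16 * A ^ 2) ≤ v ^ 2 / (4 * t) := by
      rw [div_le_div_iff₀ (by positivity) (by positivity)]
      calc l * c ^ 2 * (4 * t) = 4 * (l * t) * c ^ 2 := by ring
        _ ≤ 4 * A ^ 2 * c ^ 2 := by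
            apply mul_le_mul_of_nonneg_right _ (sq_nonneg c)
            linarith
        _ = 16 * A ^ 2 * (c ^ 2 / 4) := by ring
        _ ≤ 16 * A ^ 2 * v ^ 2 := mul_le_mul_of_nonneg_left h7 (by positivity)
        _ = v ^ 2 * (16 * A ^ 2) := by ring
    have h9 : 4 * c ^ 2 ≤ l * (c ^ 2 / (64 * A ^ 2)) := by
      rw [mul_div_assoc', le_div_iff₀ (by positivity)]
      nlinarith [sq_nonneg c]
    have h10 : A * Real.log (2 * A) + p + Y + 2 ≤ c ^ 2 / (64 * A ^ 2) := by
      rw [le_div_iff₀ (by positivity)]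
      linarith
    have h11 : l * (A * Real.log (2 * A) + p + Y + 2) ≤ l * (c ^ 2 / (64 * A ^ 2)) :=
      mul_le_mul_of_nonneg_left h10 hl0.le
    have h12 : c ^ 2 / (64 * A ^ 2) ≤ l * (c ^ 2 / (64 * A ^ 2)) :=
      le_mul_of_one_le_left (by positivity) hl1
    have h13 : l * c ^ 2 / (16 * A ^ 2) = 4 * (l * (c ^ 2 / (64 * A ^ 2))) := by
      field_simp
      ring
    have h14 : -(1 / (64 * A ^ 2)) * c ^ 2 = -(c ^ 2 / (64 * A ^ 2)) := by ring
    have h15 : -v ^ 2 / (4 * t) = -(v ^ 2 / (4 * t)) := by ring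
    rw [h14, h15]
    rw [h13] at h8
    have h16 : l * (A * Real.log (2 * A) + p + Y + 2) =
      l * (A * Real.log (2 * A)) + l * p + l * Y + 2 * l := by ring
    rw [h16] at h11
    have h17 : 0 ≤ c ^ 2 / (64 * A ^ 2) := by positivity
    linarith only [h8, h9, h11, h12, h17, hl0]
  calc (n ! : ℝ) * (2 / c) ^ (n + 1) * Real.exp (4 * c ^ 2) * Real.exp (l * p) *
      Real.exp (-v ^ 2 / (4 * t))
      ≤ 2 * (l ^ n * Real.exp (l * (A * Real.log (2 * A)))) * Real.exp (4 * c ^ 2) *
        Real.exp (l * p) * Real.exp (-v ^ 2 / (4 * t)) := by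
        apply mul_le_mul_of_nonneg_right _ (Real.exp_nonneg _)
        apply mul_le_mul_of_nonneg_right _ (Real.exp_nonneg _)
        exact mul_le_mul_of_nonneg_right h5 (Real.exp_nonneg _)
    _ = 2 * (l ^ n * Real.exp (l * (A * Real.log (2 * A)) + 4 * c ^ 2 + l * p +
        -v ^ 2 / (4 * t))) := by
        rw [Real.exp_add, Real.exp_add, Real.exp_add]
        ring
    _ ≤ 2 * (l ^ n * Real.exp ((-(l * Y) - l) + -(1 / (64 * A ^ 2)) * c ^ 2)) := by
        apply mul_le_mul_of_nonneg_left _ (by norm_num)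
        exact mul_le_mul_of_nonneg_left (Real.exp_le_exp.2 h6) (by positivity)
    _ = _ := by
        rw [Real.exp_add]
        ring

/-- the normalisation of the Gaussian -/
theorem dc_left_Nt (A l t β : ℝ) (n : ℕ) (hA : 1 ≤ A) (hl : 1 ≤ l) (ht : 0 < t) (hβ : 0 < β)
    (hn : n ≤ A * l) (ht1 : β ^ 2 ≤ 8 * n * t) : Nt t ≤ A * l / β := by
  have h1 : β ^ 2 / (A * l) ≤ 4 * Real.pi * t := by
    rw [div_le_iff₀ (by positivity)]
    have h2 : 8 * n * t ≤ 8 * (A * l) * t := by
      apply mul_le_mul_of_nonneg_right _ ht.le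
      linarith
    have h3 := Real.pi_gt_three
    have h4 : 0 ≤ A * l * t := by positivity
    nlinarith
  have h5 : β / (A * l) ≤ Real.sqrt (4 * Real.pi * t) := by
    apply Real.le_sqrt_of_sq_le
    refine le_trans ?_ h1
    rw [div_pow]
    apply div_le_div_of_nonneg_left (by positivity) (by positivity)
    have : 1 ≤ A * l := by nlinarith
    nlinarith
  unfold Nt
  have h6 : 0 < β / (A * l) := by positivity
  calc (Real.sqrt (4 * Real.pi * t))⁻¹ ≤ (β / (A * l))⁻¹ := inv_anti₀ h6 h5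
    _ = A * l / β := by rw [inv_div]

theorem p_left (hK : S_Kn) (hD : S_dec) : S_left := by
  intro A B C₂ p β δ ε hA hB hC₂ hp hpβ hδ hε
  have hA0 : 0 < A := by linarith
  have hβ0 : 0 < β := by linarith
  obtain ⟨X, hX⟩ : ∃ X, X = A * Real.log (2 * A) + p + (B + β) + 2 := ⟨_, rfl⟩
  have hX1 : 1 ≤ X := by
    have h5 : 0 ≤ Real.log (2 * A) := Real.log_nonneg (by linarith)
    have := mul_nonneg hA0.le h5
    linarith
  obtain ⟨A', hA'⟩ : ∃ A', A' = 8 * A * X + 2 * (p + B + β) + A := ⟨_, rfl⟩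
  have hAX : 0 < A * X := by positivity
  have hA'1 : 1 ≤ A' := by linarith
  have hA'A : A ≤ A' := by linarith
  have hA'p : 2 * (p + B + β) ≤ A' := by linarith
  have hA'X : 8 * A * X ≤ A' := by linarith
  obtain ⟨C, θ, n₀, hC1, -, -, hK2⟩ := hK.2 A' 1 hA'1 one_pos
  obtain ⟨g, hg⟩ : ∃ g, g = 3 * (β - p) / 4 := ⟨_, rfl⟩
  have hg0 : 0 < g := by linarith
  obtain ⟨γ, hγ⟩ : ∃ γ, γ = min (min (g ^ 2 / (4 * A ^ 2)) δ) 1 := ⟨_, rfl⟩
  have hγ0 : 0 < γ := by
    rw [hγ]
    exact lt_min (lt_min (by positivity) hδ) one_pos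
  have hγg : γ ≤ g ^ 2 / (4 * A ^ 2) := by
    rw [hγ]; exact (min_le_left _ _).trans (min_le_left _ _)
  have hγδ : γ ≤ δ := by
    rw [hγ]; exact (min_le_left _ _).trans (min_le_right _ _)
  have hγ1 : γ ≤ 1 := by
    rw [hγ]; exact min_le_right _ _
  obtain ⟨E₀, hE₀⟩ : ∃ E₀, E₀ = 2 * C₂ * Real.exp (p ^ 2 / 16 + 70) := ⟨_, rfl⟩
  have hE₀0 : 0 < E₀ := by rw [hE₀]; positivity
  obtain ⟨C₇, hC₇⟩ : ∃ C₇, C₇ = E₀ * (Real.exp 1 * C) * Real.exp (A' ^ 2 / (64 * A ^ 2)) +
    2 * E₀ := ⟨_, rfl⟩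
  have hC0 : 0 < C := by linarith
  have hC₇0 : 0 < C₇ := by rw [hC₇]; positivity
  obtain ⟨C₉, hC₉⟩ : ∃ C₉, C₉ = A / β * C₇ * A * (16 * A) := ⟨_, rfl⟩
  have hC₉0 : 0 < C₉ := by rw [hC₉]; positivity
  refine ⟨1 + A * n₀ + 256 * A ^ 2 + 6 * C₉ / (γ ^ 3 * ε), ?_, ?_⟩
  · have h1 : 0 ≤ A * n₀ := by positivity
    have h2 : 0 ≤ 6 * C₉ / (γ ^ 3 * ε) := by positivity
    have h3 : 0 ≤ 256 * A ^ 2 := by positivity
    linarith only [h1, h2, h3]
  intro n t ρ f Q H w hw
  obtain ⟨l, hl⟩ : ∃ l, l = ρ.re := ⟨_, rfl⟩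
  obtain ⟨hlarge, -, hn1, hn2, ht0, ht1, ht2, hdiff, hgrowth, hcrude, -, -, -⟩ := H
  rw [← hl] at hlarge hn1 hn2 hcrude
  rw [← hl]
  have h256 : 256 * A ^ 2 ≤ l := by
    have h1 : 0 ≤ A * n₀ := by positivity
    have h2 : 0 ≤ 6 * C₉ / (γ ^ 3 * ε) := by positivity
    linarith only [h1, h2, hlarge]
  have hl1 : 1 ≤ l := by
    have h1 : 0 ≤ A * n₀ := by positivity
    have h2 : 0 ≤ 6 * C₉ / (γ ^ 3 * ε) := by positivity
    have h3 : 0 ≤ 256 * A ^ 2 := by positivity
    linarith only [h1, h2, h3, hlarge]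
  have hl0 : 0 < l := by linarith only [hl1]
  have hnn₀ : (n₀ : ℝ) ≤ n := by
    have h2 : 0 ≤ 6 * C₉ / (γ ^ 3 * ε) := by positivity
    have h1 : 0 ≤ 256 * A ^ 2 := by positivity
    have h3 : A * n₀ ≤ A * n := by linarith only [h1, h2, hlarge, hn1]
    exact le_of_mul_le_mul_left h3 hA0
  have hnn₀' : n₀ ≤ n := by exact_mod_cast hnn₀
  have hn0 : (0 : ℝ) < n := by
    by_contra h
    have h1 : (n : ℝ) ≤ 0 := not_lt.1 h
    have h2 : A * n ≤ 0 := mul_nonpos_of_nonneg_of_nonpos hA0.le h1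
    linarith only [h2, hn1, hl0]
  have hn1' : 1 ≤ n := by
    have : 0 < n := by exact_mod_cast hn0
    omega
  have hn1'' : (1 : ℝ) ≤ n := by exact_mod_cast hn1'
  obtain ⟨M, hM⟩ := hgrowth
  obtain ⟨-, hLI, -, -⟩ := hD f M n t hdiff hM ht0
  have htl : l * t ≤ A ^ 2 := by
    calc l * t ≤ A * n * t := mul_le_mul_of_nonneg_right hn1 ht0.le
      _ = A * (n * t) := by ring
      _ ≤ A * A := mul_le_mul_of_nonneg_left ht2 hA0.le
      _ = A ^ 2 := by ring
  obtain ⟨c₁, hc₁⟩ : ∃ c₁ : ℝ, c₁ = n / l := ⟨_, rfl⟩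
  have hc₁0 : 0 < c₁ := by rw [hc₁]; positivity
  have hnl : (n : ℝ) = l * c₁ := by
    rw [hc₁]; field_simp
  have hc₁A : 1 / A ≤ c₁ := by
    rw [hc₁, div_le_div_iff₀ hA0 hl0]
    linarith
  obtain ⟨u, hu⟩ : ∃ u, u = w.re := ⟨_, rfl⟩
  rw [← hu, ← hc₁]
  -- the core
  have core : ∀ T : ℝ, |u| ≤ B + β → -(l * (B + β)) ≤ T →
      (∀ v : ℝ, v < p - u - c₁ → -(n * Real.log ((p - u - v) / c₁)) - n + l * p -
        v ^ 2 / (4 * t) ≤ T - γ * l) →
      Nt t * ∫ v in Set.Iio (p - u - c₁),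
        Real.exp (-v ^ 2 / (4 * t)) * ‖LI n f 1 (w + v)‖ ≤ ε * (l ^ n * Real.exp T) := by
    intro T huB hT hexp
    -- pointwise bound
    have hpt : ∀ v : ℝ, v < p - u - c₁ →
        Real.exp (-v ^ 2 / (4 * t)) * ‖LI n f 1 (w + v)‖ ≤
        (C₇ * n * (l ^ n * Real.exp (T - γ * l))) *
          Real.exp (-(1 / (64 * A ^ 2)) * (p - u - v) ^ 2) := by
      intro v hv
      obtain ⟨c, hc⟩ : ∃ c, c = p - u - v := ⟨_, rfl⟩
      have hcc₁ : c₁ ≤ c := by linarith
      have hc0 : 0 < c := by linarith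
      have hcw : c = p - w.re - v := by rw [hc, hu]
      rw [← hLI c (w + v) hc0, ← hc]
      rcases le_or_gt c A' with hcA | hcA
      · have hcA1 : 1 / A' ≤ c := by
          have : 1 / A' ≤ 1 / A := one_div_le_one_div_of_le hA0 hA'A
          linarith
        have hKn : ∀ η : ℝ, ‖Kn n (c + η * I)‖ ≤ (C * n ! * (1 / c) ^ n) *
            Real.exp (-(η ^ 2 / 4)) := fun η => (hK2 n c η hnn₀' hcA1 hcA).1
        have h1 := dc_left_LI n f w v c l p C₂ (C * n ! * (1 / c) ^ n) hw hcw (by linarith)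
          (by positivity) hcrude hKn
        have h2 := dc_left_caseA n hn1' l c C hl0 hc0 hC0.le
        rw [← hc₁] at h2
        have h3 := hexp v hv
        rw [← hc] at h3
        have h4 : ‖LI n f c (w + v)‖ ≤ E₀ * (Real.exp 1 * C * n * (l ^ n *
            Real.exp (-(n * Real.log (c / c₁)) - n))) * Real.exp (l * p) := by
          refine h1.trans ?_
          rw [← hE₀]
          apply mul_le_mul_of_nonneg_right _ (Real.exp_nonneg _)
          exact mul_le_mul_of_nonneg_left h2 hE₀0.le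
        have h5 : Real.exp (-v ^ 2 / (4 * t)) * ‖LI n f c (w + v)‖ ≤
            E₀ * (Real.exp 1 * C) * n * (l ^ n * Real.exp (T - γ * l)) := by
          calc Real.exp (-v ^ 2 / (4 * t)) * ‖LI n f c (w + v)‖
              ≤ Real.exp (-v ^ 2 / (4 * t)) * (E₀ * (Real.exp 1 * C * n * (l ^ n *
                Real.exp (-(n * Real.log (c / c₁)) - n))) * Real.exp (l * p)) :=
                mul_le_mul_of_nonneg_left h4 (Real.exp_nonneg _)
            _ = E₀ * (Real.exp 1 * C) * n * (l ^ n * (Real.exp (-(n * Real.log (c / c₁)) - n) *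
                Real.exp (l * p) * Real.exp (-v ^ 2 / (4 * t)))) := by ring
            _ ≤ E₀ * (Real.exp 1 * C) * n * (l ^ n * Real.exp (T - γ * l)) := by
                apply mul_le_mul_of_nonneg_left _ (by positivity)
                apply mul_le_mul_of_nonneg_left _ (by positivity)
                rw [← Real.exp_add, ← Real.exp_add]
                apply Real.exp_le_exp.2
                have h15 : -v ^ 2 / (4 * t) = -(v ^ 2 / (4 * t)) := by ring
                rw [h15]
                linarith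
        have h6 : 1 ≤ Real.exp (A' ^ 2 / (64 * A ^ 2)) *
            Real.exp (-(1 / (64 * A ^ 2)) * c ^ 2) := by
          rw [← Real.exp_add]
          apply Real.one_le_exp
          have h7 : c ^ 2 ≤ A' ^ 2 := pow_le_pow_left₀ hc0.le hcA 2
          have h8 : A' ^ 2 / (64 * A ^ 2) + -(1 / (64 * A ^ 2)) * c ^ 2 =
            (A' ^ 2 - c ^ 2) / (64 * A ^ 2) := by ring
          rw [h8]
          apply div_nonneg _ (by positivity)
          linarith
        have h9 : 0 ≤ E₀ * (Real.exp 1 * C) * n * (l ^ n * Real.exp (T - γ * l)) := by positivity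
        calc Real.exp (-v ^ 2 / (4 * t)) * ‖LI n f c (w + v)‖
            ≤ E₀ * (Real.exp 1 * C) * n * (l ^ n * Real.exp (T - γ * l)) := h5
          _ ≤ E₀ * (Real.exp 1 * C) * n * (l ^ n * Real.exp (T - γ * l)) *
              (Real.exp (A' ^ 2 / (64 * A ^ 2)) * Real.exp (-(1 / (64 * A ^ 2)) * c ^ 2)) :=
              le_mul_of_one_le_right h9 h6
          _ = (E₀ * (Real.exp 1 * C) * Real.exp (A' ^ 2 / (64 * A ^ 2))) *
              (n * (l ^ n * Real.exp (T - γ * l)) * Real.exp (-(1 / (64 * A ^ 2)) * c ^ 2)) := by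
              ring
          _ ≤ C₇ * (n * (l ^ n * Real.exp (T - γ * l)) *
              Real.exp (-(1 / (64 * A ^ 2)) * c ^ 2)) := by
              apply mul_le_mul_of_nonneg_right _ (by positivity)
              rw [hC₇]
              linarith
          _ = _ := by ring
      · have hc1 : 1 ≤ c := by linarith
        have hKn : ∀ η : ℝ, ‖Kn n (c + η * I)‖ ≤ (n ! * (2 / c) ^ (n + 1) *
            Real.exp (4 * c ^ 2)) * Real.exp (-(η ^ 2 / 4)) := by
          intro η
          refine (hK.1 n c η hc0).trans (le_of_eq ?_)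
          rw [show 4 * c ^ 2 - η ^ 2 / 4 = 4 * c ^ 2 + -(η ^ 2 / 4) by ring, Real.exp_add]
          ring
        have h1 := dc_left_LI n f w v c l p C₂ (n ! * (2 / c) ^ (n + 1) *
            Real.exp (4 * c ^ 2)) hw hcw (by linarith) (by positivity) hcrude hKn
        have hvabs : c / 2 ≤ |v| := by
          have h2 : v = p - u - c := by rw [hc]; ring
          have h3 : p - u ≤ A' / 2 := by
            have := neg_abs_le u
            linarith
          have h4 : v ≤ -(c / 2) := by linarith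
          rw [abs_of_nonpos (by linarith)]
          linarith
        have hc2 : 64 * A ^ 2 * (A * Real.log (2 * A) + p + (B + β) + 2) ≤ c ^ 2 := by
          rw [← hX]
          have h2 : (8 * A * X) ^ 2 ≤ c ^ 2 :=
            pow_le_pow_left₀ (by positivity) (hA'X.trans hcA.le) 2
          have h3 : 64 * A ^ 2 * X ≤ (8 * A * X) ^ 2 := by
            have h4 : (8 * A * X) ^ 2 = 64 * A ^ 2 * (X * X) := by ring
            rw [h4]
            apply mul_le_mul_of_nonneg_left _ (by positivity)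
            exact le_mul_of_one_le_left (by linarith) hX1
          linarith
        have h2 := dc_left_caseB n A l c t v (B + β) p hA h256 hc1 hn2 ht0 htl hvabs hc2
        have h3 : Real.exp (-(l * (B + β)) - l) ≤ Real.exp (T - γ * l) := by
          apply Real.exp_le_exp.2
          have : γ * l ≤ 1 * l := mul_le_mul_of_nonneg_right hγ1 hl0.le
          linarith
        calc Real.exp (-v ^ 2 / (4 * t)) * ‖LI n f c (w + v)‖
            ≤ Real.exp (-v ^ 2 / (4 * t)) * (2 * C₂ * Real.exp (p ^ 2 / 16 + 70) *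
              (n ! * (2 / c) ^ (n + 1) * Real.exp (4 * c ^ 2)) * Real.exp (l * p)) :=
              mul_le_mul_of_nonneg_left h1 (Real.exp_nonneg _)
          _ = E₀ * (n ! * (2 / c) ^ (n + 1) * Real.exp (4 * c ^ 2) * Real.exp (l * p) *
              Real.exp (-v ^ 2 / (4 * t))) := by
              rw [hE₀]
              ring
          _ ≤ E₀ * (2 * (l ^ n * Real.exp (-(l * (B + β)) - l) *
              Real.exp (-(1 / (64 * A ^ 2)) * c ^ 2))) := mul_le_mul_of_nonneg_left h2 hE₀0.le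
          _ ≤ E₀ * (2 * (l ^ n * Real.exp (T - γ * l) *
              Real.exp (-(1 / (64 * A ^ 2)) * c ^ 2))) := by
              apply mul_le_mul_of_nonneg_left _ hE₀0.le
              apply mul_le_mul_of_nonneg_left _ (by norm_num)
              apply mul_le_mul_of_nonneg_right _ (Real.exp_nonneg _)
              exact mul_le_mul_of_nonneg_left h3 (by positivity)
          _ = 2 * E₀ * 1 * (l ^ n * Real.exp (T - γ * l)) *
              Real.exp (-(1 / (64 * A ^ 2)) * c ^ 2) := by ring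
          _ ≤ C₇ * n * (l ^ n * Real.exp (T - γ * l)) *
              Real.exp (-(1 / (64 * A ^ 2)) * c ^ 2) := by
              apply mul_le_mul_of_nonneg_right _ (Real.exp_nonneg _)
              apply mul_le_mul_of_nonneg_right _ (by positivity)
              apply mul_le_mul _ hn1'' (by norm_num) hC₇0.le
              rw [hC₇]
              have : 0 ≤ E₀ * (Real.exp 1 * C) * Real.exp (A' ^ 2 / (64 * A ^ 2)) := by positivity
              linarith
    -- integration
    have hgi : Integrable (fun v : ℝ => Real.exp (-(1 / (64 * A ^ 2)) * (p - u - v) ^ 2)) :=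
      (integrable_exp_neg_mul_sq (by positivity : (0 : ℝ) < 1 / (64 * A ^ 2))).comp_sub_left
        (p - u)
    have hgval : ∫ v : ℝ, Real.exp (-(1 / (64 * A ^ 2)) * (p - u - v) ^ 2) ≤ 16 * A := by
      have h1 := integral_sub_left_eq_self
        (fun x : ℝ => Real.exp (-(1 / (64 * A ^ 2)) * x ^ 2)) volume (p - u)
      rw [h1, integral_gaussian]
      apply Real.sqrt_le_iff.2
      refine ⟨by positivity, ?_⟩
      rw [div_div_eq_mul_div, div_one]
      calc Real.pi * (64 * A ^ 2) ≤ 4 * (64 * A ^ 2) :=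
            mul_le_mul_of_nonneg_right Real.pi_lt_four.le (by positivity)
        _ = (16 * A) ^ 2 := by ring
    have hint : ∫ v in Set.Iio (p - u - c₁),
        Real.exp (-v ^ 2 / (4 * t)) * ‖LI n f 1 (w + v)‖ ≤
        (C₇ * n * (l ^ n * Real.exp (T - γ * l))) * (16 * A) := by
      have h1 : ∫ v in Set.Iio (p - u - c₁),
          Real.exp (-v ^ 2 / (4 * t)) * ‖LI n f 1 (w + v)‖ ≤
          ∫ v in Set.Iio (p - u - c₁), (C₇ * n * (l ^ n * Real.exp (T - γ * l))) *
          Real.exp (-(1 / (64 * A ^ 2)) * (p - u - v) ^ 2) := by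
        apply integral_mono_of_nonneg
        · exact Filter.Eventually.of_forall fun v =>
            mul_nonneg (Real.exp_nonneg _) (norm_nonneg _)
        · exact (hgi.const_mul _).integrableOn
        · rw [Filter.EventuallyLE, ae_restrict_iff' measurableSet_Iio]
          exact Filter.Eventually.of_forall fun v hv => hpt v hv
      have h2 : ∫ v in Set.Iio (p - u - c₁), (C₇ * n * (l ^ n * Real.exp (T - γ * l))) *
          Real.exp (-(1 / (64 * A ^ 2)) * (p - u - v) ^ 2) ≤
          ∫ v : ℝ, (C₇ * n * (l ^ n * Real.exp (T - γ * l))) *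
          Real.exp (-(1 / (64 * A ^ 2)) * (p - u - v) ^ 2) := by
        apply setIntegral_le_integral (hgi.const_mul _)
        exact Filter.Eventually.of_forall fun v => by positivity
      refine h1.trans (h2.trans ?_)
      rw [integral_const_mul]
      exact mul_le_mul_of_nonneg_left hgval (by positivity)
    have hNt := dc_left_Nt A l t β n hA hl1 ht0 hβ0 hn2 ht1
    have hNt0 : 0 ≤ Nt t := by unfold Nt; positivity
    have hfin : C₉ * l ^ 2 * Real.exp (-(γ * l)) ≤ ε := by
      have h1 : (γ * l) ^ 3 / (3 ! : ℕ) ≤ Real.exp (γ * l) :=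
        Real.pow_div_factorial_le_exp (γ * l) (by positivity) 3
      have h2 : ((3 ! : ℕ) : ℝ) = 6 := by norm_num [Nat.factorial]
      rw [h2] at h1
      have h3 : 6 * C₉ / (γ ^ 3 * ε) ≤ l := by
        have h4 : 0 ≤ A * n₀ := by positivity
        have h5 : 0 ≤ 256 * A ^ 2 := by positivity
        linarith only [h4, h5, hlarge]
      rw [div_le_iff₀ (by positivity)] at h3
      rw [Real.exp_neg, ← div_eq_mul_inv, div_le_iff₀ (Real.exp_pos _)]
      calc C₉ * l ^ 2 = (6 * C₉) * (l ^ 2 / 6) := by ring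
        _ ≤ (l * (γ ^ 3 * ε)) * (l ^ 2 / 6) := mul_le_mul_of_nonneg_right h3 (by positivity)
        _ = ε * ((γ * l) ^ 3 / 6) := by ring
        _ ≤ ε * Real.exp (γ * l) := mul_le_mul_of_nonneg_left h1 hε.le
    calc Nt t * ∫ v in Set.Iio (p - u - c₁),
        Real.exp (-v ^ 2 / (4 * t)) * ‖LI n f 1 (w + v)‖
        ≤ (A * l / β) * ((C₇ * n * (l ^ n * Real.exp (T - γ * l))) * (16 * A)) :=
          (mul_le_mul_of_nonneg_left hint hNt0).trans
            (mul_le_mul_of_nonneg_right hNt (by positivity))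
      _ ≤ (A * l / β) * ((C₇ * (A * l) * (l ^ n * Real.exp (T - γ * l))) * (16 * A)) := by
          apply mul_le_mul_of_nonneg_left _ (by positivity)
          apply mul_le_mul_of_nonneg_right _ (by positivity)
          apply mul_le_mul_of_nonneg_right _ (by positivity)
          exact mul_le_mul_of_nonneg_left hn2 hC₇0.le
      _ = (C₉ * l ^ 2 * Real.exp (-(γ * l))) * (l ^ n * Real.exp T) := by
          rw [hC₉, show T - γ * l = T + -(γ * l) by ring, Real.exp_add]
          ring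
      _ ≤ ε * (l ^ n * Real.exp T) := mul_le_mul_of_nonneg_right hfin (by positivity)
  have hbb := dc_left_bb n t l c₁ β hc₁0 ht0 hl0 hβ0 ht1 hnl
  constructor
  · intro hu1 hu2
    apply core (t * l ^ 2 + l * u)
    · rw [abs_le]
      constructor <;> linarith
    · have h1 : 0 ≤ t * l ^ 2 := by positivity
      have h2 : -(B + β) ≤ u := by linarith
      have h3 : l * (-(B + β)) ≤ l * u := mul_le_mul_of_nonneg_left h2 hl0.le
      linarith
    · intro v hv
      have h1 := dc_left_exp n t l (p - u - v) c₁ (p - u) β hc₁0 (by linarith) ht0 hn0.le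
        (by linarith) ht1 hnl
      have h2 : (p - u - (p - u - v)) ^ 2 = v ^ 2 := by ring
      rw [h2] at h1
      have h3 : γ * l ≤ (c₁ + 2 * t * l - (p - u)) ^ 2 / (4 * t) := by
        have h4 : g ≤ c₁ + 2 * t * l - (p - u) := by linarith
        have h5 : g ^ 2 ≤ (c₁ + 2 * t * l - (p - u)) ^ 2 := pow_le_pow_left₀ hg0.le h4 2
        have h6 : γ * l ≤ g ^ 2 / (4 * A ^ 2) * l := mul_le_mul_of_nonneg_right hγg hl0.le
        have h7 : g ^ 2 / (4 * A ^ 2) * l ≤ g ^ 2 / (4 * t) := by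
          rw [div_mul_eq_mul_div, div_le_div_iff₀ (by positivity) (by positivity)]
          calc g ^ 2 * l * (4 * t) = g ^ 2 * 4 * (l * t) := by ring
            _ ≤ g ^ 2 * 4 * A ^ 2 := mul_le_mul_of_nonneg_left htl (by positivity)
            _ = g ^ 2 * (4 * A ^ 2) := by ring
        have h8 : g ^ 2 / (4 * t) ≤ (c₁ + 2 * t * l - (p - u)) ^ 2 / (4 * t) :=
          div_le_div_of_nonneg_right h5 (by positivity)
        linarith
      have h9 : l * (p - u) = l * p - l * u := by ring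
      rw [h9] at h1
      linarith
  · intro hu1 hu2
    have hT : t * l ^ 2 - l * u = t * l ^ 2 - l * u := rfl
    apply core (t * l ^ 2 - l * u)
    · rw [abs_le]
      constructor <;> linarith
    · have h1 : 0 ≤ t * l ^ 2 := by positivity
      have h3 : 0 ≤ l * (-u) := mul_nonneg hl0.le (by linarith)
      have h4 : 0 ≤ l * (B + β) := by positivity
      linarith
    · intro v hv
      have h0 : γ * l ≤ l * (-u) := by
        have : γ * l ≤ (-u) * l := mul_le_mul_of_nonneg_right (by linarith) hl0.le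
        linarith
      have hsq : l * v - v ^ 2 / (4 * t) ≤ t * l ^ 2 := by
        have h1 : t * l ^ 2 - (l * v - v ^ 2 / (4 * t)) = (v - 2 * t * l) ^ 2 / (4 * t) := by
          field_simp
          ring
        have h2 : 0 ≤ (v - 2 * t * l) ^ 2 / (4 * t) := by positivity
        linarith
      have hmain : -(n * Real.log ((p - u - v) / c₁)) - n + l * p - v ^ 2 / (4 * t) ≤
          t * l ^ 2 := by
        rcases le_or_gt v (p - c₁) with hvc | hvc
        · have h1 := dc_left_exp n t l (p - v) c₁ p β hc₁0 (by linarith) ht0 hn0.le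
            (by linarith) ht1 hnl
          have h2 : (p - (p - v)) ^ 2 = v ^ 2 := by ring
          rw [h2] at h1
          have h3 : 0 ≤ (c₁ + 2 * t * l - p) ^ 2 / (4 * t) := by positivity
          have h4 : Real.log ((p - v) / c₁) ≤ Real.log ((p - u - v) / c₁) := by
            apply Real.log_le_log (div_pos (by linarith) hc₁0)
            apply div_le_div_of_nonneg_right _ hc₁0.le
            linarith
          have h5 := mul_le_mul_of_nonneg_left h4 hn0.le
          linarith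
        · have h1 : 0 ≤ Real.log ((p - u - v) / c₁) := by
            apply Real.log_nonneg
            rw [one_le_div hc₁0]
            linarith
          have h2 := mul_nonneg hn0.le h1
          have h3 : l * p - n ≤ l * v := by
            have : l * (p - c₁) ≤ l * v := mul_le_mul_of_nonneg_left hvc.le hl0.le
            rw [hnl]
            linarith
          linarith
      linarith

end Pool.Agent.Lib.MP_cd509c_nt.DC
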