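import Pool.Agent.Lib.MP_cd509c_nt.DC.Defs2

set_option autoImplicit false

/-!
The middle range.
-/

namespace Pool.Agent.Lib.MP_cd509c_nt.DC

open Complex ComplexConjugate MeasureTheory Filter Topology
open Pool.Agent.Lib.MP_cd509c_nt.DN

/-- from the comparison of the two halves to the zeros -/
lemma dc_mid_zeros (hne : S_ne) {n : ℕ} {t x B : ℝ} (hx : 0 < x)
    (hstrip : ∀ z, HD n t z = 0 → |z.im| ≤ B)
    (h : ∀ y : ℝ, 0 < y → y ≤ B → HD n t (x - I * y) ≠ 0) :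
    ∀ z : ℂ, |z.re| = x → HD n t z = 0 → z.im = 0 := by
  intro z hz h0
  by_contra him
  obtain ⟨-, -, hconj, hneg⟩ := hne n t
  have key : ∀ u : ℂ, HD n t u = 0 → u.re = x → u.im < 0 → False := by
    intro u hu hre him
    have h1 := hstrip u hu
    rw [abs_of_neg him] at h1
    refine h (-u.im) (by linarith) h1 ?_
    have : (x : ℂ) - I * ((-u.im : ℝ) : ℂ) = u := by
      apply Complex.ext
      · simp [hre]
      · simp
    rw [this]
    exact hu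
  have key2 : ∀ u : ℂ, HD n t u = 0 → u.re = x → u.im ≠ 0 → False := by
    intro u hu hre him
    rcases lt_or_gt_of_ne him with h1 | h1
    · exact key u hu hre h1
    · refine key (conj u) ?_ ?_ ?_
      · rw [hconj, hu, map_zero]
      · simpa using hre
      · simpa using h1
  rcases abs_eq_abs.mp (show |z.re| = |x| by rw [hz, abs_of_pos hx]) with h1 | h1
  · exact key2 z h0 h1 him
  · refine key2 (-z) ?_ ?_ ?_
    · rw [hneg, h0, mul_zero]
    · simp [h1]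
    · simpa using him

/-- two-sided bound for the right half -/
lemma dc_mid_two {E Qv k : ℂ} {c₂ C₂ : ℝ} (hQ1 : c₂ ≤ ‖Qv‖) (hQ2 : ‖Qv‖ ≤ C₂)
    (h : ‖E - Qv * k‖ ≤ c₂ / 4 * ‖k‖) :
    3 * c₂ / 4 * ‖k‖ ≤ ‖E‖ ∧ ‖E‖ ≤ (C₂ + c₂ / 4) * ‖k‖ := by
  have hk : 0 ≤ ‖k‖ := norm_nonneg _
  have h1 : ‖Qv * k‖ = ‖Qv‖ * ‖k‖ := norm_mul _ _
  have h2 : ‖Qv * k‖ ≤ ‖E‖ + ‖E - Qv * k‖ := by
    have := norm_sub_le E (E - Qv * k)
    rwa [sub_sub_cancel] at this
  have h3 : ‖E‖ ≤ ‖Qv * k‖ + ‖E - Qv * k‖ := by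
    have := norm_add_le (Qv * k) (E - Qv * k)
    rwa [add_sub_cancel] at this
  have h4 := mul_le_mul_of_nonneg_right hQ1 hk
  have h5 := mul_le_mul_of_nonneg_right hQ2 hk
  rw [h1] at h2 h3
  constructor
  · linarith
  · linarith

/-- the displacement is at least `β` -/
lemma dc_mid_bb {n : ℕ} {t β : ℝ} {ρ : ℂ} (hρ : 0 < ρ.re) (ht : 0 < t)
    (h : β ^ 2 ≤ 8 * n * t) : β ≤ bb n t ρ := by
  have hb : 0 ≤ bb n t ρ := by
    unfold bb
    positivity
  have h1 : 8 * n * t ≤ bb n t ρ ^ 2 := by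
    unfold bb
    have h2 : (n / ρ.re) * (2 * t * ρ.re) = 2 * (n * t) := by field_simp
    nlinarith [sq_nonneg (n / ρ.re - 2 * t * ρ.re)]
  exact abs_le_of_sq_le_sq' (h.trans h1) hb |>.2

theorem p_mid (hne : S_ne) (hstrip : S_strip) (hlink : S_link) (hdec : S_dec) (hf12 : S_f12)
    (hP1 : S_P1) (hP2 : S_P2) (hHB : S_HB) : S_mid := by
  intro A κ hA hκ
  obtain ⟨B, hB, hst⟩ := hstrip
  set β : ℝ := Real.sqrt (8 * κ) with hβ
  have hβ2 : β ^ 2 = 8 * κ := Real.sq_sqrt (by linarith)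
  have hβ1 : 1 / 2 < β := by
    rw [hβ]
    apply Real.lt_sqrt_of_sq_lt
    linarith
  set p : ℝ := (1 / 2 + β) / 2 with hp
  have hp1 : 1 / 2 < p := by linarith
  have hpβ : p < β := by linarith
  obtain ⟨c₂, C₂, x₂, hc₂, hC₂, hx₂, hQ, hLip, hcr, hfi⟩ := hf12.2 p hp1
  set A' : ℝ := 4 * A + 3 with hA'
  set δ₁ : ℝ := min 1 ((β - p) / 4) with hδ₁
  have hδ0 : 0 < δ₁ := lt_min one_pos (by linarith)
  obtain ⟨ε', R, l₁, hε', hR, hl₁, hP1'⟩ := hP1 A' B C₂ p β (c₂ / 4) (by linarith) hB hC₂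
    (by linarith) hpβ (by linarith)
  obtain ⟨l₂, hl₂, hP2'⟩ := hP2 A' B C₂ p β (δ₁ / 2) (c₂ / 4) (by linarith) hB hC₂
    (by linarith) hpβ (by linarith) (by linarith)
  obtain ⟨x₁, hx₁⟩ := hfi R ε' hε'
  obtain ⟨x₁', hx₁'⟩ := hfi 1 1 one_pos
  set C₃ : ℝ := 2 + |Real.log (3 * c₂ / 4)| + |Real.log (C₂ + c₂ / 4)| with hC₃
  have hC₃0 : 0 < C₃ := by positivity
  set η : ℝ := δ₁ / 64 with hη
  have hη0 : 0 < η := by positivity
  set L : ℝ := l₁ + l₂ + C₃ / η + 4 with hL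
  have hCη : 0 < C₃ / η := by positivity
  refine ⟨max x₂ (max x₁ (max x₁' (Real.exp L))), hx₂.trans (le_max_left _ _), ?_⟩
  intro n x t hx hn1 hn2 ht1 ht2
  have hxx₂ : x₂ ≤ x := (le_max_left _ _).trans hx
  have hx' := (le_max_right _ _).trans hx
  have hxx₁ : x₁ ≤ x := (le_max_left _ _).trans hx'
  have hx'' := (le_max_right _ _).trans hx'
  have hxx₁' : x₁' ≤ x := (le_max_left _ _).trans hx''
  have hxL : Real.exp L ≤ x := (le_max_right _ _).trans hx''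
  have hx0 : 0 < x := by linarith
  have hlog : L ≤ Real.log x := by
    rw [Real.le_log_iff_exp_le hx0]
    exact hxL
  obtain ⟨hre, him, hcrude⟩ := hcr x hxx₂
  set ρ : ℂ := rho x with hρ
  have hre' := abs_le.mp hre
  have hρL : l₁ + l₂ + C₃ / η + 1 ≤ ρ.re := by linarith [hre'.1]
  have hρ1 : 1 ≤ ρ.re := by linarith
  have hρ0 : 0 < ρ.re := by linarith
  have hn0 : (0 : ℝ) ≤ n := Nat.cast_nonneg n
  have hnpos : 1 ≤ (n : ℝ) := by
    have h1 : (0 : ℝ) < n := by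
      by_contra hcon
      have : (n : ℝ) = 0 := le_antisymm (not_lt.mp hcon) hn0
      rw [this, mul_zero] at hn1
      linarith
    have h2 : 0 < n := by exact_mod_cast h1
    exact_mod_cast h2
  have ht0 : 0 < t := by
    by_contra hcon
    have := mul_nonpos_of_nonneg_of_nonpos hn0 (not_lt.mp hcon)
    linarith
  obtain ⟨hfd, hfs, Mg, hfg⟩ := hf12.1 x
  have hs0 : ∀ w : ℂ, p ≤ w.re → 6 + p ≤ (s0 x + w).re := by
    intro w hw
    rw [add_re, s0_re]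
    linarith
  have hHyp : ∀ l₀ ε R' : ℝ, l₀ ≤ ρ.re →
      (∀ w : ℂ, p ≤ w.re → ‖w‖ ≤ R' →
        ‖fx x w - cexp (ρ * w) * Lf (s0 x + w)‖ ≤ ε * ‖cexp (ρ * w)‖) →
      Hyp A' C₂ p β l₀ ε R' n t ρ (fx x) (fun w => Lf (s0 x + w)) := by
    intro l₀ ε R' hl hfine
    refine ⟨hl, him, ?_, ?_, ht0, ?_, ?_, hfd, ⟨Mg, hfg⟩, hcrude, hfine, ?_, ?_⟩
    · nlinarith [hre'.2]
    · nlinarith [hre'.1]
    · rw [hβ2]; nlinarith
    · linarith
    · intro w hw
      exact (hQ _ (hs0 w hw)).2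
    · intro w w' hw hw'
      have := hLip _ _ (hs0 w hw) (hs0 w' hw')
      rwa [add_sub_add_left_eq_sub] at this
  have hH1 := hHyp l₁ ε' R (by linarith) (fun w hw hwR => hx₁ x hxx₁ w hw hwR)
  have hH2 := hHyp l₂ 1 1 (by linarith) (fun w hw hwR => hx₁' x hxx₁' w hw hwR)
  set k : ℂ → ℂ := fun w => ρ ^ n * cexp (t * ρ ^ 2 + ρ * w) with hk
  have hρne : ρ ≠ 0 := by
    intro h
    rw [h] at hρ0
    simp at hρ0
  have hk0 : ∀ w, 0 < ‖k w‖ := by
    intro w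
    rw [norm_pos_iff]
    exact mul_ne_zero (pow_ne_zero _ hρne) (Complex.exp_ne_zero _)
  have hbb : β ≤ bb n t ρ := dc_mid_bb hρ0 ht0 (by rw [hβ2]; nlinarith)
  have htwo : ∀ w : ℂ, -((β - p) / 4) ≤ w.re → w.re ≤ B → |w.im| ≤ 1 →
      3 * c₂ / 4 * ‖k w‖ ≤ ‖EE n t (fx x) w‖ ∧ ‖EE n t (fx x) w‖ ≤ (C₂ + c₂ / 4) * ‖k w‖ := by
    intro w hw1 hw2 hw3
    have h1 := hP1' n t ρ (fx x) (fun w => Lf (s0 x + w)) hH1 w hw1 hw2 hw3
    have hpw : p ≤ (w + (bb n t ρ : ℂ)).re := by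
      rw [add_re, ofReal_re]
      linarith
    obtain ⟨h2, h3⟩ := hQ _ (hs0 _ hpw)
    exact dc_mid_two h2 h3 h1
  have hlogk : ∀ w : ℂ, Real.log ‖k w‖ = Real.log ‖k 0‖ + (ρ.re * w.re - ρ.im * w.im) := by
    intro w
    have h1 : ‖k w‖ = ‖k 0‖ * Real.exp (ρ.re * w.re - ρ.im * w.im) := by
      have h2 : k w = k 0 * cexp (ρ * w) := by
        simp only [hk, mul_zero, add_zero]
        rw [Complex.exp_add]
        ring
      rw [h2, norm_mul, Complex.norm_exp, mul_re]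
    rw [h1, Real.log_mul (hk0 0).ne' (Real.exp_ne_zero _), Real.log_exp]
  -- the inner range
  have hin : ∀ y : ℝ, 0 < y → y ≤ δ₁ / 2 →
      ‖EE n t (fx x) (-(y : ℂ))‖ < ‖EE n t (fx x) y‖ := by
    refine hHB δ₁ η ρ.re (Real.log ‖k 0‖) (EE n t (fx x)) hδ0 hρ0 hη0.le (by linarith)
      (hdec (fx x) Mg n t hfd hfg ht0).1.differentiableOn ?_
    intro w hw
    have hwn : ‖w‖ < δ₁ := by simpa using hw
    have hwre := (Complex.abs_re_le_norm w).trans hwn.le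
    have hwim := (Complex.abs_im_le_norm w).trans hwn.le
    have hδ1 : δ₁ ≤ 1 := min_le_left _ _
    have hδ2 : δ₁ ≤ (β - p) / 4 := min_le_right _ _
    have hwre' := abs_le.mp hwre
    obtain ⟨h1, h2⟩ := htwo w (by linarith [hwre'.1]) (by linarith [hwre'.2])
      (hwim.trans hδ1)
    have hkw := hk0 w
    have h3 : 0 < 3 * c₂ / 4 * ‖k w‖ := by positivity
    have hE : 0 < ‖EE n t (fx x) w‖ := lt_of_lt_of_le h3 h1
    refine ⟨norm_pos_iff.mp hE, ?_⟩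
    have h4 := Real.log_le_log h3 h1
    have h5 := Real.log_le_log hE h2
    rw [Real.log_mul (by positivity) hkw.ne', hlogk w] at h4
    rw [Real.log_mul (by positivity) hkw.ne', hlogk w] at h5
    have h6 : |ρ.im * w.im| ≤ 2 := by
      rw [abs_mul]
      calc |ρ.im| * |w.im| ≤ 2 * 1 := by
            apply mul_le_mul him (hwim.trans hδ1) (abs_nonneg _) (by norm_num)
        _ = 2 := by norm_num
    have h6' := abs_le.mp h6
    have h7 : C₃ ≤ η * ρ.re := by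
      have h8 : C₃ / η ≤ ρ.re := by linarith
      rw [div_le_iff₀ hη0] at h8
      linarith
    have h9 := neg_abs_le (Real.log (3 * c₂ / 4))
    have h10 := le_abs_self (Real.log (C₂ + c₂ / 4))
    have h11 := abs_nonneg (Real.log (3 * c₂ / 4))
    have h12 := abs_nonneg (Real.log (C₂ + c₂ / 4))
    refine le_trans ?_ h7
    rw [abs_le]
    constructor
    · linarith [h6'.1, h6'.2]
    · linarith [h6'.1, h6'.2]
  -- the full range
  have hall : ∀ y : ℝ, 0 < y → y ≤ B → ‖EE n t (fx x) (-(y : ℂ))‖ < ‖EE n t (fx x) y‖ := by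
    intro y hy hyB
    by_cases hyδ : y ≤ δ₁ / 2
    · exact hin y hy hyδ
    · push Not at hyδ
      have h1 := hP2' n t ρ (fx x) (fun w => Lf (s0 x + w)) hH2 y hyδ.le hyB
      obtain ⟨h2, -⟩ := htwo y (by rw [ofReal_re]; linarith) (by rw [ofReal_re]; exact hyB)
        (by rw [ofReal_im, abs_zero]; norm_num)
      have h3 := hk0 y
      refine lt_of_le_of_lt h1 (lt_of_lt_of_le ?_ h2)
      have h4 : c₂ / 4 * ‖k y‖ < 3 * c₂ / 4 * ‖k y‖ := by
        apply mul_lt_mul_of_pos_right _ h3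
        linarith
      exact h4
  refine dc_mid_zeros hne hx0 (hst n t ht0.le) ?_
  intro y hy hyB hzero
  obtain ⟨c₁, hc₁, hdec1⟩ := (hdec (fx x) Mg n t hfd hfg ht0).2.2.2 hfs
  have h1 := hdec1 y
  have h2 : Gv t (fx x) = fun z : ℂ => Ht t (x - I * (((1 : ℝ) : ℂ) * z)) / m0 x := by
    funext z
    rw [hlink.1 t x z ht0, ofReal_one, one_mul]
  have h3 := hlink.2.1 n t x 1 y
  rw [← h2] at h3
  rw [h3, ofReal_one, one_mul, hzero, mul_zero, zero_div] at h1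
  have h4 : EE n t (fx x) y = -(c₁ * conj (EE n t (fx x) (-conj (y : ℂ)))) := by
    linear_combination -h1
  have h5 := congrArg norm h4
  rw [norm_neg, norm_mul, hc₁, one_mul, RCLike.norm_conj, conj_ofReal] at h5
  have h6 := hall y hy hyB
  rw [h5] at h6
  exact lt_irrefl _ h6

end Pool.Agent.Lib.MP_cd509c_nt.DC
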