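import Pool.Agent.Lib.MP_cd509c_nt.DC.Defs2

/-! Piece `P1` of project DC, stage 2 (helper89), part 1: estimates for the inner integral. -/

set_option autoImplicit false

namespace Pool.Agent.Lib.MP_cd509c_nt.DC

open Complex ComplexConjugate MeasureTheory Filter Topology
open Pool.Agent.Lib.MP_cd509c_nt.DN
open scoped Nat

theorem dc_P1_fact {n : ℕ} (hn : 1 ≤ n) :
    (n ! : ℝ) * Real.exp n ≤ 3 * Real.sqrt n * (n : ℝ) ^ n := by
  obtain ⟨m, rfl⟩ : ∃ m, n = m + 1 := ⟨n - 1, by omega⟩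
  have h := Stirling.stirlingSeq'_antitone (Nat.zero_le m)
  simp only [Function.comp, Nat.succ_eq_add_one, zero_add, Stirling.stirlingSeq_one] at h
  rw [Stirling.stirlingSeq] at h
  have h0 : (0 : ℝ) < ((m + 1 : ℕ) : ℝ) := by positivity
  have he : Real.exp ((m + 1 : ℕ) : ℝ) = Real.exp 1 ^ (m + 1) := by
    rw [← Real.exp_nat_mul, mul_one]
  have h2 : (0 : ℝ) < Real.sqrt 2 := Real.sqrt_pos.mpr (by norm_num)
  have hs : 0 < Real.sqrt ((m + 1 : ℕ) : ℝ) := Real.sqrt_pos.mpr h0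
  rw [div_le_div_iff₀ (by positivity) h2, Real.sqrt_mul (by norm_num), div_pow] at h
  have h3 : ((m + 1) ! : ℝ) * Real.sqrt 2 * Real.exp 1 ^ (m + 1) ≤
      Real.exp 1 * (Real.sqrt 2 * Real.sqrt ((m + 1 : ℕ) : ℝ) * ((m + 1 : ℕ) : ℝ) ^ (m + 1)) := by
    have h4 := mul_le_mul_of_nonneg_right h (pow_nonneg (Real.exp_pos 1).le (m + 1))
    refine h4.trans (le_of_eq ?_)
    have h5 : Real.exp 1 ^ (m + 1) ≠ 0 := by positivity
    field_simp
  rw [he]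
  have h6 : ((m + 1) ! : ℝ) * Real.exp 1 ^ (m + 1) ≤
      Real.exp 1 * (Real.sqrt ((m + 1 : ℕ) : ℝ) * ((m + 1 : ℕ) : ℝ) ^ (m + 1)) := by
    refine le_of_mul_le_mul_left ?_ h2
    calc Real.sqrt 2 * (((m + 1) ! : ℝ) * Real.exp 1 ^ (m + 1)) =
        ((m + 1) ! : ℝ) * Real.sqrt 2 * Real.exp 1 ^ (m + 1) := by ring
      _ ≤ _ := h3
      _ = _ := by ring
  have h7 : Real.exp 1 ≤ 3 := by linarith [Real.exp_one_lt_d9]
  have h8 : 0 ≤ Real.sqrt ((m + 1 : ℕ) : ℝ) * ((m + 1 : ℕ) : ℝ) ^ (m + 1) := by positivity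
  nlinarith

theorem dc_P1_gi {a : ℝ} (ha : 0 < a) : Integrable (fun η : ℝ => Real.exp (-(a * η ^ 2))) := by
  simpa [neg_mul] using integrable_exp_neg_mul_sq ha

theorem dc_P1_gv (a : ℝ) : ∫ η : ℝ, Real.exp (-(a * η ^ 2)) = Real.sqrt (Real.pi / a) := by
  simpa [neg_mul] using integral_gaussian a

theorem dc_P1_in {K : ℝ → ℂ} {f : ℂ → ℂ} {q ρ z₀ : ℂ} {c a₁ a₂ m : ℝ} (hf : Continuous f)
    (hm : 0 < m) (hK : Integrable (fun η : ℝ => cexp (ρ * (c + η * I)) * K η))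
    (hb : ∀ η : ℝ, ‖(f (z₀ + (c + η * I)) - q * cexp (ρ * (z₀ + (c + η * I)))) * K η‖ ≤
      a₁ * Real.exp (-(m * η ^ 2)) + a₂ * Real.exp (-(1 / 16 * η ^ 2))) :
    ‖(∫ η : ℝ, f (z₀ + (c + η * I)) * K η) -
      q * cexp (ρ * z₀) * ∫ η : ℝ, cexp (ρ * (c + η * I)) * K η‖ ≤
      a₁ * Real.sqrt (Real.pi / m) + a₂ * (4 * Real.sqrt Real.pi) := by
  have hg : Integrable (fun η : ℝ => a₁ * Real.exp (-(m * η ^ 2)) +
      a₂ * Real.exp (-(1 / 16 * η ^ 2))) :=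
    ((dc_P1_gi hm).const_mul _).add ((dc_P1_gi (by norm_num)).const_mul _)
  have hKm : AEStronglyMeasurable K volume := by
    have h1 : K = fun η : ℝ => cexp (-(ρ * (c + η * I))) * (cexp (ρ * (c + η * I)) * K η) := by
      funext η
      rw [← mul_assoc, ← Complex.exp_add, neg_add_cancel, Complex.exp_zero, one_mul]
    rw [h1]
    exact (Continuous.aestronglyMeasurable (by fun_prop)).mul hK.aestronglyMeasurable
  have hG : Integrable (fun η : ℝ =>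
      (f (z₀ + (c + η * I)) - q * cexp (ρ * (z₀ + (c + η * I)))) * K η) := by
    refine hg.mono' (AEStronglyMeasurable.mul (Continuous.aestronglyMeasurable ?_) hKm)
      (Eventually.of_forall hb)
    fun_prop
  have he : (∫ η : ℝ, f (z₀ + (c + η * I)) * K η) -
      q * cexp (ρ * z₀) * ∫ η : ℝ, cexp (ρ * (c + η * I)) * K η =
      ∫ η : ℝ, (f (z₀ + (c + η * I)) - q * cexp (ρ * (z₀ + (c + η * I)))) * K η := by
    rw [← integral_const_mul, sub_eq_iff_eq_add, ← integral_add hG (hK.const_mul _)]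
    congr 1
    funext η
    rw [mul_add ρ z₀, Complex.exp_add]
    ring
  rw [he]
  refine (norm_integral_le_of_norm_le hg (Eventually.of_forall hb)).trans (le_of_eq ?_)
  rw [integral_add ((dc_P1_gi hm).const_mul _) ((dc_P1_gi (by norm_num)).const_mul _),
    integral_const_mul, integral_const_mul, dc_P1_gv, dc_P1_gv]
  have h16 : Real.sqrt (Real.pi / (1 / 16)) = 4 * Real.sqrt Real.pi := by
    rw [show Real.pi / (1 / 16) = 4 ^ 2 * Real.pi by ring, Real.sqrt_mul (by norm_num),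
      Real.sqrt_sq (by norm_num)]
  rw [h16]

theorem dc_P1_pt {n : ℕ} {A C₀ C₁ C₂ θ δ₄ e₁ N₀ L r E x y η : ℝ} {P : Prop} (hA : δ₄ ≤ A)
    (hC₀ : 0 ≤ C₀) (hC₁ : 0 ≤ C₁) (hC₂ : 0 ≤ C₂) (hθ : 0 ≤ θ) (he : 0 ≤ e₁) (hN : 0 ≤ N₀)
    (hE : 0 ≤ E) (hP : ¬ P → 1 ≤ E) (hy : 0 ≤ y)
    (h0 : |η| ≤ A → y ≤ C₀ * N₀ * Real.exp (-(n * η ^ 2 / C₀)))
    (h1 : y ≤ C₁ * N₀ * Real.exp (-(η ^ 2 / 4)))
    (h2 : δ₄ ≤ |η| → y ≤ C₁ * N₀ * θ ^ n * Real.exp (-(η ^ 2 / 4)))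
    (hf1 : |η| ≤ δ₄ → P → x ≤ e₁ * Real.exp (L + 4))
    (hf2 : x ≤ 2 * C₂ * Real.exp (L + 4 + 4 * |η| + r ^ 2 / 16 + 1 / 8 + η ^ 2 / 8)) :
    x * y ≤ C₀ * N₀ * e₁ * Real.exp (L + 4) * Real.exp (-(n / C₀ * η ^ 2)) +
      2 * C₁ * C₂ * N₀ * Real.exp (L + 69 + r ^ 2 / 16) * (θ ^ n + E) *
        Real.exp (-(1 / 16 * η ^ 2)) := by
  have hθn : 0 ≤ θ ^ n := pow_nonneg hθ n
  have p1 : 0 ≤ C₀ * N₀ * e₁ * Real.exp (L + 4) * Real.exp (-(n / C₀ * η ^ 2)) := by positivity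
  have hex : Real.exp (L + 4 + 4 * |η| + r ^ 2 / 16 + 1 / 8 + η ^ 2 / 8) *
      Real.exp (-(η ^ 2 / 4)) ≤ Real.exp (L + 69 + r ^ 2 / 16) * Real.exp (-(1 / 16 * η ^ 2)) := by
    rw [← Real.exp_add, ← Real.exp_add]
    apply Real.exp_le_exp.mpr
    have : 0 ≤ (|η| - 32) ^ 2 := sq_nonneg _
    have h3 : |η| ^ 2 = η ^ 2 := sq_abs η
    nlinarith
  have key : ∀ g : ℝ, 0 ≤ g → g ≤ θ ^ n + E → y ≤ C₁ * N₀ * g * Real.exp (-(η ^ 2 / 4)) →
      x * y ≤ 2 * C₁ * C₂ * N₀ * Real.exp (L + 69 + r ^ 2 / 16) * (θ ^ n + E) *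
        Real.exp (-(1 / 16 * η ^ 2)) := by
    intro g hg hg1 hg2
    calc x * y ≤ (2 * C₂ * Real.exp (L + 4 + 4 * |η| + r ^ 2 / 16 + 1 / 8 + η ^ 2 / 8)) *
          (C₁ * N₀ * g * Real.exp (-(η ^ 2 / 4))) := mul_le_mul hf2 hg2 hy (by positivity)
      _ = (2 * C₁ * C₂ * N₀) * g * (Real.exp (L + 4 + 4 * |η| + r ^ 2 / 16 + 1 / 8 + η ^ 2 / 8) *
          Real.exp (-(η ^ 2 / 4))) := by ring
      _ ≤ (2 * C₁ * C₂ * N₀) * (θ ^ n + E) *
          (Real.exp (L + 69 + r ^ 2 / 16) * Real.exp (-(1 / 16 * η ^ 2))) := by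
        apply mul_le_mul _ hex (by positivity) (by positivity)
        exact mul_le_mul_of_nonneg_left hg1 (by positivity)
      _ = _ := by ring
  by_cases hη : |η| ≤ δ₄
  · by_cases hp : P
    · have p2 : 0 ≤ 2 * C₁ * C₂ * N₀ * Real.exp (L + 69 + r ^ 2 / 16) * (θ ^ n + E) *
          Real.exp (-(1 / 16 * η ^ 2)) := by positivity
      have h3 := h0 (hη.trans hA)
      have h4 := hf1 hη hp
      have h5 : x * y ≤ (e₁ * Real.exp (L + 4)) * (C₀ * N₀ * Real.exp (-(n * η ^ 2 / C₀))) :=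
        mul_le_mul h4 h3 hy (by positivity)
      have h6 : (n : ℝ) * η ^ 2 / C₀ = n / C₀ * η ^ 2 := by ring
      rw [h6] at h5
      linarith [h5, show (e₁ * Real.exp (L + 4)) * (C₀ * N₀ * Real.exp (-(n / C₀ * η ^ 2))) =
        C₀ * N₀ * e₁ * Real.exp (L + 4) * Real.exp (-(n / C₀ * η ^ 2)) by ring]
    · have h3 := key 1 zero_le_one (by linarith [hP hp]) (by rw [mul_one]; exact h1)
      linarith
  · have h3 := key (θ ^ n) hθn (by linarith) (h2 (by linarith [not_le.mp hη]))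
    linarith

/-- the weight at the displacement `v` -/
theorem dc_P1_out {n : ℕ} {C₀ C₁ C₂ θ δ₄ e₁ M t l u v : ℝ} (hn : 1 ≤ n) (hC₀ : 1 ≤ C₀)
    (hC₁ : 0 ≤ C₁) (hC₂ : 0 ≤ C₂) (hθ : 0 ≤ θ) (he : 0 ≤ e₁) (ht : 0 < t) (ht1 : t ≤ 1)
    (hl : 0 < l) (hM : |u + (n / l + 2 * t * l)| ≤ M) :
    Real.exp (-v ^ 2 / (4 * t)) * (1 / (2 * Real.pi) *
      ((C₀ * (n ! * (1 / (n / l)) ^ n) * e₁ * Real.exp (l * (u + v + n / l) + 4)) *
        Real.sqrt (Real.pi / (n / C₀)) +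
      (2 * C₁ * C₂ * (n ! * (1 / (n / l)) ^ n) *
        Real.exp (l * (u + v + n / l) + 69 + (u + v + n / l) ^ 2 / 16) *
        (θ ^ n + Real.exp (((v - 2 * t * l) ^ 2 - δ₄ ^ 2) / (16 * t)))) *
        (4 * Real.sqrt Real.pi))) ≤
      (2 * Real.exp 4 * C₀ ^ 2 * e₁ + 12 * C₁ * C₂ * Real.exp (69 + M ^ 2 / 8) * (Real.sqrt n *
        (θ ^ n + Real.exp (-(δ₄ ^ 2 / (16 * t)))))) * (l ^ n * Real.exp (t * l ^ 2 + l * u)) *
        Real.exp (-(v - 2 * t * l) ^ 2 / (16 * t)) := by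
  have hn0 : (0 : ℝ) < n := by exact_mod_cast hn
  have hsn : 0 < Real.sqrt n := Real.sqrt_pos.mpr hn0
  have hθn : 0 ≤ θ ^ n := pow_nonneg hθ n
  have hpi := Real.pi_gt_three
  have hpi0 := Real.pi_pos
  set N₀ : ℝ := n ! * (1 / (n / l)) ^ n with hN₀
  set s : ℝ := v - 2 * t * l with hs
  have hN0 : 0 ≤ N₀ := by positivity
  have hN1 : N₀ * Real.exp n ≤ 3 * Real.sqrt n * l ^ n := by
    have h1 := dc_P1_fact hn
    have h2 : (1 / ((n : ℝ) / l)) ^ n = l ^ n / n ^ n := by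
      rw [one_div_div, div_pow]
    have h3 : (0 : ℝ) < (n : ℝ) ^ n := by positivity
    rw [hN₀, h2]
    have h4 : (n ! : ℝ) * (l ^ n / n ^ n) * Real.exp n = ((n ! : ℝ) * Real.exp n) * l ^ n / n ^ n := by
      ring
    rw [h4, div_le_iff₀ h3]
    calc ((n ! : ℝ) * Real.exp n) * l ^ n ≤ (3 * Real.sqrt n * (n : ℝ) ^ n) * l ^ n :=
          mul_le_mul_of_nonneg_right h1 (by positivity)
      _ = _ := by ring
  have hexp : l * (u + v + n / l) = l * (u + v) + n := by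
    field_simp
  have hid : -v ^ 2 / (4 * t) + l * (u + v) = t * l ^ 2 + l * u - s ^ 2 / (4 * t) := by
    rw [hs]
    field_simp
    ring
  have hr : (u + v + n / l) ^ 2 / 16 ≤ M ^ 2 / 8 + s ^ 2 / 8 := by
    have h1 : u + v + n / l = (u + (n / l + 2 * t * l)) + s := by rw [hs]; ring
    have h2 : (u + (n / l + 2 * t * l)) ^ 2 ≤ M ^ 2 := sq_le_sq' (abs_le.1 hM).1 (abs_le.1 hM).2
    rw [h1]
    nlinarith [sq_nonneg ((u + (n / l + 2 * t * l)) - s)]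
  have hst : s ^ 2 / 8 ≤ s ^ 2 / (8 * t) := by
    apply div_le_div_of_nonneg_left (sq_nonneg s) (by positivity) (by linarith)
  have h4t : s ^ 2 / (4 * t) = 4 * (s ^ 2 / (16 * t)) := by field_simp; ring
  have h8t : s ^ 2 / (8 * t) = 2 * (s ^ 2 / (16 * t)) := by field_simp; ring
  have hs0 : 0 ≤ s ^ 2 / (16 * t) := by positivity
  have hsneg : -s ^ 2 / (16 * t) = -(s ^ 2 / (16 * t)) := by ring
  have hT : 0 < l ^ n * Real.exp (t * l ^ 2 + l * u) := by positivity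
  -- first term
  have f1 : Real.exp (-v ^ 2 / (4 * t)) * (1 / (2 * Real.pi) *
      ((C₀ * N₀ * e₁ * Real.exp (l * (u + v + n / l) + 4)) * Real.sqrt (Real.pi / (n / C₀)))) ≤
      2 * Real.exp 4 * C₀ ^ 2 * e₁ * (l ^ n * Real.exp (t * l ^ 2 + l * u)) *
        Real.exp (-s ^ 2 / (16 * t)) := by
    have h1 : Real.sqrt (Real.pi / (n / C₀)) * Real.sqrt n ≤ Real.pi * C₀ := by
      rw [← Real.sqrt_mul (by positivity)]
      have h2 : Real.pi / (n / C₀) * n = Real.pi * C₀ := by field_simp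
      rw [h2, Real.sqrt_le_left (by positivity)]
      nlinarith [mul_le_mul hpi.le hC₀ zero_le_one hpi0.le]
    have h2 : Real.exp (-v ^ 2 / (4 * t)) * Real.exp (l * (u + v + n / l) + 4) ≤
        Real.exp n * Real.exp 4 * Real.exp (t * l ^ 2 + l * u) * Real.exp (-s ^ 2 / (16 * t)) := by
      rw [← Real.exp_add, ← Real.exp_add, ← Real.exp_add, ← Real.exp_add]
      apply Real.exp_le_exp.mpr
      rw [hexp, hsneg]
      linarith
    calc Real.exp (-v ^ 2 / (4 * t)) * (1 / (2 * Real.pi) *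
        ((C₀ * N₀ * e₁ * Real.exp (l * (u + v + n / l) + 4)) * Real.sqrt (Real.pi / (n / C₀)))) =
        (1 / (2 * Real.pi) * C₀ * N₀ * e₁ * Real.sqrt (Real.pi / (n / C₀))) *
          (Real.exp (-v ^ 2 / (4 * t)) * Real.exp (l * (u + v + n / l) + 4)) := by ring
      _ ≤ (1 / (2 * Real.pi) * C₀ * N₀ * e₁ * Real.sqrt (Real.pi / (n / C₀))) *
          (Real.exp n * Real.exp 4 * Real.exp (t * l ^ 2 + l * u) *
            Real.exp (-s ^ 2 / (16 * t))) := mul_le_mul_of_nonneg_left h2 (by positivity)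
      _ = (N₀ * Real.exp n) * (1 / (2 * Real.pi) * C₀ * e₁ * Real.sqrt (Real.pi / (n / C₀)) *
          Real.exp 4 * Real.exp (t * l ^ 2 + l * u) * Real.exp (-s ^ 2 / (16 * t))) := by ring
      _ ≤ (3 * Real.sqrt n * l ^ n) *
          (1 / (2 * Real.pi) * C₀ * e₁ * Real.sqrt (Real.pi / (n / C₀)) *
          Real.exp 4 * Real.exp (t * l ^ 2 + l * u) * Real.exp (-s ^ 2 / (16 * t))) :=
        mul_le_mul_of_nonneg_right hN1 (by positivity)
      _ = (Real.sqrt (Real.pi / (n / C₀)) * Real.sqrt n) * (3 * l ^ n * (1 / (2 * Real.pi) * C₀ *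
          e₁ * Real.exp 4 * Real.exp (t * l ^ 2 + l * u) * Real.exp (-s ^ 2 / (16 * t)))) := by ring
      _ ≤ (Real.pi * C₀) * (3 * l ^ n * (1 / (2 * Real.pi) * C₀ *
          e₁ * Real.exp 4 * Real.exp (t * l ^ 2 + l * u) * Real.exp (-s ^ 2 / (16 * t)))) :=
        mul_le_mul_of_nonneg_right h1 (by positivity)
      _ = 3 / 2 * (Real.exp 4 * C₀ ^ 2 * e₁ * (l ^ n * Real.exp (t * l ^ 2 + l * u)) *
        Real.exp (-s ^ 2 / (16 * t))) := by
        field_simp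
      _ ≤ _ := by
        have : 0 ≤ Real.exp 4 * C₀ ^ 2 * e₁ * (l ^ n * Real.exp (t * l ^ 2 + l * u)) *
          Real.exp (-s ^ 2 / (16 * t)) := by positivity
        linarith
  -- second term
  have f2 : Real.exp (-v ^ 2 / (4 * t)) * (1 / (2 * Real.pi) *
      ((2 * C₁ * C₂ * N₀ * Real.exp (l * (u + v + n / l) + 69 + (u + v + n / l) ^ 2 / 16) *
        (θ ^ n + Real.exp ((s ^ 2 - δ₄ ^ 2) / (16 * t)))) * (4 * Real.sqrt Real.pi))) ≤
      12 * C₁ * C₂ * Real.exp (69 + M ^ 2 / 8) * (Real.sqrt n *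
        (θ ^ n + Real.exp (-(δ₄ ^ 2 / (16 * t))))) * (l ^ n * Real.exp (t * l ^ 2 + l * u)) *
        Real.exp (-s ^ 2 / (16 * t)) := by
    have h1 : 1 / (2 * Real.pi) * (4 * Real.sqrt Real.pi) ≤ 2 := by
      rw [div_mul_eq_mul_div, one_mul, div_le_iff₀ (by positivity)]
      have : Real.sqrt Real.pi ≤ Real.pi := by
        rw [Real.sqrt_le_left (by positivity)]
        nlinarith
      linarith
    have h2 : Real.exp (-v ^ 2 / (4 * t)) *
        (Real.exp (l * (u + v + n / l) + 69 + (u + v + n / l) ^ 2 / 16) *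
          (θ ^ n + Real.exp ((s ^ 2 - δ₄ ^ 2) / (16 * t)))) ≤
        Real.exp n * Real.exp (69 + M ^ 2 / 8) * Real.exp (t * l ^ 2 + l * u) *
          Real.exp (-s ^ 2 / (16 * t)) * (θ ^ n + Real.exp (-(δ₄ ^ 2 / (16 * t)))) := by
      have g1 : Real.exp (-v ^ 2 / (4 * t)) *
          Real.exp (l * (u + v + n / l) + 69 + (u + v + n / l) ^ 2 / 16) ≤
          Real.exp n * Real.exp (69 + M ^ 2 / 8) * Real.exp (t * l ^ 2 + l * u) *
            Real.exp (-s ^ 2 / (16 * t)) := by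
        rw [← Real.exp_add, ← Real.exp_add, ← Real.exp_add, ← Real.exp_add]
        apply Real.exp_le_exp.mpr
        rw [hexp, hsneg]
        linarith
      have g2 : Real.exp (-v ^ 2 / (4 * t)) *
          Real.exp (l * (u + v + n / l) + 69 + (u + v + n / l) ^ 2 / 16) *
          Real.exp ((s ^ 2 - δ₄ ^ 2) / (16 * t)) ≤
          Real.exp n * Real.exp (69 + M ^ 2 / 8) * Real.exp (t * l ^ 2 + l * u) *
            Real.exp (-s ^ 2 / (16 * t)) * Real.exp (-(δ₄ ^ 2 / (16 * t))) := by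
        rw [← Real.exp_add, ← Real.exp_add, ← Real.exp_add, ← Real.exp_add, ← Real.exp_add,
          ← Real.exp_add]
        apply Real.exp_le_exp.mpr
        rw [hexp, hsneg, sub_div]
        linarith
      calc Real.exp (-v ^ 2 / (4 * t)) *
        (Real.exp (l * (u + v + n / l) + 69 + (u + v + n / l) ^ 2 / 16) *
          (θ ^ n + Real.exp ((s ^ 2 - δ₄ ^ 2) / (16 * t)))) =
          Real.exp (-v ^ 2 / (4 * t)) *
          Real.exp (l * (u + v + n / l) + 69 + (u + v + n / l) ^ 2 / 16) * θ ^ n +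
          Real.exp (-v ^ 2 / (4 * t)) *
          Real.exp (l * (u + v + n / l) + 69 + (u + v + n / l) ^ 2 / 16) *
          Real.exp ((s ^ 2 - δ₄ ^ 2) / (16 * t)) := by ring
        _ ≤ _ := by
          have g3 := mul_le_mul_of_nonneg_right g1 hθn
          linarith [g2, g3]
    calc Real.exp (-v ^ 2 / (4 * t)) * (1 / (2 * Real.pi) *
      ((2 * C₁ * C₂ * N₀ * Real.exp (l * (u + v + n / l) + 69 + (u + v + n / l) ^ 2 / 16) *
        (θ ^ n + Real.exp ((s ^ 2 - δ₄ ^ 2) / (16 * t)))) * (4 * Real.sqrt Real.pi))) =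
        (1 / (2 * Real.pi) * (4 * Real.sqrt Real.pi)) * (2 * C₁ * C₂ * N₀) *
        (Real.exp (-v ^ 2 / (4 * t)) *
        (Real.exp (l * (u + v + n / l) + 69 + (u + v + n / l) ^ 2 / 16) *
          (θ ^ n + Real.exp ((s ^ 2 - δ₄ ^ 2) / (16 * t))))) := by ring
      _ ≤ 2 * (2 * C₁ * C₂ * N₀) *
        (Real.exp n * Real.exp (69 + M ^ 2 / 8) * Real.exp (t * l ^ 2 + l * u) *
          Real.exp (-s ^ 2 / (16 * t)) * (θ ^ n + Real.exp (-(δ₄ ^ 2 / (16 * t))))) := by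
        apply mul_le_mul _ h2 (by positivity) (by positivity)
        exact mul_le_mul_of_nonneg_right h1 (by positivity)
      _ = (N₀ * Real.exp n) * (4 * C₁ * C₂ * Real.exp (69 + M ^ 2 / 8) *
          Real.exp (t * l ^ 2 + l * u) * Real.exp (-s ^ 2 / (16 * t)) *
          (θ ^ n + Real.exp (-(δ₄ ^ 2 / (16 * t))))) := by ring
      _ ≤ (3 * Real.sqrt n * l ^ n) * (4 * C₁ * C₂ * Real.exp (69 + M ^ 2 / 8) *
          Real.exp (t * l ^ 2 + l * u) * Real.exp (-s ^ 2 / (16 * t)) *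
          (θ ^ n + Real.exp (-(δ₄ ^ 2 / (16 * t))))) :=
        mul_le_mul_of_nonneg_right hN1 (by positivity)
      _ = _ := by ring
  calc _ = Real.exp (-v ^ 2 / (4 * t)) * (1 / (2 * Real.pi) *
      ((C₀ * N₀ * e₁ * Real.exp (l * (u + v + n / l) + 4)) * Real.sqrt (Real.pi / (n / C₀)))) +
      Real.exp (-v ^ 2 / (4 * t)) * (1 / (2 * Real.pi) *
      ((2 * C₁ * C₂ * N₀ * Real.exp (l * (u + v + n / l) + 69 + (u + v + n / l) ^ 2 / 16) *
        (θ ^ n + Real.exp ((s ^ 2 - δ₄ ^ 2) / (16 * t)))) * (4 * Real.sqrt Real.pi))) := by ring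
    _ ≤ _ := add_le_add f1 f2
    _ = _ := by ring

end Pool.Agent.Lib.MP_cd509c_nt.DC
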