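import Pool.Agent.Lib.MP_cd509c_nt.DC.P.P1a

/-! Piece `P1` of project DC, stage 2 (helper89), part 2: the integrand to the right. -/

set_option autoImplicit false

namespace Pool.Agent.Lib.MP_cd509c_nt.DC

open Complex ComplexConjugate MeasureTheory Filter Topology
open Pool.Agent.Lib.MP_cd509c_nt.DN
open scoped Nat

theorem dc_P1_right {A C₀ C₁ C₂ p β l₀ ε' R θ δ₄ M c : ℝ} {n : ℕ} {t : ℝ} {ρ : ℂ} {f Q : ℂ → ℂ}
    (hH : Hyp A C₂ p β l₀ ε' R n t ρ f Q) {w : ℂ} {v : ℝ} (hn : 1 ≤ n) (hl0 : 0 < ρ.re)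
    (hA : 1 ≤ A) (hC₀ : 1 ≤ C₀) (hC₁ : 0 ≤ C₁) (hC₂ : 0 ≤ C₂) (hθ : 0 ≤ θ) (hε' : 0 ≤ ε')
    (hδ0 : 0 < δ₄) (hδ1 : δ₄ ≤ 1) (ht1 : t ≤ 1) (hc : c = n / ρ.re) (hw3 : |w.im| ≤ 1)
    (hv : p ≤ w.re + v + c) (hwb : p ≤ w.re + bb n t ρ) (hM : |w.re + bb n t ρ| ≤ M)
    (hR : M + 3 ≤ R)
    (hK0 : ∀ η : ℝ, |η| ≤ A →
      ‖Kn n (c + η * I)‖ ≤ C₀ * n ! * (1 / c) ^ n * Real.exp (-(n * η ^ 2 / C₀)))
    (hK1 : ∀ η : ℝ, ‖Kn n (c + η * I)‖ ≤ C₁ * n ! * (1 / c) ^ n * Real.exp (-(η ^ 2 / 4)))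
    (hK2 : ∀ η : ℝ, δ₄ ≤ |η| →
      ‖Kn n (c + η * I)‖ ≤ C₁ * n ! * (1 / c) ^ n * θ ^ n * Real.exp (-(η ^ 2 / 4)))
    (hJ : Integrable (fun η : ℝ => cexp (ρ * (c + η * I)) * Kn n (c + η * I))) :
    Real.exp (-v ^ 2 / (4 * t)) * ‖LI n f c (w + v) - Q (w + bb n t ρ) * cexp (ρ * (w + v)) *
      (1 / (2 * Real.pi) * ∫ η : ℝ, cexp (ρ * (c + η * I)) * Kn n (c + η * I))‖ ≤
      (2 * Real.exp 4 * C₀ ^ 2 * (ε' + 2 * C₂ * δ₄) + 12 * C₁ * C₂ * Real.exp (69 + M ^ 2 / 8) *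
        (Real.sqrt n * (θ ^ n + Real.exp (-(δ₄ ^ 2 / (16 * t)))))) *
        (ρ.re ^ n * Real.exp (t * ρ.re ^ 2 + ρ.re * w.re)) *
        Real.exp (-(v - 2 * t * ρ.re) ^ 2 / (16 * t)) := by
  have hn0 : (0 : ℝ) < n := by exact_mod_cast hn
  have hC₀0 : 0 < C₀ := by linarith
  have ht := hH.t0
  have hb : bb n t ρ = n / ρ.re + 2 * t * ρ.re := rfl
  set l : ℝ := ρ.re with hl
  set q : ℂ := Q (w + bb n t ρ) with hq
  have hqn : ‖q‖ ≤ C₂ := hH.bdd _ (by simpa using hwb)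
  set N₀ : ℝ := n ! * (1 / (n / l)) ^ n with hN₀
  have hN0 : 0 ≤ N₀ := by positivity
  set s : ℝ := v - 2 * t * l with hs
  have him : ∀ η : ℝ, |w.im + η| ≤ 1 + |η| := fun η => (abs_add_le _ _).trans (by linarith)
  have hzre : ∀ η : ℝ, (w + v + (c + η * I)).re = w.re + v + c := fun η => by simp
  have hzim : ∀ η : ℝ, (w + v + (c + η * I)).im = w.im + η := fun η => by simp
  have hez : ∀ η : ℝ, ‖cexp (ρ * (w + v + (c + η * I)))‖ ≤
      Real.exp (l * (w.re + v + c) + 2 * (1 + |η|)) := by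
    intro η
    rw [Complex.norm_exp]
    apply Real.exp_le_exp.mpr
    rw [mul_re, hzre, hzim]
    have h1 : |ρ.im * (w.im + η)| ≤ 2 * (1 + |η|) := by
      rw [abs_mul]
      exact mul_le_mul hH.im (him η) (abs_nonneg _) (by norm_num)
    linarith [(abs_le.1 h1).1]
  have hcr : ∀ η : ℝ, ‖f (w + v + (c + η * I)) - q * cexp (ρ * (w + v + (c + η * I)))‖ ≤
      2 * C₂ * Real.exp (l * (w.re + v + c) + 4 + 4 * |η| + (w.re + v + c) ^ 2 / 16 + 1 / 8 +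
        η ^ 2 / 8) := by
    intro η
    have h1 := hH.crude (w + v + (c + η * I)) (by rw [hzre]; exact hv)
    have h2 : ‖w + v + (c + η * I)‖ ^ 2 = (w.re + v + c) ^ 2 + (w.im + η) ^ 2 := by
      rw [Complex.sq_norm, Complex.normSq_apply, hzre, hzim]
      ring
    rw [hzre, hzim, h2] at h1
    have h3 : (w.im + η) ^ 2 ≤ 2 + 2 * η ^ 2 := by
      have h5 := pow_le_pow_left₀ (abs_nonneg _) (him η) 2
      rw [sq_abs] at h5
      nlinarith [sq_nonneg (|η| - 1), sq_abs η]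
    have h4 : ‖f (w + v + (c + η * I))‖ ≤ C₂ * Real.exp (l * (w.re + v + c) + 4 + 4 * |η| +
        (w.re + v + c) ^ 2 / 16 + 1 / 8 + η ^ 2 / 8) := by
      refine h1.trans (mul_le_mul_of_nonneg_left (Real.exp_le_exp.mpr ?_) hC₂)
      have := him η
      linarith
    have h5 : ‖q * cexp (ρ * (w + v + (c + η * I)))‖ ≤ C₂ * Real.exp (l * (w.re + v + c) + 4 +
        4 * |η| + (w.re + v + c) ^ 2 / 16 + 1 / 8 + η ^ 2 / 8) := by
      rw [norm_mul]
      refine mul_le_mul hqn ((hez η).trans (Real.exp_le_exp.mpr ?_)) (norm_nonneg _) hC₂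
      have h6 : 0 ≤ |η| := abs_nonneg η
      have h7 : 0 ≤ (w.re + v + c) ^ 2 / 16 := by positivity
      have h8 : 0 ≤ η ^ 2 / 8 := by positivity
      linarith
    refine (norm_sub_le _ _).trans ?_
    linarith
  have hfi : ∀ η : ℝ, |η| ≤ δ₄ → |s| ≤ δ₄ →
      ‖f (w + v + (c + η * I)) - q * cexp (ρ * (w + v + (c + η * I)))‖ ≤
      (ε' + 2 * C₂ * δ₄) * Real.exp (l * (w.re + v + c) + 4) := by
    intro η hη hsδ
    have g0 : w.re + v + c = w.re + bb n t ρ + s := by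
      rw [hb, hs, hc]
      ring
    have g1 : ‖w + v + (c + η * I)‖ ≤ R := by
      refine (Complex.norm_le_abs_re_add_abs_im _).trans ?_
      rw [hzre, hzim, g0]
      have h1 : |w.re + bb n t ρ + s| ≤ M + 1 := (abs_add_le _ _).trans (by linarith)
      have h2 := him η
      linarith
    have g2 := hH.fine _ (by rw [hzre]; exact hv) g1
    have g3 := hH.lip (w + v + (c + η * I)) (w + bb n t ρ) (by rw [hzre]; exact hv)
      (by simpa using hwb)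
    have g4 : ‖w + v + (c + η * I) - (w + bb n t ρ)‖ ≤ 2 * δ₄ := by
      have h1 : w + v + (c + η * I) - (w + bb n t ρ) = ((s : ℝ) : ℂ) + ((η : ℝ) : ℂ) * I := by
        rw [hb, hs, hc]
        push_cast
        ring
      rw [h1]
      refine (norm_add_le _ _).trans ?_
      rw [norm_mul, Complex.norm_I, mul_one, Complex.norm_real, Complex.norm_real,
        Real.norm_eq_abs, Real.norm_eq_abs]
      linarith
    have g5 : ‖cexp (ρ * (w + v + (c + η * I)))‖ ≤ Real.exp (l * (w.re + v + c) + 4) :=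
      (hez η).trans (Real.exp_le_exp.mpr (by linarith))
    have g6 : f (w + v + (c + η * I)) - q * cexp (ρ * (w + v + (c + η * I))) =
        (f (w + v + (c + η * I)) - cexp (ρ * (w + v + (c + η * I))) * Q (w + v + (c + η * I))) +
        (Q (w + v + (c + η * I)) - q) * cexp (ρ * (w + v + (c + η * I))) := by ring
    rw [g6]
    refine (norm_add_le _ _).trans ?_
    rw [norm_mul]
    have g7 : ‖Q (w + v + (c + η * I)) - q‖ ≤ 2 * C₂ * δ₄ := by
      refine g3.trans ?_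
      have := mul_le_mul_of_nonneg_left g4 hC₂
      linarith
    calc _ ≤ ε' * ‖cexp (ρ * (w + v + (c + η * I)))‖ +
          2 * C₂ * δ₄ * ‖cexp (ρ * (w + v + (c + η * I)))‖ :=
          add_le_add g2 (mul_le_mul_of_nonneg_right g7 (norm_nonneg _))
      _ = (ε' + 2 * C₂ * δ₄) * ‖cexp (ρ * (w + v + (c + η * I)))‖ := by ring
      _ ≤ _ := mul_le_mul_of_nonneg_left g5 (by positivity)
  have hN₀c : (n ! : ℝ) * (1 / c) ^ n = N₀ := by rw [hN₀, hc]
  have hin := dc_P1_in (K := fun η => Kn n (c + η * I)) (f := f) (q := q) (ρ := ρ) (z₀ := w + v)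
    (c := c) (a₁ := C₀ * N₀ * (ε' + 2 * C₂ * δ₄) * Real.exp (l * (w.re + v + c) + 4))
    (a₂ := 2 * C₁ * C₂ * N₀ * Real.exp (l * (w.re + v + c) + 69 + (w.re + v + c) ^ 2 / 16) *
      (θ ^ n + Real.exp ((s ^ 2 - δ₄ ^ 2) / (16 * t)))) (m := n / C₀)
    hH.diff.continuous (by positivity) hJ (by
      intro η
      rw [norm_mul]
      refine dc_P1_pt (A := A) (δ₄ := δ₄) (P := |s| ≤ δ₄) (by linarith) (by linarith) hC₁ hC₂ hθ
        (by positivity) hN0 (Real.exp_pos _).le ?_ (norm_nonneg _) ?_ ?_ ?_ (hfi η) (hcr η)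
      · intro hP
        apply Real.one_le_exp
        have h1 : δ₄ ^ 2 ≤ s ^ 2 := by
          rw [← sq_abs s]
          exact pow_le_pow_left₀ hδ0.le (not_le.mp hP).le 2
        have : 0 ≤ s ^ 2 - δ₄ ^ 2 := by linarith
        positivity
      · intro h
        rw [← hN₀c, ← mul_assoc]
        exact hK0 η h
      · rw [← hN₀c, ← mul_assoc]
        exact hK1 η
      · intro h
        rw [← hN₀c, ← mul_assoc]
        exact hK2 η h)
  have hLI : LI n f c (w + v) - q * cexp (ρ * (w + v)) *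
      (1 / (2 * Real.pi) * ∫ η : ℝ, cexp (ρ * (c + η * I)) * Kn n (c + η * I)) =
      ((1 / (2 * Real.pi) : ℝ) : ℂ) * ((∫ η : ℝ, f (w + v + (c + η * I)) * Kn n (c + η * I)) -
        q * cexp (ρ * (w + v)) * ∫ η : ℝ, cexp (ρ * (c + η * I)) * Kn n (c + η * I)) := by
    rw [LI]
    push_cast
    ring
  rw [hLI, norm_mul, Complex.norm_real, Real.norm_eq_abs, abs_of_pos (by positivity)]
  have hout := dc_P1_out (C₀ := C₀) (C₁ := C₁) (C₂ := C₂) (θ := θ) (δ₄ := δ₄)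
    (e₁ := ε' + 2 * C₂ * δ₄) (M := M) (u := w.re) (v := v) hn hC₀ hC₁ hC₂ hθ (by positivity) ht
    ht1 hl0 (by rw [← hb]; exact hM)
  refine le_trans ?_ hout
  rw [← hc, ← hs]
  refine mul_le_mul_of_nonneg_left (mul_le_mul_of_nonneg_left ?_ (by positivity))
    (Real.exp_pos _).le
  rw [hN₀c]
  exact hin

theorem dc_P1_norm (t v : ℝ) : ‖cexp (-(v : ℂ) ^ 2 / (4 * t))‖ = Real.exp (-v ^ 2 / (4 * t)) := by
  have h : (-(v : ℂ) ^ 2 / (4 * t)) = ((-v ^ 2 / (4 * t) : ℝ) : ℂ) := by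
    push_cast
    rfl
  rw [h, Complex.norm_exp, ofReal_re]

theorem dc_P1_N {t : ℝ} (ht : 0 < t) (a : ℝ) :
    Nt t * ∫ v : ℝ, Real.exp (-(v - a) ^ 2 / (16 * t)) = 2 := by
  rw [integral_gauss (t := 16 * t) (by positivity) a, Nt]
  have h4 : 0 < Real.sqrt (4 * Real.pi * t) := Real.sqrt_pos.mpr (by positivity)
  have h5 : Real.sqrt (Real.pi * (16 * t)) = 2 * Real.sqrt (4 * Real.pi * t) := by
    rw [show Real.pi * (16 * t) = 2 ^ 2 * (4 * Real.pi * t) by ring,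
      Real.sqrt_mul (by norm_num), Real.sqrt_sq (by norm_num)]
  rw [h5]
  field_simp

theorem dc_P1_I {t : ℝ} (ht : 0 < t) (a : ℝ) :
    Integrable (fun v : ℝ => Real.exp (-(v - a) ^ 2 / (16 * t))) := by
  by_contra hn
  have h := dc_P1_N ht a
  rw [integral_undef hn, mul_zero] at h
  norm_num at h

theorem dc_P1_h {t : ℝ} (ht : 0 < t) (ρ w q : ℂ) :
    Integrable (fun v : ℝ => cexp (-(v : ℂ) ^ 2 / (4 * t)) * (q * cexp (ρ * (w + v)))) ∧
    (Nt t : ℂ) * ∫ v : ℝ, cexp (-(v : ℂ) ^ 2 / (4 * t)) * (q * cexp (ρ * (w + v))) =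
      q * cexp (t * ρ ^ 2 + ρ * w) := by
  have h := gauss_integral ht ρ (ρ * w)
  have e1 : (fun v : ℝ => cexp (-(v : ℂ) ^ 2 / (4 * t)) * (q * cexp (ρ * (w + v)))) =
      fun v : ℝ => q * cexp (-(v : ℂ) ^ 2 / (4 * t) + ρ * v + ρ * w) := by
    funext v
    rw [mul_left_comm, ← Complex.exp_add]
    congr 2
    ring
  have hi : Integrable (fun v : ℝ => cexp (-(v : ℂ) ^ 2 / (4 * t) + ρ * v + ρ * w)) := by
    by_contra hn
    rw [integral_undef hn, mul_zero] at h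
    exact (Complex.exp_ne_zero _) h.symm
  refine ⟨?_, ?_⟩
  · rw [e1]
    exact hi.const_mul q
  · rw [e1, integral_const_mul, mul_left_comm, h]
    congr 2
    ring

/-- consequences of the hypotheses for the parameters -/
theorem dc_P1_par {A B p β δ₄ t l u : ℝ} {n : ℕ} (hA : 1 ≤ A) (hB : 1 ≤ B) (hp : 0 < p)
    (hβ : p < β) (hl : A ^ 2 ≤ l) (n1 : l ≤ A * n) (n2 : (n : ℝ) ≤ A * l) (t0 : 0 < t)
    (t1 : β ^ 2 ≤ 8 * n * t) (t2 : n * t ≤ A) (hu1 : -((β - p) / 4) ≤ u) (hu2 : u ≤ B) :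
    0 < l ∧ 0 < (n : ℝ) ∧ 1 / A ≤ n / l ∧ n / l ≤ A ∧ t ≤ 1 ∧ β ≤ n / l + 2 * t * l ∧
      |u + (n / l + 2 * t * l)| ≤ B + β + A + 2 * A ^ 2 ∧
      Real.exp (-(δ₄ ^ 2 / (16 * t))) ≤ Real.exp (-(δ₄ ^ 2 / (16 * A))) ^ n := by
  have hA0 : 0 < A := by linarith
  have hl0 : 0 < l := by nlinarith
  have hn0 : 0 < (n : ℝ) := by
    rcases Nat.eq_zero_or_pos n with h | h
    · rw [h] at n1
      simp at n1
      linarith
    · exact_mod_cast h
  have h1 : 1 / A ≤ n / l := by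
    rw [div_le_div_iff₀ hA0 hl0]
    linarith
  have h2 : n / l ≤ A := by
    rw [div_le_iff₀ hl0]
    exact n2
  have h3 : t * l ≤ A ^ 2 := by nlinarith
  have h4 : t ≤ 1 := by
    by_contra hc
    push Not at hc
    nlinarith
  have h5 : β ≤ n / l + 2 * t * l := by
    have h6 : (n / l) * (2 * t * l) = 2 * (n * t) := by field_simp
    have h7 : β ^ 2 ≤ (n / l + 2 * t * l) ^ 2 := by
      nlinarith [sq_nonneg (n / l - 2 * t * l)]
    have h8 : 0 ≤ n / l + 2 * t * l := by positivity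
    exact (abs_le_of_sq_le_sq' h7 h8).2
  refine ⟨hl0, hn0, h1, h2, h4, h5, ?_, ?_⟩
  · rw [abs_le]
    constructor
    · nlinarith
    · nlinarith
  · rw [← Real.exp_nat_mul]
    apply Real.exp_le_exp.mpr
    have h6 : (n : ℝ) * (δ₄ ^ 2 / (16 * A)) ≤ δ₄ ^ 2 / (16 * t) := by
      rw [mul_div_assoc', div_le_div_iff₀ (by positivity) (by positivity)]
      have := mul_le_mul_of_nonneg_left t2 (sq_nonneg δ₄)
      nlinarith
    linarith

end Pool.Agent.Lib.MP_cd509c_nt.DC
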