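import Pool.Agent.Lib.MP_cd509c_nt.DC.Defs

/-! Piece `gav` of project DC (helper16): Gaussian averages, main term and crude bound. -/

set_option autoImplicit false

namespace Pool.Agent.Lib.MP_cd509c_nt.DC

open Complex ComplexConjugate MeasureTheory Filter Topology
open Pool.Agent.Lib.MP_cd509c_nt.DN

theorem dc_gav_int8 {t : ℝ} (ht : 0 < t) :
    Integrable (fun v : ℝ => Real.exp (-v ^ 2 / (8 * t))) := by
  have h := integrable_exp_neg_mul_sq (b := 1 / (8 * t)) (by positivity)
  refine h.congr (Eventually.of_forall fun v => ?_)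
  simp only
  congr 1
  ring

theorem dc_gav_N8 {t : ℝ} (ht : 0 < t) :
    Nt t * ∫ v : ℝ, Real.exp (-v ^ 2 / (8 * t)) ≤ 2 := by
  have h := integral_gauss (t := 8 * t) (by positivity) 0
  simp only [sub_zero] at h
  rw [h, Nt]
  have h4 : 0 < Real.sqrt (4 * Real.pi * t) := Real.sqrt_pos.mpr (by positivity)
  have h5 : Real.sqrt (Real.pi * (8 * t)) ≤ 2 * Real.sqrt (4 * Real.pi * t) := by
    rw [Real.sqrt_le_left (by positivity), mul_pow, Real.sq_sqrt (by positivity)]
    nlinarith [mul_pos Real.pi_pos ht]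
  rw [inv_mul_le_iff₀ h4]
  linarith

theorem dc_gav_real {t : ℝ} (ht : 0 < t) (c d : ℝ) :
    Integrable (fun v : ℝ => Real.exp (-v ^ 2 / (4 * t) + c * v + d)) ∧
    Nt t * ∫ v : ℝ, Real.exp (-v ^ 2 / (4 * t) + c * v + d) = Real.exp (d + t * c ^ 2) := by
  have h := gauss_integral ht (c : ℂ) (d : ℂ)
  have e1 : (fun v : ℝ => cexp (-(v : ℂ) ^ 2 / (4 * t) + c * v + d)) =
      fun v : ℝ => ((Real.exp (-v ^ 2 / (4 * t) + c * v + d) : ℝ) : ℂ) := by
    funext v
    push_cast
    rfl
  have e2 : Nt t * ∫ v : ℝ, Real.exp (-v ^ 2 / (4 * t) + c * v + d) =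
      Real.exp (d + t * c ^ 2) := by
    rw [e1, integral_complex_ofReal] at h
    exact_mod_cast h
  refine ⟨?_, e2⟩
  by_contra hn
  rw [integral_undef hn, mul_zero] at e2
  exact (Real.exp_pos _).ne e2

theorem dc_gav_norm (t v : ℝ) :
    ‖cexp (-(v : ℂ) ^ 2 / (4 * t))‖ = Real.exp (-v ^ 2 / (4 * t)) := by
  have h : (-(v : ℂ) ^ 2 / (4 * t)) = ((-v ^ 2 / (4 * t) : ℝ) : ℂ) := by
    push_cast
    rfl
  rw [h, Complex.norm_exp, ofReal_re]

theorem dc_gav_normρ (ρ w : ℂ) (v : ℝ) :
    ‖cexp (ρ * (w + v))‖ = Real.exp ((ρ * w).re + ρ.re * v) := by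
  rw [Complex.norm_exp]
  congr 1
  rw [mul_add, add_re, re_mul_ofReal]

/-- the exponent away from the centre -/
theorem dc_gav_exp {K C₂ A l X : ℝ} (hK : 1 ≤ K) (hC : 1 ≤ C₂) (hA : 2048 * K * C₂ ≤ A)
    (hl : 1000000000 * K ≤ l) (hX : A / 16 ≤ X) :
    8 * K * (20700 * A ^ 2 + (l + 3) * X + C₂ * l + 2 * X ^ 2 + l) ≤ X ^ 2 * l := by
  have hKC : K ≤ K * C₂ := by nlinarith
  have hKC1 : 1 ≤ K * C₂ := by nlinarith
  have hX1 : 128 * (K * C₂) ≤ X := by linarith
  have hX0 : 0 < X := by linarith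
  have hA0 : 0 < A := by nlinarith
  have hl0 : 0 < l := by linarith
  have hX2 : 128 * (128 * (K * C₂)) ≤ X ^ 2 := by nlinarith
  have a1 : 8 * K * ((l + 3) * X) ≤ X ^ 2 * l / 8 := by
    have b1 : (l + 3) * X ≤ 2 * l * X := by nlinarith
    have b2 : 128 * K * (l * X) ≤ X * (l * X) :=
      mul_le_mul_of_nonneg_right (by linarith) (by positivity)
    nlinarith
  have a2 : 8 * K * (C₂ * l) ≤ X ^ 2 * l / 8 := by
    have b2 : 64 * (K * C₂) * l ≤ X ^ 2 * l :=
      mul_le_mul_of_nonneg_right (by linarith) hl0.le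
    nlinarith
  have a3 : 8 * K * (20700 * A ^ 2) ≤ X ^ 2 * l / 4 := by
    have b1 : A ^ 2 / 256 ≤ X ^ 2 := by
      have : (A / 16) ^ 2 ≤ X ^ 2 := pow_le_pow_left₀ (by positivity) hX 2
      nlinarith
    have b2 : A ^ 2 / 256 * (1000000000 * K) ≤ X ^ 2 * l :=
      mul_le_mul b1 hl (by positivity) (by positivity)
    have b3 : 0 ≤ K * A ^ 2 := by positivity
    nlinarith
  have a4 : 8 * K * (2 * X ^ 2) ≤ X ^ 2 * l / 8 := by
    have b2 : X ^ 2 * (128 * K) ≤ X ^ 2 * l :=
      mul_le_mul_of_nonneg_left (by linarith) (by positivity)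
    nlinarith
  have a5 : 8 * K * l ≤ X ^ 2 * l / 8 := by
    have b2 : 64 * K * l ≤ X ^ 2 * l :=
      mul_le_mul_of_nonneg_right (by linarith) hl0.le
    nlinarith
  have a6 : 0 ≤ X ^ 2 * l := by positivity
  nlinarith

theorem p_gav : S_gav := by
  intro K C₂ hK hC₂
  refine ⟨2048 * K * C₂, ?_, ?_⟩
  · nlinarith
  intro A hA
  refine ⟨1000000000 * K, by linarith, ?_⟩
  intro l t ρ f hl ht htl hρ1 hρ2 hf H1 H2
  have hl9 : (1000000000 : ℝ) ≤ l := by linarith
  have hl0 : 0 < l := by linarith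
  have hK0 : 0 < K := by linarith
  have hA0 : 0 < A := by nlinarith [mul_pos hK0 (show (0 : ℝ) < C₂ by linarith)]
  have hA1 : 1 ≤ A := by nlinarith [mul_le_mul hK hC₂ zero_le_one hK0.le]
  have ht9 : t * 1000000000 ≤ 1 := by
    by_contra hc
    push Not at hc
    have h1 : t * (1000000000 * K) ≤ t * l := mul_le_mul_of_nonneg_left hl ht.le
    nlinarith
  have hq : ∀ v : ℝ, v ^ 2 * l / (8 * K) ≤ v ^ 2 / (8 * t) := by
    intro v
    rw [div_le_div_iff₀ (by positivity) (by positivity)]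
    have h1 : v ^ 2 * (t * l) ≤ v ^ 2 * K := mul_le_mul_of_nonneg_left htl (sq_nonneg v)
    nlinarith
  have hi8 := dc_gav_int8 ht
  have hN8 := dc_gav_N8 ht
  have hN0 := (Nt_pos ht).le
  have hq4 : ∀ v : ℝ, -v ^ 2 / (4 * t) = -(v ^ 2 / (8 * t)) - v ^ 2 / (8 * t) := by
    intro v
    field_simp
    ring
  have hq8 : ∀ v : ℝ, -v ^ 2 / (8 * t) = -(v ^ 2 / (8 * t)) := by
    intro v
    ring
  have hre : ∀ (w : ℂ) (v : ℝ), (w + v).re = w.re + v := fun w v => by simp
  have him : ∀ (w : ℂ) (v : ℝ), (w + v).im = w.im := fun w v => by simp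
  constructor
  · intro w hw1 hw2 hw3
    set a : ℝ := (ρ * w).re with ha
    have hwim := abs_le.1 hw3
    have hρim := abs_le.1 hρ2
    have hρre := abs_le.1 hρ1
    have hamin : (l + 3) * w.re ≤ a + 700 * A := by
      have h1 : a = ρ.re * w.re - ρ.im * w.im := by rw [ha, mul_re]
      have h2 : ρ.im * w.im ≤ 2 * (50 * A) := by
        calc ρ.im * w.im ≤ |ρ.im * w.im| := le_abs_self _
          _ = |ρ.im| * |w.im| := abs_mul _ _
          _ ≤ 2 * (50 * A) := mul_le_mul hρ2 hw3 (abs_nonneg _) (by norm_num)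
      have h3 : (l - 3) * w.re ≤ ρ.re * w.re :=
        mul_le_mul_of_nonneg_right (by linarith [hρre.1]) (by linarith)
      have h4 : 6 * w.re ≤ 6 * (100 * A) := by linarith
      nlinarith
    have hfar : ∀ v : ℝ, A / 16 ≤ |v| →
        (l + 3) * |w.re + v| + C₂ * l + (w.re + v) ^ 2 + -v ^ 2 / (4 * t) ≤
          a - l + -v ^ 2 / (8 * t) ∧
        a + ρ.re * v + -v ^ 2 / (4 * t) ≤ a - l + -v ^ 2 / (8 * t) := by
      intro v hv
      have h1 := dc_gav_exp hK hC₂ hA hl hv
      rw [sq_abs] at h1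
      have h2 : 20700 * A ^ 2 + (l + 3) * |v| + C₂ * l + 2 * v ^ 2 + l ≤ v ^ 2 * l / (8 * K) := by
        rw [le_div_iff₀ (by positivity)]
        linarith
      have h3 := hq v
      have hw0 : 0 ≤ w.re := by linarith
      have h4 : |w.re + v| ≤ w.re + |v| := by
        calc |w.re + v| ≤ |w.re| + |v| := abs_add_le _ _
          _ = w.re + |v| := by rw [abs_of_nonneg hw0]
      have h5 : (l + 3) * |w.re + v| ≤ (l + 3) * w.re + (l + 3) * |v| := by
        nlinarith
      have h6 : (w.re + v) ^ 2 ≤ 20000 * A ^ 2 + 2 * v ^ 2 := by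
        have h7 : w.re ^ 2 ≤ (100 * A) ^ 2 := pow_le_pow_left₀ hw0 hw2 2
        nlinarith [sq_nonneg (w.re - v)]
      have h8 : 700 * A ≤ 700 * A ^ 2 := by nlinarith
      have h9 : ρ.re * v ≤ (l + 3) * |v| := by
        calc ρ.re * v ≤ |ρ.re * v| := le_abs_self _
          _ = |ρ.re| * |v| := abs_mul _ _
          _ ≤ (l + 3) * |v| := by
            apply mul_le_mul_of_nonneg_right _ (abs_nonneg _)
            rw [abs_le]
            constructor <;> linarith [hρre.1, hρre.2]
      rw [hq4, hq8]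
      constructor
      · nlinarith
      · have : 0 ≤ A ^ 2 := by positivity
        have : 0 ≤ C₂ * l := by positivity
        have : 0 ≤ v ^ 2 := by positivity
        nlinarith
    set D : ℝ → ℂ := fun v => cexp (-(v : ℂ) ^ 2 / (4 * t)) * (f (w + v) - cexp (ρ * (w + v)))
      with hD
    have hDb : ∀ v : ℝ, ‖D v‖ ≤ 1 / 64 * Real.exp (-v ^ 2 / (4 * t) + ρ.re * v + a) +
        2 * Real.exp (a - l) * Real.exp (-v ^ 2 / (8 * t)) := by
      intro v
      rw [hD]
      simp only
      rw [norm_mul, dc_gav_norm]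
      by_cases hv : -(A / 16) ≤ v ∧ v ≤ 100 * A
      · have h1 := H1 (w + v) (by rw [hre]; linarith [hv.1]) (by rw [hre]; linarith [hv.2])
          (by rw [him]; linarith)
        rw [dc_gav_normρ] at h1
        have h2 : Real.exp (-v ^ 2 / (4 * t)) * ‖f (w + v) - cexp (ρ * (w + v))‖ ≤
            1 / 64 * Real.exp (-v ^ 2 / (4 * t) + ρ.re * v + a) := by
          calc Real.exp (-v ^ 2 / (4 * t)) * ‖f (w + v) - cexp (ρ * (w + v))‖
              ≤ Real.exp (-v ^ 2 / (4 * t)) * (1 / 64 * Real.exp ((ρ * w).re + ρ.re * v)) :=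
                mul_le_mul_of_nonneg_left h1 (Real.exp_pos _).le
            _ = 1 / 64 * (Real.exp (-v ^ 2 / (4 * t)) * Real.exp ((ρ * w).re + ρ.re * v)) := by
                ring
            _ = 1 / 64 * Real.exp (-v ^ 2 / (4 * t) + ρ.re * v + a) := by
                rw [← Real.exp_add, ← ha]
                congr 2
                ring
        have h3 : 0 ≤ 2 * Real.exp (a - l) * Real.exp (-v ^ 2 / (8 * t)) := by positivity
        linarith
      · have hv2 : A / 16 ≤ |v| := by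
          by_contra hc
          push Not at hc
          apply hv
          have := abs_lt.1 hc
          constructor <;> linarith [this.1, this.2]
        obtain ⟨h1, h2⟩ := hfar v hv2
        have h3 := H2 (w + v) (by rw [him]; linarith)
        rw [hre] at h3
        have h4 : ‖f (w + v) - cexp (ρ * (w + v))‖ ≤
            Real.exp ((l + 3) * |w.re + v| + C₂ * l + (w.re + v) ^ 2) +
              Real.exp (a + ρ.re * v) := by
          refine (norm_sub_le _ _).trans (add_le_add h3 ?_)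
          rw [dc_gav_normρ]
        have h5 : Real.exp (-v ^ 2 / (4 * t)) * ‖f (w + v) - cexp (ρ * (w + v))‖ ≤
            2 * Real.exp (a - l) * Real.exp (-v ^ 2 / (8 * t)) := by
          calc Real.exp (-v ^ 2 / (4 * t)) * ‖f (w + v) - cexp (ρ * (w + v))‖
              ≤ Real.exp (-v ^ 2 / (4 * t)) *
                (Real.exp ((l + 3) * |w.re + v| + C₂ * l + (w.re + v) ^ 2) +
                  Real.exp (a + ρ.re * v)) := mul_le_mul_of_nonneg_left h4 (Real.exp_pos _).le
            _ = Real.exp ((l + 3) * |w.re + v| + C₂ * l + (w.re + v) ^ 2 + -v ^ 2 / (4 * t)) +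
                  Real.exp (a + ρ.re * v + -v ^ 2 / (4 * t)) := by
                rw [mul_add, ← Real.exp_add, ← Real.exp_add]
                congr 2 <;> ring
            _ ≤ Real.exp (a - l + -v ^ 2 / (8 * t)) + Real.exp (a - l + -v ^ 2 / (8 * t)) :=
                add_le_add (Real.exp_le_exp.2 h1) (Real.exp_le_exp.2 h2)
            _ = 2 * Real.exp (a - l) * Real.exp (-v ^ 2 / (8 * t)) := by
                rw [Real.exp_add]
                ring
        have h6 : 0 ≤ 1 / 64 * Real.exp (-v ^ 2 / (4 * t) + ρ.re * v + a) := by positivity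
        linarith
    obtain ⟨hi4, hI4⟩ := dc_gav_real ht ρ.re a
    have hbi : Integrable (fun v : ℝ => 1 / 64 * Real.exp (-v ^ 2 / (4 * t) + ρ.re * v + a) +
        2 * Real.exp (a - l) * Real.exp (-v ^ 2 / (8 * t))) :=
      (hi4.const_mul _).add (hi8.const_mul _)
    have hDc : Continuous D := by
      rw [hD]
      have h1 := hf.continuous
      fun_prop
    have hDi : Integrable D :=
      hbi.mono' hDc.aestronglyMeasurable (Eventually.of_forall hDb)
    have hMi : Integrable (fun v : ℝ => cexp (-(v : ℂ) ^ 2 / (4 * t)) * cexp (ρ * (w + v))) := by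
      refine hi4.mono' (by fun_prop) (Eventually.of_forall fun v => ?_)
      rw [norm_mul, dc_gav_norm, dc_gav_normρ, ← Real.exp_add, ← ha]
      apply le_of_eq
      congr 1
      ring
    have hM : (Nt t : ℂ) * ∫ v : ℝ, cexp (-(v : ℂ) ^ 2 / (4 * t)) * cexp (ρ * (w + v)) =
        cexp (ρ * w + t * ρ ^ 2) := by
      rw [← gauss_integral ht ρ (ρ * w)]
      congr 1
      apply integral_congr_ae
      refine Eventually.of_forall fun v => ?_
      simp only
      rw [← Complex.exp_add]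
      congr 1
      ring
    have hG : Gv t f w - cexp (ρ * w + t * ρ ^ 2) = (Nt t : ℂ) * ∫ v : ℝ, D v := by
      have h1 : (fun v : ℝ => cexp (-(v : ℂ) ^ 2 / (4 * t)) * f (w + v)) =
          fun v : ℝ => D v + cexp (-(v : ℂ) ^ 2 / (4 * t)) * cexp (ρ * (w + v)) := by
        funext v
        rw [hD]
        ring
      rw [Gv, h1, integral_add hDi hMi, mul_add, hM]
      ring
    have hnorm : ‖Gv t f w - cexp (ρ * w + t * ρ ^ 2)‖ ≤
        1 / 64 * Real.exp (a + t * ρ.re ^ 2) + 4 * Real.exp (a - l) := by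
      rw [hG, norm_mul, Complex.norm_real, Real.norm_of_nonneg hN0]
      have h1 := norm_integral_le_of_norm_le hbi (Eventually.of_forall hDb)
      rw [integral_add (hi4.const_mul _) (hi8.const_mul _), integral_const_mul,
        integral_const_mul] at h1
      calc Nt t * ‖∫ v : ℝ, D v‖ ≤ Nt t *
            (1 / 64 * (∫ v : ℝ, Real.exp (-v ^ 2 / (4 * t) + ρ.re * v + a)) +
              2 * Real.exp (a - l) * ∫ v : ℝ, Real.exp (-v ^ 2 / (8 * t))) :=
            mul_le_mul_of_nonneg_left h1 hN0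
        _ = 1 / 64 * (Nt t * ∫ v : ℝ, Real.exp (-v ^ 2 / (4 * t) + ρ.re * v + a)) +
              2 * Real.exp (a - l) * (Nt t * ∫ v : ℝ, Real.exp (-v ^ 2 / (8 * t))) := by ring
        _ ≤ 1 / 64 * Real.exp (a + t * ρ.re ^ 2) + 2 * Real.exp (a - l) * 2 := by
            rw [hI4]
            have : 2 * Real.exp (a - l) * (Nt t * ∫ v : ℝ, Real.exp (-v ^ 2 / (8 * t))) ≤
                2 * Real.exp (a - l) * 2 := mul_le_mul_of_nonneg_left hN8 (by positivity)
            linarith
        _ = _ := by ring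
    have hNN : ‖cexp (ρ * w + t * ρ ^ 2)‖ = Real.exp (a + t * (ρ.re ^ 2 - ρ.im ^ 2)) := by
      rw [Complex.norm_exp]
      congr 1
      rw [add_re, ← ha, re_ofReal_mul, sq, mul_re]
      ring
    have hρim2 : ρ.im ^ 2 ≤ 4 := by nlinarith [hρim.1, hρim.2]
    have hρim0 : 0 ≤ ρ.im ^ 2 := sq_nonneg _
    have htρ : t * ρ.im ^ 2 ≤ 1 / 2 := by nlinarith
    set N : ℝ := Real.exp (a + t * (ρ.re ^ 2 - ρ.im ^ 2)) with hNdef
    have hN1 : Real.exp (a + t * ρ.re ^ 2) ≤ 2 * N := by
      have h1 : Real.exp (a + t * ρ.re ^ 2) = N * Real.exp (t * ρ.im ^ 2) := by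
        rw [hNdef, ← Real.exp_add]
        congr 1
        ring
      have h2 : Real.exp (t * ρ.im ^ 2) ≤ 2 := by
        have h3 : t * ρ.im ^ 2 ≤ Real.log 2 := by linarith [Real.log_two_gt_d9]
        calc Real.exp (t * ρ.im ^ 2) ≤ Real.exp (Real.log 2) := Real.exp_le_exp.2 h3
          _ = 2 := Real.exp_log (by norm_num)
      rw [h1]
      have h3 : N * Real.exp (t * ρ.im ^ 2) ≤ N * 2 :=
        mul_le_mul_of_nonneg_left h2 (Real.exp_pos _).le
      linarith
    have hN2 : 4 * Real.exp (a - l) ≤ 1 / 32 * N := by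
      have h1 : Real.exp (a - 1) ≤ N := by
        apply Real.exp_le_exp.2
        have : 0 ≤ t * ρ.re ^ 2 := by positivity
        nlinarith
      have h2 : l ≤ Real.exp (l - 1) := by
        have := Real.add_one_le_exp (l - 1)
        linarith
      have h3 : Real.exp (a - 1) = Real.exp (a - l) * Real.exp (l - 1) := by
        rw [← Real.exp_add]
        congr 1
        ring
      have h4 : Real.exp (a - l) * 128 ≤ Real.exp (a - l) * Real.exp (l - 1) :=
        mul_le_mul_of_nonneg_left (by linarith) (Real.exp_pos _).le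
      linarith
    rw [hNN]
    have hN0' : 0 < N := Real.exp_pos _
    linarith
  · intro w hw
    set E : ℝ := (l + 3) * |w.re| + C₂ * l + 2 * w.re ^ 2 + 4 * t * (l + 3) ^ 2 with hE
    have hb : ∀ v : ℝ, ‖cexp (-(v : ℂ) ^ 2 / (4 * t)) * f (w + v)‖ ≤
        Real.exp E * Real.exp (-v ^ 2 / (8 * t)) := by
      intro v
      rw [norm_mul, dc_gav_norm]
      have h1 := H2 (w + v) (by rw [him]; exact hw)
      rw [hre] at h1
      have h2 : (l + 3) * |v| ≤ v ^ 2 / (16 * t) + 4 * t * (l + 3) ^ 2 := by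
        rw [← sub_le_iff_le_add, le_div_iff₀ (by positivity), ← sq_abs v]
        nlinarith [sq_nonneg (|v| - 8 * t * (l + 3))]
      have h3 : 2 * v ^ 2 ≤ v ^ 2 / (16 * t) := by
        rw [le_div_iff₀ (by positivity)]
        nlinarith [sq_nonneg v]
      have h4 : |w.re + v| ≤ |w.re| + |v| := abs_add_le _ _
      have h5 : (l + 3) * |w.re + v| ≤ (l + 3) * |w.re| + (l + 3) * |v| := by nlinarith
      have h6 : (w.re + v) ^ 2 ≤ 2 * w.re ^ 2 + 2 * v ^ 2 := by nlinarith [sq_nonneg (w.re - v)]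
      have h7 : v ^ 2 / (16 * t) + v ^ 2 / (16 * t) = v ^ 2 / (8 * t) := by
        field_simp
        ring
      calc Real.exp (-v ^ 2 / (4 * t)) * ‖f (w + v)‖
          ≤ Real.exp (-v ^ 2 / (4 * t)) *
            Real.exp ((l + 3) * |w.re + v| + C₂ * l + (w.re + v) ^ 2) :=
            mul_le_mul_of_nonneg_left h1 (Real.exp_pos _).le
        _ = Real.exp (-v ^ 2 / (4 * t) + ((l + 3) * |w.re + v| + C₂ * l + (w.re + v) ^ 2)) := by
            rw [← Real.exp_add]
        _ ≤ Real.exp (E + -v ^ 2 / (8 * t)) := by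
            apply Real.exp_le_exp.2
            rw [hq4, hq8, hE]
            linarith
        _ = _ := Real.exp_add _ _
    have hbi : Integrable (fun v : ℝ => Real.exp E * Real.exp (-v ^ 2 / (8 * t))) :=
      hi8.const_mul _
    have h1 := norm_integral_le_of_norm_le hbi (Eventually.of_forall hb)
    rw [integral_const_mul] at h1
    rw [Gv, norm_mul, Complex.norm_real, Real.norm_of_nonneg hN0]
    have hlast : Real.exp E * 2 ≤
        Real.exp ((l + 3) * |w.re| + (C₂ + 8 * K) * l + 2 * w.re ^ 2) := by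
      have h2 : (2 : ℝ) ≤ Real.exp 1 := by
        have := Real.add_one_le_exp (1 : ℝ)
        linarith
      have h3 : t * (l + 3) ^ 2 ≤ K * (l + 7) := by
        have h4 : (l + 3) ^ 2 ≤ l * (l + 7) := by nlinarith
        calc t * (l + 3) ^ 2 ≤ t * (l * (l + 7)) := mul_le_mul_of_nonneg_left h4 ht.le
          _ = (t * l) * (l + 7) := by ring
          _ ≤ K * (l + 7) := mul_le_mul_of_nonneg_right htl (by linarith)
      have h5 : 1 ≤ 4 * (K * (l - 7)) := by nlinarith
      calc Real.exp E * 2 ≤ Real.exp E * Real.exp 1 :=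
            mul_le_mul_of_nonneg_left h2 (Real.exp_pos _).le
        _ = Real.exp (E + 1) := (Real.exp_add _ _).symm
        _ ≤ _ := by
            apply Real.exp_le_exp.2
            rw [hE]
            nlinarith
    calc Nt t * ‖∫ v : ℝ, cexp (-(v : ℂ) ^ 2 / (4 * t)) * f (w + v)‖
        ≤ Nt t * (Real.exp E * ∫ v : ℝ, Real.exp (-v ^ 2 / (8 * t))) :=
          mul_le_mul_of_nonneg_left h1 hN0
      _ = Real.exp E * (Nt t * ∫ v : ℝ, Real.exp (-v ^ 2 / (8 * t))) := by ring
      _ ≤ Real.exp E * 2 := mul_le_mul_of_nonneg_left hN8 (Real.exp_pos _).le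
      _ ≤ _ := hlast

end Pool.Agent.Lib.MP_cd509c_nt.DC
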