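import Pool.Agent.Lib.MP_cd509c_nt.DC.Defs
import Pool.Agent.Lib.MP_cd509c_nt.DN.P.gamLo
import Pool.Agent.Lib.MP_cd509c_nt.Convexity

/-!
# Piece gg: the Gamma ratio on a vertical line
-/

set_option autoImplicit false

namespace Pool.Agent.Lib.MP_cd509c_nt.DC

open Complex ComplexConjugate MeasureTheory Filter Topology
open Pool.Agent.Lib.MP_cd509c_nt.DN

theorem dc_gg_eq (T v : ℝ) : gg T v =
    Gamma (8 + T * I + v * I) / Gamma (8 + T * I) * cexp (-(v * I * log (8 + T * I))) := by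
  have h2pi : (2 * Real.pi : ℂ) ≠ 0 := by
    have := Real.pi_pos
    exact_mod_cast (by positivity : (2 * Real.pi : ℝ) ≠ 0)
  have e0 : (8 + ((T + v : ℝ) : ℂ) * I : ℂ) = 8 + T * I + v * I := by push_cast; ring
  have e1 : (2 * Real.pi : ℂ) ^ (-(8 + ((T + v : ℝ) : ℂ) * I : ℂ)) =
      (2 * Real.pi : ℂ) ^ (-(8 + T * I : ℂ)) * cexp (-(v * I * (Real.log (2 * Real.pi) : ℝ))) := by
    rw [e0, neg_add, cpow_add _ _ h2pi]
    congr 1
    rw [cpow_def_of_ne_zero h2pi]
    congr 1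
    rw [ofReal_log (by have := Real.pi_pos; positivity)]
    push_cast
    ring
  have hA : (2 * Real.pi : ℂ) ^ (-(8 + T * I : ℂ)) ≠ 0 := by
    rw [cpow_def_of_ne_zero h2pi]
    exact exp_ne_zero _
  have e2 : cexp (-(v * r8 T * I)) = cexp (v * I * (Real.log (2 * Real.pi) : ℝ)) *
      cexp (-(v * I * log (8 + T * I))) := by
    rw [← Complex.exp_add, r8]
    congr 1
    ring
  have e3 : cexp (-(v * I * (Real.log (2 * Real.pi) : ℝ))) *
      cexp (v * I * (Real.log (2 * Real.pi) : ℝ)) = 1 := by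
    rw [← Complex.exp_add, neg_add_cancel, Complex.exp_zero]
  rw [gg, G8, G8, e1, e0, e2]
  have e4 : (2 * Real.pi : ℂ) ^ (-(8 + T * I : ℂ)) *
      cexp (-(v * I * (Real.log (2 * Real.pi) : ℝ))) * Gamma (8 + T * I + v * I) /
      ((2 * Real.pi : ℂ) ^ (-(8 + T * I : ℂ)) * Gamma (8 + T * I)) =
      cexp (-(v * I * (Real.log (2 * Real.pi) : ℝ))) *
        (Gamma (8 + T * I + v * I) / Gamma (8 + T * I)) := by
    rw [mul_assoc, mul_div_mul_left _ _ hA, mul_div_assoc]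
  rw [e4]
  calc cexp (-(v * I * (Real.log (2 * Real.pi) : ℝ))) *
        (Gamma (8 + T * I + v * I) / Gamma (8 + T * I)) *
        (cexp (v * I * (Real.log (2 * Real.pi) : ℝ)) * cexp (-(v * I * log (8 + T * I))))
      = (cexp (-(v * I * (Real.log (2 * Real.pi) : ℝ))) *
        cexp (v * I * (Real.log (2 * Real.pi) : ℝ))) *
        (Gamma (8 + T * I + v * I) / Gamma (8 + T * I) * cexp (-(v * I * log (8 + T * I)))) := by
        ring
    _ = _ := by rw [e3, one_mul]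

theorem dc_gg_re (T : ℝ) : (8 + T * I : ℂ).re = 8 := by simp

theorem dc_gg_im (T : ℝ) : (8 + T * I : ℂ).im = T := by simp

theorem dc_gg_norm (T : ℝ) : |T| ≤ ‖(8 + T * I : ℂ)‖ := by
  have := Complex.abs_im_le_norm (8 + T * I : ℂ)
  rwa [dc_gg_im] at this

theorem dc_gg_add (T v : ℝ) : (8 + T * I + v * I : ℂ) = 8 + ((T + v : ℝ) : ℂ) * I := by
  push_cast; ring

theorem dc_gg_near (T v : ℝ) (h4 : ‖(8 + T * I : ℂ)‖ ≤ 4 * ‖(8 + T * I + v * I : ℂ)‖) :
    ∃ g : ℂ, ‖g‖ ≤ 4 * (|v| + 30 * v ^ 2) / ‖(8 + T * I : ℂ)‖ ∧ gg T v = cexp g := by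
  obtain ⟨g, hg, hG⟩ := Gamma_quot' (s := 8 + T * I) (v := v * I)
    (by rw [dc_gg_re]; norm_num) (by rw [dc_gg_add, dc_gg_re]; norm_num) h4
  have hv : ‖(v * I : ℂ)‖ = |v| := by
    rw [norm_mul, Complex.norm_real, Complex.norm_I, mul_one, Real.norm_eq_abs]
  rw [hv, sq_abs] at hg
  refine ⟨g, hg, ?_⟩
  have hG0 : Gamma (8 + T * I : ℂ) ≠ 0 :=
    Gamma_ne_zero_of_re_pos (by rw [dc_gg_re]; norm_num)
  rw [dc_gg_eq, hG]
  have e1 : cexp (v * I * log (8 + T * I)) * cexp (-(v * I * log (8 + T * I))) = 1 := by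
    rw [← Complex.exp_add, add_neg_cancel, Complex.exp_zero]
  calc Gamma (8 + T * I) * cexp (v * I * log (8 + T * I)) * cexp g / Gamma (8 + T * I) *
        cexp (-(v * I * log (8 + T * I)))
      = (Gamma (8 + T * I) / Gamma (8 + T * I)) * cexp g *
        (cexp (v * I * log (8 + T * I)) * cexp (-(v * I * log (8 + T * I)))) := by ring
    _ = cexp g := by rw [e1, div_self hG0, one_mul, mul_one]

/-- lower bound for the denominator -/
theorem dc_gg_low : ∃ C : ℝ, 0 < C ∧ ∀ T : ℝ, 1 ≤ T →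
    1 ≤ C * Real.exp (Real.pi * T / 2) * ‖Gamma (8 + T * I : ℂ)‖ := by
  obtain ⟨c, hc, h⟩ := p_gamLo
  refine ⟨1 / c, by positivity, fun T hT => ?_⟩
  have h1 := h 1 T (by norm_num) le_rfl (by rw [abs_of_pos (by linarith)]; exact hT)
  rw [abs_of_pos (by linarith : 0 < T)] at h1
  have e1 : (6 + ((1 : ℝ) : ℂ) + T * I : ℂ) = 7 + T * I := by push_cast; ring
  rw [e1] at h1
  have h2 : (1 : ℝ) ≤ T ^ (11 / 2 + 1 : ℝ) := Real.one_le_rpow hT (by norm_num)
  have h3 : Gamma (8 + T * I : ℂ) = (7 + T * I) * Gamma (7 + T * I) := by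
    rw [← Gamma_add_one]
    · congr 1
      ring
    · intro h0
      have := congrArg Complex.re h0
      simp at this
  have h4 : (1 : ℝ) ≤ ‖(7 + T * I : ℂ)‖ := by
    have := Complex.re_le_norm (7 + T * I : ℂ)
    have e : (7 + T * I : ℂ).re = 7 := by simp
    linarith
  have h5 : c * Real.exp (-(Real.pi * T / 2)) ≤ ‖Gamma (8 + T * I : ℂ)‖ := by
    rw [h3, norm_mul]
    calc c * Real.exp (-(Real.pi * T / 2)) = 1 * (c * 1 * Real.exp (-(Real.pi * T / 2))) := by ring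
      _ ≤ ‖(7 + T * I : ℂ)‖ * (c * T ^ (11 / 2 + 1 : ℝ) * Real.exp (-(Real.pi * T / 2))) := by
          gcongr
      _ ≤ ‖(7 + T * I : ℂ)‖ * ‖Gamma (7 + T * I : ℂ)‖ := by gcongr
  have e2 : Real.exp (Real.pi * T / 2) * Real.exp (-(Real.pi * T / 2)) = 1 := by
    rw [← Real.exp_add, add_neg_cancel, Real.exp_zero]
  calc (1 : ℝ) = 1 / c * Real.exp (Real.pi * T / 2) * (c * Real.exp (-(Real.pi * T / 2))) := by
        rw [show 1 / c * Real.exp (Real.pi * T / 2) * (c * Real.exp (-(Real.pi * T / 2))) =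
          (1 / c * c) * (Real.exp (Real.pi * T / 2) * Real.exp (-(Real.pi * T / 2))) by ring, e2,
          one_div, inv_mul_cancel₀ hc.ne', one_mul]
    _ ≤ _ := by gcongr

theorem dc_gg_lim (v : ℝ) : Tendsto (fun T : ℝ => gg T v) atTop (𝓝 1) := by
  rw [tendsto_iff_norm_sub_tendsto_zero]
  obtain ⟨B, hB⟩ : ∃ B : ℝ, B = 4 * (|v| + 30 * v ^ 2) := ⟨_, rfl⟩
  have hB0 : 0 ≤ B := by rw [hB]; positivity
  have hlim : Tendsto (fun T : ℝ => 2 * B / T) atTop (𝓝 0) :=
    tendsto_const_nhds.div_atTop tendsto_id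
  refine squeeze_zero' (Eventually.of_forall fun T => norm_nonneg _) ?_ hlim
  filter_upwards [eventually_ge_atTop (1 : ℝ), eventually_ge_atTop B,
    eventually_ge_atTop (8 + 4 * |v|)] with T h1 h2 h3
  have hs : T ≤ ‖(8 + T * I : ℂ)‖ := (le_abs_self T).trans (dc_gg_norm T)
  have hs' : ‖(8 + T * I : ℂ)‖ ≤ 8 + T := by
    refine (norm_add_le _ _).trans ?_
    rw [norm_mul, Complex.norm_real, Complex.norm_I, mul_one, Real.norm_eq_abs,
      abs_of_pos (by linarith)]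
    norm_num
  have hsv : T - |v| ≤ ‖(8 + T * I + v * I : ℂ)‖ := by
    rw [dc_gg_add]
    refine le_trans ?_ (dc_gg_norm _)
    have := neg_abs_le v
    exact le_trans (by linarith) (le_abs_self (T + v))
  obtain ⟨g, hg, hG⟩ := dc_gg_near T v (by
    have := abs_nonneg v
    linarith)
  rw [← hB] at hg
  have hg' : ‖g‖ ≤ B / T := hg.trans (div_le_div_of_nonneg_left hB0 (by linarith) hs)
  have hg1 : ‖g‖ ≤ 1 := hg'.trans ((div_le_one (by linarith)).2 h2)
  rw [hG]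
  calc ‖cexp g - 1‖ ≤ 2 * ‖g‖ := Complex.norm_exp_sub_one_le hg1
    _ ≤ 2 * (B / T) := by gcongr
    _ = 2 * B / T := by ring

theorem p_gg : S_gg := by
  refine ⟨dc_gg_lim, fun κ hκ => ?_⟩
  obtain ⟨C₀, hC₀, hlow⟩ := dc_gg_low
  have hG8 : 0 < Real.Gamma 8 := Real.Gamma_pos_of_pos (by norm_num)
  refine ⟨8 + Real.Gamma 8 * C₀, max 1 (120 / κ), le_max_left _ _, fun T v hT => ?_⟩
  have hT1 : 1 ≤ T := (le_max_left _ _).trans hT
  have hTκ : 120 / κ ≤ T := (le_max_right _ _).trans hT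
  have hs : T ≤ ‖(8 + T * I : ℂ)‖ := (le_abs_self T).trans (dc_gg_norm T)
  have hv0 := abs_nonneg v
  have hC : 8 ≤ 8 + Real.Gamma 8 * C₀ := by
    have : 0 < Real.Gamma 8 * C₀ := by positivity
    linarith
  by_cases h4 : ‖(8 + T * I : ℂ)‖ ≤ 4 * ‖(8 + T * I + v * I : ℂ)‖
  · obtain ⟨g, hg, hG⟩ := dc_gg_near T v h4
    rw [hG]
    have h5 : ‖cexp g‖ ≤ Real.exp ‖g‖ := by
      rw [Complex.norm_exp]
      exact Real.exp_le_exp.2 (Complex.re_le_norm g)
    have h6 : ‖g‖ ≤ 4 * |v| + κ * v ^ 2 := by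
      refine hg.trans ?_
      rw [div_le_iff₀ (by linarith)]
      have h7 : 120 ≤ κ * ‖(8 + T * I : ℂ)‖ := by
        have := (div_le_iff₀ hκ).1 (hTκ.trans hs)
        linarith
      have h8 : |v| * 1 ≤ |v| * ‖(8 + T * I : ℂ)‖ :=
        mul_le_mul_of_nonneg_left (hT1.trans hs) hv0
      nlinarith [mul_le_mul_of_nonneg_right h7 (sq_nonneg v)]
    calc ‖cexp g‖ ≤ Real.exp ‖g‖ := h5
      _ ≤ 1 * Real.exp (4 * |v| + κ * v ^ 2) := by
        rw [one_mul]
        exact Real.exp_le_exp.2 h6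
      _ ≤ (8 + Real.Gamma 8 * C₀) * Real.exp ((8 + Real.Gamma 8 * C₀) * |v| + κ * v ^ 2) := by
        have h9 : 4 * |v| ≤ (8 + Real.Gamma 8 * C₀) * |v| := by nlinarith
        gcongr
        linarith
  · push Not at h4
    have hv : 3 * T ≤ 4 * |v| := by
      have h5 : ‖(8 + T * I : ℂ)‖ ≤ ‖(8 + T * I + v * I : ℂ)‖ + |v| := by
        have e : (8 + T * I : ℂ) = (8 + T * I + v * I) - v * I := by ring
        rw [e]
        refine (norm_sub_le _ _).trans ?_
        rw [norm_mul, Complex.norm_real, Complex.norm_I, mul_one, Real.norm_eq_abs]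
        ring_nf
        rfl
      linarith
    have h5 : ‖Gamma (8 + T * I + v * I : ℂ)‖ ≤ Real.Gamma 8 := by
      rw [dc_gg_add]
      have := norm_Gamma_le (s := 8 + ((T + v : ℝ) : ℂ) * I) (by rw [dc_gg_re]; norm_num)
      rwa [dc_gg_re] at this
    have h6 := hlow T hT1
    have h7 : ‖cexp (-(v * I * log (8 + T * I)))‖ ≤ Real.exp (|v| * Real.pi) := by
      rw [Complex.norm_exp]
      apply Real.exp_le_exp.2
      have e : (-(v * I * log (8 + T * I)) : ℂ).re = v * arg (8 + T * I) := by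
        simp [Complex.log_im]
      rw [e]
      calc v * arg (8 + T * I) ≤ |v * arg (8 + T * I)| := le_abs_self _
        _ = |v| * |arg (8 + T * I)| := abs_mul _ _
        _ ≤ |v| * Real.pi := by
          gcongr
          exact Complex.abs_arg_le_pi _
    have hG0 : 0 < ‖Gamma (8 + T * I : ℂ)‖ :=
      norm_pos_iff.2 (Gamma_ne_zero_of_re_pos (by rw [dc_gg_re]; norm_num))
    have h8 : ‖Gamma (8 + T * I + v * I : ℂ) / Gamma (8 + T * I)‖ ≤
        Real.Gamma 8 * (C₀ * Real.exp (Real.pi * T / 2)) := by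
      rw [norm_div, div_le_iff₀ hG0]
      calc ‖Gamma (8 + T * I + v * I : ℂ)‖ ≤ Real.Gamma 8 * 1 := by rw [mul_one]; exact h5
        _ ≤ Real.Gamma 8 * (C₀ * Real.exp (Real.pi * T / 2) * ‖Gamma (8 + T * I : ℂ)‖) := by
          gcongr
        _ = _ := by ring
    have hpi := Real.pi_pos
    have hpi' := Real.pi_lt_four
    rw [dc_gg_eq, norm_mul]
    calc ‖Gamma (8 + T * I + v * I : ℂ) / Gamma (8 + T * I)‖ *
          ‖cexp (-(v * I * log (8 + T * I)))‖
        ≤ Real.Gamma 8 * (C₀ * Real.exp (Real.pi * T / 2)) * Real.exp (|v| * Real.pi) := by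
          gcongr
      _ = (Real.Gamma 8 * C₀) * Real.exp (Real.pi * T / 2 + |v| * Real.pi) := by
          rw [Real.exp_add]; ring
      _ ≤ (8 + Real.Gamma 8 * C₀) * Real.exp ((8 + Real.Gamma 8 * C₀) * |v| + κ * v ^ 2) := by
          have h9 : Real.pi * T / 2 + |v| * Real.pi ≤
              (8 + Real.Gamma 8 * C₀) * |v| + κ * v ^ 2 := by
            have h10 : Real.pi * T ≤ Real.pi * (4 / 3 * |v|) := by
              gcongr
              linarith
            have h11 : 0 ≤ κ * v ^ 2 := by positivity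
            have h12 : 8 * |v| ≤ (8 + Real.Gamma 8 * C₀) * |v| := by gcongr
            nlinarith
          gcongr
          linarith

end Pool.Agent.Lib.MP_cd509c_nt.DC
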