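import Mathlib
import Pool.Agent.Lib.MP_cd509c_nt.DC.Defs2
import Pool.Agent.Lib.MP_cd509c_nt.HeatReal

/-!
# The constant `1/32`

The piece `sharp`: near the origin the zeros are real by the induction over the blocks, far out
by the Jensen circles, and in the middle range by the sharper asymptotics.
-/

set_option autoImplicit false

namespace Pool.Agent.Lib.MP_cd509c_nt.DC

open Complex ComplexConjugate MeasureTheory Filter Topology
open Pool.Agent.Lib.MP_cd509c_nt.DN

/-- nonreal zeros of the `N`-th derivative are close to the origin -/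
lemma dc_sharp_far (hne : S_ne) (happ : S_appZ) (hj : S_jens) {B C₀ t : ℝ} (hB : 1 ≤ B)
    (hst : ∀ z, HD 0 t z = 0 → |z.im| ≤ B)
    (hreal : ∀ z : ℂ, Real.exp (C₀ / t) ≤ |z.re| → Ht t z = 0 → z.im = 0) (N : ℕ) (z : ℂ)
    (hz : HD N t z = 0) (hzi : z.im ≠ 0) :
    |z.re| ≤ Real.exp (C₀ / t) + Real.sqrt N * B + 1 := by
  have h0 : HD 0 t = Ht t := by
    unfold HD
    exact iteratedDeriv_zero
  have hd : Differentiable ℂ (Ht t) := by
    have := (hne 0 t).1
    rwa [h0] at this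
  have ha : AppZ (Ht t) := by
    have := happ 0 t
    rwa [h0] at this
  have hs : ∀ ζ, Ht t ζ = 0 → |ζ.im| ≤ B := by
    intro ζ hζ
    apply hst ζ
    rw [h0]
    exact hζ
  have hv : ∃ v, iteratedDeriv N (Ht t) v ≠ 0 := (hne N t).2.1
  obtain ⟨-, hb⟩ := hj (Ht t) N B hd ha (by linarith) hs hv z hz
  obtain ⟨ζ, hζ0, hζi, hζ⟩ := hb hzi
  have hlt : |ζ.re| < Real.exp (C₀ / t) := by
    by_contra hcon
    push Not at hcon
    exact hζi (hreal ζ hcon hζ0)
  have h1 : |z.re| ≤ |z.re - ζ.re| + |ζ.re| := by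
    have h2 := abs_add_le (z.re - ζ.re) ζ.re
    rwa [sub_add_cancel] at h2
  linarith

/-- the elementary inequality behind the upper end of the middle range -/
lemma dc_sharp_ineq {a B : ℝ} {n : ℕ} (ha : 0 ≤ a) (hB : 1 ≤ B) (hn : (1 : ℝ) ≤ n) :
    Real.exp (a * n) + Real.sqrt n * B + 1 ≤ Real.exp ((a + B + 1) * n) := by
  have h1 : Real.sqrt (n : ℝ) ≤ (n : ℝ) := by
    rw [Real.sqrt_le_left (by linarith)]
    nlinarith
  have h2 : Real.sqrt (n : ℝ) * B ≤ n * B := mul_le_mul_of_nonneg_right h1 (by linarith)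
  have h3 : 1 ≤ Real.exp (a * n) := Real.one_le_exp (by positivity)
  have h4 : (B + 1) * n + 1 ≤ Real.exp ((B + 1) * n) := Real.add_one_le_exp _
  have h5 : Real.exp ((a + B + 1) * n) = Real.exp (a * n) * Real.exp ((B + 1) * n) := by
    rw [← Real.exp_add]
    congr 1
    ring
  have h6 : Real.exp (a * n) * ((B + 1) * n + 1) ≤ Real.exp (a * n) * Real.exp ((B + 1) * n) :=
    mul_le_mul_of_nonneg_left h4 (by linarith)
  have h7 : 0 ≤ (Real.exp (a * n) - 1) * ((B + 1) * n) := by
    apply mul_nonneg (by linarith)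
    have : 0 ≤ B + 1 := by linarith
    positivity
  rw [h5]
  nlinarith

theorem p_sharp (hne : S_ne) (happ : S_appZ) (hj : S_jens) (hst : S_strip) (hup : S_up)
    (hin : S_ind) (hmid : S_mid) : S_sharp := by
  intro κ hκ
  obtain ⟨C₀, hC₀, hreal⟩ := Ht_real
  obtain ⟨B, hB, hstrip⟩ := hst
  have hκ0 : 0 < κ := by linarith
  obtain ⟨A, n₁, t₀, hA, hn₁, ht₀, hind⟩ := hin (κ + 1) (by linarith)
  have hA0 : 0 < A := by linarith
  have hCκ : 0 ≤ C₀ / κ := by positivity
  obtain ⟨A', hA'⟩ : ∃ A' : ℝ, A' = A + C₀ / κ + B + κ + 1 := ⟨_, rfl⟩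
  obtain ⟨x₀, hx₀, hm⟩ := hmid A' κ (by linarith) hκ
  obtain ⟨n₀, hn₀⟩ := exists_nat_ge (n₁ + κ / t₀ + κ + A * x₀)
  have hq1 : 0 ≤ κ / t₀ := by positivity
  have hq2 : 0 ≤ A * x₀ := by positivity
  refine ⟨n₀, ?_⟩
  have key : ∀ n : ℕ, n₀ ≤ n → AR n (κ / n) := by
    intro n hn z hz
    have hnr : (n₀ : ℝ) ≤ n := by exact_mod_cast hn
    have hn1 : (1 : ℝ) ≤ n := by linarith
    have hn0 : (0 : ℝ) < n := by linarith
    have ht : 0 < κ / n := by positivity
    have ht1 : κ / n ≤ 1 := by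
      rw [div_le_one hn0]
      linarith
    have htt₀ : κ / n ≤ t₀ := by
      rw [div_le_iff₀ hn0]
      have h1 : κ / t₀ ≤ n := by linarith
      rw [div_le_iff₀ ht₀] at h1
      linarith
    have htn : κ / n * n = κ := div_mul_cancel₀ _ hn0.ne'
    by_contra hzi
    have h4 := hind n (κ / n) ht htt₀ (by linarith) (by
      rw [htn]
      nlinarith) z
    have h5 : Real.exp (n / A) < |z.re| := by
      by_contra hcon
      push Not at hcon
      exact hzi (h4 hcon hz)
    have h6 := dc_sharp_far hne happ hj hB (hstrip 0 (κ / n) ht.le) (hreal (κ / n) ht ht1) n z hz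
      hzi
    have e1 : C₀ / (κ / n) = C₀ / κ * n := by
      field_simp
    rw [e1] at h6
    have h7 := h6.trans (dc_sharp_ineq hCκ hB hn1)
    have hx : 0 < |z.re| := (Real.exp_pos _).trans h5
    have hlog1 : (n : ℝ) / A ≤ Real.log |z.re| := by
      rw [Real.le_log_iff_exp_le hx]
      exact h5.le
    have hlog0 : 0 ≤ Real.log |z.re| := le_trans (by positivity) hlog1
    have hlog2 : Real.log |z.re| ≤ (C₀ / κ + B + 1) * n := by
      rw [Real.log_le_iff_le_exp hx]
      exact h7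
    apply hzi
    refine hm n |z.re| (κ / n) ?_ ?_ ?_ ?_ ?_ z rfl hz
    · have h8 : x₀ ≤ n / A := by
        rw [le_div_iff₀ hA0]
        linarith
      have h9 := Real.add_one_le_exp ((n : ℝ) / A)
      linarith
    · refine hlog2.trans (mul_le_mul_of_nonneg_right ?_ hn0.le)
      linarith
    · have h8 : (n : ℝ) ≤ A * Real.log |z.re| := by
        rw [div_le_iff₀ hA0] at hlog1
        linarith
      refine h8.trans (mul_le_mul_of_nonneg_right ?_ hlog0)
      linarith
    · rw [mul_comm, htn]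
    · rw [mul_comm, htn]
      linarith
  intro n t hn hnt
  have hnr : (n₀ : ℝ) ≤ n := by exact_mod_cast hn
  have hn0 : (0 : ℝ) < n := by linarith
  have h1 : κ / n ≤ t := by
    rw [div_le_iff₀ hn0]
    linarith
  rcases h1.eq_or_lt with h | h
  · rw [← h]
    exact key n hn
  · exact hup n (κ / n) t h (key n hn)

end Pool.Agent.Lib.MP_cd509c_nt.DC
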